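import Pool.Agent.Lib.DI.PI.SpecA

/-!
# THEOREM DI, Part I, Alg1: linear algebra in characteristic `p`, polynomials
-/

set_option autoImplicit false

open scoped Pointwise

namespace Pool.Agent.DI.PI

open Pool.Agent.MuZ
open Polynomial

/-- the multiples of `q` -/
private lemma Alg1_sum {F : Type} [Field F] (q m : ℕ) (hq : 0 < q) (A : ℕ → F) :
    ∑ j ∈ Finset.range (q * m), A j * (if q ∣ j then 1 else 0) =
      ∑ i ∈ Finset.range m, A (q * i) := by
  have e : ∑ i ∈ Finset.range m, A (q * i) =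
      ∑ j ∈ (Finset.range m).image (fun i => q * i), A j := by
    rw [Finset.sum_image]
    intro a _ b _ hab
    exact Nat.eq_of_mul_eq_mul_left hq hab
  rw [e]
  symm
  have e2 : ∑ j ∈ (Finset.range m).image (fun i => q * i), A j =
      ∑ j ∈ (Finset.range m).image (fun i => q * i), A j * (if q ∣ j then 1 else 0) := by
    refine Finset.sum_congr rfl fun j hj => ?_
    obtain ⟨i, _, rfl⟩ := Finset.mem_image.1 hj
    rw [if_pos (Dvd.intro i rfl), mul_one]
  rw [e2]
  apply Finset.sum_subset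
  · intro j hj
    obtain ⟨i, hi, rfl⟩ := Finset.mem_image.1 hj
    exact Finset.mem_range.2 (Nat.mul_lt_mul_of_pos_left (Finset.mem_range.1 hi) hq)
  · intro j hj hj'
    rw [if_neg, mul_zero]
    rintro ⟨i, rfl⟩
    exact hj' (Finset.mem_image.2 ⟨i, Finset.mem_range.2
      (Nat.lt_of_mul_lt_mul_left (Finset.mem_range.1 hj)), rfl⟩)

/-- a multiple of `X ^ q - 1` -/
private lemma Alg1_dvd {F : Type} [Field F] (q m : ℕ) (hq : 0 < q) (A : ℕ → F)
    (h : (X ^ q - 1 : F[X]) ∣ ∑ j ∈ Finset.range (q * m), monomial j (A j)) :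
    ∑ i ∈ Finset.range m, A (q * i) = 0 := by
  classical
  obtain ⟨R, hR⟩ := h
  let t : AddMonoidAlgebra F (ZMod q) := AddMonoidAlgebra.single 1 1
  have ht : ∀ j : ℕ, t ^ j = AddMonoidAlgebra.single (j : ZMod q) 1 := by
    intro j
    rw [AddMonoidAlgebra.single_pow, one_pow, nsmul_one]
  have h1 := congrArg (aeval t) hR
  rw [map_mul, map_sub, map_pow, aeval_X, map_one, ht, ZMod.natCast_self, ← AddMonoidAlgebra.one_def,
    sub_self, zero_mul, map_sum] at h1
  have h2 : ∑ j ∈ Finset.range (q * m), A j * (if q ∣ j then 1 else 0) = 0 := by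
    have h3 := congrArg (fun z : AddMonoidAlgebra F (ZMod q) => z.coeff (0 : ZMod q)) h1
    have h4 : (∑ j ∈ Finset.range (q * m), aeval t (monomial j (A j)) :
        AddMonoidAlgebra F (ZMod q)).coeff (0 : ZMod q) =
        ∑ j ∈ Finset.range (q * m), (aeval t (monomial j (A j))).coeff (0 : ZMod q) := by
      rw [AddMonoidAlgebra.coeff_sum]
      exact Finsupp.finsetSum_apply _ _ _
    refine Eq.trans ?_ (h4.symm.trans h3)
    refine Finset.sum_congr rfl fun j _ => ?_
    rw [aeval_monomial, ht, AddMonoidAlgebra.coe_algebraMap]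
    simp [AddMonoidAlgebra.single_mul_single, Finsupp.single_apply, ZMod.natCast_eq_zero_iff]
  rw [← Alg1_sum q m hq A, h2]

theorem pAlg1 : S_Alg1 := by
  intro p hp n0 n hn F _ _ M _ _ T A h h1 h2 h3
  classical
  have hq : 0 < p ^ n0 := pow_pos hp.out.pos n0
  have hqm : p ^ n = p ^ n0 * p ^ (n - n0) := by rw [← pow_add, Nat.add_sub_cancel' hn]
  let P : F[X] := ∑ j ∈ Finset.range (p ^ n), monomial j (A j)
  let Q : F[X] := X ^ p ^ n - 1
  have hP : aeval T P h = 0 := by
    rw [map_sum, LinearMap.sum_apply, ← h1]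
    refine Finset.sum_congr rfl fun j _ => ?_
    rw [aeval_monomial, Module.End.mul_apply, Module.algebraMap_end_apply]
  have hQ : aeval T Q h = 0 := by
    change aeval T (X ^ p ^ n - 1 : F[X]) h = 0
    rw [map_sub, map_pow, aeval_X, map_one, LinearMap.sub_apply, h2, Module.End.one_apply, sub_self]
  have hg : aeval T (EuclideanDomain.gcd P Q) h = 0 := by
    rw [EuclideanDomain.gcd_eq_gcd_ab, mul_comm P, mul_comm Q, map_add, map_mul, map_mul,
      LinearMap.add_apply, Module.End.mul_apply, Module.End.mul_apply, hP, hQ, map_zero, map_zero,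
      add_zero]
  have hX : ∀ k : ℕ, (X - 1 : F[X]) ^ p ^ k = X ^ p ^ k - 1 := by
    intro k
    rw [sub_pow_char_pow, one_pow]
  have hpr : Prime (X - 1 : F[X]) := by
    have := prime_X_sub_C (1 : F)
    rwa [C_1] at this
  have hgQ : EuclideanDomain.gcd P Q ∣ (X - 1 : F[X]) ^ p ^ n := by
    rw [hX]
    exact EuclideanDomain.gcd_dvd_right P Q
  obtain ⟨c, _, hc⟩ := (dvd_prime_pow hpr (p ^ n)).1 hgQ
  have hcq : c < p ^ n0 := by
    by_contra hcon
    refine h3 (Alg1_dvd (p ^ n0) (p ^ (n - n0)) hq A ?_)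
    rw [← hqm, ← hX]
    exact ((pow_dvd_pow _ (not_lt.1 hcon)).trans hc.symm.dvd).trans (EuclideanDomain.gcd_dvd_left P Q)
  obtain ⟨R, hR⟩ : EuclideanDomain.gcd P Q ∣ (X ^ p ^ n0 - 1 : F[X]) := by
    rw [← hX]
    exact hc.dvd.trans (pow_dvd_pow _ hcq.le)
  have h5 : aeval T (X ^ p ^ n0 - 1 : F[X]) h = 0 := by
    rw [hR, mul_comm, map_mul, Module.End.mul_apply, hg, map_zero]
  rw [map_sub, map_pow, aeval_X, map_one, LinearMap.sub_apply, Module.End.one_apply] at h5
  exact sub_eq_zero.1 h5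

end Pool.Agent.DI.PI
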