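import Pool.Agent.Lib.DI.PI.SpecC

/-!
# THEOREM DI, Part I: elementary facts on the norm and `Cop` (helper11)
-/

set_option autoImplicit false

open scoped Pointwise

namespace Pool.Agent.DI.PI

open Pool.Agent.MuZ Pool.Agent.DI

private theorem Ar1_mul (v u : OO) : Nm (v * u) = Nm v * Nm u := by
  unfold Nm
  rw [QuadraticAlgebra.re_mul, QuadraticAlgebra.im_mul]
  ring

private theorem Ar1_dvd (m : ℕ) (v v' : OO) (h : (m : OO) ∣ v' - v) :
    ∃ k : ℤ, Nm v' = Nm v + m * k := by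
  obtain ⟨u, hu⟩ := h
  have h1 : v' = v + m * u := by rw [← hu]; ring
  have hr : v'.re = v.re + m * u.re := by
    rw [h1, QuadraticAlgebra.re_add, QuadraticAlgebra.re_mul, QuadraticAlgebra.re_natCast,
      QuadraticAlgebra.im_natCast]
    ring
  have hi : v'.im = v.im + m * u.im := by
    rw [h1, QuadraticAlgebra.im_add, QuadraticAlgebra.im_mul, QuadraticAlgebra.re_natCast,
      QuadraticAlgebra.im_natCast]
    ring
  refine ⟨2 * v.re * u.re + m * u.re ^ 2 + v.re * u.im + u.re * v.im + m * u.re * u.im +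
    4 * v.im * u.im + 2 * m * u.im ^ 2, ?_⟩
  unfold Nm
  rw [hr, hi]
  ring

private theorem Ar1_cop (m : ℕ) (v v' : OO) (h : (m : OO) ∣ v' - v) (hv : Cop v m) :
    Cop v' m := by
  obtain ⟨k, hk⟩ := Ar1_dvd m v v' h
  unfold Cop at hv ⊢
  rw [hk]
  exact IsCoprime.add_mul_left_left hv k

private theorem Ar1_conj (v : OO) : v * cjO v = ((Nm v : ℤ) : OO) := by
  apply QuadraticAlgebra.ext
  · rw [QuadraticAlgebra.re_mul, QuadraticAlgebra.re_intCast]
    change v.re * (v.re + v.im) + -2 * v.im * (-v.im) = v.re ^ 2 + v.re * v.im + 2 * v.im ^ 2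
    ring
  · rw [QuadraticAlgebra.im_mul, QuadraticAlgebra.im_intCast]
    change v.re * (-v.im) + v.im * (v.re + v.im) + 1 * v.im * (-v.im) = 0
    ring

private theorem Ar1_two (v : OO) (h : Cop v 2) : (2 : OO) ∣ v - 1 := by
  have h1 : ¬ (2 : ℤ) ∣ Nm v := by
    intro h2
    have h3 : IsCoprime (Nm v) ((2 : ℕ) : ℤ) := h
    have h4 : IsUnit (2 : ℤ) := h3.isUnit_of_dvd' h2 (by norm_num)
    rw [Int.isUnit_iff] at h4
    omega
  have h5 : Nm v = v.re * (v.re + v.im) + 2 * v.im ^ 2 := by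
    unfold Nm
    ring
  have h6 : ¬ (2 : ℤ) ∣ v.re := by
    rintro ⟨k, hk⟩
    exact h1 ⟨k * (v.re + v.im) + v.im ^ 2, by rw [h5, hk]; ring⟩
  have h7 : ¬ (2 : ℤ) ∣ v.re + v.im := by
    rintro ⟨k, hk⟩
    exact h1 ⟨v.re * k + v.im ^ 2, by rw [h5, hk]; ring⟩
  obtain ⟨a, ha⟩ : ∃ a, v.re = 2 * a + 1 := ⟨v.re / 2, by omega⟩
  obtain ⟨b, hb⟩ : ∃ b, v.im = 2 * b := ⟨v.im / 2, by omega⟩
  refine ⟨⟨a, b⟩, ?_⟩
  apply QuadraticAlgebra.ext
  · rw [QuadraticAlgebra.re_sub, QuadraticAlgebra.re_mul, QuadraticAlgebra.re_ofNat,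
      QuadraticAlgebra.im_ofNat, ha]
    change 2 * a + 1 - 1 = 2 * a + -2 * 0 * b
    ring
  · rw [QuadraticAlgebra.im_sub, QuadraticAlgebra.im_mul, QuadraticAlgebra.re_ofNat,
      QuadraticAlgebra.im_ofNat, hb]
    change 2 * b - 0 = 2 * b + 0 * a + 1 * 0 * b
    ring

theorem pAr1 : S_Ar1 := by
  refine ⟨Ar1_mul, ?_, ?_, ?_, Ar1_cop, ?_, Ar1_two, ?_, ?_⟩
  · intro m v v' h
    obtain ⟨k, hk⟩ := Ar1_dvd m v v' h
    exact ⟨k, by rw [hk]; ring⟩
  · intro v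
    unfold Nm
    rw [QuadraticAlgebra.re_neg, QuadraticAlgebra.im_neg]
    ring
  · intro v M N
    unfold Cop
    push_cast
    exact IsCoprime.mul_right_iff
  · intro m v u hv hu
    unfold Cop at hv hu ⊢
    rw [Ar1_mul]
    exact hv.mul_left hu
  · intro f m v hfm hf hm
    rw [Nat.cast_mul]
    exact (Nat.Coprime.cast hfm).mul_dvd hf hm
  · intro N v
    constructor
    · rintro ⟨a, b, hab⟩
      refine ⟨(a : OO) * cjO v, ⟨-(b : OO), ?_⟩⟩
      have h1 := congrArg (fun z : ℤ => (z : OO)) hab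
      simp only [Int.cast_add, Int.cast_mul, Int.cast_one, Int.cast_natCast] at h1
      have h2 := Ar1_conj v
      linear_combination (a : OO) * h2 + h1
    · rintro ⟨u, hu⟩
      obtain ⟨k, hk⟩ := Ar1_dvd N 1 (v * u) hu
      rw [Ar1_mul] at hk
      have h1 : Nm (1 : OO) = 1 := rfl
      rw [h1] at hk
      exact ⟨Nm u, -k, by linear_combination hk⟩

end Pool.Agent.DI.PI
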