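import Pool.Agent.Lib.DI.PI.SpecC

/-!
# THEOREM DI, Part I: exponents, `Hf` and `HN` are nice (helper26)
-/

set_option autoImplicit false

open scoped Pointwise

namespace Pool.Agent.DI.PI

open Pool.Agent.MuZ Pool.Agent.DI

private theorem Ar3_fin (f : ℕ) (hf : f ≠ 0) : Finite (OO ⧸ Ideal.span {(f : OO)}) := by
  have hne : NeZero f := ⟨hf⟩
  refine Finite.of_surjective (fun x : ZMod f × ZMod f =>
    Ideal.Quotient.mk (Ideal.span {(f : OO)}) (⟨(x.1.val : ℤ), (x.2.val : ℤ)⟩ : OO)) ?_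
  intro q
  obtain ⟨v, rfl⟩ := Ideal.Quotient.mk_surjective q
  refine ⟨((v.re : ZMod f), (v.im : ZMod f)), ?_⟩
  change Ideal.Quotient.mk (Ideal.span {(f : OO)})
    (⟨((v.re : ZMod f).val : ℤ), ((v.im : ZMod f).val : ℤ)⟩ : OO) = _
  rw [Ideal.Quotient.eq, Ideal.mem_span_singleton, ZMod.val_intCast, ZMod.val_intCast]
  refine ⟨⟨-(v.re / f), -(v.im / f)⟩, ?_⟩
  have h1 := Int.emod_add_mul_ediv v.re f
  have h2 := Int.emod_add_mul_ediv v.im f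
  apply QuadraticAlgebra.ext
  · rw [QuadraticAlgebra.re_sub, QuadraticAlgebra.re_mul, QuadraticAlgebra.re_natCast,
      QuadraticAlgebra.im_natCast]
    change v.re % f - v.re = (f : ℤ) * (-(v.re / f)) + -2 * 0 * (-(v.im / f))
    linear_combination h1
  · rw [QuadraticAlgebra.im_sub, QuadraticAlgebra.im_mul, QuadraticAlgebra.re_natCast,
      QuadraticAlgebra.im_natCast]
    change v.im % f - v.im = (f : ℤ) * (-(v.im / f)) + 0 * (-(v.re / f)) + 1 * 0 * (-(v.im / f))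
    linear_combination h2

private theorem Ar3_mk (f : ℕ) (v : OO) :
    Ideal.Quotient.mk (Ideal.span {(f : OO)}) v = 1 ↔ (f : OO) ∣ v - 1 := by
  rw [← map_one (Ideal.Quotient.mk (Ideal.span {(f : OO)})), Ideal.Quotient.eq,
    Ideal.mem_span_singleton]

private theorem Ar3_exp (h1 : S_Ar1) (f : ℕ) (hf : f ≠ 0) :
    ∃ k m : ℕ, Odd m ∧ ∀ v : OO, Cop v f → (f : OO) ∣ v ^ (2 ^ k * m) - 1 := by
  have hfin := Ar3_fin f hf
  have hc : Nat.card (OO ⧸ Ideal.span {(f : OO)})ˣ ≠ 0 := Nat.card_pos.ne'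
  obtain ⟨k, m, hm, he⟩ := Nat.exists_eq_two_pow_mul_odd hc
  refine ⟨k, m, hm, fun v hv => ?_⟩
  obtain ⟨u, hu⟩ := (h1.2.2.2.2.2.2.2.2 f v).1 hv
  have hU : IsUnit (Ideal.Quotient.mk (Ideal.span {(f : OO)}) v) := by
    refine IsUnit.of_mul_eq_one (Ideal.Quotient.mk (Ideal.span {(f : OO)}) u) ?_
    rw [← map_mul]
    exact (Ar3_mk f _).2 hu
  obtain ⟨x, hx⟩ := hU
  rw [← Ar3_mk, map_pow, ← hx, ← he, ← Units.val_pow_eq_pow_val, pow_card_eq_one',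
    Units.val_one]

private theorem Ar3_pow (f : ℕ) (v : OO) (n m : ℕ) (h : (f : OO) ∣ v ^ n - 1) :
    (f : OO) ∣ v ^ (n * m) - 1 := by
  refine h.trans ?_
  have h2 := sub_dvd_pow_sub_pow (v ^ n) 1 m
  rw [one_pow, ← pow_mul] at h2
  exact h2

private theorem Ar3_two (b : OO) (h : (2 : OO) ∣ b - 1) :
    ∀ i : ℕ, (2 : OO) ^ (i + 1) ∣ b ^ 2 ^ i - 1 := by
  intro i
  induction i with
  | zero => simpa using h
  | succ i ih =>
    obtain ⟨u, hu⟩ := ih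
    refine ⟨u + 2 ^ i * u ^ 2, ?_⟩
    have h3 : b ^ 2 ^ i = 1 + 2 ^ (i + 1) * u := by rw [← hu]; ring
    rw [pow_succ 2 i, pow_mul, h3]
    ring

private theorem Ar3_copp (h1 : S_Ar1) (v : OO) (f m : ℕ) (h : Cop v f) : Cop (v ^ m) f := by
  induction m with
  | zero =>
    rw [pow_zero]
    change IsCoprime (1 : ℤ) (f : ℤ)
    exact isCoprime_one_left
  | succ m ih =>
    rw [pow_succ]
    exact h1.2.2.2.2.2.1 f _ _ ih h

private theorem Ar3_pms (x y m : ℤ) (hx : m ∣ x - 1 ∨ m ∣ x + 1) (hy : m ∣ y - 1 ∨ m ∣ y + 1) :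
    m ∣ x * y - 1 ∨ m ∣ x * y + 1 := by
  rcases hx with ⟨a, ha⟩ | ⟨a, ha⟩ <;> rcases hy with ⟨b, hb⟩ | ⟨b, hb⟩
  · exact Or.inl ⟨a * y + b, by linear_combination y * ha + hb⟩
  · exact Or.inr ⟨a * y + b, by linear_combination y * ha + hb⟩
  · exact Or.inr ⟨a * y - b, by linear_combination y * ha - hb⟩
  · exact Or.inl ⟨a * y - b, by linear_combination y * ha - hb⟩

private theorem Ar3_hf (h1 : S_Ar1) (f : ℕ) : Nice f (Hf f) := by
  refine ⟨?_, fun v h => h.1, ?_, ?_⟩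
  · refine ⟨?_, 1, ?_⟩
    · change IsCoprime (1 : ℤ) (f : ℤ)
      exact isCoprime_one_left
    · have h2 : (-1 : OO) ^ 2 ^ 1 - 1 = 0 := by norm_num
      rw [h2]
      exact dvd_zero _
  · rintro v u ⟨h2, k, h3⟩
    have h4 : (f : OO) ∣ (v + f * u) - v := ⟨u, by ring⟩
    refine ⟨h1.2.2.2.2.1 f v _ h4 h2, k, ?_⟩
    have h5 := h4.trans (sub_dvd_pow_sub_pow (v + f * u) v (2 ^ k))
    have h6 := dvd_add h5 h3
    have h7 : (v + f * u) ^ 2 ^ k - v ^ 2 ^ k + (v ^ 2 ^ k - 1) = (v + f * u) ^ 2 ^ k - 1 := by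
      ring
    rw [h7] at h6
    exact h6
  · rintro v u ⟨h2, k, h3⟩ ⟨h4, j, h5⟩
    refine ⟨h1.2.2.2.2.2.1 f v u h2 h4, k + j, ?_⟩
    have h6 := Ar3_pow f v _ (2 ^ j) h3
    have h7 := Ar3_pow f u _ (2 ^ k) h5
    rw [← pow_add] at h6 h7
    rw [add_comm j k] at h7
    obtain ⟨a, ha⟩ := h6
    obtain ⟨c, hc⟩ := h7
    refine ⟨a * u ^ 2 ^ (k + j) + c, ?_⟩
    rw [mul_pow]
    linear_combination u ^ 2 ^ (k + j) * ha + hc

private theorem Ar3_hn (h1 : S_Ar1) (f N : ℕ) : Nice (f * 2 ^ N) (HN f N) := by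
  have h0 := Ar3_hf h1 f
  have hcast : ((2 ^ N : ℕ) : ℤ) = 2 ^ N := by push_cast; rfl
  refine ⟨⟨h0.neg, Or.inl ?_⟩, ?_, ?_, ?_⟩
  · have h2 : Nm (-1 : OO) - 1 = 0 := rfl
    rw [h2]
    exact dvd_zero _
  · rintro v ⟨h2, h3⟩
    rw [h1.2.2.2.1]
    refine ⟨h2.1, ?_⟩
    unfold Cop
    rw [hcast]
    rcases h3 with ⟨a, ha⟩ | ⟨a, ha⟩
    · exact ⟨1, -a, by linear_combination ha⟩
    · exact ⟨-1, a, by linear_combination -ha⟩
  · rintro v u ⟨h2, h3⟩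
    have h4 : v + ((f * 2 ^ N : ℕ) : OO) * u = v + (f : OO) * (((2 ^ N : ℕ) : OO) * u) := by
      push_cast
      ring
    have h5 : ((2 ^ N : ℕ) : OO) ∣ (v + ((f * 2 ^ N : ℕ) : OO) * u) - v :=
      ⟨(f : OO) * u, by push_cast; ring⟩
    have h6 := h1.2.1 (2 ^ N) v _ h5
    rw [hcast] at h6
    refine ⟨?_, ?_⟩
    · rw [h4]
      exact h0.per v _ h2
    · obtain ⟨c, hc⟩ := h6
      rcases h3 with ⟨a, ha⟩ | ⟨a, ha⟩
      · exact Or.inl ⟨a + c, by linear_combination ha + hc⟩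
      · exact Or.inr ⟨a + c, by linear_combination ha + hc⟩
  · rintro v u ⟨h2, h3⟩ ⟨h4, h5⟩
    refine ⟨h0.mul v u h2 h4, ?_⟩
    rw [h1.1]
    exact Ar3_pms _ _ _ h3 h5

private theorem Ar3_comb (h1 : S_Ar1) (f : ℕ) (hf : Odd f) (k m : ℕ) (hm : Odd m)
    (he : ∀ v : OO, Cop v f → (f : OO) ∣ v ^ (2 ^ k * m) - 1) (N : ℕ) (b : OO)
    (hb : Cop b (f * 2 ^ N)) (hb2 : Hf f b) : ((f * 2 ^ N : ℕ) : OO) ∣ b ^ 2 ^ (k + N) - 1 := by
  obtain ⟨hb3, j, hj⟩ := hb2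
  have h4 := he b hb3
  have h5 : (f : OO) ∣ b ^ 2 ^ k - 1 := by
    rw [← Ar3_mk, map_pow, ← orderOf_dvd_iff_pow_eq_one] at hj h4 ⊢
    have h6 : Nat.Coprime (orderOf (Ideal.Quotient.mk (Ideal.span {(f : OO)}) b)) m :=
      Nat.Coprime.coprime_dvd_left hj (Nat.Coprime.pow_left j hm.coprime_two_left)
    exact h6.dvd_of_dvd_mul_right h4
  have h7 : (f : OO) ∣ b ^ 2 ^ (k + N) - 1 := by
    rw [pow_add]
    exact Ar3_pow f b _ _ h5
  refine h1.2.2.2.2.2.2.2.1 f (2 ^ N) _ (Nat.Coprime.pow_right N hf.coprime_two_right) h7 ?_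
  rcases Nat.eq_zero_or_pos N with rfl | hN
  · rw [pow_zero, Nat.cast_one]
    exact one_dvd _
  · have h8 : Cop b 2 := by
      have h9 := ((h1.2.2.2.1 b f (2 ^ N)).1 hb).2
      unfold Cop at h9 ⊢
      rw [Nat.cast_pow] at h9
      exact (IsCoprime.pow_right_iff hN).1 h9
    have h10 := Ar3_two b (h1.2.2.2.2.2.2.1 b h8) N
    have h11 : ((2 ^ N : ℕ) : OO) ∣ b ^ 2 ^ N - 1 := by
      rw [Nat.cast_pow]
      exact (pow_dvd_pow _ (Nat.le_succ N)).trans h10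
    rw [add_comm k N, pow_add]
    exact Ar3_pow (2 ^ N) b _ _ h11

theorem pAr3 : S_Ar3 := by
  intro h1 f hf
  have hf0 : f ≠ 0 := by
    rintro rfl
    exact absurd hf (by decide)
  obtain ⟨k, m, hm, he⟩ := Ar3_exp h1 f hf0
  refine ⟨⟨m, hm, fun v hv => ⟨Ar3_copp h1 v f m hv, k, ?_⟩⟩,
    fun N => ⟨k + N, fun b hb hb2 => Ar3_comb h1 f hf k m hm he N b hb hb2⟩,
    Ar3_hf h1 f, Ar3_hn h1 f⟩
  rw [← pow_mul, mul_comm m]
  exact he v hv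

end Pool.Agent.DI.PI
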