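import Pool.Agent.Lib.DI.PI.SpecA

/-!
# THEOREM DI, Part I: bounded dimension of the spaces of locally trivial cocycles (`S_Bnd`)
-/

set_option autoImplicit false

open scoped Pointwise

noncomputable section

namespace Pool.Agent.DI.PI

open Pool.Agent.MuZ

/-- Cutting a function to a subgroup. -/
private def Bnd_cut (G : Type) [Group G] (p : ℕ) (S : Type) [AddCommGroup S] [Module (ZMod p) S]
    (H : Subgroup G) : (G → S) →ₗ[ZMod p] (G → S) where
  toFun c := by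
    classical
    exact fun g => if g ∈ H then c g else 0
  map_add' := by
    intro a b
    ext g
    by_cases h : g ∈ H <;> simp [h]
  map_smul' := by
    intro r a
    ext g
    by_cases h : g ∈ H <;> simp [h]

private theorem Bnd_cut_of_mem (G : Type) [Group G] (p : ℕ) (S : Type) [AddCommGroup S]
    [Module (ZMod p) S] (H : Subgroup G) (c : G → S) (g : G) (hg : g ∈ H) :
    Bnd_cut G p S H c g = c g := by
  classical
  simp [Bnd_cut, hg]

private theorem Bnd_cut_of_notMem (G : Type) [Group G] (p : ℕ) (S : Type) [AddCommGroup S]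
    [Module (ZMod p) S] (H : Subgroup G) (c : G → S) (g : G) (hg : g ∉ H) :
    Bnd_cut G p S H c g = 0 := by
  classical
  simp [Bnd_cut, hg]

theorem pBnd : S_Bnd := by
  intro hLev hVal hUni hEle hRep G _ _ _ _ _ _ p _ Ls N D γ Y hS S _ _ _ ρ hρ n0 hfin hrel
  obtain ⟨hγD, hY, hγY, hmono⟩ := hEle hLev hVal G p N D γ Y hS
  obtain ⟨R, hRN, hR⟩ := hRep G p N D γ Y hS
  -- the target
  have htar : Module.rank (ZMod p) ((↥R → S) × S × ↥(W0 p Ls N D γ (p ^ n0) S)) <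
      Cardinal.aleph0 := by
    have : Module.Finite (ZMod p) ((↥R → S) × S × ↥(W0 p Ls N D γ (p ^ n0) S)) := inferInstance
    exact Module.rank_lt_aleph0 _ _
  obtain ⟨C, hC⟩ := Cardinal.lt_aleph0.1 htar
  refine ⟨C, fun n hn => ?_⟩
  rw [← hC]
  obtain ⟨hYn, hZ⟩ := hY n
  have hNY : N ≤ Y n := hS.yn n
  have hND : N ⊓ D ≤ Y n := inf_le_left.trans hNY
  -- the last component is in `W0`
  have hW : ∀ c ∈ Coc Ls ρ (Y n) (Y n), Bnd_cut G p S (N ⊓ D) c ∈ W0 p Ls N D γ (p ^ n0) S := by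
    intro c hc
    obtain ⟨h1, h2, ⟨O, h3⟩, h4⟩ := hc
    refine ⟨fun g hg => Bnd_cut_of_notMem G p S _ c g hg, fun g hg g' hg' => ?_,
      ⟨O, fun g hg hO => ?_⟩, fun Λ hΛ g hg hgU => ?_, fun g hg => ?_⟩
    · rw [Bnd_cut_of_mem G p S _ c _ (mul_mem hg hg'), Bnd_cut_of_mem G p S _ c _ hg,
        Bnd_cut_of_mem G p S _ c _ hg', h2 g (hND hg) g' (hND hg'), hρ g hg.2]
      rfl
    · rw [Bnd_cut_of_mem G p S _ c _ hg]
      exact h3 g (hND hg) hO
    · rw [Bnd_cut_of_mem G p S _ c _ hgU]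
      obtain ⟨s, hs⟩ := h4 Λ hΛ
      rw [hs g hg (hND hgU), hρ g hgU.2]
      exact sub_self s
    · have hconj : γ ^ p ^ n0 * g * (γ ^ p ^ n0)⁻¹ ∈ N ⊓ D :=
        ⟨hS.z.nrm _ (Subgroup.mem_top _) _ hg.1, hS.dn _ _ hg.2⟩
      rw [Bnd_cut_of_mem G p S _ c _ hconj, Bnd_cut_of_mem G p S _ c _ hg]
      exact hrel n hn c ⟨h1, h2, ⟨O, h3⟩, h4⟩ g hg
  let Ψ : ↥(Coc Ls ρ (Y n) (Y n)) →ₗ[ZMod p] ↥(W0 p Ls N D γ (p ^ n0) S) :=
    LinearMap.codRestrict _ ((Bnd_cut G p S (N ⊓ D)).comp (Coc Ls ρ (Y n) (Y n)).subtype)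
      (fun c => hW c c.2)
  let Φ : ↥(Coc Ls ρ (Y n) (Y n)) →ₗ[ZMod p]
      ((↥R → S) × S × ↥(W0 p Ls N D γ (p ^ n0) S)) :=
    LinearMap.prod
      ((LinearMap.funLeft (ZMod p) S (fun r : ↥R => (r : G))).comp
        (Coc Ls ρ (Y n) (Y n)).subtype)
      (LinearMap.prod
        ((LinearMap.proj (R := ZMod p) (φ := fun _ : G => S) (γ ^ p ^ n)).comp
          (Coc Ls ρ (Y n) (Y n)).subtype) Ψ)
  have hΦ : Function.Injective Φ := by
    rw [injective_iff_map_eq_zero]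
    intro c hc
    have e1 : ∀ r ∈ R, (c : G → S) r = 0 := by
      intro r hr
      have := congrFun (congrArg Prod.fst hc) ⟨r, hr⟩
      exact this
    have e2 : (c : G → S) (γ ^ p ^ n) = 0 := by
      have := congrArg Prod.fst (congrArg Prod.snd hc)
      exact this
    have e3 : ∀ g ∈ N ⊓ D, (c : G → S) g = 0 := by
      intro g hg
      have h := congrArg Prod.snd (congrArg Prod.snd hc)
      have h' := congrFun (congrArg Subtype.val h) g
      have h'' : Bnd_cut G p S (N ⊓ D) (c : G → S) g = 0 := h'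
      rwa [Bnd_cut_of_mem G p S _ _ _ hg] at h''
    obtain ⟨h1, h2, h3, h4⟩ := c.2
    have e4 : ∀ g ∈ N, (c : G → S) g = 0 := by
      intro g hg
      obtain ⟨r, hr, hrg⟩ := hR.ex g (Subgroup.mem_top g)
      have hu : r⁻¹ * g ∈ N ⊓ D := ⟨N.mul_mem (N.inv_mem (hRN r hr)) hg, hrg⟩
      have h5 := h2 r (hNY (hRN r hr)) (r⁻¹ * g) (hND hu)
      rw [mul_inv_cancel_left] at h5
      rw [h5, e1 r hr, e3 _ hu, map_zero, add_zero]
    apply Subtype.ext
    exact hUni G p (Y n) N (γ ^ p ^ n) hNY hZ.mem hZ.gen S ρ c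
      ⟨h1, h2, h3, fun Λ hΛ => absurd hΛ (Set.notMem_empty Λ)⟩ e4 e2
  exact LinearMap.rank_le_of_injective Φ hΦ

end Pool.Agent.DI.PI
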