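import Pool.Agent.Lib.DI.PI.SpecC

set_option autoImplicit false

/-!
# THEOREM DI, Part I: the lift of a character
-/

open scoped Pointwise

noncomputable section

namespace Pool.Agent.DI.PI

open Pool.Agent.MuZ Pool.Agent.DI

/-- `σ⁻¹` acts as `v` or `-v`. -/
private def Chi_R (f : ℕ) (σ : Gal(Om/ℚ)) (v : OO) : Prop :=
  σ ∈ GK ∧ (Psi σ⁻¹ f v ∨ Psi σ⁻¹ f (-v))

open Classical in
/-- The lift. -/
private def Chi_c {P : Ideal ZZ} (f : ℕ) (χb : Gal(Om/ℚ) → ZZ ⧸ P) (t : ZZ ⧸ P → ZZ)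
    (v : OO) : ZZ :=
  if h : ∃ σ, Chi_R f σ v then t (χb h.choose) else 0

theorem pChi : S_Chi := by
  intro hTei hPs0 hGal0 hAr1 hAr30 hB2 hE1 hE7 hE8 f hf P hP h2 χb hmul hL hne
  obtain ⟨ps1, ps2, ps3, ps4, ps5, ps6, ps7⟩ := hPs0 hB2 hE1 hAr1
  obtain ⟨ar1, ar2, ar3, ar4, ar5, ar6, ar7, ar8, ar9⟩ := id hAr1
  obtain ⟨⟨m, hm, hmH⟩, -, hNice, -⟩ := hAr30 hAr1 f hf
  obtain ⟨⟨t, ht⟩, -⟩ := hTei P hP h2 m hm
  have hf0 : 0 < f := hf.pos
  obtain ⟨-, -, -, -, hgal, -⟩ := hGal0 hE1 hE8 f (Hf f) hf0 hNice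
  have hgal' : ∀ τ ∈ GK, ∀ a, Psi τ f a → Hf f a → χb τ = 1 := fun τ hτ a ha hH =>
    hL τ ((hgal τ hτ a ha).2 hH)
  have hone : Hf f 1 := by
    have h := hNice.mul (-1) (-1) hNice.neg hNice.neg
    have h1 : (-1 : OO) * (-1) = 1 := by ring
    rwa [h1] at h
  have hcopneg : ∀ v : OO, Cop (-v) f ↔ Cop v f := by
    intro v
    unfold Cop
    rw [ar3]
  have hRcop : ∀ (σ : Gal(Om/ℚ)) (v : OO), Chi_R f σ v → Cop v f := by
    rintro σ v ⟨-, h | h⟩
    · exact h.1
    · exact (hcopneg v).1 h.1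
  have hRex : ∀ v : OO, Cop v f → ∃ σ, Chi_R f σ v := by
    intro v hv
    obtain ⟨τ, hτ, h⟩ := hE7 f v hf0 hv
    refine ⟨τ⁻¹, inv_mem hτ, ?_⟩
    rw [inv_inv]
    exact h
  -- fact 1
  have fact1 : ∀ (σ σ' : Gal(Om/ℚ)) (v : OO), Chi_R f σ v → Chi_R f σ' v → χb σ = χb σ' := by
    intro σ σ' v hσ hσ'
    have key : ∀ b b' : OO, (b' = b ∨ b' = -b) → Psi σ⁻¹ f b → Psi σ'⁻¹ f b' →
        χb σ = χb σ' := by
      intro b b' hbb hb hb'
      obtain ⟨c, hc1, hc2⟩ := ps5 σ⁻¹ (inv_mem hσ.1) f b hf0 hb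
      rw [inv_inv] at hc1
      have hρ : Psi (σ'⁻¹ * σ) f (b' * c) := ps1 σ'⁻¹ σ f b' c hb' hc1
      have hρG : σ'⁻¹ * σ ∈ GK := mul_mem (inv_mem hσ'.1) hσ.1
      have hH : Hf f (b' * c) := by
        obtain ⟨u, hu⟩ := hc2
        rcases hbb with h | h
        · have h3 : b' * c = 1 + f * u := by
            rw [h]
            linear_combination hu
          rw [h3]
          exact hNice.per 1 u hone
        · have h3 : b' * c = -1 + f * (-u) := by
            rw [h]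
            linear_combination (-1) * hu
          rw [h3]
          exact hNice.per (-1) (-u) hNice.neg
      have h4 := hgal' _ hρG _ hρ hH
      have h5 := hmul σ' hσ'.1 (σ'⁻¹ * σ) hρG
      rw [h4, mul_one, mul_inv_cancel_left] at h5
      exact h5
    rcases hσ.2 with h | h <;> rcases hσ'.2 with h' | h'
    · exact key v v (Or.inl rfl) h h'
    · exact key v (-v) (Or.inr rfl) h h'
    · exact key (-v) v (Or.inr (neg_neg v).symm) h h'
    · exact key (-v) (-v) (Or.inl rfl) h h'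
  -- fact 2
  have hpow : ∀ σ ∈ GK, ∀ k : ℕ, χb (σ ^ k) = χb σ ^ k := by
    intro σ hσ k
    induction k with
    | zero =>
      rw [pow_zero, pow_zero]
      exact hL 1 (one_mem _)
    | succ k ih => rw [pow_succ, pow_succ, hmul _ (pow_mem hσ k) _ hσ, ih]
  have fact2 : ∀ σ ∈ GK, χb σ ^ m = 1 := by
    intro σ hσ
    obtain ⟨a, ha⟩ := hE1.1 σ hσ f hf0
    rw [← hpow σ hσ m]
    exact hgal' _ (pow_mem hσ m) _ (ps6 σ f a m ha) (hmH a ha.1)
  -- the lift
  have hc : ∀ (σ : Gal(Om/ℚ)) (v : OO), Chi_R f σ v → Chi_c f χb t v = t (χb σ) := by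
    intro σ v hσ
    have hex : ∃ σ, Chi_R f σ v := ⟨σ, hσ⟩
    unfold Chi_c
    rw [dif_pos hex]
    rw [fact1 _ _ v hex.choose_spec hσ]
  have hc0 : ∀ v : OO, ¬ Cop v f → Chi_c f χb t v = 0 := by
    intro v hv
    unfold Chi_c
    rw [dif_neg]
    rintro ⟨σ, hσ⟩
    exact hv (hRcop σ v hσ)
  refine ⟨Chi_c f χb t, ⟨?_, ?_, ?_, ⟨m, hm, ?_⟩⟩, ?_, ?_⟩
  · intro v u
    by_cases hv : Cop v f
    · obtain ⟨σ, hσ⟩ := hRex v hv
      have hσ' : Chi_R f σ (v + f * u) := by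
        refine ⟨hσ.1, ?_⟩
        rcases hσ.2 with h | h
        · exact Or.inl (ps3 _ _ _ u h)
        · right
          have h3 : -(v + (f : OO) * u) = -v + f * (-u) := by ring
          rw [h3]
          exact ps3 _ _ _ (-u) h
      rw [hc σ v hσ, hc σ _ hσ']
    · have hv' : ¬ Cop (v + f * u) f := by
        intro h
        apply hv
        refine ar5 f (v + f * u) v ⟨-u, ?_⟩ h
        ring
      rw [hc0 v hv, hc0 _ hv']
  · intro v u
    by_cases hv : Cop v f
    · by_cases hu : Cop u f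
      · obtain ⟨σ, hσ⟩ := hRex v hv
        obtain ⟨τ, hτ⟩ := hRex u hu
        have hστ : Chi_R f (σ * τ) (v * u) := by
          refine ⟨mul_mem hσ.1 hτ.1, ?_⟩
          rw [mul_inv_rev]
          rcases hσ.2 with h | h <;> rcases hτ.2 with h' | h'
          · left
            have h3 : v * u = u * v := mul_comm v u
            rw [h3]
            exact ps1 _ _ _ _ _ h' h
          · right
            have h3 : -(v * u) = (-u) * v := by ring
            rw [h3]
            exact ps1 _ _ _ _ _ h' h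
          · right
            have h3 : -(v * u) = u * (-v) := by ring
            rw [h3]
            exact ps1 _ _ _ _ _ h' h
          · left
            have h3 : v * u = (-u) * (-v) := by ring
            rw [h3]
            exact ps1 _ _ _ _ _ h' h
        have h4 := (ht (χb σ) (fact2 σ hσ.1)).2.2 (χb τ) (fact2 τ hτ.1)
        rw [hc σ v hσ, hc τ u hτ, hc _ _ hστ, hmul σ hσ.1 τ hτ.1, h4]
        push_cast
        rfl
      · have h3 : ¬ Cop (v * u) f := by
          intro h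
          apply hu
          unfold Cop at h ⊢
          rw [ar1] at h
          exact IsCoprime.of_mul_left_right h
        rw [hc0 u hu, hc0 _ h3, ZeroMemClass.coe_zero, mul_zero]
    · have h3 : ¬ Cop (v * u) f := by
        intro h
        apply hv
        unfold Cop at h ⊢
        rw [ar1] at h
        exact IsCoprime.of_mul_left_left h
      rw [hc0 v hv, hc0 _ h3, ZeroMemClass.coe_zero, zero_mul]
  · intro v hv
    rw [hc0 v hv, ZeroMemClass.coe_zero]
  · intro v hv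
    obtain ⟨σ, hσ⟩ := hRex v hv
    rw [hc σ v hσ]
    have h3 := (ht (χb σ) (fact2 σ hσ.1)).1
    exact congrArg (fun x : ZZ => (x : Om)) h3
  · obtain ⟨σ, hσ, hσ1⟩ := hne
    obtain ⟨v, hv⟩ := hE1.1 σ⁻¹ (inv_mem hσ) f hf0
    have hR : Chi_R f σ v := ⟨hσ, Or.inl hv⟩
    refine ⟨v, hv.1, ?_⟩
    rw [hc σ v hR]
    intro h
    apply hσ1
    have h3 : t (χb σ) = 1 := Subtype.ext h
    rw [← (ht (χb σ) (fact2 σ hσ)).2.1, h3, map_one]
  · intro σ hσ v hv
    have hR : Chi_R f σ v := ⟨hσ, Or.inl hv⟩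
    rw [hc σ v hR]
    exact (ht (χb σ) (fact2 σ hσ)).2.1

end Pool.Agent.DI.PI
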