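import Pool.Agent.Lib.DI.PI.SpecD

set_option autoImplicit false

/-!
# THEOREM DI, Part I: torsion points are division points
-/

open scoped Pointwise

noncomputable section

namespace Pool.Agent.DI.PI

open Pool.Agent.MuZ Pool.Agent.DI

theorem pCmp : S_Cmp := by
  classical
  rintro ⟨Φ, hΦ0, hΦ1⟩ ⟨Ψ, hΨ⟩ hB3 x y h n hn hnP
  obtain ⟨h', hP⟩ := hΨ x y h
  have heq : (io y) ^ 2 + io x * io y = io x ^ 3 - io x ^ 2 - 2 * io x - 1 := by
    have h1 := (WeierstrassCurve.Affine.equation_iff (W := EcC.toAffine) (io x) (io y)).1 h'.1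
    simp only [EcC] at h1
    linear_combination h1
  obtain ⟨z, hz, hx, hy⟩ := hB3.2.2 _ _ heq
  obtain ⟨h2, hz2⟩ := hΦ1 z hz
  have h3 : Ψ (WeierstrassCurve.Affine.Point.some x y h) = Φ z := by
    rw [hP, hz2]
    congr 1
    · exact hx.symm
    · exact hy.symm
  have h4 : Φ (n • z) = 0 := by
    rw [map_nsmul, ← h3, ← map_nsmul, hnP, map_zero]
  have h5 : Lat ((n : ℂ) * z) := by
    by_contra h6
    rw [nsmul_eq_mul] at h4
    obtain ⟨h7, h8⟩ := hΦ1 _ h6
    rw [h8] at h4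
    exact WeierstrassCurve.Affine.Point.some_ne_zero h7 h4
  obtain ⟨v, hv⟩ := h5
  have hn' : (n : ℂ) ≠ 0 := by exact_mod_cast hn.ne'
  have h6 : toC v / n = z := by
    rw [← hv]
    field_simp
  refine ⟨v, ?_, ?_⟩
  · rw [h6]
    unfold xO
    rw [hx, ofC_io]
  · rw [h6]
    unfold yO
    rw [hy, ofC_io]

end Pool.Agent.DI.PI
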