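import Pool.Agent.Lib.DI.PI.SpecA

/-!
THEOREM DI, part I, module Ele: elementary facts on the procyclic quotient.
-/

set_option autoImplicit false

open scoped Pointwise

namespace Pool.Agent.DI.PI

open Pool.Agent.MuZ

theorem pEle : S_Ele := by
  intro hLev hVal G _ _ _ _ _ _ p _ N D γ Y hs
  have hp : p.Prime := Fact.out
  have hL : ∀ n, (Y n).Normal ∧ Zq p (Y n) N (γ ^ p ^ n) := fun n =>
    (hLev hVal G p N γ hs.z).2 n (Y n) (hs.yo n) (hs.yn n) (hs.yi n)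
  have h1 : γ ∈ D := by
    have hD : D.Normal := ⟨fun d hd g => hs.dn g d hd⟩
    obtain ⟨a, ha⟩ := hs.z.pro ⟨D, hs.dopen⟩
    have ha' : γ ^ p ^ a ∈ D := ha
    have hi : γ ^ D.index ∈ D := Subgroup.pow_index_mem D γ
    have c1 : ((γ : G ⧸ D)) ^ (p ^ a) = 1 := by
      rw [← QuotientGroup.mk_pow]
      exact (QuotientGroup.eq_one_iff _).2 ha'
    have c2 : ((γ : G ⧸ D)) ^ D.index = 1 := by
      rw [← QuotientGroup.mk_pow]
      exact (QuotientGroup.eq_one_iff _).2 hi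
    have hc : Nat.Coprime (p ^ a) D.index :=
      Nat.Coprime.pow_left a ((Nat.Prime.coprime_iff_not_dvd hp).2 hs.cop)
    have hd : orderOf (γ : G ⧸ D) ∣ Nat.gcd (p ^ a) D.index :=
      Nat.dvd_gcd (orderOf_dvd_of_pow_eq_one c1) (orderOf_dvd_of_pow_eq_one c2)
    rw [hc] at hd
    exact (QuotientGroup.eq_one_iff γ).1 (orderOf_eq_one_iff.1 (Nat.dvd_one.1 hd))
  have h3 : ∀ n j : ℕ, γ ^ j ∈ Y n ↔ p ^ n ∣ j := by
    intro n j
    have hY : (Y n).Normal := (hL n).1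
    constructor
    · intro hj
      have hgen : ∀ x : G ⧸ (Y n), x ∈ Subgroup.zpowers (γ : G ⧸ (Y n)) := by
        intro x
        induction x using QuotientGroup.induction_on with
        | H y =>
          obtain ⟨i, t, ht, hO⟩ := hs.z.gen y (Subgroup.mem_top y) ⟨Y n, hs.yo n⟩
          have hO' : y⁻¹ * γ ^ i * t ∈ Y n := hO
          have h5 : y⁻¹ * γ ^ i ∈ Y n := by
            have := (Y n).mul_mem hO' ((Y n).inv_mem (hs.yn n ht))
            simpa [mul_assoc] using this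
          refine ⟨(i : ℤ), ?_⟩
          simp only [zpow_natCast]
          rw [← QuotientGroup.mk_pow]
          exact ((QuotientGroup.eq).2 h5).symm
      have ho : orderOf (γ : G ⧸ (Y n)) = p ^ n := by
        rw [orderOf_eq_card_of_forall_mem_zpowers hgen, ← hs.yi n]
        rfl
      rw [← ho]
      apply orderOf_dvd_of_pow_eq_one
      rw [← QuotientGroup.mk_pow]
      exact (QuotientGroup.eq_one_iff _).2 hj
    · rintro ⟨k, rfl⟩
      rw [pow_mul]
      exact (Y n).pow_mem (hL n).2.mem k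
  refine ⟨h1, hL, h3, ?_⟩
  intro m n hmn y hy
  obtain ⟨j, t, ht, hO⟩ := (hL n).2.gen y hy ⟨Y m, hs.yo m⟩
  have hO' : y⁻¹ * (γ ^ p ^ n) ^ j * t ∈ Y m := hO
  have h5 : (γ ^ p ^ n) ^ j ∈ Y m := (Y m).pow_mem ((h3 m (p ^ n)).2 (pow_dvd_pow p hmn)) j
  have h6 : y⁻¹ ∈ Y m := by
    have h7 := (Y m).mul_mem ((Y m).mul_mem hO' ((Y m).inv_mem (hs.yn m ht))) ((Y m).inv_mem h5)
    have h8 : y⁻¹ * (γ ^ p ^ n) ^ j * t * t⁻¹ * ((γ ^ p ^ n) ^ j)⁻¹ = y⁻¹ := by group
    rwa [h8] at h7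
  exact (Y m).inv_mem_iff.1 h6

end Pool.Agent.DI.PI
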