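import Pool.Agent.Lib.DI.PI.SpecC

/-!
# THEOREM DI, Part I: a prime above `π` exists (`S_ExP`)
-/

set_option autoImplicit false

open scoped Pointwise

namespace Pool.Agent.DI.PI

open Pool.Agent.MuZ Pool.Agent.DI

/-- `wO` as an algebraic integer. -/
private theorem ExP_int : IsIntegral ℤ wO := by
  refine ⟨Polynomial.X ^ 2 - Polynomial.X + Polynomial.C 2, ?_, ?_⟩
  · monicity!
  · simp only [Polynomial.eval₂_add, Polynomial.eval₂_sub, Polynomial.eval₂_pow, Polynomial.eval₂_X,
      Polynomial.eval₂_C]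
    rw [wO_sq]
    simp

/-- The integral element `wO`. -/
private noncomputable def ExP_w : ZZ := ⟨wO, ExP_int⟩

private theorem ExP_w_coe : ((ExP_w : ZZ) : Om) = wO := rfl

private theorem ExP_two_coe : ((2 : ZZ) : Om) = 2 := rfl

private theorem ExP_mul : ExP_w * (1 - ExP_w) = 2 := by
  apply Subtype.ext
  have h := wO_sq
  rw [ExP_two_coe]
  push_cast
  rw [ExP_w_coe]
  linear_combination (-1 : Om) * h

private theorem ExP_two : ¬ IsUnit (2 : ZZ) := by
  intro h
  obtain ⟨u, hu⟩ := h.exists_right_inv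
  have h1 : (2 : Om) * (u : Om) = 1 := by
    have := congrArg (fun t : ZZ => (t : Om)) hu
    simpa [ExP_two_coe] using this
  have h2 : ((1 / 2 : ℚ) : Om) = (u : Om) := by
    push_cast
    field_simp
    linear_combination -h1
  have h3 : IsIntegral ℤ (algebraMap ℚ Om (1 / 2 : ℚ)) := by
    have : algebraMap ℚ Om (1 / 2 : ℚ) = (u : Om) := by
      rw [← h2]; simp
    rw [this]
    exact u.2
  have h4 : IsIntegral ℤ (1 / 2 : ℚ) :=
    (isIntegral_algebraMap_iff (algebraMap ℚ Om).injective).1 h3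
  obtain ⟨y, hy⟩ := IsIntegrallyClosed.isIntegral_iff.1 h4
  have h5 : ((y : ℤ) : ℚ) = 1 / 2 := by simpa using hy
  have h6 : ((2 * y : ℤ) : ℚ) = ((1 : ℤ) : ℚ) := by
    push_cast
    rw [h5]; norm_num
  have h7 : (2 * y : ℤ) = 1 := by exact_mod_cast h6
  omega

private theorem ExP_conj (c : Gal(Om/ℚ)) (hc : ∀ x : Om, io (c x) = (starRingEnd ℂ) (io x)) :
    c wO = 1 - wO := by
  apply io_inj
  rw [hc, map_sub, map_one, io_wO]
  apply Complex.ext
  · simp [wC]; norm_num
  · simp [wC]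

private theorem ExP_nonunit (h1 : S_A1) : ¬ IsUnit ExP_w := by
  obtain ⟨c, hc⟩ := h1
  intro h
  apply ExP_two
  rw [← ExP_mul]
  refine h.mul ?_
  obtain ⟨u, hu⟩ := h.exists_right_inv
  have hu' : wO * (u : Om) = 1 := by
    have := congrArg (fun t : ZZ => (t : Om)) hu
    simpa [ExP_w_coe] using this
  have hcu : (1 - wO) * c (u : Om) = 1 := by
    have := congrArg c hu'
    rw [map_mul, map_one, ExP_conj c hc] at this
    exact this
  have hint : IsIntegral ℤ (c (u : Om)) := by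
    have : IsIntegral ℤ ((u : Om)) := u.2
    exact this.map ((c : Om ≃ₐ[ℚ] Om).toAlgHom.restrictScalars ℤ)
  refine IsUnit.of_mul_eq_one (⟨c (u : Om), hint⟩ : ZZ) ?_
  apply Subtype.ext
  push_cast
  rw [ExP_w_coe]
  exact hcu

theorem pExP : S_ExP := by
  intro h1
  refine ⟨?_, ?_⟩
  · obtain ⟨P, hP, hw⟩ := exists_max_ideal_of_mem_nonunits (a := ExP_w) (ExP_nonunit h1)
    refine ⟨P, hP.isPrime, ?_, ExP_w, 1, hw, ?_, ?_⟩
    · rintro rfl
      rw [Ideal.mem_bot] at hw
      have h := ExP_mul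
      rw [hw, zero_mul] at h
      exact two_ne_zero h.symm
    · intro h
      exact hP.ne_top ((Ideal.eq_top_iff_one P).2 h)
    · rw [ExP_w_coe]; simp
  · rintro P ⟨hP, hb, a, b, ha, hb', hab⟩
    have hw : ExP_w * b = a := by
      apply Subtype.ext
      push_cast
      rw [ExP_w_coe]
      exact hab
    have hwP : ExP_w ∈ P := by
      have : ExP_w * b ∈ P := by rw [hw]; exact ha
      exact (hP.mem_or_mem this).resolve_right hb'
    have h2 : (2 : ZZ) ∈ P := by
      rw [← ExP_mul]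
      exact Ideal.mul_mem_right _ _ hwP
    refine ⟨h2, ⟨hP, hb⟩, 2, 1, h2, ?_, ?_⟩
    · intro h
      exact hP.ne_top ((Ideal.eq_top_iff_one P).2 h)
    · simp [ExP_two_coe]

end Pool.Agent.DI.PI
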