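import Pool.Agent.Lib.DI.PI.SpecC

/-!
# THEOREM DI, Part I: representatives of `H_N / ±1` exist
-/

set_option autoImplicit false

open scoped Pointwise

namespace Pool.Agent.DI.PI

open Pool.Agent.MuZ Pool.Agent.DI

/-- Congruence up to sign. -/
private def ExT_rel (M : OO) : Setoid OO where
  r v u := M ∣ v - u ∨ M ∣ v + u
  iseqv :=
    { refl := fun v => Or.inl (by rw [sub_self]; exact dvd_zero M)
      symm := by
        rintro v u (h | h)
        · exact Or.inl (by rw [← neg_sub]; exact (dvd_neg (α := OO)).2 h)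
        · exact Or.inr (by rw [add_comm]; exact h)
      trans := by
        rintro v u w (h | h) (h' | h')
        · exact Or.inl (by have := dvd_add h h'; rwa [sub_add_sub_cancel] at this)
        · refine Or.inr ?_
          have := dvd_add h h'
          have e : v - u + (u + w) = v + w := by ring
          rwa [e] at this
        · refine Or.inr ?_
          have := dvd_sub h h'
          have e : v + u - (u - w) = v + w := by ring
          rwa [e] at this
        · refine Or.inl ?_
          have := dvd_sub h h'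
          have e : v + u - (u + w) = v - w := by ring
          rwa [e] at this }

private lemma ExT_inv {M : ℕ} {H : OO → Prop} (hH : Nice M H) {v u : OO}
    (h : (ExT_rel (M : OO)).r v u) (hu : H u) : H v := by
  rcases h with ⟨w, hw⟩ | ⟨w, hw⟩
  · have e : v = u + M * w := by rw [← hw]; ring
    rw [e]
    exact hH.per _ _ hu
  · have e : v = -1 * u + M * w := by rw [← hw]; ring
    rw [e]
    exact hH.per _ _ (hH.mul _ _ hH.neg hu)

private lemma ExT_red {M : ℕ} (hM : 0 < M) (v : OO) : ∃ a ∈ Finset.range M, ∃ b ∈ Finset.range M,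
    (M : OO) ∣ v - (⟨(a : ℤ), (b : ℤ)⟩ : OO) := by
  have hM' : (0 : ℤ) < M := by exact_mod_cast hM
  refine ⟨(v.re % M).toNat, ?_, (v.im % M).toNat, ?_, ⟨v.re / M, v.im / M⟩, ?_⟩
  · rw [Finset.mem_range]
    have h1 := Int.emod_lt_of_pos v.re hM'
    have h2 := Int.emod_nonneg v.re hM'.ne'
    omega
  · rw [Finset.mem_range]
    have h1 := Int.emod_lt_of_pos v.im hM'
    have h2 := Int.emod_nonneg v.im hM'.ne'
    omega
  · have h1 := Int.toNat_of_nonneg (Int.emod_nonneg v.re hM'.ne')
    have h2 := Int.toNat_of_nonneg (Int.emod_nonneg v.im hM'.ne')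
    have h3 := Int.mul_ediv_add_emod v.re M
    have h4 := Int.mul_ediv_add_emod v.im M
    apply QuadraticAlgebra.ext
    · simp only [QuadraticAlgebra.re_sub, QuadraticAlgebra.re_mul, QuadraticAlgebra.re_natCast,
        QuadraticAlgebra.im_natCast]
      rw [h1]
      linarith
    · simp only [QuadraticAlgebra.im_sub, QuadraticAlgebra.im_mul, QuadraticAlgebra.re_natCast,
        QuadraticAlgebra.im_natCast]
      rw [h2]
      linarith

theorem pExT : S_ExT := by
  classical
  intro hA1 hA3 f N hf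
  have hnice : Nice (f * 2 ^ N) (HN f N) := (hA3 hA1 f hf).2.2.2 N
  have hM : 0 < f * 2 ^ N := Nat.mul_pos hf.pos (by positivity)
  let R : Setoid OO := ExT_rel ((f * 2 ^ N : ℕ) : OO)
  let rep : OO → OO := fun v => (Quotient.mk R v).out
  have hrep : ∀ v, R.r (rep v) v := fun v => Quotient.exact (Quotient.out_eq (Quotient.mk R v))
  let s : Finset OO := ((Finset.range (f * 2 ^ N) ×ˢ Finset.range (f * 2 ^ N)).image
    (fun p => (⟨(p.1 : ℤ), (p.2 : ℤ)⟩ : OO))).filter (fun v => HN f N v)
  refine ⟨s.image rep, ?_, ?_, ?_⟩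
  · intro h hh
    obtain ⟨v, hv, rfl⟩ := Finset.mem_image.1 hh
    exact ExT_inv hnice (hrep v) (Finset.mem_filter.1 hv).2
  · intro v hv
    obtain ⟨a, ha, b, hb, hab⟩ := ExT_red hM v
    have h1 : R.r v (⟨(a : ℤ), (b : ℤ)⟩ : OO) := Or.inl hab
    have h2 : HN f N (⟨(a : ℤ), (b : ℤ)⟩ : OO) := ExT_inv hnice (R.iseqv.symm h1) hv
    refine ⟨rep ⟨(a : ℤ), (b : ℤ)⟩, Finset.mem_image_of_mem _ (Finset.mem_filter.2
      ⟨Finset.mem_image.2 ⟨(a, b), Finset.mem_product.2 ⟨ha, hb⟩, rfl⟩, h2⟩), ?_⟩
    exact R.iseqv.trans h1 (R.iseqv.symm (hrep _))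
  · intro h hh h' hh' hr
    obtain ⟨v, -, rfl⟩ := Finset.mem_image.1 hh
    obtain ⟨v', -, rfl⟩ := Finset.mem_image.1 hh'
    have h1 : R.r v v' := R.iseqv.trans (R.iseqv.symm (hrep v)) (R.iseqv.trans hr (hrep v'))
    have h2 : Quotient.mk R v = Quotient.mk R v' := Quotient.sound h1
    change (Quotient.mk R v).out = (Quotient.mk R v').out
    rw [h2]

end Pool.Agent.DI.PI
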