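import Pool.Agent.Lib.DI.PI.SpecD

/-!
# THEOREM DI, Part I, module FT (helper86): number fields inside the torsion field
-/

set_option autoImplicit false

open scoped Pointwise

namespace Pool.Agent.DI.PI

open Pool.Agent.MuZ Pool.Agent.DI

private theorem FT_gen (M : ℕ) (v : OO) :
    xO (toC v / M) ∈ MN M ∧ yO (toC v / M) ∈ MN M := by
  constructor
  · exact (le_sup_right : _ ≤ MN M) (IntermediateField.subset_adjoin ℚ _ ⟨v, Or.inl rfl⟩)
  · exact (le_sup_right : _ ≤ MN M) (IntermediateField.subset_adjoin ℚ _ ⟨v, Or.inr rfl⟩)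

/-- The fields `MN M` increase with respect to divisibility. -/
private theorem FT_mono (M M' : ℕ) (hM' : 0 < M') (h : M ∣ M') : MN M ≤ MN M' := by
  obtain ⟨k, rfl⟩ := h
  have hk : 0 < k := Nat.pos_of_mul_pos_left hM'
  have hk' : (k : ℂ) ≠ 0 := Nat.cast_ne_zero.2 hk.ne'
  have key : ∀ v : OO, toC v / M = toC (k * v) / ((M * k : ℕ) : ℂ) := by
    intro v
    rw [map_mul, map_natCast, Nat.cast_mul, mul_comm (M : ℂ) k, mul_div_mul_left _ _ hk']
  apply sup_le
  · exact le_sup_left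
  · rw [IntermediateField.adjoin_le_iff]
    rintro a ⟨v, rfl | rfl⟩
    · rw [key v]
      exact (FT_gen (M * k) (k * v)).1
    · rw [key v]
      exact (FT_gen (M * k) (k * v)).2

open Classical in
private theorem FT_mem (hC : ∀ (x y : Om) (h : Ecurve.toAffine.Nonsingular x y) (n : ℕ), 0 < n →
    n • (WeierstrassCurve.Affine.Point.some x y h) = 0 →
    ∃ v : OO, x = xO (toC v / n) ∧ y = yO (toC v / n)) (x : Om) (hx : x ∈ TorField) :
    ∃ M : ℕ, 0 < M ∧ x ∈ MN M := by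
  have two : ∀ x y : Om, (∃ M : ℕ, 0 < M ∧ x ∈ MN M) → (∃ M : ℕ, 0 < M ∧ y ∈ MN M) →
      ∃ M : ℕ, 0 < M ∧ x ∈ MN M ∧ y ∈ MN M := by
    rintro x y ⟨M, hM, hx⟩ ⟨M', hM', hy⟩
    have h0 : 0 < M * M' := Nat.mul_pos hM hM'
    exact ⟨M * M', h0, FT_mono M _ h0 (Dvd.intro _ rfl) hx,
      FT_mono M' _ h0 (Dvd.intro_left _ rfl) hy⟩
  unfold TorField at hx
  induction hx using IntermediateField.adjoin_induction with
  | mem a ha =>
    obtain ⟨x, y, h, n, hn, h0, hxy⟩ := ha
    obtain ⟨v, hv1, hv2⟩ := hC x y h n hn h0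
    refine ⟨n, hn, ?_⟩
    rcases hxy with rfl | rfl
    · rw [hv1]
      exact (FT_gen n v).1
    · rw [hv2]
      exact (FT_gen n v).2
  | algebraMap r => exact ⟨1, one_pos, IntermediateField.algebraMap_mem _ r⟩
  | add x y _ _ hx hy =>
    obtain ⟨M, hM, h1, h2⟩ := two x y hx hy
    exact ⟨M, hM, add_mem h1 h2⟩
  | inv x _ hx =>
    obtain ⟨M, hM, h1⟩ := hx
    exact ⟨M, hM, inv_mem h1⟩
  | mul x y _ _ hx hy =>
    obtain ⟨M, hM, h1, h2⟩ := two x y hx hy
    exact ⟨M, hM, mul_mem h1 h2⟩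

theorem pFT : S_FT := by
  classical
  intro hC F hF hFT
  obtain ⟨s, hs⟩ := hF.fg_top
  choose! Mf hMf1 hMf2 using FT_mem hC
  have h0 : 0 < 7 * ∏ x ∈ s, Mf (x : Om) := by
    apply Nat.mul_pos (by norm_num)
    exact Finset.prod_pos fun x _ => hMf1 x (hFT x.2)
  obtain ⟨N, f, hf, hfN⟩ := Nat.exists_eq_two_pow_mul_odd h0.ne'
  refine ⟨f, N, hf, ?_, ?_⟩
  · have h7 : 7 ∣ 2 ^ N * f := by
      rw [← hfN]
      exact Dvd.intro _ rfl
    exact (Nat.Coprime.pow_right N (by norm_num : Nat.Coprime 7 2)).dvd_of_dvd_mul_left h7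
  · rw [mul_comm f, ← hfN]
    intro y hy
    have h1 : (⟨y, hy⟩ : F) ∈ Submodule.span ℚ (s : Set F) := by
      rw [hs]
      exact Submodule.mem_top
    have h2 : ∀ z : F, z ∈ Submodule.span ℚ (s : Set F) →
        (z : Om) ∈ MN (7 * ∏ x ∈ s, Mf (x : Om)) := by
      intro z hz
      induction hz using Submodule.span_induction with
      | mem x hx =>
        apply FT_mono (Mf (x : Om)) _ h0 _ (hMf2 x (hFT x.2))
        exact Dvd.dvd.mul_left (Finset.dvd_prod_of_mem (fun x : F => Mf (x : Om)) hx) 7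
      | zero => exact zero_mem _
      | add x y _ _ hx hy => exact add_mem hx hy
      | smul a x _ hx =>
        have h3 : ((a • x : F) : Om) = algebraMap ℚ Om a * (x : Om) := by
          rw [← Algebra.smul_def]
          rfl
        rw [h3]
        exact mul_mem (IntermediateField.algebraMap_mem _ a) hx
    exact h2 _ h1

end Pool.Agent.DI.PI
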