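import Pool.Agent.Lib.DI.PI.SpecA

/-!
# THEOREM DI, Part I, chapter A: finitely many invariant homomorphisms (helper11)
-/

set_option autoImplicit false

open scoped Pointwise

namespace Pool.Agent.DI.PI

open Pool.Agent.MuZ

private theorem FinW_zq {G : Type} [Group G] [TopologicalSpace G] [IsTopologicalGroup G]
    [CompactSpace G] {p : ℕ} {N D W : Subgroup G} {δ : G} (hZ : Zq p W N δ) (hδ : δ ∈ D)
    (hD : IsOpen (D : Set G)) (hn : ∀ g : G, ∀ d ∈ D, g * d * g⁻¹ ∈ D) :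
    Zq p (W ⊓ D) (N ⊓ D) δ := by
  have hDc : IsClosed (D : Set G) := (⟨D, hD⟩ : OpenSubgroup G).isClosed
  refine { mem := ⟨hZ.mem, hδ⟩, le := inf_le_inf_right D hZ.le, nrm := ?_, cloY := ?_, cloN := ?_,
           gen := ?_, quo := ?_, inf := ?_, pro := hZ.pro }
  · intro y hy n hn'
    exact ⟨hZ.nrm y hy.1 n hn'.1, hn y n hn'.2⟩
  · exact hZ.cloY.inter hDc
  · exact hZ.cloN.inter hDc
  · intro y hy O
    obtain ⟨j, t, ht, h⟩ := hZ.gen y hy.1 (O ⊓ ⟨D, hD⟩)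
    have h2 : y⁻¹ * δ ^ j * t ∈ D := h.2
    have h3 : y⁻¹ * δ ^ j ∈ D := D.mul_mem (D.inv_mem hy.2) (D.pow_mem hδ j)
    exact ⟨j, t, ⟨ht, (D.mul_mem_cancel_left h3).1 h2⟩, h.1⟩
  · intro y hy O
    obtain ⟨a, t, ht, h⟩ := hZ.quo y hy.1 (O ⊓ ⟨D, hD⟩)
    have h2 : y ^ p ^ a * t ∈ D := h.2
    exact ⟨a, t, ⟨ht, (D.mul_mem_cancel_left (D.pow_mem hy.2 _)).1 h2⟩, h.1⟩
  · intro k hk hm
    exact hZ.inf k hk hm.1

/-- the extension of an invariant homomorphism -/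
private theorem FinW_ext (hVal : S_Val) (hSemi : S_Semi) {G : Type} [Group G] [TopologicalSpace G]
    [IsTopologicalGroup G] [CompactSpace G] [TotallyDisconnectedSpace G] [T2Space G] {p : ℕ}
    [Fact p.Prime] {Ls : Set (Subgroup G)} {N D W : Subgroup G} {γ : G} {q : ℕ}
    (hZ : Zq p (W ⊓ D) (N ⊓ D) (γ ^ q)) {S : Type} [AddCommGroup S] [Module (ZMod p) S]
    {h : G → S} (hh : h ∈ W0 p Ls N D γ q S) :
    ∃ f : G → S, (∀ x ∈ W ⊓ D, ∀ y ∈ W ⊓ D, f (x * y) = f x + f y) ∧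
      (∃ O : OpenSubgroup G, ∀ x ∈ W ⊓ D, x ∈ O → f x = 0) ∧ ∀ x ∈ N ⊓ D, f x = h x := by
  obtain ⟨_, h2, ⟨O, h3⟩, _, h5⟩ := hh
  obtain ⟨h', g1, ⟨O', g2⟩, g3, _⟩ := hSemi hVal G p (W ⊓ D) (N ⊓ D) (γ ^ q) hZ
    (Multiplicative S) (fun g => Multiplicative.ofAdd (h g)) 1
    (fun x hx y hy => by rw [h2 x hx y hy, ofAdd_add])
    ⟨O, fun x hx hO => by rw [h3 x hx hO, ofAdd_zero]⟩ ⟨0, one_pow _⟩
    (fun x hx => by rw [h5 x hx, one_mul, inv_one, mul_one])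
  refine ⟨fun g => Multiplicative.toAdd (h' g), fun x hx y hy => ?_, ⟨O', fun x hx hO => ?_⟩,
    fun x hx => ?_⟩
  · change Multiplicative.toAdd (h' (x * y)) = _
    rw [g1 x hx y hy, toAdd_mul]
  · change Multiplicative.toAdd (h' x) = 0
    rw [g2 x hx hO, toAdd_one]
  · change Multiplicative.toAdd (h' x) = h x
    rw [g3 x hx, toAdd_ofAdd]

theorem pFinW : S_FinW := by
  intro hLev hVal hSemi hEle G _ _ _ _ _ _ p _ Ls N D γ Y hS m hfin S _ _ _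
  classical
  obtain ⟨hγD, hY, _, _⟩ := hEle hLev hVal G p N D γ Y hS
  have hZ : Zq p (Y m ⊓ D) (N ⊓ D) (γ ^ p ^ m) :=
    FinW_zq (hY m).2 (D.pow_mem hγD _) hS.dopen hS.dn
  have hex : ∀ h : W0 p Ls N D γ (p ^ m) S, ∃ f : G → S,
      (∀ x ∈ Y m ⊓ D, ∀ y ∈ Y m ⊓ D, f (x * y) = f x + f y) ∧
      (∃ O : OpenSubgroup G, ∀ x ∈ Y m ⊓ D, x ∈ O → f x = 0) ∧
      ∀ x ∈ N ⊓ D, f x = (h : G → S) x :=
    fun h => FinW_ext hVal hSemi hZ h.2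
  choose F F1 F2 F3 using hex
  have hmem : ∀ (h : W0 p Ls N D γ (p ^ m) S) (l : S →ₗ[ZMod p] ZMod p),
      (fun g : G => if g ∈ Y m ⊓ D then l (F h g) else 0) ∈
        VV p {Λ | Λ ∈ Ls ∧ Λ ≤ N} (Y m ⊓ D) := by
    intro h l
    refine ⟨fun g hg => if_neg hg, fun g hg k hk => ?_, ?_, fun Λ hΛ g hg hgW => ?_⟩
    · simp only [if_pos hg, if_pos hk, if_pos (mul_mem hg hk), F1 h g hg k hk, map_add]
    · obtain ⟨O, hO⟩ := F2 h
      refine ⟨O, fun g hg hgO => ?_⟩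
      simp only [if_pos hg, hO g hg hgO, map_zero]
    · have hgU : g ∈ N ⊓ D := ⟨hΛ.2 hg, hgW.2⟩
      have h0 : (h : G → S) g = 0 := h.2.2.2.2.1 Λ hΛ.1 g hg hgU
      simp only [if_pos hgW, F3 h g hgU, h0, map_zero]
  have : Finite (S →ₗ[ZMod p] ZMod p) :=
    Finite.of_injective (fun l : S →ₗ[ZMod p] ZMod p => (l : S → ZMod p)) DFunLike.coe_injective
  refine Finite.of_injective (fun (h : W0 p Ls N D γ (p ^ m) S) (l : S →ₗ[ZMod p] ZMod p) =>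
    (⟨_, hmem h l⟩ : VV p {Λ | Λ ∈ Ls ∧ Λ ≤ N} (Y m ⊓ D))) ?_
  intro h k hhk
  apply Subtype.ext
  funext g
  by_cases hg : g ∈ N ⊓ D
  · have hgW : g ∈ Y m ⊓ D := ⟨hS.yn m hg.1, hg.2⟩
    rw [← sub_eq_zero, ← Module.forall_dual_apply_eq_zero_iff (ZMod p)]
    intro l
    have h1 := congrFun hhk l
    have h2 := congrFun (congrArg Subtype.val h1) g
    simp only [if_pos hgW, F3 h g hg, F3 k g hg] at h2
    rw [map_sub, h2, sub_self]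
  · rw [h.2.1 g hg, k.2.1 g hg]

end Pool.Agent.DI.PI
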