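import Pool.Agent.Lib.DI.PI.SpecA

set_option autoImplicit false

open scoped Pointwise

namespace Pool.Agent.DI.PI

open Pool.Agent.MuZ

theorem Fld1_comm {G : Type} [Group G] {p : ℕ} [Fact p.Prime] {S : Type} [AddCommGroup S]
    [Module (ZMod p) S] (ρ : Representation (ZMod p) G S)
    (hc : ∀ g h : G, ρ (g * h) = ρ (h * g)) (g : G) :
    ∀ b ∈ Algebra.adjoin (ZMod p) (Set.range (fun g : G => ρ g)), ρ g * b = b * ρ g := by
  intro b hb
  induction hb using Algebra.adjoin_induction with
  | mem x hx =>
    obtain ⟨h, rfl⟩ := hx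
    have := hc g h
    rw [map_mul, map_mul] at this
    exact this
  | algebraMap r => exact (Algebra.commutes r (ρ g)).symm
  | add x y _ _ hx hy => rw [mul_add, add_mul, hx, hy]
  | mul x y _ _ hx hy => rw [← mul_assoc, hx, mul_assoc, hy, mul_assoc]

theorem Fld1_inj {G : Type} [Group G] {p : ℕ} [Fact p.Prime] {S : Type} [AddCommGroup S]
    [Module (ZMod p) S] (ρ : Representation (ZMod p) G S) (hI : Irr ρ)
    (b : Module.End (ZMod p) S) (hb : ∀ g, ρ g * b = b * ρ g) (h0 : b ≠ 0) :
    Function.Injective b := by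
  rw [← LinearMap.ker_eq_bot]
  have hinv : ∀ g : G, ∀ w ∈ LinearMap.ker b, ρ g w ∈ LinearMap.ker b := by
    intro g w hw
    rw [LinearMap.mem_ker] at hw ⊢
    have h1 := LinearMap.congr_fun (hb g) w
    rw [Module.End.mul_apply, Module.End.mul_apply, hw, map_zero] at h1
    exact h1.symm
  rcases hI.2 (LinearMap.ker b) hinv with h | h
  · exact h
  · exact absurd (LinearMap.ker_eq_top.1 h) h0

theorem pFld1 : S_Fld1 := by
  intro G _ p _ S _ _ _ ρ hI hc
  let B : Subalgebra (ZMod p) (Module.End (ZMod p) S) :=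
    Algebra.adjoin (ZMod p) (Set.range (fun g : G => ρ g))
  have hB : ∀ b ∈ B, b ≠ 0 → Function.Injective b := fun b hb h0 =>
    Fld1_inj ρ hI b (fun g => Fld1_comm ρ hc g b hb) h0
  obtain ⟨v, hv⟩ := hI.1
  have : Finite (Module.End (ZMod p) S) := DFunLike.finite _
  have : Finite B := Subtype.finite
  have h10 : (1 : Module.End (ZMod p) S) ≠ 0 := by
    intro h
    apply hv
    have := LinearMap.congr_fun h v
    simpa using this
  have hnt : Nontrivial B := ⟨⟨1, 0, fun h => h10 (congrArg Subtype.val h)⟩⟩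
  have hnz : NoZeroDivisors B := by
    refine ⟨fun {a b} hab => ?_⟩
    by_contra hn
    rw [not_or] at hn
    have ha : (a : Module.End (ZMod p) S) ≠ 0 := fun h => hn.1 (Subtype.ext h)
    have hb : (b : Module.End (ZMod p) S) ≠ 0 := fun h => hn.2 (Subtype.ext h)
    have h1 : (a : Module.End (ZMod p) S) * (b : Module.End (ZMod p) S) = 0 :=
      congrArg Subtype.val hab
    apply hb
    ext s
    have h2 := LinearMap.congr_fun h1 s
    rw [Module.End.mul_apply, LinearMap.zero_apply] at h2
    rw [LinearMap.zero_apply]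
    exact hB a a.2 ha (h2.trans (map_zero _).symm)
  have hdom : IsDomain B := NoZeroDivisors.to_isDomain B
  have hf : IsField B := Finite.isDomain_to_isField B
  have hch : CharP B p := charP_of_injective_algebraMap (algebraMap (ZMod p) B).injective p
  let e : G →* B :=
    { toFun := fun g => ⟨ρ g, Algebra.subset_adjoin ⟨g, rfl⟩⟩
      map_one' := Subtype.ext (map_one ρ)
      map_mul' := fun g h => Subtype.ext (map_mul ρ g h) }
  exact ⟨B, hf.toField, hch, inferInstance, e, B.val.toRingHom, fun g => rfl⟩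

end Pool.Agent.DI.PI
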