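import Pool.Agent.Lib.DI.PI.SpecC

/-!
# THEOREM DI, Part I: Galois theory for nice groups (author helper24)
-/

set_option autoImplicit false

open scoped Pointwise

namespace Pool.Agent.DI.PI

open Pool.Agent.MuZ Pool.Agent.DI

theorem pGalH : S_GalH := by
  intro h1 h8 N H hN hH
  obtain ⟨hf, hK, hG⟩ := h8 N H hN hH.neg hH.cop hH.per hH.mul
  have hmem : ∀ τ ∈ GK, ∀ a, Psi τ N a → (τ ∈ (FixH N H).fixingSubgroup ↔ H a) := by
    intro τ hτ a ha
    rw [← hG τ hτ a ha, IntermediateField.mem_fixingSubgroup_iff]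
  refine ⟨hf, hK, ?_, ?_, hmem, ?_⟩
  · exact IntermediateField.fixingSubgroup_le hK
  · intro τ hτ
    constructor
    · intro h
      obtain ⟨a, ha⟩ := h1.1 τ hτ N hN
      exact ⟨a, ha, (hmem τ hτ a ha).1 h⟩
    · rintro ⟨a, ha, hHa⟩
      exact (hmem τ hτ a ha).2 hHa
  · intro x hx τ hτ a ha hHa
    exact hx τ hτ ⟨a, ha, hHa⟩

end Pool.Agent.DI.PI
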