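import Pool.Agent.Lib.DI.PI.SpecC
import Pool.Agent.Lib.MuZ.AsmA
import Pool.Agent.Lib.MuZ.Inst

/-!
# THEOREM DI, Part I, module HypC (helper86): the hypothesis of the descent for `Lf f`
-/

set_option autoImplicit false

open scoped Pointwise

namespace Pool.Agent.DI.PI

open Pool.Agent.MuZ Pool.Agent.DI

private theorem HypC_nice : Nice 1 (fun _ => True) := by
  refine ⟨trivial, fun v _ => ?_, fun _ _ _ => trivial, fun _ _ _ _ => trivial⟩
  unfold Cop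
  rw [Nat.cast_one]
  exact isCoprime_one_right

private theorem HypC_KQ (hGalH : S_GalH) (hE1 : S_E1) (hE8 : S_E8) :
    FixH 1 (fun _ => True) = KQ := by
  apply le_antisymm
  · intro x hx
    have h1 : x ∈ IntermediateField.fixedField KQ.fixingSubgroup := by
      rintro ⟨τ, hτ⟩
      obtain ⟨a, ha⟩ := hE1.1 τ hτ 1 one_pos
      exact hx τ hτ a ha trivial
    rwa [InfiniteGalois.fixedField_fixingSubgroup] at h1
  · exact (hGalH hE1 hE8 1 (fun _ => True) one_pos HypC_nice).2.1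

theorem pHypC : S_HypC := by
  intro hExP hChi hExT hMInv hMNrm hMNv hKap hTei hPs hGalH hNiL hAr1 hAr2 hAr3 hA1 hB2 hE1 hE7
    hE8 hG3 hH hG hly hlu f hf h7
  have hfpos : 0 < f := hf.pos
  obtain ⟨⟨P, hAb⟩, hExP2⟩ := hExP hA1
  obtain ⟨h2P, hNpr, hMP2⟩ := hExP2 P hAb
  have hnice : Nice f (Hf f) := (hAr3 hAr1 f hf).2.2.1
  have hfdL : FiniteDimensional ℚ (Lf f) := (hGalH hE1 hE8 f (Hf f) hfpos hnice).1
  have hlayL : ∀ n : ℕ, Layer 2 (Lf f) n (Ln f (n + 2)) := fun n => hly f (Hf f) hf hnice n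
  have hlayL' : ∀ (n : ℕ) (F : IntermediateField ℚ Om), Layer 2 (Lf f) n F → F = Ln f (n + 2) :=
    fun n F hF => hlu (Lf f) hfdL n F _ hF (hlayL n)
  have hKQ := HypC_KQ hGalH hE1 hE8
  have hfdK : FiniteDimensional ℚ KQ := by
    have h1 := (hGalH hE1 hE8 1 (fun _ => True) one_pos HypC_nice).1
    rwa [hKQ] at h1
  have hlayK : ∀ (n : ℕ) (E : IntermediateField ℚ Om), Layer 2 KQ n E →
      E = LyH 1 n (fun _ => True) := by
    intro n E hE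
    have h1 := hly 1 (fun _ => True) odd_one HypC_nice n
    rw [hKQ] at h1
    exact hlu KQ hfdK n E _ hE h1
  refine ⟨P, hAb.1, by exact_mod_cast h2P, ?_⟩
  intro χb hmul hone hnt
  obtain ⟨χ, hχ, hχne, hχb⟩ := hChi hTei hPs hGalH hAr1 hAr3 hB2 hE1 hE7 hE8 f hf P hAb.1 h2P χb
    hmul hone hnt
  obtain ⟨μ, S, N, T, v0, d, hcop, hhalf, hN, hT, hv0, hdec, hfix, hfi, hD⟩ :=
    hG f (fun v => (χ v : Om)) P hf h7 hχ hAb hχne
  obtain ⟨n0, rfl⟩ : ∃ n0, N = n0 + 2 := ⟨N - 2, by omega⟩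
  choose T' hT' using fun n : ℕ => hExT hAr1 hAr3 f (n + 2) hf
  have hGD : GDat f P μ S v0 d T' := ⟨hf, h7, hAb, hcop, hhalf, hv0, hdec, hfix, hfi, hT'⟩
  refine ⟨n0, aa f μ S v0 d T', ⟨?_, ?_, ?_, ?_⟩⟩
  · intro n _ F hF σ hσ τ hτ
    rw [hlayL' n F hF] at hτ
    exact (hMInv hG3 hE1 hAr1 f P μ S v0 d T' hGD n σ hσ).1 τ hτ
  · intro n _ F F' hF hF' σ hσ R hR
    rw [hlayL' n F hF, hlayL' (n + 1) F' hF'] at hR
    exact hMNrm hMInv hG3 hKap hGalH hPs hAr1 hAr3 hB2 hE1 hE8 f P μ S v0 d T' hGD hlayL n σ hσ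
      R hR
  · intro n _ F hF g hg τ hτ R hR
    rw [hlayL' n F hF] at hg hτ hR
    exact hH f μ S (n + 2) (T' n) hf h7 hcop hhalf (by omega) (hT' n) v0 hv0 g hg P d hNpr hMP2
      hdec ((mem_fix _ d).2 (hfix (n + 2))) hfi R hR.mem hR.ex hR.uni τ hτ
  · intro E F hE hF R hR
    rw [hlayK n0 E hE, hlayL' n0 F hF] at hR
    exact hMNv hMInv hG3 hGalH hNiL hPs hAr1 hAr2 hAr3 hB2 hE1 hE7 hE8 f P μ S v0 d T' hGD χb χ
      hχb n0 T hT hD R hR

end Pool.Agent.DI.PI
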