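import Pool.Agent.Lib.DI.PI.SpecB

/-!
# JCh: finite fields embed into `ZZ / P`
-/

set_option autoImplicit false

open scoped Pointwise

noncomputable section

namespace Pool.Agent.DI.PI

open Pool.Agent.MuZ

private theorem JCh_max (p : ℕ) [hp : Fact p.Prime] (P : Ideal ZZ) (hP : P.IsPrime)
    (h : (p : ZZ) ∈ P) : P.IsMaximal := by
  have := hP
  have hcp : (P.comap (algebraMap ℤ ZZ)).IsPrime := Ideal.comap_isPrime _ P
  have h1 : (Ideal.span {(p : ℤ)}).IsMaximal :=
    PrincipalIdealRing.isMaximal_of_irreducible (Nat.prime_iff_prime_int.mp hp.out).irreducible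
  have hle : Ideal.span {(p : ℤ)} ≤ P.comap (algebraMap ℤ ZZ) := by
    rw [Ideal.span_singleton_le_iff_mem, Ideal.mem_comap]
    simpa using h
  have h2 : Ideal.span {(p : ℤ)} = P.comap (algebraMap ℤ ZZ) := h1.eq_of_le hcp.ne_top hle
  exact Ideal.isMaximal_of_isIntegral_of_isMaximal_comap P (h2 ▸ h1)

private theorem JCh_closed (P : Ideal ZZ) [P.IsMaximal] (K : Type) [Field K]
    (f : ZZ →+* K) (hf : Function.Surjective f) : IsAlgClosed K := by
  apply IsAlgClosed.of_exists_root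
  intro g hg hirr
  have hl : g ∈ Polynomial.lifts f := by
    rw [Polynomial.lifts_iff_coeff_lifts]
    intro n
    exact hf _
  obtain ⟨q, hq1, hq2, hq3⟩ := Polynomial.lifts_and_natDegree_eq_and_monic hl hg
  have hdeg : (q.map (algebraMap ZZ Om)).degree ≠ 0 := by
    have hm : (q.map (algebraMap ZZ Om)).Monic := hq3.map _
    intro h0
    have h1 : (q.map (algebraMap ZZ Om)).natDegree = 0 := Polynomial.natDegree_eq_of_degree_eq_some h0
    rw [hq3.natDegree_map] at h1
    have h2 := hirr.natDegree_pos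
    omega
  obtain ⟨x, hx⟩ := IsAlgClosed.exists_root _ hdeg
  have hint : IsIntegral ZZ x := by
    refine ⟨q, hq3, ?_⟩
    rw [Polynomial.IsRoot.def, Polynomial.eval_map] at hx
    exact hx
  have hint2 : IsIntegral ℤ x := isIntegral_trans x hint
  obtain ⟨z, hz⟩ : ∃ z : ZZ, (z : Om) = x := ⟨⟨x, (show x ∈ integralClosure ℤ Om from hint2)⟩, rfl⟩
  refine ⟨f z, ?_⟩
  have h3 : Polynomial.eval₂ (RingHom.id ZZ) z q = 0 := by
    apply Subtype.ext
    rw [Polynomial.IsRoot.def, Polynomial.eval_map] at hx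
    have h4 := Polynomial.hom_eval₂ q (RingHom.id ZZ) (algebraMap ZZ Om) z
    rw [RingHom.comp_id] at h4
    have h5 : (algebraMap ZZ Om) z = x := hz
    rw [h5, hx] at h4
    exact h4
  have h6 := Polynomial.hom_eval₂ q (RingHom.id ZZ) f z
  rw [RingHom.comp_id, h3, map_zero] at h6
  rw [← hq1, Polynomial.eval_map]
  exact h6.symm

/-- Finite fields of characteristic `p` embed into `ZZ / P`. -/
theorem pJCh : S_JCh := by
  intro p hp P hP hpP F _ _ _
  have : P.IsMaximal := JCh_max p P hP hpP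
  let : Field (ZZ ⧸ P) := Ideal.Quotient.field P
  have : IsAlgClosed (ZZ ⧸ P) := JCh_closed P (ZZ ⧸ P) (Ideal.Quotient.mk P) Ideal.Quotient.mk_surjective
  have h0 : ((p : ℕ) : ZZ ⧸ P) = 0 := by
    have := Ideal.Quotient.eq_zero_iff_mem.mpr hpP
    simpa using this
  have : CharP (ZZ ⧸ P) p := by
    obtain ⟨q, hq⟩ := CharP.exists (ZZ ⧸ P)
    have hd : q ∣ p := (CharP.cast_eq_zero_iff (ZZ ⧸ P) q p).mp h0
    rcases (Nat.dvd_prime hp.out).mp hd with h1 | h1
    · subst h1
      exact absurd rfl (CharP.char_ne_one (ZZ ⧸ P) 1)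
    · exact h1 ▸ hq
  let : Algebra (ZMod p) F := ZMod.algebra F p
  let : Algebra (ZMod p) (ZZ ⧸ P) := ZMod.algebra (ZZ ⧸ P) p
  have : Module.Finite (ZMod p) F := Module.Finite.of_finite
  have : Algebra.IsAlgebraic (ZMod p) F := Algebra.IsAlgebraic.of_finite (ZMod p) F
  exact ⟨(IsAlgClosed.lift : F →ₐ[ZMod p] (ZZ ⧸ P)).toRingHom⟩

end Pool.Agent.DI.PI
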