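import Pool.Agent.Lib.DI.PI.SpecB
import Pool.Agent.Lib.MuZ.Tr
import Pool.Agent.Lib.MuZ.Inst

/-!
# THEOREM DI, Part I, module JCor (helper86): from `Meas` to `Core`
-/

set_option autoImplicit false

open scoped Pointwise

namespace Pool.Agent.DI.PI

open Pool.Agent.MuZ

/-- The inclusion of a subgroup as an embedding. -/
private def JCor_emb {G : Type} [Group G] (K : Subgroup G) : K ↪ G :=
  ⟨Subtype.val, Subtype.val_injective⟩

private theorem JCor_reps {G : Type} [Group G] (K W H : Subgroup G) (hW : W ≤ K) (R : Finset K)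
    (hR : Reps (W.subgroupOf K) (H.subgroupOf K) R) : Reps W H (R.map (JCor_emb K)) := by
  refine ⟨?_, ?_, ?_⟩
  · intro r hr
    obtain ⟨x, hx, rfl⟩ := Finset.mem_map.1 hr
    exact hR.mem x hx
  · intro g hg
    obtain ⟨r, hr, h⟩ := hR.ex ⟨g, hW hg⟩ hg
    exact ⟨(r : G), Finset.mem_map.2 ⟨r, hr, rfl⟩, h⟩
  · intro r hr r' hr' h
    obtain ⟨x, hx, rfl⟩ := Finset.mem_map.1 hr
    obtain ⟨x', hx', rfl⟩ := Finset.mem_map.1 hr'
    rw [hR.uni x hx x' hx' h]

private theorem JCor_sum {G A : Type} [Group G] [AddCommMonoid A] (K : Subgroup G)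
    (R : Finset K) (f : G → A) : ∑ r ∈ R.map (JCor_emb K), f r = ∑ r ∈ R, f (r : G) :=
  Finset.sum_map R (JCor_emb K) f

/-- The image of the cast of a natural number times an operator. -/
private theorem JCor_cast {p : ℕ} [Fact p.Prime] {S : Type} [AddCommGroup S] [Module (ZMod p) S]
    (c : ZMod p) (T : Module.End (ZMod p) S) :
    ((c.val : ℕ) : Module.End (ZMod p) S) * T = c • T := by
  rw [← nsmul_eq_mul, ← Nat.cast_smul_eq_nsmul (ZMod p), ZMod.natCast_zmod_val]

theorem pJCor : S_JCor := by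
  classical
  intro hJCh hFld1 hRpS hLev hVal hEle p _ K L hL hKL γ Y hsit hlay hHyp S _ _ _ ρ hirr htriv hnt
  haveI hL' : FiniteDimensional ℚ L := hL
  haveI hK : FiniteDimensional ℚ K :=
    FiniteDimensional.of_injective (IntermediateField.inclusion hKL).toLinearMap
      (IntermediateField.inclusion hKL).injective
  have hKc : IsClosed (K.fixingSubgroup : Set Gal(Om/ℚ)) :=
    IntermediateField.fixingSubgroup_isClosed K
  have hKo : IsOpen (K.fixingSubgroup : Set Gal(Om/ℚ)) := K.fixingSubgroup_isOpen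
  haveI : CompactSpace K.fixingSubgroup := isCompact_iff_compactSpace.1 hKc.isCompact
  haveI : TotallyDisconnectedSpace K.fixingSubgroup := inferInstance
  haveI : T2Space K.fixingSubgroup := inferInstance
  have hLK : L.fixingSubgroup ≤ K.fixingSubgroup := IntermediateField.fixingSubgroup_le hKL
  obtain ⟨-, -, -, hmono⟩ := hEle hLev hVal K.fixingSubgroup p _ _ γ Y hsit
  -- the field of the representation
  have hcomm : ∀ g h : K.fixingSubgroup, ρ (g * h) = ρ (h * g) := by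
    intro g h
    have h1 : g * h = (g * h * g⁻¹ * h⁻¹) * (h * g) := by group
    rw [h1, map_mul, htriv _ (Subgroup.mem_subgroupOf.1 (hsit.comm g h)), one_mul]
  obtain ⟨F', iF, iC, iFin, e, i, hie⟩ := hFld1 K.fixingSubgroup p S ρ hirr hcomm
  letI : Field F' := iF
  haveI : CharP F' p := iC
  haveI : Finite F' := iFin
  haveI : Nontrivial S := by
    obtain ⟨v, hv⟩ := hirr.1
    exact ⟨v, 0, hv⟩
  have hiinj : Function.Injective i := i.injective
  obtain ⟨P, hP, hpP, hmeas⟩ := hHyp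
  haveI : P.IsPrime := hP
  obtain ⟨j⟩ := hJCh p P hP hpP F'
  haveI : Nontrivial (ZZ ⧸ P) := Ideal.Quotient.nontrivial_iff.2 hP.ne_top
  have hjinj : Function.Injective j := j.injective
  let χ : Gal(Om/ℚ) → ZZ ⧸ P := fun σ =>
    if h : σ ∈ K.fixingSubgroup then j (e ⟨σ, h⟩) else 1
  have hχ : ∀ g : K.fixingSubgroup, χ (g : Gal(Om/ℚ)) = j (e g) := by
    intro g
    simp only [χ, g.2, dif_pos]
  have hone : ∀ g : K.fixingSubgroup, χ (g : Gal(Om/ℚ)) = 1 ↔ ρ g = 1 := by
    intro g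
    rw [hχ g, ← hie g]
    constructor
    · intro h
      have h1 : e g = 1 := hjinj (by rw [h, map_one])
      rw [h1, map_one]
    · intro h
      have h1 : e g = 1 := hiinj (by rw [h, map_one])
      rw [h1, map_one]
  obtain ⟨n0, a, hM⟩ := hmeas χ
    (by
      intro σ hσ τ hτ
      have h1 := hχ (⟨σ, hσ⟩ * ⟨τ, hτ⟩)
      have h2 := hχ ⟨σ, hσ⟩
      have h3 := hχ ⟨τ, hτ⟩
      rw [map_mul, map_mul, ← h2, ← h3] at h1
      exact h1)
    (by
      intro σ hσ
      exact (hone ⟨σ, hLK hσ⟩).2 (htriv ⟨σ, hLK hσ⟩ hσ))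
    (by
      obtain ⟨g, hg⟩ := hnt
      exact ⟨g, g.2, fun h => hg ((hone g).1 h)⟩)
  -- the layers of L
  have hF : ∀ n : ℕ, ∃ F : IntermediateField ℚ Om, Layer p L n F ∧ K ≤ F ∧
      FiniteDimensional ℚ F ∧ tr K F = Y n ⊓ tr K L := by
    intro n
    obtain ⟨-, -, ⟨F, hF⟩, h4⟩ := hlay n
    obtain ⟨h5, h6, h7⟩ := h4 F hF
    exact ⟨F, hF, h5, h6, h7⟩
  have hinv : ∀ n, n0 ≤ n → ∀ g : K.fixingSubgroup, ∀ u ∈ Y n ⊓ tr K L,
      a n ((g * u : K.fixingSubgroup) : Gal(Om/ℚ)) = a n (g : Gal(Om/ℚ)) := by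
    intro n hn g u hu
    obtain ⟨F, hF1, -, -, hF4⟩ := hF n
    rw [← hF4] at hu
    exact hM.inv n hn F hF1 g g.2 u hu
  have hfi : ∀ n m : ℕ, (Y n ⊓ tr K L).relIndex (Y m ⊓ tr K L) ≠ 0 := by
    intro n m
    have h1 : IsOpen ((Y n ⊓ tr K L : Subgroup K.fixingSubgroup) : Set K.fixingSubgroup) :=
      (hsit.yo n).inter hsit.dopen
    haveI : Finite (K.fixingSubgroup ⧸ (Y n ⊓ tr K L)) :=
      Subgroup.quotient_finite_of_isOpen _ h1
    haveI : (Y n ⊓ tr K L).FiniteIndex := Subgroup.finiteIndex_of_finite_quotient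
    exact (inferInstance : ((Y n ⊓ tr K L).subgroupOf (Y m ⊓ tr K L)).FiniteIndex).index_ne_zero
  refine ⟨n0, fun n g => a n (g : Gal(Om/ℚ)), ⟨hinv, ?_, ?_, ?_⟩⟩
  · -- compatibility
    have key : ∀ k : ℕ, ∃ R : Finset K.fixingSubgroup,
        Reps (Y n0 ⊓ tr K L) (Y (n0 + k) ⊓ tr K L) R ∧ ∀ g : K.fixingSubgroup,
          ∑ r ∈ R, a (n0 + k) ((g * r : K.fixingSubgroup) : Gal(Om/ℚ)) =
            a n0 (g : Gal(Om/ℚ)) := by
      intro k
      induction k with
      | zero =>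
        refine ⟨{1}, ⟨?_, ?_, ?_⟩, ?_⟩
        · intro r hr
          rw [Finset.mem_singleton.1 hr]
          exact one_mem _
        · intro g hg
          refine ⟨1, Finset.mem_singleton_self 1, ?_⟩
          rw [inv_one, one_mul]
          exact hg
        · intro r hr r' hr' _
          rw [Finset.mem_singleton.1 hr, Finset.mem_singleton.1 hr']
        · intro g
          rw [Finset.sum_singleton, mul_one]
          rfl
      | succ k ih =>
        obtain ⟨R, hR, hsum⟩ := ih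
        have hle : Y (n0 + (k + 1)) ⊓ tr K L ≤ Y (n0 + k) ⊓ tr K L :=
          inf_le_inf_right _ (hmono _ _ (by omega))
        have hle0 : Y (n0 + k) ⊓ tr K L ≤ Y n0 ⊓ tr K L :=
          inf_le_inf_right _ (hmono _ _ (by omega))
        obtain ⟨-, -, h3⟩ := hRpS K.fixingSubgroup _ _ _ hle (le_refl _)
        obtain ⟨R', hR'⟩ := h3 (hfi _ _)
        obtain ⟨-, h2, -⟩ := hRpS K.fixingSubgroup _ _ _ hle0 hle
        obtain ⟨R'', hR'', hs⟩ := h2 R R' hR hR'
        refine ⟨R'', hR'', ?_⟩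
        intro g
        rw [hs (ZMod p) (fun r => a (n0 + (k + 1)) ((g * r : K.fixingSubgroup) : Gal(Om/ℚ))),
          ← hsum g]
        refine Finset.sum_congr rfl fun r _ => ?_
        obtain ⟨F, hF1, hF2, -, hF4⟩ := hF (n0 + k)
        obtain ⟨F1, hG1, -, -, hG4⟩ := hF (n0 + (k + 1))
        have hR1 : Reps F.fixingSubgroup F1.fixingSubgroup
            (R'.map (JCor_emb K.fixingSubgroup)) := by
          apply JCor_reps _ _ _ (IntermediateField.fixingSubgroup_le hF2)
          rw [← hF4, ← hG4] at hR'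
          exact hR'
        have h5 := hM.nrm (n0 + k) (by omega) F F1 hF1 hG1 ((g * r : K.fixingSubgroup) :
          Gal(Om/ℚ)) (g * r).2 _ hR1
        rw [JCor_sum] at h5
        rw [← h5]
        refine Finset.sum_congr rfl fun s _ => ?_
        rw [← mul_assoc]
        rfl
    intro n hn g R hR
    obtain ⟨k, rfl⟩ := Nat.exists_eq_add_of_le hn
    obtain ⟨R0, hR0, hsum⟩ := key k
    have hle0 : Y (n0 + k) ⊓ tr K L ≤ Y n0 ⊓ tr K L :=
      inf_le_inf_right _ (hmono _ _ (by omega))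
    obtain ⟨h1, -, -⟩ := hRpS K.fixingSubgroup _ _ _ hle0 (le_refl _)
    have h2 := h1 (ZMod p) (fun r => a (n0 + k) ((g * r : K.fixingSubgroup) : Gal(Om/ℚ)))
      (by
        intro x _ u hu
        change a (n0 + k) ((g * (x * u) : K.fixingSubgroup) : Gal(Om/ℚ)) = _
        rw [← mul_assoc]
        exact hinv (n0 + k) (by omega) (g * x) u hu) R R0 hR hR0
    exact h2.trans (hsum g)
  · -- annihilation
    intro n hn f hf τ hτ R hR
    obtain ⟨F, hF1, hF2, -, hF4⟩ := hF n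
    have hFK : F.fixingSubgroup ≤ K.fixingSubgroup := IntermediateField.fixingSubgroup_le hF2
    rw [← hF4] at hf hτ hR
    have hf' : f ∈ VV p ((fun Λ => Λ.subgroupOf K.fixingSubgroup) '' Loc p)
        (F.fixingSubgroup.subgroupOf K.fixingSubgroup) := hf
    obtain ⟨f1, hf1⟩ : ∃ f1 : VV p (Loc p) F.fixingSubgroup,
        ∀ g : K.fixingSubgroup, f1.1 (g : Gal(Om/ℚ)) = f g := by
      refine ⟨(Tr.eqv K.fixingSubgroup p hKo (Loc p) F.fixingSubgroup hFK).symm ⟨f, hf'⟩, ?_⟩
      intro g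
      have h1 := (Tr.eqv K.fixingSubgroup p hKo (Loc p) F.fixingSubgroup hFK).apply_symm_apply
        ⟨f, hf'⟩
      exact congrFun (congrArg Subtype.val h1) g
    have hR1 : Reps K.fixingSubgroup F.fixingSubgroup (R.map (JCor_emb K.fixingSubgroup)) := by
      apply JCor_reps _ _ _ (le_refl _)
      rw [Subgroup.subgroupOf_self]
      exact hR
    have h1 := hM.thm n hn F hF1 f1.1 f1.2 (τ : Gal(Om/ℚ)) hτ _ hR1
    rw [JCor_sum] at h1
    rw [← h1]
    refine Finset.sum_congr rfl fun r _ => ?_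
    have h2 := hf1 (r * τ * r⁻¹)
    rw [← h2]
    rfl
  · -- nonvanishing
    intro R hR h0
    obtain ⟨⟨E, hE1, hE2⟩, -, -, -⟩ := hlay n0
    obtain ⟨F, hF1, -, -, hF4⟩ := hF n0
    have hEK : E.fixingSubgroup ≤ K.fixingSubgroup := IntermediateField.fixingSubgroup_le hE1.1
    have hR1 : Reps E.fixingSubgroup F.fixingSubgroup
        (R.map (JCor_emb K.fixingSubgroup)) := by
      apply JCor_reps _ _ _ hEK
      rw [← hF4, ← hE2] at hR
      exact hR
    apply hM.nv E F hE1 hF1 _ hR1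
    rw [JCor_sum]
    have h1 : i (∑ r ∈ R, (((a n0 (r : Gal(Om/ℚ))).val : ℕ) : F') * e r) = 0 := by
      rw [map_sum, ← h0]
      refine Finset.sum_congr rfl fun r _ => ?_
      rw [map_mul, map_natCast, hie, JCor_cast]
    have h2 : ∑ r ∈ R, (((a n0 (r : Gal(Om/ℚ))).val : ℕ) : F') * e r = 0 :=
      hiinj (by rw [h1, map_zero])
    have h3 := congrArg j h2
    rw [map_sum, map_zero] at h3
    rw [← h3]
    refine Finset.sum_congr rfl fun r _ => ?_
    rw [map_mul, map_natCast, hχ]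

end Pool.Agent.DI.PI
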