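import Pool.Agent.Lib.DI.PI.SpecB
import Pool.Agent.Lib.MuZ.Tr

set_option autoImplicit false

/-!
# THEOREM DI, Part I: finitely many characters unramified outside `p`
-/

open scoped Pointwise

noncomputable section

namespace Pool.Agent.DI.PI

open Pool.Agent.MuZ

theorem pJKF : S_JKF := by
  classical
  intro hInT hKF p _ K F hF hKF'
  have hF' : FiniteDimensional ℚ F := hF
  have hK : FiniteDimensional ℚ K :=
    FiniteDimensional.of_injective (IntermediateField.inclusion hKF').toLinearMap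
      (IntermediateField.inclusion hKF').injective
  have hKo : IsOpen (K.fixingSubgroup : Set Gal(Om/ℚ)) := K.fixingSubgroup_isOpen
  have hW : F.fixingSubgroup ≤ K.fixingSubgroup := IntermediateField.fixingSubgroup_le hKF'
  have hfin := hKF p F hF
  let E : VV p {Λ | Λ ∈ LocK p K ∧ Λ ≤ tr K (cyc p K)} (tr K F) →
      VV p (Pool.Agent.FW.LocO p) F.fixingSubgroup := fun f =>
    ⟨fun g => if h : g ∈ K.fixingSubgroup then f.1 ⟨g, h⟩ else 0, by
      obtain ⟨f, f1, f2, ⟨O, f3⟩, f4⟩ := f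
      refine ⟨fun g hg => ?_, fun g hg h hh => ?_, ⟨Tr.up K.fixingSubgroup hKo O,
        fun g hg hO => ?_⟩, ?_⟩
      · by_cases h : g ∈ K.fixingSubgroup
        · simp only [h, dif_pos]
          exact f1 _ hg
        · simp [h]
      · have h1 := hW hg
        have h2 := hW hh
        have h3 := K.fixingSubgroup.mul_mem h1 h2
        simp only [h1, h2, h3, dif_pos]
        exact f2 ⟨g, h1⟩ hg ⟨h, h2⟩ hh
      · have h1 := hW hg
        simp only [h1, dif_pos]
        exact f3 ⟨g, h1⟩ hg ((Tr.mem_up K.fixingSubgroup hKo O ⟨g, h1⟩).1 hO)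
      · rintro Λ ⟨P, hP, hP0, hpP, rfl⟩ g hg hgW
        have h1 := hW hgW
        simp only [h1, dif_pos]
        refine f4 ((P.inertia Gal(Om/ℚ)).subgroupOf K.fixingSubgroup)
          ⟨⟨P.inertia Gal(Om/ℚ), Or.inl ⟨P, hP, hP0, rfl⟩, rfl⟩, ?_⟩ ⟨g, h1⟩ hg hgW
        intro x hx
        rw [Subgroup.mem_subgroupOf] at hx
        rw [Subgroup.mem_subgroupOf, fix_cyc]
        exact ⟨x.2, hInT p Fact.out P hP hpP hx⟩⟩
  refine Finite.of_injective E ?_
  intro f f' hff
  apply Subtype.ext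
  funext g
  have h1 := congrFun (congrArg Subtype.val hff) (g : Gal(Om/ℚ))
  have h2 : (E f).1 (g : Gal(Om/ℚ)) = f.1 g := by
    show (if h : (g : Gal(Om/ℚ)) ∈ K.fixingSubgroup then f.1 ⟨g, h⟩ else 0) = _
    rw [dif_pos g.2]
  have h3 : (E f').1 (g : Gal(Om/ℚ)) = f'.1 g := by
    show (if h : (g : Gal(Om/ℚ)) ∈ K.fixingSubgroup then f'.1 ⟨g, h⟩ else 0) = _
    rw [dif_pos g.2]
  rw [← h2, ← h3]
  exact h1

end Pool.Agent.DI.PI
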