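import Pool.Agent.Lib.DI.PI.SpecB
import Pool.Agent.Lib.MuZ.AsmA

/-!
THEOREM DI, part I, module JLay: the layers of `K^cyc` and `L^cyc` as subgroups of `Gal(Om/K)`.
-/

set_option autoImplicit false

open scoped Pointwise

noncomputable section

namespace Pool.Agent.DI.PI

open Pool.Agent.MuZ

private theorem JLay_gq {G : Type} [Group G] [TopologicalSpace G] [IsTopologicalGroup G] (p : ℕ)
    (N D : Subgroup G) (γ : G) (hD : IsOpen (D : Set G)) (hγ : γ ∈ D)
    (h : Gq p ⊤ N γ) : Gq p D (N ⊓ D) γ where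
  mem := hγ
  le := inf_le_right
  nrm := fun y hy n hn => ⟨h.nrm y (Subgroup.mem_top y) n hn.1,
    D.mul_mem (D.mul_mem hy hn.2) (D.inv_mem hy)⟩
  cloY := Subgroup.isClosed_of_isOpen D hD
  cloN := by
    have h1 := h.cloN.inter (Subgroup.isClosed_of_isOpen D hD)
    exact h1
  gen := by
    intro y hy O
    obtain ⟨j, t, ht, hO⟩ := h.gen y (Subgroup.mem_top y) (O ⊓ ⟨D, hD⟩)
    have hO1 : y⁻¹ * γ ^ j * t ∈ O := hO.1
    have hO2 : y⁻¹ * γ ^ j * t ∈ D := hO.2
    refine ⟨j, t, ⟨ht, ?_⟩, hO1⟩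
    have h2 : y⁻¹ * γ ^ j ∈ D := D.mul_mem (D.inv_mem hy) (D.pow_mem hγ j)
    exact (Subgroup.mul_mem_cancel_left D h2).1 hO2
  quo := by
    intro y hy O
    obtain ⟨a, t, ht, hO⟩ := h.quo y (Subgroup.mem_top y) (O ⊓ ⟨D, hD⟩)
    have hO1 : y ^ p ^ a * t ∈ O := hO.1
    have hO2 : y ^ p ^ a * t ∈ D := hO.2
    exact ⟨a, t, ⟨ht, (Subgroup.mul_mem_cancel_left D (D.pow_mem hy _)).1 hO2⟩, hO1⟩
  inf := fun m hm h1 => h.inf m hm h1.1

theorem pJLay : S_JLay := by
  intro hUnq hLev hVal hEle hLay p _ K L hL hKL γ Y hs n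
  have hp : p.Prime := Fact.out
  have hK : FiniteDimensional ℚ K :=
    FiniteDimensional.of_injective (IntermediateField.inclusion hKL).toLinearMap
      (IntermediateField.inclusion hKL).injective
  have hKo : IsOpen (K.fixingSubgroup : Set Gal(Om/ℚ)) := IntermediateField.fixingSubgroup_isOpen K
  have hKc : IsClosed (K.fixingSubgroup : Set Gal(Om/ℚ)) := Subgroup.isClosed_of_isOpen _ hKo
  have i1 : CompactSpace K.fixingSubgroup := isCompact_iff_compactSpace.1 hKc.isCompact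
  have i2 : TotallyDisconnectedSpace K.fixingSubgroup := inferInstance
  have i3 : T2Space K.fixingSubgroup := inferInstance
  obtain ⟨hγ, hYl, hYj, hYm⟩ := hEle hLev hVal K.fixingSubgroup p (tr K (cyc p K)) (tr K L) γ Y hs
  obtain ⟨hlay1, hlay2⟩ := hLay p K hK
  obtain ⟨hlay3, hlay4⟩ := hLay p L hL
  have hLK : L.fixingSubgroup ≤ K.fixingSubgroup := IntermediateField.fixingSubgroup_le hKL
  have hpn : p ^ n ≠ 0 := (pow_pos hp.pos n).ne'
  -- the relative index of `Y n` in `D`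
  have hrel : (Y n).relIndex (tr K L) = p ^ n := by
    have hN : (Y n).Normal := (hYl n).1
    have hsup : tr K L ⊔ Y n = ⊤ := by
      rw [eq_top_iff]
      intro g _
      obtain ⟨j, t, ht, hO⟩ := hs.z.gen g (Subgroup.mem_top g) ⟨Y n, hs.yo n⟩
      have hO' : g⁻¹ * γ ^ j * t ∈ Y n := hO
      have h5 : g⁻¹ * γ ^ j ∈ Y n := (Subgroup.mul_mem_cancel_right (Y n) (hs.yn n ht)).1 hO'
      have h6 : γ ^ j ∈ tr K L ⊔ Y n := (tr K L ⊔ Y n).pow_mem (Subgroup.mem_sup_left hγ) j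
      have h7 : g⁻¹ * γ ^ j ∈ tr K L ⊔ Y n := Subgroup.mem_sup_right h5
      exact (inv_mem_iff).1 ((Subgroup.mul_mem_cancel_right (tr K L ⊔ Y n) h6).1 h7)
    rw [← Subgroup.relIndex_sup_right, hsup, Subgroup.relIndex_top_right, hs.yi n]
  refine ⟨hlay2 n (Y n) (hs.yo n) (hs.yn n) (hs.yi n), ?_, ?_, ?_⟩
  · intro F hF
    obtain ⟨h1, h2, h3⟩ := hlay1 n F hF
    refine hUnq K.fixingSubgroup p ⊤ (tr K (cyc p K)) γ hs.z.toGq (tr K F) (Y n) le_top le_top h1
      (hs.yo n) h2 (hs.yn n) ?_ ?_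
    · rw [Subgroup.relIndex_top_right, Subgroup.relIndex_top_right, hs.yi n]
      exact h3
    · rw [Subgroup.relIndex_top_right]
      change (F.fixingSubgroup.subgroupOf K.fixingSubgroup).index ≠ 0
      rw [h3]
      exact hpn
  · have hA : IsOpen (((Y n).map K.fixingSubgroup.subtype : Subgroup Gal(Om/ℚ)) :
        Set Gal(Om/ℚ)) := hKo.isOpenMap_subtype_val (Y n : Set K.fixingSubgroup) (hs.yo n)
    obtain ⟨F, hF, -⟩ := hlay4 n (((Y n).map K.fixingSubgroup.subtype).subgroupOf L.fixingSubgroup)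
      (hA.preimage continuous_subtype_val) (by
        intro g hg
        rw [Subgroup.mem_subgroupOf, fix_cyc] at hg
        have hgK : (g : Gal(Om/ℚ)) ∈ K.fixingSubgroup := hLK hg.1
        rw [Subgroup.mem_subgroupOf]
        refine ⟨⟨g, hgK⟩, hs.yn n ?_, rfl⟩
        change (g : Gal(Om/ℚ)) ∈ (cyc p K).fixingSubgroup
        rw [fix_cyc]
        exact ⟨hgK, hg.2⟩) (by
        change ((Y n).map K.fixingSubgroup.subtype).relIndex L.fixingSubgroup = p ^ n
        rw [← hrel, ← Subgroup.relIndex_map_map_of_injective (Y n) (tr K L)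
          K.fixingSubgroup.subtype_injective]
        congr 1
        exact (Subgroup.map_subgroupOf_eq_of_le hLK).symm)
    exact ⟨F, hF⟩
  · intro F hF
    have hF' := hF
    obtain ⟨hLF, hFc, hdeg⟩ := hF'
    have hpos : 0 < Module.finrank ℚ L := Module.finrank_pos
    have hFpos : 0 < Module.finrank ℚ F := by
      rw [hdeg]
      exact Nat.mul_pos (pow_pos hp.pos n) hpos
    have hFf : FiniteDimensional ℚ F := Module.finite_of_finrank_pos hFpos
    refine ⟨hKL.trans hLF, hFf, ?_⟩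
    obtain ⟨h1, h2, h3⟩ := hlay3 n F hF
    have hFL : F.fixingSubgroup ≤ L.fixingSubgroup := IntermediateField.fixingSubgroup_le hLF
    have hr1 : (tr K F).relIndex (tr K L) = p ^ n := by
      change (F.fixingSubgroup.subgroupOf K.fixingSubgroup).relIndex
        (L.fixingSubgroup.subgroupOf K.fixingSubgroup) = p ^ n
      rw [Subgroup.relIndex_subgroupOf hLK]
      exact h3
    refine hUnq K.fixingSubgroup p (tr K L) (tr K (cyc p K) ⊓ tr K L) γ
      (JLay_gq p _ _ γ hs.dopen hγ hs.z.toGq) (tr K F) (Y n ⊓ tr K L) ?_ inf_le_right ?_ ?_ ?_ ?_ ?_ ?_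
    · exact Subgroup.comap_mono hFL
    · exact (IntermediateField.fixingSubgroup_isOpen F).preimage continuous_subtype_val
    · exact (hs.yo n).inter hs.dopen
    · rintro g ⟨hg1, hg2⟩
      have hg1' : (g : Gal(Om/ℚ)) ∈ (cyc p K).fixingSubgroup := hg1
      have hg2' : (g : Gal(Om/ℚ)) ∈ L.fixingSubgroup := hg2
      rw [fix_cyc] at hg1'
      change (g : Gal(Om/ℚ)) ∈ F.fixingSubgroup
      apply IntermediateField.fixingSubgroup_le hFc
      rw [fix_cyc]
      exact ⟨hg2', hg1'.2⟩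
    · exact inf_le_inf (hs.yn n) le_rfl
    · rw [hr1, Subgroup.inf_relIndex_right, hrel]
    · rw [hr1]
      exact hpn

end Pool.Agent.DI.PI
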