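import Pool.Agent.Lib.DI.PI.SpecB
import Pool.Agent.Lib.MuZ.AsmA

set_option autoImplicit false

/-!
# THEOREM DI, Part I: the descent theorem, assembly
-/

open scoped Pointwise

noncomputable section

namespace Pool.Agent.DI.PI

open Pool.Agent.MuZ

theorem pJMain : S_JMain := by
  intro hC hSit hLayJ hJKF hCor hRel1 hFinW hBnd hUnq hEle hRep hRp2 hAlg1 hFld1 hRpS hJCh hQZ
    hSub hPL hPc hTFix hNF hVal hLev hSemi hUni hEB hLay hTr hLK hConj hInT hRam hFrob hPow hTot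
    hOrb hKFfin p _ K L hL hKL hnorm hcomm hcop hI hXK
  have hK : FiniteDimensional ℚ K :=
    FiniteDimensional.of_injective (IntermediateField.inclusion hKL).toLinearMap
      (IntermediateField.inclusion hKL).injective
  obtain ⟨γ, Y, hS⟩ := hSit hQZ hSub hPL hPc hTFix hNF hVal hLev p K L hL hKL hnorm hcomm hcop
  have hlay := hLayJ hUnq hLev hVal hEle hLay p K L hL hKL γ Y hS
  obtain ⟨-, -, hTr3⟩ := hTr hConj p K hK
  obtain ⟨-, -, -, hLK4, -⟩ := hLK hConj hInT hRam (hOrb hFrob hPow hTot) p K hK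
  have hKc : IsClosed (K.fixingSubgroup : Set Gal(Om/ℚ)) :=
    IntermediateField.fixingSubgroup_isClosed K
  have : CompactSpace K.fixingSubgroup := isCompact_iff_compactSpace.1 hKc.isCompact
  have : TotallyDisconnectedSpace K.fixingSubgroup := inferInstance
  have : T2Space K.fixingSubgroup := inferInstance
  rw [hC p K L hL hKL hnorm]
  intro S _ _ _ ρ hirr htriv
  by_cases hρ : ∃ g : K.fixingSubgroup, ρ g ≠ 1
  · have htr : ∀ g ∈ tr K L, ρ g = 1 := fun g hg => htriv g hg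
    obtain ⟨n0, a, hcore⟩ := hCor hJCh hFld1 hRpS hLev hVal hEle p K L hL hKL γ Y hS hlay hI S ρ
      hirr htriv hρ
    have hrel := hRel1 hLev hVal hEle hRep hRp2 hAlg1 hFld1 K.fixingSubgroup p (LocK p K)
      (tr K (cyc p K)) (tr K L) γ Y hS S ρ hirr htr n0 a hcore
    obtain ⟨-, -, ⟨F0, hF0⟩, hF0'⟩ := hlay n0
    obtain ⟨hKF0, hfin0, htr0⟩ := hF0' F0 hF0
    have hfinVV := hJKF hInT hKFfin p K F0 hfin0 hKF0
    rw [htr0] at hfinVV
    have hW := hFinW hLev hVal hSemi hEle K.fixingSubgroup p (LocK p K) (tr K (cyc p K))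
      (tr K L) γ Y hS n0 hfinVV S
    obtain ⟨C, hC'⟩ := hBnd hLev hVal hUni hEle hRep K.fixingSubgroup p (LocK p K)
      (tr K (cyc p K)) (tr K L) γ Y hS S ρ htr n0 hW hrel
    obtain ⟨b, hb⟩ := hEB K.fixingSubgroup p (PX p) (tr K (cyc p K)) hLK4 S ρ
    have hp : 1 < p := (Fact.out : p.Prime).one_lt
    have hlt : C + b < p ^ (n0 + (C + b)) :=
      lt_of_lt_of_le (Nat.lt_pow_self hp) (Nat.pow_le_pow_right (by omega) (by omega))
    obtain ⟨⟨F, hF, hFY⟩, -⟩ := hlay (n0 + (C + b))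
    refine ⟨n0 + (C + b), F, hF, Or.inl ?_⟩
    have hFY' : F.fixingSubgroup.subgroupOf K.fixingSubgroup = Y (n0 + (C + b)) := hFY
    obtain ⟨e1, e2⟩ := hTr3 S ρ F
    rw [← e1, ← e2, hFY']
    calc Module.rank (ZMod p) (Coc (LocK p K) ρ (Y (n0 + (C + b))) (Y (n0 + (C + b)))) +
          Module.rank (ZMod p) (EqF (X := PX p) ρ (Y (n0 + (C + b))))
        ≤ (C : Cardinal) + (b : Cardinal) :=
          add_le_add (hC' _ (Nat.le_add_right _ _)) (hb _ (hS.yn _))
      _ = ((C + b : ℕ) : Cardinal) := by push_cast; rfl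
      _ < ((p ^ (n0 + (C + b)) : ℕ) : Cardinal) := Nat.cast_lt.2 hlt
      _ ≤ ((p ^ (n0 + (C + b)) : ℕ) : Cardinal) + Module.rank (ZMod p) S := le_self_add
  · have hρ' : ∀ g : K.fixingSubgroup, ρ g = 1 := fun g => by
      by_contra h
      exact hρ ⟨g, h⟩
    have hn : ∀ σ ∈ K.fixingSubgroup, ∀ x ∈ K, σ x ∈ K := by
      intro σ hσ x hx
      rw [(mem_fix K σ).1 hσ x hx]
      exact hx
    exact (hC p K K hK le_rfl hn).1 hXK S ρ hirr fun g _ => hρ' g

end Pool.Agent.DI.PI
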