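import Pool.Agent.Lib.DI.PI.SpecB

/-!
# THEOREM DI, Part I, JPe: `p`-groups at the top
-/

set_option autoImplicit false

open scoped Pointwise

namespace Pool.Agent.DI.PI

open Pool.Agent.MuZ

/-- an irreducible representation with a kernel of finite index is finite -/
private lemma JPe_fin {G : Type} [Group G] {p : ℕ} [Fact p.Prime] {S : Type} [AddCommGroup S]
    [Module (ZMod p) S] (ρ : Representation (ZMod p) G S) (hρ : Irr ρ) (D : Subgroup G)
    [D.FiniteIndex] (hD : ∀ g ∈ D, ρ g = 1) : Finite S := by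
  obtain ⟨⟨v, hv⟩, hirr⟩ := hρ
  have hfin : (Set.range fun g : G => ρ g v).Finite := by
    let f : G ⧸ D → S := Quotient.lift (fun g : G => ρ g v) (by
      intro x y hxy
      have h1 : x⁻¹ * y ∈ D := QuotientGroup.leftRel_apply.1 hxy
      have h2 : ρ y = ρ x := by
        have h3 : y = x * (x⁻¹ * y) := by rw [mul_inv_cancel_left]
        rw [h3, map_mul, hD _ h1, mul_one]
      change ρ x v = ρ y v
      rw [h2])
    refine (Set.finite_range f).subset ?_
    rintro _ ⟨g, rfl⟩
    exact ⟨(g : G ⧸ D), rfl⟩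
  have hinv : ∀ g : G, ∀ w ∈ Submodule.span (ZMod p) (Set.range fun g : G => ρ g v),
      ρ g w ∈ Submodule.span (ZMod p) (Set.range fun g : G => ρ g v) := by
    intro g
    have h : Submodule.span (ZMod p) (Set.range fun g : G => ρ g v) ≤
        (Submodule.span (ZMod p) (Set.range fun g : G => ρ g v)).comap (ρ g) := by
      rw [Submodule.span_le]
      rintro _ ⟨x, rfl⟩
      refine Submodule.subset_span ⟨g * x, ?_⟩
      change ρ (g * x) v = ρ g (ρ x v)
      rw [map_mul]
      rfl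
    exact h
  have hv' : v ∈ Submodule.span (ZMod p) (Set.range fun g : G => ρ g v) :=
    Submodule.subset_span ⟨1, by
      change ρ 1 v = v
      rw [map_one]
      rfl⟩
  rcases hirr _ hinv with h | h
  · rw [h] at hv'
    exact absurd ((Submodule.mem_bot _).1 hv') hv
  · have : Module.Finite (ZMod p) S := ⟨by
      rw [← h]
      exact Submodule.fg_span hfin⟩
    exact Module.finite_of_finite (ZMod p)

private lemma JPe_abs {G : Type} [Group G] {p : ℕ} [Fact p.Prime] {S : Type} [AddCommGroup S]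
    [Module (ZMod p) S] (ρ : Representation (ZMod p) G S) (hρ : Irr ρ) (D H : Subgroup G)
    [D.FiniteIndex] (hD : ∀ g ∈ D, ρ g = 1) (a : ℕ) (hH : ∀ h ∈ H, h ^ p ^ a ∈ D) :
    ∃ v : S, v ≠ 0 ∧ ∀ h ∈ H, ρ h v = v := by
  have : Finite S := JPe_fin ρ hρ D hD
  obtain ⟨⟨v, hv⟩, _⟩ := hρ
  let f : G →* (Module.End (ZMod p) S)ˣ := MonoidHom.toHomUnits ρ
  have hf : ∀ (g : G) (x : S), f g • x = ρ g x := fun g x => rfl
  have hP : IsPGroup p (H.map f) := by
    rintro ⟨_, x, hx, rfl⟩
    refine ⟨a, Subtype.ext ?_⟩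
    change (f x) ^ p ^ a = 1
    rw [← map_pow]
    refine Units.ext ?_
    exact hD _ (hH x hx)
  have hdvd : p ∣ Nat.card S := by
    have h1 : addOrderOf v = p := addOrderOf_eq_prime (ZModModule.char_nsmul_eq_zero p v) hv
    rw [← h1]
    exact addOrderOf_dvd_natCard v
  have h0 : (0 : S) ∈ MulAction.fixedPoints (H.map f) S := fun g => smul_zero (g : (Module.End (ZMod p) S)ˣ)
  obtain ⟨w, hw, hw0⟩ := hP.exists_fixed_point_of_prime_dvd_card_of_fixed_point S hdvd h0
  refine ⟨w, hw0.symm, fun h hh => ?_⟩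
  exact hw ⟨f h, h, hh, rfl⟩

theorem pJPe : S_JPe := by
  intro hA p _ k E L hL hkE hEL hst hex
  obtain ⟨a, ha⟩ := hex
  have hidx : L.fixingSubgroup.index ≠ 0 := by
    rw [← IntermediateField.finrank_eq_fixingSubgroup_index]
    exact Module.finrank_pos.ne'
  have hfi : L.fixingSubgroup.FiniteIndex := ⟨hidx⟩
  refine (hA p k L {E} hL (hkE.trans hEL) hst ?_ ?_).trans ?_
  · intro F hF
    rw [Set.mem_singleton_iff.1 hF]
    exact ⟨hkE, hEL⟩
  · intro S _ _ ρ hρ hρL
    obtain ⟨v, hv, hfix⟩ := JPe_abs ρ hρ (L.fixingSubgroup.subgroupOf k.fixingSubgroup)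
      (E.fixingSubgroup.subgroupOf k.fixingSubgroup)
      (fun g hg => hρL g (Subgroup.mem_subgroupOf.1 hg)) a (fun h hh => by
        rw [Subgroup.mem_subgroupOf] at hh ⊢
        exact ha _ hh)
    exact ⟨E, rfl, v, hv, fun g hg => hfix g (Subgroup.mem_subgroupOf.2 hg)⟩
  · constructor
    · intro h
      exact h E rfl
    · intro h F hF
      rw [Set.mem_singleton_iff.1 hF]
      exact h

end Pool.Agent.DI.PI
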