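import Pool.Agent.Lib.DI.PI.SpecB
import Pool.Agent.Lib.MuZ.Orb

/-!
# THEOREM DI, Part I, module JQ: the finite level criterion for `ℚ` and `p = 2`
-/

set_option autoImplicit false

open scoped Pointwise

noncomputable section

namespace Pool.Agent.DI.PI

open Pool.Agent.MuZ

private theorem JQ_fix (σ : Gal(Om/ℚ)) :
    σ ∈ (⊥ : IntermediateField ℚ Om).fixingSubgroup := by
  rw [IntermediateField.fixingSubgroup_bot]
  exact Subgroup.mem_top σ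

private theorem JQ_ZL (h0 : ∀ f ∈ VV 2 (Loc 2) (⊤ : Subgroup Gal(Om/ℚ)), f = 0) (S : Type)
    [AddCommGroup S] [Module (ZMod 2) S]
    (ρ : Representation (ZMod 2) (⊥ : IntermediateField ℚ Om).fixingSubgroup S)
    (hρ : ∀ g, ρ g = 1) : ZL 2 ⊥ ⊥ ρ = ⊥ := by
  haveI : Fact (Nat.Prime 2) := ⟨Nat.prime_two⟩
  rw [eq_bot_iff]
  rintro c ⟨-, h2, ⟨E, hE, h3⟩, h4⟩
  rw [Submodule.mem_bot]
  funext g
  change c g = 0
  rw [← Module.forall_dual_apply_eq_zero_iff (ZMod 2)]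
  intro l
  have hf : (fun σ : Gal(Om/ℚ) => l (c ⟨σ, JQ_fix σ⟩)) ∈ VV 2 (Loc 2)
      (⊤ : Subgroup Gal(Om/ℚ)) := by
    refine ⟨fun σ hσ => absurd (Subgroup.mem_top σ) hσ, fun σ _ τ _ => ?_,
      ⟨⟨E.fixingSubgroup, E.fixingSubgroup_isOpen⟩, fun σ _ hσE => ?_⟩, fun Λ hΛ σ hσ _ => ?_⟩
    · have h := h2 ⟨σ, JQ_fix σ⟩ ⟨τ, JQ_fix τ⟩ (JQ_fix σ) (JQ_fix τ)
      rw [hρ, Module.End.one_apply] at h
      rw [← map_add, ← h]
      rfl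
    · change l (c ⟨σ, JQ_fix σ⟩) = 0
      rw [h3 ⟨σ, JQ_fix σ⟩ (JQ_fix σ) hσE, map_zero]
    · change l (c ⟨σ, JQ_fix σ⟩) = 0
      obtain ⟨s, hs⟩ := h4 Λ hΛ
      rw [hs ⟨σ, JQ_fix σ⟩ (JQ_fix σ) hσ, hρ, Module.End.one_apply, sub_self, map_zero]
  exact congrFun (h0 _ hf) (g : Gal(Om/ℚ))

private theorem JQ_EL (S : Type) [AddCommGroup S] [Module (ZMod 2) S]
    (ρ : Representation (ZMod 2) (⊥ : IntermediateField ℚ Om).fixingSubgroup S) :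
    Module.rank (ZMod 2) (EL 2 ⊥ ⊥ ρ) ≤ Module.rank (ZMod 2) S := by
  haveI : Fact (Nat.Prime 2) := ⟨Nat.prime_two⟩
  by_cases hP : ∃ P : Ideal ZZ, P.IsPrime ∧ ((2 : ℕ) : ZZ) ∈ P
  · obtain ⟨P, hP1, hP2⟩ := hP
    let T : EL 2 ⊥ ⊥ ρ →ₗ[ZMod 2] S :=
      (LinearMap.proj P : (Ideal ZZ → S) →ₗ[ZMod 2] S).comp (EL 2 ⊥ ⊥ ρ).subtype
    refine LinearMap.rank_le_of_injective T ?_
    rw [← LinearMap.ker_eq_bot, LinearMap.ker_eq_bot']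
    rintro ⟨φ, hφ⟩ h0
    have h1 : φ P = 0 := h0
    apply Subtype.ext
    funext Q
    change φ Q = 0
    by_cases hQ : Q.IsPrime ∧ ((2 : ℕ) : ZZ) ∈ Q
    · obtain ⟨g, hg⟩ := Orb.trans 2 Nat.prime_two P Q hP1 hQ.1 hP2 hQ.2
      have h2 := hφ.2 P hP1 hP2 ⟨g, JQ_fix g⟩ (JQ_fix g)
      rw [hg, h2, h1, map_zero]
    · exact hφ.1 Q hQ
  · have h1 : EL 2 ⊥ ⊥ ρ = ⊥ := by
      rw [eq_bot_iff]
      intro φ hφ
      rw [Submodule.mem_bot]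
      funext Q
      exact hφ.1 Q fun h => hP ⟨Q, h⟩
    rw [h1]
    simp

theorem pJQ : S_JQ := by
  intro hC h0
  haveI : Fact (Nat.Prime 2) := ⟨Nat.prime_two⟩
  refine (hC 2 ⊥ ⊥ inferInstance le_rfl ?_).2 ?_
  · intro σ hσ x hx
    rwa [(IntermediateField.mem_fixingSubgroup_iff _ _).1 hσ x hx]
  · intro S _ _ _ ρ _ htriv
    have hρ : ∀ g, ρ g = 1 := fun g => htriv g (JQ_fix g)
    refine ⟨0, ⊥, ⟨le_rfl, bot_le, by simp⟩, Or.inl ?_⟩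
    haveI : Module.Finite (ZMod 2) S := Module.Finite.of_finite
    obtain ⟨s, hs⟩ := Cardinal.lt_aleph0.1 (Module.rank_lt_aleph0 (ZMod 2) S)
    have h2 := JQ_EL S ρ
    rw [hs] at h2
    rw [JQ_ZL h0 S ρ hρ, hs, rank_bot, zero_add]
    refine lt_of_le_of_lt h2 ?_
    exact_mod_cast (show s < 2 ^ 0 + s by omega)

end Pool.Agent.DI.PI
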