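import Pool.Agent.Lib.DI.PI.SpecB

set_option autoImplicit false

open scoped Pointwise

noncomputable section

namespace Pool.Agent.DI.PI

open Pool.Agent.MuZ

private theorem JQ0_int {q : ℚ} (h : IsIntegral ℤ (q : Om)) : ∃ c : ℤ, (c : ℚ) = q := by
  have h' : IsIntegral ℤ (algebraMap ℚ Om q) := by
    rw [eq_ratCast]
    exact h
  have h3 : IsIntegral ℤ q := (isIntegral_algebraMap_iff (algebraMap ℚ Om).injective).1 h'
  obtain ⟨c, hc⟩ := IsIntegrallyClosed.isIntegral_iff.1 h3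
  exact ⟨c, hc⟩

private theorem JQ0_sqf {w : ℚ} {e k : ℤ} (he : Squarefree e) (h : w ^ 2 * e = k) :
    ∃ c : ℤ, (c : ℚ) = w := by
  have h1 : w.num ^ 2 * e = k * (w.den : ℤ) ^ 2 := by
    have h2 : (w.num : ℚ) ^ 2 * e = k * (w.den : ℚ) ^ 2 := by
      rw [← Rat.mul_den_eq_num w, ← h]
      ring
    exact_mod_cast h2
  have h2 : IsCoprime ((w.den : ℤ) ^ 2) (w.num ^ 2) := by
    refine IsCoprime.pow ?_
    have h3 := w.isCoprime_num_den
    exact h3.symm
  have h3 : (w.den : ℤ) ^ 2 ∣ e := by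
    refine h2.dvd_of_dvd_mul_left ?_
    rw [h1]
    exact dvd_mul_left _ _
  rw [sq] at h3
  have h4 := he _ h3
  have h5 : w.den = 1 := by
    have := Int.isUnit_iff_natAbs_eq.1 h4
    simpa using this
  exact ⟨w.num, (Rat.den_eq_one_iff w).1 h5⟩

private theorem JQ0_dec {q : ℚ} (hq : q ≠ 0) :
    ∃ (e : ℤ) (c : ℚ), c ≠ 0 ∧ Squarefree e ∧ q = e * c ^ 2 := by
  obtain ⟨a, b, h1, h2⟩ := Nat.sq_mul_squarefree (q.num * q.den).natAbs
  have hd : (q.den : ℚ) ≠ 0 := Nat.cast_ne_zero.2 q.den_nz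
  have hn : q.num * q.den ≠ 0 := mul_ne_zero (Rat.num_ne_zero.2 hq) (by exact_mod_cast q.den_nz)
  have hb : b ≠ 0 := by
    rintro rfl
    have h3 : (q.num * q.den).natAbs = 0 := by rw [← h1]; simp
    exact hn (Int.natAbs_eq_zero.1 h3)
  obtain ⟨e, he, h3⟩ : ∃ e : ℤ, e.natAbs = a ∧ q.num * q.den = b ^ 2 * e := by
    have h4 : ((q.num * q.den).natAbs : ℤ) = b ^ 2 * a := by
      rw [← h1]
      push_cast
      ring
    rcases Int.natAbs_eq (q.num * q.den) with h5 | h5
    · exact ⟨a, by simp, by rw [h5, h4]⟩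
    · exact ⟨-a, by simp, by rw [h5, h4]; ring⟩
  refine ⟨e, b / q.den, div_ne_zero (Nat.cast_ne_zero.2 hb) hd, ?_, ?_⟩
  · rw [← Int.squarefree_natAbs, he]
    exact h2
  · have h4 : (q.num : ℚ) * q.den = b ^ 2 * e := by exact_mod_cast h3
    rw [div_pow, mul_div_assoc', eq_div_iff (pow_ne_zero _ hd), mul_comm (e : ℚ), ← h4,
      ← Rat.mul_den_eq_num q]
    ring

private theorem JQ0_above (r : ℕ) (hr : r.Prime) :
    ∃ P : Ideal ZZ, P.IsPrime ∧ P ≠ ⊥ ∧ (r : ZZ) ∈ P := by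
  have hne : Ideal.span {(r : ZZ)} ≠ ⊤ := by
    intro h
    rw [Ideal.span_singleton_eq_top] at h
    obtain ⟨y, hy⟩ := h.exists_right_inv
    have h1 : IsIntegral ℤ (y : Om) := y.2
    have h2 : (y : Om) = (((r : ℚ)⁻¹ : ℚ) : Om) := by
      have h3 : (r : Om) * (y : Om) = 1 := by
        have h4 := congrArg (fun u : ZZ => (u : Om)) hy
        simpa using h4
      push_cast
      exact eq_inv_of_mul_eq_one_right h3
    rw [h2] at h1
    obtain ⟨c, h5⟩ := JQ0_int h1
    have h4 : (c : ℚ) * (r : ℚ) = 1 := by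
      rw [h5]
      exact inv_mul_cancel₀ (Nat.cast_ne_zero.2 hr.ne_zero)
    have h5 : c * (r : ℤ) = 1 := by exact_mod_cast h4
    have h6 : (r : ℤ) ∣ 1 := ⟨c, by rw [mul_comm]; exact h5.symm⟩
    have h7 : r ∣ 1 := by exact_mod_cast h6
    exact hr.one_lt.ne' (Nat.dvd_one.1 h7)
  obtain ⟨P, hPm, hIP⟩ := Ideal.exists_le_maximal _ hne
  have hrP : (r : ZZ) ∈ P := hIP (Ideal.mem_span_singleton_self _)
  refine ⟨P, hPm.isPrime, ?_, hrP⟩
  rintro rfl
  rw [Ideal.mem_bot] at hrP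
  have h1 := congrArg (fun u : ZZ => (u : Om)) hrP
  have h2 : (r : Om) = 0 := by simpa using h1
  exact hr.ne_zero (Nat.cast_eq_zero.1 h2)

private theorem JQ0_adj {g : Om} {e : ℤ} (hg : g ^ 2 = e) :
    ∀ x ∈ IntermediateField.adjoin ℚ {g}, ∃ u v : ℚ, x = u + v * g := by
  intro x hx
  have halg : IsAlgebraic ℚ g := Algebra.IsAlgebraic.isAlgebraic g
  have hx' : x ∈ Algebra.adjoin ℚ {g} := by
    rw [← IntermediateField.adjoin_simple_toSubalgebra_of_isAlgebraic halg]
    exact hx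
  clear hx
  induction hx' using Algebra.adjoin_induction with
  | mem x h =>
    rw [Set.mem_singleton_iff] at h
    exact ⟨0, 1, by rw [h]; push_cast; ring⟩
  | algebraMap r => exact ⟨r, 0, by rw [eq_ratCast]; push_cast; ring⟩
  | add x y _ _ hx hy =>
    obtain ⟨u, v, h1⟩ := hx
    obtain ⟨u', v', h2⟩ := hy
    exact ⟨u + u', v + v', by rw [h1, h2]; push_cast; ring⟩
  | mul x y _ _ hx hy =>
    obtain ⟨u, v, h1⟩ := hx
    obtain ⟨u', v', h2⟩ := hy
    refine ⟨u * u' + v * v' * e, u * v' + v * u', ?_⟩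
    rw [h1, h2]
    push_cast
    linear_combination ((v : Om) * v') * hg

/-- No quadratic extension of `ℚ` is locally trivial at `2` and unramified. -/
theorem pJQ0 : S_JQ0 := by
  intro hKum hIne _ hTot f hf
  by_contra hne
  obtain ⟨s, hs⟩ : ∃ s, f s ≠ 0 := by
    by_contra h
    push Not at h
    exact hne (funext h)
  have hs1 : f s = 1 := by
    generalize f s = x at hs
    revert hs
    revert x
    decide
  obtain ⟨f1, f2, f3, f4⟩ := hf
  have hg0 : f ∈ VV 2 ∅ (⊤ : Subgroup Gal(Om/ℚ)) := by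
    refine ⟨f1, f2, f3, ?_⟩
    intro Λ hΛ
    exact absurd hΛ (Set.notMem_empty _)
  have : Fact (Nat.Prime 2) := ⟨Nat.prime_two⟩
  obtain ⟨β, hβ, hσ⟩ := hKum 2 ⊤ (-1) (IsPrimitiveRoot.neg_one 0 (by norm_num))
    (fun σ _ => by rw [map_neg, map_one]) f hg0
  have hsq : β ^ 2 ∈ Set.range (algebraMap ℚ Om) := by
    rw [InfiniteGalois.mem_range_algebraMap_iff_fixed]
    intro σ
    rw [map_pow, hσ σ (Subgroup.mem_top _), mul_pow, ← pow_mul, mul_comm _ 2, pow_mul]
    norm_num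
  obtain ⟨q, hq⟩ := hsq
  have hq0 : q ≠ 0 := by
    rintro rfl
    rw [map_zero] at hq
    exact (pow_ne_zero 2 hβ) hq.symm
  obtain ⟨e, c, hc, he, hqe⟩ := JQ0_dec hq0
  rw [eq_ratCast] at hq
  have hcO : (c : Om) ≠ 0 := by exact_mod_cast hc
  obtain ⟨g, hgd⟩ : ∃ g : Om, g = β / c := ⟨_, rfl⟩
  have hg0 : g ≠ 0 := by rw [hgd]; exact div_ne_zero hβ hcO
  have hg2 : g ^ 2 = e := by
    rw [hgd, div_pow, ← hq, hqe]
    push_cast
    field_simp
  have hgσ : ∀ σ : Gal(Om/ℚ), σ g = (-1) ^ (f σ).val * g := by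
    intro σ
    rw [hgd, map_div₀, hσ σ (Subgroup.mem_top _), map_ratCast]
    ring
  have hs2 : s g = -g := by
    rw [hgσ, hs1]
    have : (1 : ZMod 2).val = 1 := rfl
    rw [this]
    ring
  have hfix : ∀ σ : Gal(Om/ℚ), f σ = 0 → σ g = g := by
    intro σ h
    rw [hgσ, h, ZMod.val_zero, pow_zero, one_mul]
  have hcon : ∀ σ : Gal(Om/ℚ), f σ = 0 → σ g = s g → False := by
    intro σ h1 h2
    rw [hfix σ h1, hs2] at h2
    exact hg0 (self_eq_neg.1 h2)
  by_cases hu : e.natAbs = 1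
  · -- `e = 1` or `e = -1`
    obtain ⟨P, hP, hP0, h2P⟩ := JQ0_above 2 Nat.prime_two
    obtain ⟨δ, hδ, hz⟩ := hTot 2 Nat.prime_two P hP h2P s 2
    refine hcon δ (f4 _ (Or.inr ⟨P, hP, h2P, rfl⟩) δ hδ (Subgroup.mem_top _)) (hz g ?_)
    have h4 : g ^ 2 ^ 2 = (g ^ 2) ^ 2 := by ring
    rw [h4, hg2]
    have h5 : e ^ 2 = 1 := by
      rw [← Int.natAbs_sq, hu]
      norm_num
    exact_mod_cast h5
  · -- a prime `l` divides `e`
    obtain ⟨l, hl, hle⟩ := Nat.exists_prime_and_dvd hu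
    obtain ⟨P, hP, hP0, hlP⟩ := JQ0_above l hl
    have hgi : IsIntegral ℤ g := by
      refine IsIntegral.of_pow (n := 2) (by norm_num) ?_
      rw [hg2]
      exact isIntegral_algebraMap (R := ℤ) (A := Om) (x := e)
    have hgP : (⟨g, hgi⟩ : ZZ) ∈ P := by
      refine hP.mem_of_pow_mem 2 ?_
      have h1 : (⟨g, hgi⟩ : ZZ) ^ 2 = (e : ZZ) := by
        apply Subtype.ext
        change g ^ 2 = ((e : ZZ) : Om)
        rw [hg2]
        simp
      rw [h1]
      obtain ⟨m, hm⟩ := Int.natCast_dvd.2 hle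
      rw [hm]
      push_cast
      exact P.mul_mem_right _ hlP
    have hadj := JQ0_adj hg2
    have hgL : g ∈ IntermediateField.adjoin ℚ {g} := IntermediateField.mem_adjoin_simple_self ℚ g
    have hfin : FiniteDimensional ℚ (IntermediateField.adjoin ℚ {g}) :=
      IntermediateField.adjoin.finiteDimensional (Algebra.IsIntegral.isIntegral g)
    have hsx : ∀ u v : ℚ, s ((u : Om) + v * g) = u - v * g := by
      intro u v
      rw [map_add, map_mul, map_ratCast, map_ratCast, hs2]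
      ring
    obtain ⟨σ, h1, -, h3⟩ := hIne ⊥ (IntermediateField.adjoin ℚ {g}) hfin bot_le P hP hP0 s
      (by
        rw [IntermediateField.mem_fixingSubgroup_iff]
        intro x hx
        rw [IntermediateField.mem_bot] at hx
        obtain ⟨r, rfl⟩ := hx
        exact s.commutes r)
      (by
        intro x hx
        obtain ⟨u, v, rfl⟩ := hadj x hx
        rw [hsx]
        refine sub_mem ?_ (mul_mem ?_ hgL)
        · have := (IntermediateField.adjoin ℚ {g}).algebraMap_mem u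
          rwa [eq_ratCast] at this
        · have := (IntermediateField.adjoin ℚ {g}).algebraMap_mem v
          rwa [eq_ratCast] at this)
      (by
        intro y hy
        obtain ⟨u, v, huv⟩ := hadj _ hy
        have hyi : IsIntegral ℤ (y : Om) := y.2
        have hsyi : IsIntegral ℤ (((s • y : ZZ)) : Om) := (s • y : ZZ).2
        have hsy : ((s • y : ZZ) : Om) = u - v * g := by
          change s (y : Om) = _
          rw [huv, hsx]
        have hw : IsIntegral ℤ ((((2 * v) ^ 2 * e : ℚ)) : Om) := by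
          have h4 : ((((2 * v) ^ 2 * e : ℚ)) : Om) = ((y : Om) - ((s • y : ZZ) : Om)) ^ 2 := by
            rw [huv, hsy]
            push_cast
            rw [← hg2]
            ring
          rw [h4]
          exact (hyi.sub hsyi).pow 2
        obtain ⟨k, hk⟩ := JQ0_int hw
        obtain ⟨w, hw⟩ := JQ0_sqf he hk.symm
        have h5 : s • y - y = -((w : ZZ) * ⟨g, hgi⟩) := by
          apply Subtype.ext
          change ((s • y : ZZ) : Om) - (y : Om) = -((((w : ℤ) : ZZ) : Om) * g)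
          have h6 : (((w : ℤ) : ZZ) : Om) = ((w : ℚ) : Om) := by simp
          rw [hsy, huv, h6, hw]
          push_cast
          ring
        rw [h5]
        exact neg_mem (P.mul_mem_left _ hgP))
    exact hcon σ (f4 _ (Or.inl ⟨P, hP, hP0, rfl⟩) σ h1 (Subgroup.mem_top _)) (h3 g hgL)

end Pool.Agent.DI.PI
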