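import Pool.Agent.Lib.DI.PI.SpecB
import Pool.Agent.Lib.MuZ.AsmA
import Pool.Agent.Lib.MuZ.Inst

/-!
# THEOREM DI, Part I, module JSit (helper86): the situation for number fields
-/

set_option autoImplicit false

open scoped Pointwise

namespace Pool.Agent.DI.PI

open Pool.Agent.MuZ

private theorem JSit_index (K L : IntermediateField ℚ Om) [FiniteDimensional ℚ K] (hKL : K ≤ L) :
    Module.finrank ℚ L = (tr K L).index * Module.finrank ℚ K := by
  have hle : L.fixingSubgroup ≤ K.fixingSubgroup := IntermediateField.fixingSubgroup_le hKL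
  have h1 := Subgroup.relIndex_mul_index hle
  rw [← IntermediateField.finrank_eq_fixingSubgroup_index,
    ← IntermediateField.finrank_eq_fixingSubgroup_index] at h1
  exact h1.symm

theorem pJSit : S_JSit := by
  intro hQZ hSub hPL hPc hTFix hNF hVal hLev p _ K L hL hKL hnorm hab hdiv
  haveI hL' : FiniteDimensional ℚ L := hL
  haveI hK : FiniteDimensional ℚ K :=
    FiniteDimensional.of_injective (IntermediateField.inclusion hKL).toLinearMap
      (IntermediateField.inclusion hKL).injective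
  obtain ⟨γ, hγ⟩ := hNF hQZ hSub hPL hPc hTFix p K hK
  have hKc : IsClosed (K.fixingSubgroup : Set Gal(Om/ℚ)) :=
    IntermediateField.fixingSubgroup_isClosed K
  haveI : CompactSpace K.fixingSubgroup := isCompact_iff_compactSpace.1 hKc.isCompact
  haveI : TotallyDisconnectedSpace K.fixingSubgroup := inferInstance
  haveI : T2Space K.fixingSubgroup := inferInstance
  obtain ⟨hex, -⟩ := hLev hVal K.fixingSubgroup p (tr K (cyc p K)) γ hγ
  choose Y hYo hYN hYi using hex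
  refine ⟨γ, Y, ⟨hγ, ?_, ?_, ?_, ?_, hYo, hYN, hYi⟩⟩
  · intro g d hd
    rw [Subgroup.mem_subgroupOf] at hd ⊢
    exact fix_normal K L hnorm g d g.2 hd
  · exact L.fixingSubgroup_isOpen.preimage continuous_subtype_val
  · intro g h
    rw [Subgroup.mem_subgroupOf, mem_fix]
    intro x hx
    have hg : (g : Gal(Om/ℚ)) ∈ K.fixingSubgroup := g.2
    have hh : (h : Gal(Om/ℚ)) ∈ K.fixingSubgroup := h.2
    have h1 : ((g : Gal(Om/ℚ))⁻¹ : Gal(Om/ℚ)) (((h : Gal(Om/ℚ))⁻¹ : Gal(Om/ℚ)) x) ∈ L :=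
      hnorm _ (inv_mem hg) _ (hnorm _ (inv_mem hh) x hx)
    have h2 := hab _ hg _ hh _ h1
    have h3 : (((g * h * g⁻¹ * h⁻¹ : K.fixingSubgroup)) : Gal(Om/ℚ)) x =
        (g : Gal(Om/ℚ)) ((h : Gal(Om/ℚ))
          (((g : Gal(Om/ℚ))⁻¹ : Gal(Om/ℚ)) (((h : Gal(Om/ℚ))⁻¹ : Gal(Om/ℚ)) x))) := by
      simp only [Subgroup.coe_mul, Subgroup.coe_inv, AlgEquiv.mul_apply]
    rw [h3, h2]
    have h4 : (g : Gal(Om/ℚ)) (((g : Gal(Om/ℚ))⁻¹ : Gal(Om/ℚ))
        (((h : Gal(Om/ℚ))⁻¹ : Gal(Om/ℚ)) x)) = ((h : Gal(Om/ℚ))⁻¹ : Gal(Om/ℚ)) x := by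
      change ((g : Gal(Om/ℚ)) * (g : Gal(Om/ℚ))⁻¹) _ = _
      rw [mul_inv_cancel]
      rfl
    rw [h4]
    change ((h : Gal(Om/ℚ)) * (h : Gal(Om/ℚ))⁻¹) _ = _
    rw [mul_inv_cancel]
    rfl
  · intro hp
    apply hdiv
    rw [JSit_index K L hKL]
    exact Nat.mul_dvd_mul_right hp _

end Pool.Agent.DI.PI
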