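import Pool.Agent.Lib.DI.PI.SpecC

/-!
# THEOREM DI, Part I: the Kummer character is additive
-/

set_option autoImplicit false

open scoped Pointwise

namespace Pool.Agent.DI.PI

open Pool.Agent.MuZ Pool.Agent.DI

private theorem Kap_sqr_ne {x : Om} (hx : x ≠ 0) : sqr x ≠ 0 := by
  intro h
  apply hx
  rw [← sqr_sq x, h]
  ring

open Classical in
/-- `kap x d` can be read off from any square root of `x`. -/
private theorem Kap_of {x s : Om} (d : Gal(Om/ℚ)) (hs : s ^ 2 = x) :
    kap x d = if d s = s then 0 else 1 := by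
  have h1 : sqr x = s ∨ sqr x = -s := by
    apply sq_eq_sq_iff_eq_or_eq_neg.mp
    rw [sqr_sq, hs]
  unfold kap
  rcases h1 with h1 | h1
  · rw [h1]
  · rw [h1, map_neg d s]
    by_cases h2 : d s = s
    · rw [if_pos h2, if_pos (by rw [h2])]
    · rw [if_neg h2, if_neg (fun h => h2 (neg_injective h))]

/-- The sign. -/
private theorem Kap_sgn {x s : Om} (d : Gal(Om/ℚ)) (hs : s ^ 2 = x) (hd : d x = x) :
    d s = s ∨ d s = -s := by
  apply sq_eq_sq_iff_eq_or_eq_neg.mp
  rw [← map_pow d s 2, hs, hd]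

theorem pKap : S_Kap := by
  classical
  have key : ∀ (d : Gal(Om/ℚ)) (x y : Om), x ≠ 0 → y ≠ 0 → d x = x → d y = y →
      kap (x * y) d = kap x d + kap y d := by
    intro d x y hx hy hdx hdy
    have hsx := sqr_sq x
    have hsy := sqr_sq y
    have hx0 := Kap_sqr_ne hx
    have hy0 := Kap_sqr_ne hy
    rw [Kap_of d (s := sqr x * sqr y) (by rw [mul_pow, hsx, hsy]), Kap_of d hsx, Kap_of d hsy,
      map_mul d (sqr x) (sqr y)]
    have hnx : -sqr x ≠ sqr x := fun h => hx0 (self_eq_neg.mp h.symm)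
    have hny : -sqr y ≠ sqr y := fun h => hy0 (self_eq_neg.mp h.symm)
    have hxy0 : sqr x * sqr y ≠ 0 := mul_ne_zero hx0 hy0
    have hnxy : -(sqr x * sqr y) ≠ sqr x * sqr y := fun h => hxy0 (self_eq_neg.mp h.symm)
    rcases Kap_sgn d hsx hdx with h1 | h1 <;> rcases Kap_sgn d hsy hdy with h2 | h2
    · rw [h1, h2]
      simp
    · rw [h1, h2, if_neg (by rw [mul_neg]; exact hnxy), if_pos rfl, if_neg hny, zero_add]
    · rw [h1, h2, if_neg (by rw [neg_mul]; exact hnxy), if_pos rfl, if_neg hnx, add_zero]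
    · rw [h1, h2, if_pos (by rw [neg_mul_neg]), if_neg hnx, if_neg hny]
      decide
  refine ⟨key, fun d x b hx hb hdx hdb => ?_⟩
  rw [key d x (b ^ 2) hx (pow_ne_zero 2 hb) hdx (by rw [map_pow d b 2, hdb]), Kap_of d (s := b) rfl,
    if_pos hdb, add_zero]

end Pool.Agent.DI.PI
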