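import Pool.Agent.Lib.DI.PI.SpecC
import Pool.Agent.Lib.MuZ.AsmA

/-!
# THEOREM DI, Part I, module LK0 (helper47): the field `Lf f` over `K`
-/

set_option autoImplicit false

open scoped Pointwise

namespace Pool.Agent.DI.PI

open Pool.Agent.MuZ

private theorem LK0_index (K L : IntermediateField ℚ Om) (hKL : K ≤ L) :
    Module.finrank ℚ L = (L.fixingSubgroup.subgroupOf K.fixingSubgroup).index *
      Module.finrank ℚ K := by
  have hle : L.fixingSubgroup ≤ K.fixingSubgroup := IntermediateField.fixingSubgroup_le hKL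
  have h1 := Subgroup.relIndex_mul_index hle
  rw [← IntermediateField.finrank_eq_fixingSubgroup_index,
    ← IntermediateField.finrank_eq_fixingSubgroup_index] at h1
  exact h1.symm

/-- A normal subgroup of finite index such that the `m`-th powers are in it, `m` odd, has odd index. -/
private theorem LK0_odd {G : Type*} [Group G] (D : Subgroup G) [D.Normal] (hfin : D.index ≠ 0)
    (m : ℕ) (hm : Odd m) (h : ∀ g : G, g ^ m ∈ D) : ¬ 2 ∣ D.index := by
  intro h2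
  have : D.FiniteIndex := ⟨hfin⟩
  have : Fact (Nat.Prime 2) := ⟨Nat.prime_two⟩
  have h3 : 2 ∣ Nat.card (G ⧸ D) := h2
  obtain ⟨x, hx⟩ := exists_prime_orderOf_dvd_card' 2 h3
  obtain ⟨g, rfl⟩ := QuotientGroup.mk_surjective x
  have h4 : ((g : G ⧸ D)) ^ m = 1 := by
    rw [← QuotientGroup.mk_pow, QuotientGroup.eq_one_iff]
    exact h g
  have h5 := orderOf_dvd_of_pow_eq_one h4
  rw [hx] at h5
  rcases hm with ⟨k, hk⟩
  omega

theorem pLK0 : S_LK0 := by
  intro hGalH hPs hAr1 hAr3 hB2 hE1 hE8 hE9 f hf h7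
  have hf0 : 0 < f := hf.pos
  obtain ⟨⟨m, hm, hpow⟩, -, hnice, -⟩ := hAr3 hAr1 f hf
  obtain ⟨hfin, hKL, hsub, hex, hmem, -⟩ := hGalH hE1 hE8 f (Hf f) hf0 hnice
  obtain ⟨hmul, hone, -, -, hinv, hpw, hdiv⟩ := hPs hB2 hE1 hAr1
  have hst := (hE9 f hf h7).1
  have h1 : Hf f 1 := by
    have h := hnice.mul _ _ hnice.neg hnice.neg
    rwa [neg_mul_neg, one_mul] at h
  -- an element with `Psi _ f 1` fixes `Lf f`
  have hfix : ∀ τ ∈ GK, Psi τ f 1 → ∀ x ∈ Lf f, τ x = x := by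
    intro τ hτ h x hx
    exact hx τ hτ 1 h h1
  have hcomm : ∀ σ ∈ KQ.fixingSubgroup, ∀ τ ∈ KQ.fixingSubgroup, ∀ x ∈ Lf f,
      σ (τ x) = τ (σ x) := by
    intro σ hσ τ hτ x hx
    have hσ' : σ ∈ GK := hσ
    have hτ' : τ ∈ GK := hτ
    obtain ⟨a, ha⟩ := hE1.1 σ hσ' f hf0
    obtain ⟨b, hb⟩ := hE1.1 τ hτ' f hf0
    have h2 : Psi (σ * τ) f (a * b) := hmul σ τ f a b ha hb
    have h3 : Psi (τ * σ) f (b * a) := hmul τ σ f b a hb ha
    have h4 : Psi ((σ * τ)⁻¹ * (τ * σ)) f 1 :=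
      hdiv (σ * τ) (mul_mem hσ' hτ') (τ * σ) (mul_mem hτ' hσ') f (a * b) (b * a) hf0 h2 h3
        ⟨0, by rw [mul_comm b a, sub_self, mul_zero]⟩
    have h5 := hfix _ (mul_mem (inv_mem (mul_mem hσ' hτ')) (mul_mem hτ' hσ')) h4 x hx
    have h6 : (σ * τ) (((σ * τ)⁻¹ * (τ * σ)) x) = (τ * σ) x := by
      change ((σ * τ) * ((σ * τ)⁻¹ * (τ * σ))) x = (τ * σ) x
      rw [mul_inv_cancel_left]
    rw [h5] at h6
    exact h6
  refine ⟨hfin, hKL, fun σ _ x hx => hst σ x hx, hcomm, ?_⟩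
  intro hdvd
  have hL : FiniteDimensional ℚ (Lf f) := hfin
  have hK : FiniteDimensional ℚ KQ :=
    FiniteDimensional.of_injective (IntermediateField.inclusion hKL).toLinearMap
      (IntermediateField.inclusion hKL).injective
  have hKpos : 0 < Module.finrank ℚ KQ := Module.finrank_pos
  have hLpos : 0 < Module.finrank ℚ (Lf f) := Module.finrank_pos
  have hidx : Module.finrank ℚ (Lf f) =
      ((Lf f).fixingSubgroup.subgroupOf KQ.fixingSubgroup).index * Module.finrank ℚ KQ :=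
    LK0_index KQ (Lf f) hKL
  have hnorm : ((Lf f).fixingSubgroup.subgroupOf KQ.fixingSubgroup).Normal := by
    refine ⟨?_⟩
    intro d hd g
    rw [Subgroup.mem_subgroupOf] at hd ⊢
    exact fix_normal KQ (Lf f) (fun σ _ x hx => hst σ x hx) g d g.2 hd
  refine LK0_odd ((Lf f).fixingSubgroup.subgroupOf KQ.fixingSubgroup) ?_ m hm ?_ ?_
  · intro h0
    rw [h0, zero_mul] at hidx
    omega
  · intro g
    rw [Subgroup.mem_subgroupOf]
    have hg : (g : Gal(Om/ℚ)) ∈ GK := g.2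
    obtain ⟨a, ha⟩ := hE1.1 (g : Gal(Om/ℚ)) hg f hf0
    have h2 : Psi ((g : Gal(Om/ℚ)) ^ m) f (a ^ m) := hpw _ f a m ha
    have h3 : Hf f (a ^ m) := hpow a ha.1
    have h4 := (hex ((g : Gal(Om/ℚ)) ^ m) (pow_mem hg m)).2 ⟨a ^ m, h2, h3⟩
    rw [Subgroup.coe_pow]
    exact h4
  · rw [hidx] at hdvd
    exact Nat.dvd_of_mul_dvd_mul_right hKpos hdvd

end Pool.Agent.DI.PI
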