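import Pool.Agent.Lib.DI.PI.SpecC
import Pool.Agent.Lib.MuZ.AsmA

/-!
# THEOREM DI, Part I: the layers of the cyclotomic `ℤ_2`-extension of `FixH f H` (`S_LyH`)
-/

set_option autoImplicit false

open scoped Pointwise

namespace Pool.Agent.DI.PI

open Pool.Agent.MuZ

/-- the index of the subgroup generated by `-1` -/
private theorem LyH_index (n : ℕ) :
    (Subgroup.zpowers (-1 : (ZMod (2 ^ (n + 2)))ˣ)).index = 2 ^ n := by
  have hne : NeZero (2 ^ (n + 2)) := ⟨(pow_pos two_pos _).ne'⟩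
  have hlt : Fact (2 < 2 ^ (n + 2)) := ⟨by
    rw [pow_add]
    have := Nat.one_le_two_pow (n := n)
    omega⟩
  have hne1 : (-1 : (ZMod (2 ^ (n + 2)))ˣ) ≠ 1 := by
    intro h
    have h1 := congrArg (Units.val) h
    rw [Units.val_neg, Units.val_one] at h1
    exact ZMod.neg_one_ne_one h1
  have hord : orderOf (-1 : (ZMod (2 ^ (n + 2)))ˣ) = 2 :=
    orderOf_eq_prime (by rw [sq, neg_mul_neg, one_mul]) hne1
  have h1 := Subgroup.index_mul_card (Subgroup.zpowers (-1 : (ZMod (2 ^ (n + 2)))ˣ))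
  rw [Nat.card_zpowers, hord, Nat.card_eq_fintype_card, ZMod.card_units_eq_totient,
    Nat.totient_prime_pow_succ Nat.prime_two] at h1
  have h2 : 2 ^ (n + 1) * (2 - 1) = 2 ^ n * 2 := by rw [Nat.succ_sub_one, mul_one, pow_succ]
  exact Nat.eq_of_mul_eq_mul_right two_pos (h1.trans h2)

private theorem LyH_mem {R : Type} [CommRing R] (u : Rˣ) :
    u ∈ Subgroup.zpowers (-1 : Rˣ) ↔ u = 1 ∨ u = -1 := by
  constructor
  · rintro ⟨k, rfl⟩
    have h2 : (-1 : Rˣ) ^ (2 : ℤ) = 1 := by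
      rw [zpow_ofNat, sq, neg_mul_neg, one_mul]
    rcases Int.even_or_odd' k with ⟨j, rfl | rfl⟩
    · left
      change (-1 : Rˣ) ^ (2 * j) = 1
      rw [zpow_mul, h2, one_zpow]
    · right
      change (-1 : Rˣ) ^ (2 * j + 1) = -1
      rw [zpow_add, zpow_mul, h2, one_zpow, one_mul, zpow_one]
  · rintro (rfl | rfl)
    · exact Subgroup.one_mem _
    · exact Subgroup.mem_zpowers _

theorem pLyH : S_LyH := by
  intro hNoC hTFix hE6 hA2 hGalH hNiL hPs hAr1 hAr2 hB2 hE1 hE7 hE8 hLay f H hf hH n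
  have hf0 : 0 < f := hf.pos
  have h2N : 0 < 2 ^ (n + 2) := pow_pos two_pos _
  have hM : 0 < f * 2 ^ (n + 2) := Nat.mul_pos hf0 h2N
  have hno := hNoC hTFix hE1 hE6 hPs hB2 hAr1 hA2
  obtain ⟨ps1, ps2, -, ps4, -, -, -⟩ := hPs hB2 hE1 hAr1
  have hNice := hNiL hAr1 f H hH n
  obtain ⟨Lfin, -, LGK, -, Lmem, -⟩ := hGalH hE1 hE8 f H hf0 hH
  obtain ⟨Ffin, -, FGK, Fmem', Fmem, -⟩ := hGalH hE1 hE8 _ _ hM hNice
  obtain ⟨ar1, ar2, ar3, ar4, ar5, -, -, -, -⟩ := hAr1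
  change (LyH f n H).fixingSubgroup ≤ GK at FGK
  change FiniteDimensional ℚ (LyH f n H) at Ffin
  have down : ∀ (τ : Gal(Om/ℚ)) (a : OO), Psi τ (f * 2 ^ (n + 2)) a → Psi τ f a := by
    intro τ a h
    rw [mul_comm] at h
    exact ps4 τ _ f a h2N h
  have hFL : (LyH f n H).fixingSubgroup ≤ (FixH f H).fixingSubgroup := by
    intro τ hτ
    obtain ⟨a, ha, hHa⟩ := (Fmem' τ (FGK hτ)).1 hτ
    exact (Lmem τ (FGK hτ) a (down τ a ha)).2 hHa.1
  -- the second part of `S_Lay`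
  obtain ⟨-, hlay⟩ := hLay 2 (FixH f H) Lfin
  -- the norm
  have key : ∀ a a' : OO, ((f * 2 ^ (n + 2) : ℕ) : OO) ∣ a - a' →
      ((Nm a : ℤ) : ZMod (2 ^ (n + 2))) = ((Nm a' : ℤ) : ZMod (2 ^ (n + 2))) := by
    intro a a' h
    have h1 := ar2 _ a' a h
    have h2 : ((2 ^ (n + 2) : ℕ) : ℤ) ∣ Nm a - Nm a' := by
      refine dvd_trans ?_ h1
      exact_mod_cast Dvd.intro_left f rfl
    exact ((ZMod.intCast_eq_intCast_iff_dvd_sub _ _ _).2 h2).symm
  have hex : ∀ τ : (FixH f H).fixingSubgroup, ∃ a : OO,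
      Psi (τ : Gal(Om/ℚ)) (f * 2 ^ (n + 2)) a := fun τ => hE1.1 τ (LGK τ.2) _ hM
  choose α hα using hex
  let φ0 : (FixH f H).fixingSubgroup →* ZMod (2 ^ (n + 2)) :=
    { toFun := fun τ => ((Nm (α τ) : ℤ) : ZMod (2 ^ (n + 2)))
      map_one' := by
        have h1 : Psi ((1 : (FixH f H).fixingSubgroup) : Gal(Om/ℚ)) (f * 2 ^ (n + 2)) 1 := ps2 _
        rw [key _ _ (hE1.2 _ _ _ _ hM (hα 1) h1)]
        change (((1 ^ 2 + 1 * 0 + 2 * 0 ^ 2 : ℤ)) : ZMod (2 ^ (n + 2))) = 1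
        norm_num
      map_mul' := by
        intro τ σ
        have h1 : Psi ((τ * σ : (FixH f H).fixingSubgroup) : Gal(Om/ℚ)) (f * 2 ^ (n + 2))
            (α τ * α σ) := ps1 _ _ _ _ _ (hα τ) (hα σ)
        rw [key _ _ (hE1.2 _ _ _ _ hM (hα (τ * σ)) h1), ar1]
        push_cast
        rfl }
  let φ : (FixH f H).fixingSubgroup →* (ZMod (2 ^ (n + 2)))ˣ := φ0.toHomUnits
  have hφ : ∀ τ, ((φ τ : (ZMod (2 ^ (n + 2)))ˣ) : ZMod (2 ^ (n + 2))) =
      ((Nm (α τ) : ℤ) : ZMod (2 ^ (n + 2))) := fun τ => rfl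
  have hH1 : H 1 := by
    have h1 := hH.mul _ _ hH.neg hH.neg
    rwa [neg_mul_neg, one_mul] at h1
  have hsurj : Function.Surjective φ := by
    intro u
    have hne : NeZero (2 ^ (n + 2)) := ⟨h2N.ne'⟩
    have hcop := ZMod.val_coe_unit_coprime u
    have hodd : Odd (u : ZMod (2 ^ (n + 2))).val := by
      rw [Nat.coprime_pow_right_iff (by omega), Nat.coprime_comm, Nat.coprime_two_left] at hcop
      exact hcop
    obtain ⟨v, hv1, hv2⟩ := hAr2.2 f (n + 2) ((u : ZMod (2 ^ (n + 2))).val : ℤ) hf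
      (by exact_mod_cast hodd)
    have hHv : H v := by
      obtain ⟨w, hw⟩ := hv1
      have h1 := hH.per 1 w hH1
      rwa [← hw, add_sub_cancel] at h1
    have hNv : Odd (Nm v) := by
      have h1 : (2 : ℤ) ∣ Nm v - ((u : ZMod (2 ^ (n + 2))).val : ℤ) :=
        dvd_trans (dvd_pow_self 2 (by omega)) hv2
      obtain ⟨m, hm⟩ := hodd
      obtain ⟨m', hm'⟩ := h1
      refine ⟨m + m', ?_⟩
      rw [hm] at hm'
      push_cast at hm'
      linarith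
    have hcv : Cop v (f * 2 ^ (n + 2)) := by
      refine (ar4 v f _).2 ⟨hH.cop v hHv, ?_⟩
      change IsCoprime (Nm v) ((2 ^ (n + 2) : ℕ) : ℤ)
      push_cast
      exact IsCoprime.pow_right (Int.isCoprime_iff_gcd_eq_one.2 (by
        rw [Int.gcd_comm]
        exact Int.isCoprime_iff_gcd_eq_one.1 ((Int.prime_two.coprime_iff_not_dvd).2 (by
          intro h
          obtain ⟨m, hm⟩ := hNv
          omega))))
    obtain ⟨τ, hτ, hτ'⟩ := hE7 _ v hM hcv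
    obtain ⟨v', hv', hH', hNm⟩ : ∃ v' : OO, Psi τ (f * 2 ^ (n + 2)) v' ∧ H v' ∧ Nm v' = Nm v := by
      rcases hτ' with h | h
      · exact ⟨v, h, hHv, rfl⟩
      · refine ⟨-v, h, ?_, ar3 v⟩
        have h1 := hH.mul _ _ hH.neg hHv
        rwa [neg_one_mul] at h1
    have hτL : τ ∈ (FixH f H).fixingSubgroup := (Lmem τ hτ v' (down τ v' hv')).2 hH'
    refine ⟨⟨τ, hτL⟩, ?_⟩
    apply Units.ext
    rw [hφ, key _ _ (hE1.2 _ _ _ _ hM (hα ⟨τ, hτL⟩) hv'), hNm]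
    have h3 : ((2 ^ (n + 2) : ℕ) : ℤ) ∣ Nm v - ((u : ZMod (2 ^ (n + 2))).val : ℤ) := by
      push_cast
      exact hv2
    rw [← (ZMod.intCast_eq_intCast_iff_dvd_sub _ _ _).2 h3, Int.cast_natCast, ZMod.natCast_zmod_val]
  -- `Y` as a preimage
  have hY : (LyH f n H).fixingSubgroup.subgroupOf (FixH f H).fixingSubgroup =
      (Subgroup.zpowers (-1 : (ZMod (2 ^ (n + 2)))ˣ)).comap φ := by
    ext τ
    rw [Subgroup.mem_subgroupOf, Subgroup.mem_comap, LyH_mem]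
    have h1 : ((τ : Gal(Om/ℚ)) ∈ (LyH f n H).fixingSubgroup ↔ _) :=
      Fmem τ (LGK τ.2) (α τ) (hα τ)
    have h2 : H (α τ) := (Lmem τ (LGK τ.2) (α τ) (down _ _ (hα τ))).1 τ.2
    rw [h1, Units.ext_iff, Units.ext_iff, hφ, Units.val_neg, Units.val_one]
    have h3 : ((2 : ℤ) ^ (n + 2) ∣ Nm (α τ) - 1) ↔
        ((Nm (α τ) : ℤ) : ZMod (2 ^ (n + 2))) = 1 := by
      have h4 := ZMod.intCast_eq_intCast_iff_dvd_sub 1 (Nm (α τ)) (2 ^ (n + 2))
      push_cast at h4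
      rw [← h4, eq_comm]
    have h5 : ((2 : ℤ) ^ (n + 2) ∣ Nm (α τ) + 1) ↔
        ((Nm (α τ) : ℤ) : ZMod (2 ^ (n + 2))) = -1 := by
      have h4 := ZMod.intCast_eq_intCast_iff_dvd_sub (-1) (Nm (α τ)) (2 ^ (n + 2))
      push_cast at h4
      rw [sub_neg_eq_add] at h4
      rw [← h4, eq_comm]
    rw [h3, h5]
    exact ⟨fun h => h.2, fun h => ⟨h2, h⟩⟩
  obtain ⟨F', hF', hF'2⟩ := hlay n
    ((LyH f n H).fixingSubgroup.subgroupOf (FixH f H).fixingSubgroup)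
    ((IntermediateField.fixingSubgroup_isOpen (LyH f n H)).preimage continuous_subtype_val)
    (by
      intro τ hτ
      rw [Subgroup.mem_subgroupOf, fix_cyc] at hτ
      obtain ⟨h1, h2⟩ := hτ
      have h3 := hno τ (LGK h1) h2 f (n + 2) (α τ) hf0 (hα τ)
      have h4 : H (α τ) := (Lmem τ (LGK τ.2) (α τ) (down _ _ (hα τ))).1 τ.2
      exact (Fmem τ (LGK τ.2) (α τ) (hα τ)).2 ⟨h4, h3⟩)
    (by rw [hY, Subgroup.index_comap_of_surjective _ hsurj, LyH_index])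
  have hLF' : F'.fixingSubgroup ≤ (FixH f H).fixingSubgroup :=
    IntermediateField.fixingSubgroup_le hF'.1
  have heq : F'.fixingSubgroup = (LyH f n H).fixingSubgroup := by
    rw [← Subgroup.map_subgroupOf_eq_of_le hLF', hF'2, Subgroup.map_subgroupOf_eq_of_le hFL]
  have heq2 : F' = LyH f n H := by
    rw [← InfiniteGalois.fixedField_fixingSubgroup F', heq,
      InfiniteGalois.fixedField_fixingSubgroup]
  rw [← heq2]
  exact hF'

end Pool.Agent.DI.PI
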