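import Pool.Agent.Lib.DI.PI.SpecC

set_option autoImplicit false

/-!
# THEOREM DI, Part I: layers are unique
-/

open scoped Pointwise

noncomputable section

namespace Pool.Agent.DI.PI

open Pool.Agent.MuZ

theorem LyU_le {A B C : Subgroup Gal(Om/ℚ)} (hA : A ≤ C)
    (h : A.subgroupOf C = B.subgroupOf C) : A ≤ B := by
  intro σ hσ
  have h1 : (⟨σ, hA hσ⟩ : C) ∈ A.subgroupOf C := Subgroup.mem_subgroupOf.2 hσ
  rw [h] at h1
  exact Subgroup.mem_subgroupOf.1 h1

theorem pLyU : S_LyU := by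
  intro hU hQZ hSub hPL hPc hTF hNF hLay p _ k hk n F F' hF hF'
  obtain ⟨γ, hγ⟩ := hNF hQZ hSub hPL hPc hTF p k hk
  obtain ⟨h1, -⟩ := hLay p k hk
  obtain ⟨o1, c1, i1⟩ := h1 n F hF
  obtain ⟨o2, c2, i2⟩ := h1 n F' hF'
  have key := hU k.fixingSubgroup p ⊤ _ γ hγ.toGq
    (F.fixingSubgroup.subgroupOf k.fixingSubgroup) (F'.fixingSubgroup.subgroupOf k.fixingSubgroup)
    le_top le_top o1 o2 c1 c2
    (by rw [Subgroup.relIndex_top_right, Subgroup.relIndex_top_right, i1, i2])
    (by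
      rw [Subgroup.relIndex_top_right, i1]
      exact pow_ne_zero _ (Fact.out : p.Prime).ne_zero)
  have l1 : F.fixingSubgroup ≤ k.fixingSubgroup := IntermediateField.fixingSubgroup_le hF.1
  have l2 : F'.fixingSubgroup ≤ k.fixingSubgroup := IntermediateField.fixingSubgroup_le hF'.1
  have e : F.fixingSubgroup = F'.fixingSubgroup :=
    le_antisymm (LyU_le l1 key) (LyU_le l2 key.symm)
  rw [← InfiniteGalois.fixedField_fixingSubgroup F, e, InfiniteGalois.fixedField_fixingSubgroup F']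

end Pool.Agent.DI.PI
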