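import Pool.Agent.Lib.DI.PI.SpecC

/-!
# THEOREM DI, Part I: invariance of the functions `a n` (task 20402)
-/

set_option autoImplicit false

open scoped Pointwise

noncomputable section

namespace Pool.Agent.DI.PI

open Pool.Agent.MuZ Pool.Agent.DI

theorem pMInv : S_MInv := by
  intro hG3 hE1 hAr1 f P μ S v0 d T hD n σ hσ
  obtain ⟨-, -, -, hA4, -, hA6, -⟩ := hAr1
  have hpos : 0 < f * 2 ^ (n + 2) := Nat.mul_pos hD.odd.pos (by positivity)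
  have hσ' : σ⁻¹ ∈ GK := inv_mem hσ
  have key : ∀ a : OO, Psi σ⁻¹ (f * 2 ^ (n + 2)) a → Cop (a * v0) (2 * f) ∧
      σ⁻¹ (uN f (n + 2) μ S (T n) v0) = uN f (n + 2) μ S (T n) (a * v0) := by
    intro a ha
    have h1 : Cop a f ∧ Cop a (2 ^ (n + 2)) := (hA4 a f (2 ^ (n + 2))).1 ha.1
    have h2 : Cop a 2 := by
      have h3 : Cop a (2 * 2 ^ (n + 1)) := by
        have h4 : 2 * 2 ^ (n + 1) = 2 ^ (n + 2) := by ring
        rw [h4]
        exact h1.2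
      exact ((hA4 a 2 (2 ^ (n + 1))).1 h3).1
    have h5 : Cop a (2 * f) := (hA4 a 2 f).2 ⟨h2, h1.1⟩
    refine ⟨hA6 _ _ _ h5 hD.v0, ?_⟩
    obtain ⟨-, -, -, -, -, h6, -⟩ := hG3 f μ S (n + 2) (T n) hD.odd hD.sev hD.cop hD.half
      (by omega) (hD.rep n) v0 hD.v0
    exact h6 _ hσ' a ha
  constructor
  · intro τ hτ
    obtain ⟨a, ha⟩ := hE1.1 _ hσ' _ hpos
    obtain ⟨hc, hu⟩ := key a ha
    have hm : uN f (n + 2) μ S (T n) (a * v0) ∈ Ln f (n + 2) :=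
      (hG3 f μ S (n + 2) (T n) hD.odd hD.sev hD.cop hD.half (by omega) (hD.rep n) _ hc).1
    have hfix : τ⁻¹ (uN f (n + 2) μ S (T n) (a * v0)) = uN f (n + 2) μ S (T n) (a * v0) :=
      (IntermediateField.mem_fixingSubgroup_iff _ _).1 (inv_mem hτ) _ hm
    have hst : (σ * τ)⁻¹ (uN f (n + 2) μ S (T n) v0) = σ⁻¹ (uN f (n + 2) μ S (T n) v0) := by
      rw [mul_inv_rev, AlgEquiv.mul_apply, hu, hfix]
    unfold aa
    rw [hst]
  · intro a ha
    obtain ⟨hc, hu⟩ := key a ha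
    refine ⟨hc, ?_⟩
    unfold aa
    rw [hu]

end Pool.Agent.DI.PI
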