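import Pool.Agent.Lib.DI.PI.SpecD
import Pool.Agent.Lib.MuZ.AsmA

/-!
# THEOREM DI, Part I, module MN1 (helper47): the field of the `M`-torsion
-/

set_option autoImplicit false

open scoped Pointwise

namespace Pool.Agent.DI.PI

open Pool.Agent.MuZ

/-- The generators of `MN M`. -/
private def MN1_S (M : ℕ) : Set Om :=
  {wO} ∪ {a : Om | ∃ v : OO, a = xO (toC v / M) ∨ a = yO (toC v / M)}

private theorem MN1_eq (M : ℕ) : MN M = IntermediateField.adjoin ℚ (MN1_S M) := by
  unfold MN MN1_S KQ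
  rw [IntermediateField.adjoin_union]

private theorem MN1_stable (S : Set Om) (σ : Gal(Om/ℚ))
    (h : ∀ x ∈ S, σ x ∈ IntermediateField.adjoin ℚ S) :
    ∀ x ∈ IntermediateField.adjoin ℚ S, σ x ∈ IntermediateField.adjoin ℚ S := by
  intro x hx
  induction hx using IntermediateField.adjoin_induction with
  | mem x hx => exact h x hx
  | algebraMap x =>
    rw [AlgEquiv.commutes]
    exact IntermediateField.algebraMap_mem _ x
  | add x y _ _ hx hy =>
    rw [map_add]
    exact add_mem hx hy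
  | inv x _ hx =>
    rw [map_inv₀]
    exact inv_mem hx
  | mul x y _ _ hx hy =>
    rw [map_mul]
    exact mul_mem hx hy

private theorem MN1_fixed (S : Set Om) (σ : Gal(Om/ℚ)) (h : ∀ x ∈ S, σ x = x) :
    ∀ x ∈ IntermediateField.adjoin ℚ S, σ x = x := by
  intro x hx
  induction hx using IntermediateField.adjoin_induction with
  | mem x hx => exact h x hx
  | algebraMap x => exact AlgEquiv.commutes σ x
  | add x y _ _ hx hy => rw [map_add, hx, hy]
  | inv x _ hx => rw [map_inv₀, hx]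
  | mul x y _ _ hx hy => rw [map_mul, hx, hy]

private theorem MN1_shift (M : ℕ) (hM : 0 < M) (v u : OO) :
    toC (v + M * u) / M = toC v / M + toC u := by
  have h : (M : ℂ) ≠ 0 := by exact_mod_cast hM.ne'
  rw [map_add, map_mul, map_natCast, add_div, mul_div_cancel_left₀ _ h]

private theorem MN1_per (hB2 : S_B2) (M : ℕ) (hM : 0 < M) (v u : OO) :
    xO (toC (v + M * u) / M) = xO (toC v / M) ∧ yO (toC (v + M * u) / M) = yO (toC v / M) := by
  rw [MN1_shift M hM]
  obtain ⟨h1, h2, -⟩ := hB2.1 (toC v / M) u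
  exact ⟨congrArg ofC h1, congrArg ofC h2⟩

private theorem MN1_finite (hB2 : S_B2) (M : ℕ) (hM : 0 < M) : (MN1_S M).Finite := by
  let I : Finset ℤ := Finset.Ico 0 (M : ℤ)
  let F : ℤ × ℤ → OO := fun p => ⟨p.1, p.2⟩
  have hfin : ({wO} ∪ ((fun p => xO (toC (F p) / M)) '' ((I ×ˢ I : Finset (ℤ × ℤ)) : Set (ℤ × ℤ)) ∪
      (fun p => yO (toC (F p) / M)) '' ((I ×ˢ I : Finset (ℤ × ℤ)) : Set (ℤ × ℤ))) :
        Set Om).Finite :=
    (Set.finite_singleton _).union
      (((Finset.finite_toSet _).image _).union ((Finset.finite_toSet _).image _))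
  refine hfin.subset ?_
  rintro x (hx | ⟨v, hv⟩)
  · exact Or.inl hx
  · right
    have hM' : (0 : ℤ) < M := by exact_mod_cast hM
    have hmem : ((v.re % M, v.im % M) : ℤ × ℤ) ∈ ((I ×ˢ I : Finset (ℤ × ℤ)) : Set (ℤ × ℤ)) := by
      rw [Finset.mem_coe, Finset.mem_product, Finset.mem_Ico, Finset.mem_Ico]
      exact ⟨⟨Int.emod_nonneg _ hM'.ne', Int.emod_lt_of_pos _ hM'⟩,
        ⟨Int.emod_nonneg _ hM'.ne', Int.emod_lt_of_pos _ hM'⟩⟩
    have hv' : v = F (v.re % M, v.im % M) + M * (⟨v.re / M, v.im / M⟩ : OO) := by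
      have hM1 : ((M : ℕ) : OO) = ⟨(M : ℤ), 0⟩ := by
        apply QuadraticAlgebra.ext
        · simp
        · simp
      apply QuadraticAlgebra.ext
      · rw [hM1, QuadraticAlgebra.re_add, QuadraticAlgebra.re_mul]
        change v.re = v.re % M + ((M : ℤ) * (v.re / M) + -2 * 0 * (v.im / M))
        have := Int.emod_add_mul_ediv v.re M
        linarith
      · rw [hM1, QuadraticAlgebra.im_add, QuadraticAlgebra.im_mul]
        change v.im = v.im % M + ((M : ℤ) * (v.im / M) + 0 * (v.re / M) + 1 * 0 * (v.im / M))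
        have := Int.emod_add_mul_ediv v.im M
        linarith
    obtain ⟨h1, h2⟩ := MN1_per hB2 M hM (F (v.re % M, v.im % M)) ⟨v.re / M, v.im / M⟩
    rw [← hv'] at h1 h2
    rcases hv with hv | hv
    · exact Or.inl ⟨_, hmem, by rw [hv, h1]⟩
    · exact Or.inr ⟨_, hmem, by rw [hv, h2]⟩

private theorem MN1_wO (σ : Gal(Om/ℚ)) (hσ : σ ∈ GK) : σ wO = wO := by
  have h : ∀ x ∈ KQ, σ x = x := (mem_fix KQ σ).1 hσ
  exact h wO (IntermediateField.mem_adjoin_simple_self ℚ wO)

private theorem MN1_pow (σ : Gal(Om/ℚ)) (M : ℕ) (b : OO) (h : Psi σ M b) (k : ℕ) :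
    ∀ v : OO, (σ ^ k) (xO (toC v / M)) = xO (toC (b ^ k * v) / M) ∧
      (σ ^ k) (yO (toC v / M)) = yO (toC (b ^ k * v) / M) := by
  induction k with
  | zero =>
    intro v
    rw [pow_zero, pow_zero, one_mul]
    exact ⟨rfl, rfl⟩
  | succ k ih =>
    intro v
    have h1 : b ^ (k + 1) * v = b ^ k * (b * v) := by rw [pow_succ, mul_assoc]
    rw [pow_succ, h1]
    change (σ ^ k) (σ _) = _ ∧ (σ ^ k) (σ _) = _
    rw [(h.2 v).1, (h.2 v).2]
    exact ih (b * v)

theorem pMN1 : S_MN1 := by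
  intro hB2 hE1 hE8 f N hf h7 hA hN
  obtain ⟨hneg, hcop, hper, hmul⟩ := hN
  have hf0 : 0 < f := hf.pos
  have hM : 0 < f * 2 ^ N := Nat.mul_pos hf0 (pow_pos (by norm_num) N)
  have h1 : Hf f 1 := by
    have h := hmul _ _ hneg hneg
    rwa [neg_mul_neg, one_mul] at h
  obtain ⟨hLfin, hKL, hLmem⟩ := hE8 f (Hf f) hf0 hneg hcop hper hmul
  have hKM : KQ ≤ MN (f * 2 ^ N) := le_sup_left
  refine ⟨?_, ?_, hKL, ?_, ?_⟩
  · rw [MN1_eq]
    have hfin := MN1_finite hB2 (f * 2 ^ N) hM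
    have : Finite (MN1_S (f * 2 ^ N)) := hfin.to_subtype
    exact IntermediateField.finiteDimensional_adjoin
      (fun x _ => (Algebra.IsIntegral.isIntegral x : IsIntegral ℚ x))
  · intro σ hσ
    rw [MN1_eq]
    apply MN1_stable
    have hσ' : σ ∈ GK := hσ
    obtain ⟨a, ha⟩ := hE1.1 σ hσ' (f * 2 ^ N) hM
    rintro x (hx | ⟨v, hv⟩)
    · rw [Set.mem_singleton_iff] at hx
      subst hx
      rw [MN1_wO σ hσ']
      exact IntermediateField.subset_adjoin _ _ (Or.inl rfl)
    · apply IntermediateField.subset_adjoin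
      right
      rcases hv with hv | hv
      · exact ⟨a * v, Or.inl (by rw [hv, (ha.2 v).1])⟩
      · exact ⟨a * v, Or.inr (by rw [hv, (ha.2 v).2])⟩
  · intro x hx
    rw [← InfiniteGalois.fixedField_fixingSubgroup (MN (f * 2 ^ N)),
      IntermediateField.mem_fixedField_iff]
    intro τ hτ
    have hτK : τ ∈ GK := IntermediateField.fixingSubgroup_le hKM hτ
    have hτ' := (mem_fix _ τ).1 hτ
    have hsub : ∀ v : OO, toC v / (f : ℂ) = toC (2 ^ N * v) / ((f * 2 ^ N : ℕ) : ℂ) := by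
      intro v
      have hf1 : (f : ℂ) ≠ 0 := by exact_mod_cast hf0.ne'
      rw [map_mul, map_pow, map_ofNat]
      push_cast
      field_simp
    have hmem : ∀ z ∈ MN1_S (f * 2 ^ N), z ∈ MN (f * 2 ^ N) := by
      intro z hz
      rw [MN1_eq]
      exact IntermediateField.subset_adjoin _ _ hz
    have hPsi : Psi τ f 1 := by
      refine ⟨?_, fun v => ?_⟩
      · have h2 : Nm (1 : OO) = 1 := by
          change (1 : ℤ) ^ 2 + 1 * 0 + 2 * 0 ^ 2 = 1
          norm_num
        unfold Cop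
        rw [h2]
        exact isCoprime_one_left
      · rw [one_mul, hsub v]
        exact ⟨hτ' _ (hmem _ (Or.inr ⟨_, Or.inl rfl⟩)), hτ' _ (hmem _ (Or.inr ⟨_, Or.inr rfl⟩))⟩
    exact hx τ hτK 1 hPsi h1
  · obtain ⟨a, ha⟩ := hA
    refine ⟨a, fun σ hσ => ?_⟩
    have hσK : σ ∈ GK := IntermediateField.fixingSubgroup_le hKL hσ
    obtain ⟨b, hb⟩ := hE1.1 σ hσK (f * 2 ^ N) hM
    have hbf : Psi σ f b := by
      refine ⟨?_, fun v => ?_⟩
      · have h2 := hb.1
        unfold Cop at h2 ⊢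
        rw [Nat.cast_mul] at h2
        exact h2.of_mul_right_left
      · have hsub : ∀ v : OO, toC v / (f : ℂ) = toC (2 ^ N * v) / ((f * 2 ^ N : ℕ) : ℂ) := by
          intro v
          have hf1 : (f : ℂ) ≠ 0 := by exact_mod_cast hf0.ne'
          rw [map_mul, map_pow, map_ofNat]
          push_cast
          field_simp
        rw [hsub v, hsub (b * v), mul_left_comm]
        exact hb.2 (2 ^ N * v)
    have hHb : Hf f b := (hLmem σ hσK b hbf).1 ((mem_fix _ σ).1 hσ)
    obtain ⟨u, hu⟩ := ha b hb.1 hHb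
    have hu' : b ^ 2 ^ a = 1 + ((f * 2 ^ N : ℕ) : OO) * u := by
      rw [← hu]
      ring
    rw [mem_fix, MN1_eq]
    apply MN1_fixed
    rintro x (hx | ⟨v, hv⟩)
    · rw [Set.mem_singleton_iff] at hx
      subst hx
      exact MN1_wO _ (pow_mem hσK _)
    · have h3 := MN1_pow σ (f * 2 ^ N) b hb (2 ^ a) v
      have h4 : b ^ 2 ^ a * v = v + ((f * 2 ^ N : ℕ) : OO) * (u * v) := by
        rw [hu']
        ring
      rw [h4] at h3
      obtain ⟨h5, h6⟩ := MN1_per hB2 (f * 2 ^ N) hM v (u * v)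
      rw [h5, h6] at h3
      rcases hv with hv | hv
      · rw [hv]
        exact h3.1
      · rw [hv]
        exact h3.2

end Pool.Agent.DI.PI
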