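import Pool.Agent.Lib.DI.PI.SpecC

/-!
# THEOREM DI, Part I: norm compatibility (helper17)
-/

set_option autoImplicit false

open scoped Pointwise

namespace Pool.Agent.DI.PI

open Pool.Agent.MuZ Pool.Agent.DI

private theorem MNrm_odd (q z : ℤ) (h1 : q ∣ z - 1 ∨ q ∣ z + 1)
    (h2 : ¬ (q * 2 ∣ z - 1 ∨ q * 2 ∣ z + 1)) :
    ∃ s k : ℤ, (s = 1 ∨ s = -1) ∧ z = s + q * (2 * k + 1) := by
  rcases h1 with ⟨k, hk⟩ | ⟨k, hk⟩
  · rcases Int.even_or_odd' k with ⟨c, hc | hc⟩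
    · refine absurd (Or.inl ⟨c, ?_⟩) h2
      rw [hk, hc]
      ring
    · refine ⟨1, c, Or.inl rfl, ?_⟩
      rw [← hc]
      linarith
  · rcases Int.even_or_odd' k with ⟨c, hc | hc⟩
    · refine absurd (Or.inr ⟨c, ?_⟩) h2
      rw [hk, hc]
      ring
    · refine ⟨-1, c, Or.inr rfl, ?_⟩
      rw [← hc]
      linarith

private theorem MNrm_num (m x y : ℤ) (hx : 2 * m ∣ x - 1 ∨ 2 * m ∣ x + 1)
    (hy : 2 * m ∣ y - 1 ∨ 2 * m ∣ y + 1) (hx' : ¬ (2 * m * 2 ∣ x - 1 ∨ 2 * m * 2 ∣ x + 1))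
    (hy' : ¬ (2 * m * 2 ∣ y - 1 ∨ 2 * m * 2 ∣ y + 1)) :
    2 * m * 2 ∣ x * y - 1 ∨ 2 * m * 2 ∣ x * y + 1 := by
  obtain ⟨s, k, hs, rfl⟩ := MNrm_odd _ x hx hx'
  obtain ⟨t, l, ht, rfl⟩ := MNrm_odd _ y hy hy'
  rcases hs with rfl | rfl <;> rcases ht with rfl | rfl
  · exact Or.inl ⟨k + l + 1 + m * (2 * k + 1) * (2 * l + 1), by ring⟩
  · exact Or.inr ⟨l - k + m * (2 * k + 1) * (2 * l + 1), by ring⟩
  · exact Or.inr ⟨k - l + m * (2 * k + 1) * (2 * l + 1), by ring⟩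
  · exact Or.inl ⟨-k - l - 1 + m * (2 * k + 1) * (2 * l + 1), by ring⟩

/-- Two elements outside of the subgroup of index `2`. -/
private theorem MNrm_ind (hAr1 : S_Ar1) (f n : ℕ) (b a : OO) (hb : HN f (n + 2) b)
    (ha : HN f (n + 2) a) (hba : HN f (n + 2) (b * a)) (hb' : ¬ HN f (n + 1 + 2) b)
    (ha' : ¬ HN f (n + 1 + 2) a) : HN f (n + 1 + 2) (b * a) := by
  have e1 : (2 : ℤ) ^ (n + 2) = 2 * 2 ^ (n + 1) := by ring
  have e2 : (2 : ℤ) ^ (n + 1 + 2) = 2 * 2 ^ (n + 1) * 2 := by ring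
  have h1 : ¬ (2 * 2 ^ (n + 1) * 2 ∣ Nm b - 1 ∨ 2 * 2 ^ (n + 1) * 2 ∣ Nm b + 1) := by
    intro h
    refine hb' ⟨hb.1, ?_⟩
    rw [e2]
    exact h
  have h2 : ¬ (2 * 2 ^ (n + 1) * 2 ∣ Nm a - 1 ∨ 2 * 2 ^ (n + 1) * 2 ∣ Nm a + 1) := by
    intro h
    refine ha' ⟨ha.1, ?_⟩
    rw [e2]
    exact h
  have h3 := hb.2
  have h4 := ha.2
  rw [e1] at h3 h4
  refine ⟨hba.1, ?_⟩
  rw [e2, hAr1.1]
  exact MNrm_num _ _ _ h3 h4 h1 h2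

theorem pMNrm : S_MNrm := by
  classical
  intro hInv hG3 hKap hGal hPs hAr1 hAr3 hB2 hE1 hE8 f P μ S v0 d T hd hly n σ hσ R hR
  obtain ⟨hPmul, -, -, hPlev, -, -, -⟩ := hPs hB2 hE1 hAr1
  have hNi := (hAr3 hAr1 f hd.odd).2.2.2
  have hf : 0 < f := hd.odd.pos
  have hpos : ∀ N : ℕ, 0 < f * 2 ^ N := fun N => by positivity
  obtain ⟨hF1, -, hF3, -, hF5, -⟩ := hGal hE1 hE8 _ _ (hpos (n + 2)) (hNi (n + 2))
  obtain ⟨-, -, -, -, hF5', -⟩ := hGal hE1 hE8 _ _ (hpos (n + 1 + 2)) (hNi (n + 1 + 2))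
  change FiniteDimensional ℚ (Ln f (n + 2)) at hF1
  change (Ln f (n + 2)).fixingSubgroup ≤ GK at hF3
  change ∀ τ ∈ GK, ∀ a, Psi τ (f * 2 ^ (n + 2)) a →
    (τ ∈ (Ln f (n + 2)).fixingSubgroup ↔ HN f (n + 2) a) at hF5
  change ∀ τ ∈ GK, ∀ a, Psi τ (f * 2 ^ (n + 1 + 2)) a →
    (τ ∈ (Ln f (n + 1 + 2)).fixingSubgroup ↔ HN f (n + 1 + 2) a) at hF5'
  have hlev : ∀ (τ : Gal(Om/ℚ)) (a : OO), Psi τ (f * 2 ^ (n + 1 + 2)) a →
      Psi τ (f * 2 ^ (n + 2)) a := by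
    intro τ a h
    refine hPlev τ 2 _ a (by norm_num) ?_
    have e : 2 * (f * 2 ^ (n + 2)) = f * 2 ^ (n + 1 + 2) := by ring
    rw [e]
    exact h
  -- an element of `Gal(Om/F)` outside of `Gal(Om/F')`
  have hout : ∃ τ ∈ (Ln f (n + 2)).fixingSubgroup, τ ∉ (Ln f (n + 1 + 2)).fixingSubgroup := by
    by_contra hcon
    push Not at hcon
    have h1 : Ln f (n + 1 + 2) ≤ Ln f (n + 2) := by
      have h2 : (Ln f (n + 2)).fixingSubgroup ≤ (Ln f (n + 1 + 2)).fixingSubgroup := hcon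
      rw [← IntermediateField.le_iff_le] at h2
      rwa [InfiniteGalois.fixedField_fixingSubgroup] at h2
    have h3 := (hly n).2.2
    have h4 := (hly (n + 1)).2.2
    have h5 : Module.finrank ℚ (Ln f (n + 1 + 2)) ≤ Module.finrank ℚ (Ln f (n + 2)) := by
      have : FiniteDimensional ℚ (Ln f (n + 2)) := hF1
      exact LinearMap.finrank_le_finrank_of_injective
        (f := (IntermediateField.inclusion h1).toLinearMap) (IntermediateField.inclusion h1).injective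
    have h6 : 0 < Module.finrank ℚ (Ln f (n + 2)) := Module.finrank_pos
    rw [h4, h3, pow_succ] at h5
    rw [h3] at h6
    nlinarith
  obtain ⟨τ0, hτ0, hτ0'⟩ := hout
  -- the index is two
  have hidx : ∀ τ ∈ (Ln f (n + 2)).fixingSubgroup, τ ∉ (Ln f (n + 1 + 2)).fixingSubgroup →
      ∀ τ' ∈ (Ln f (n + 2)).fixingSubgroup, τ' ∉ (Ln f (n + 1 + 2)).fixingSubgroup →
      τ⁻¹ * τ' ∈ (Ln f (n + 1 + 2)).fixingSubgroup := by
    intro τ h1 h2 τ' h1' h2'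
    have g1 : τ⁻¹ ∈ GK := inv_mem (hF3 h1)
    have g2 : τ' ∈ GK := hF3 h1'
    obtain ⟨b, hb⟩ := hE1.1 τ⁻¹ g1 _ (hpos (n + 1 + 2))
    obtain ⟨a, ha⟩ := hE1.1 τ' g2 _ (hpos (n + 1 + 2))
    have hba := hPmul _ _ _ _ _ hb ha
    refine (hF5' _ (mul_mem g1 g2) _ hba).2 ?_
    refine MNrm_ind hAr1 f n b a ?_ ?_ ?_ ?_ ?_
    · exact (hF5 _ g1 _ (hlev _ _ hb)).1 (inv_mem h1)
    · exact (hF5 _ g2 _ (hlev _ _ ha)).1 h1'
    · exact (hF5 _ (mul_mem g1 g2) _ (hlev _ _ hba)).1 (mul_mem (inv_mem h1) h1')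
    · intro h
      refine h2 ?_
      have h3 := inv_mem ((hF5' _ g1 _ hb).2 h)
      rwa [inv_inv] at h3
    · intro h
      exact h2' ((hF5' _ g2 _ ha).2 h)
  -- the two representatives
  obtain ⟨r1, hr1, hr1'⟩ := hR.ex 1 (one_mem _)
  rw [mul_one] at hr1'
  have hr1f : r1 ∈ (Ln f (n + 1 + 2)).fixingSubgroup := by
    have h := inv_mem hr1'
    rwa [inv_inv] at h
  obtain ⟨r2, hr2, hr2'⟩ := hR.ex τ0 hτ0
  have hr2f : r2 ∉ (Ln f (n + 1 + 2)).fixingSubgroup := by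
    intro h
    refine hτ0' ?_
    have h1 := mul_mem h hr2'
    rwa [mul_inv_cancel_left] at h1
  have hne : r1 ≠ r2 := by
    rintro rfl
    exact hr2f hr1f
  have hRe : R = {r1, r2} := by
    ext r
    simp only [Finset.mem_insert, Finset.mem_singleton]
    constructor
    · intro hr
      by_cases h : r ∈ (Ln f (n + 1 + 2)).fixingSubgroup
      · left
        exact hR.uni r hr r1 hr1 (mul_mem (inv_mem h) hr1f)
      · right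
        exact hR.uni r hr r2 hr2 (hidx r (hR.mem r hr) h r2 (hR.mem r2 hr2) hr2f)
    · rintro (rfl | rfl)
      · exact hr1
      · exact hr2
  rw [hRe, Finset.sum_pair hne]
  -- the units
  obtain ⟨hI1, hI2⟩ := hInv hG3 hE1 hAr1 f P μ S v0 d T hd (n + 1) σ hσ
  have hr2G : r2 ∈ GK := hF3 (hR.mem r2 hr2)
  have hsG : r2⁻¹ ∈ GK := inv_mem hr2G
  obtain ⟨hJ1, hJ2⟩ := hInv hG3 hE1 hAr1 f P μ S v0 d T hd (n + 1) (σ * r2) (mul_mem hσ hr2G)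
  obtain ⟨a, ha⟩ := hE1.1 σ⁻¹ (inv_mem hσ) _ (hpos (n + 1 + 2))
  obtain ⟨a', ha'⟩ := hE1.1 r2⁻¹ hsG _ (hpos (n + 1 + 2))
  obtain ⟨hc1, hc2⟩ := hI2 a ha
  have hmul : Psi (σ * r2)⁻¹ (f * 2 ^ (n + 1 + 2)) (a' * a) := by
    rw [mul_inv_rev]
    exact hPmul _ _ _ _ _ ha' ha
  obtain ⟨hc3, hc4⟩ := hJ2 _ hmul
  obtain ⟨hc5, hc6⟩ := (hInv hG3 hE1 hAr1 f P μ S v0 d T hd n σ hσ).2 a (hlev _ _ ha)
  rw [hI1 r1 hr1f, hc2, hc4, hc6]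
  have hG := hG3 f μ S (n + 1 + 2) (T (n + 1)) hd.odd hd.sev hd.cop hd.half (by omega)
    (hd.rep (n + 1))
  obtain ⟨hx1, hx2, -, -, -, hx6, -, -⟩ := hG (a * v0) hc1
  obtain ⟨hz1, hz2, -, -, -, -, -, -⟩ := hG (a' * a * v0) hc3
  obtain ⟨hy1, hy2, -, -, -, -, -, hy8⟩ := hG3 f μ S (n + 2) (T n) hd.odd hd.sev hd.cop hd.half
    (by omega) (hd.rep n) (a * v0) hc1
  have hsx := hx6 _ hsG a' ha'
  rw [← mul_assoc] at hsx
  obtain ⟨b, hb1, hb2, hb3⟩ := hy8 (T (n + 1)) (hd.rep (n + 1)) r2⁻¹ hsG a' ha'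
    ((hF5 _ hsG _ (hlev _ _ ha')).1 (inv_mem (hR.mem r2 hr2))) (by
      intro h
      refine hr2f ?_
      have h3 := inv_mem ((hF5' _ hsG _ ha').2 h)
      rwa [inv_inv] at h3)
  rw [← hKap.1 d _ _ hx2 hz2 (hd.fix _ _ hx1) (hd.fix _ _ hz1), ← hsx]
  have hb3' : uN f (n + 1 + 2) μ S (T (n + 1)) (a * v0) *
      r2⁻¹ (uN f (n + 1 + 2) μ S (T (n + 1)) (a * v0)) = uN f (n + 2) μ S (T n) (a * v0) * b ^ 2 :=
    hb3
  rw [hb3']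
  exact hKap.2 d _ b hy2 hb2 (hd.fix _ _ hy1) (hd.fix _ _ hb1)

end Pool.Agent.DI.PI
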