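import Pool.Agent.Lib.DI.PI.SpecC

set_option autoImplicit false

/-!
# THEOREM DI, Part I: the component does not vanish
-/

open scoped Pointwise

noncomputable section

namespace Pool.Agent.DI.PI

open Pool.Agent.MuZ Pool.Agent.DI

/-- The norm is `±1` modulo `2 ^ N`. -/
private def MNv_nc (N : ℕ) (v : OO) : Prop := (2 : ℤ) ^ N ∣ Nm v - 1 ∨ (2 : ℤ) ^ N ∣ Nm v + 1

private theorem MNv_nct (hAr1 : S_Ar1) (N : ℕ) (x y : OO) (h : ((2 ^ N : ℕ) : OO) ∣ x - y)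
    (hy : MNv_nc N y) : MNv_nc N x := by
  have h1 := hAr1.2.1 (2 ^ N) y x h
  have h2 : (2 : ℤ) ^ N ∣ Nm x - Nm y := by
    have h3 : ((2 ^ N : ℕ) : ℤ) = (2 : ℤ) ^ N := by push_cast; rfl
    rw [← h3]
    exact h1
  rcases hy with h3 | h3
  · left
    have h4 : Nm x - 1 = (Nm x - Nm y) + (Nm y - 1) := by ring
    rw [h4]
    exact dvd_add h2 h3
  · right
    have h4 : Nm x + 1 = (Nm x - Nm y) + (Nm y + 1) := by ring
    rw [h4]
    exact dvd_add h2 h3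

private theorem MNv_one {f : ℕ} (h : Nice f (Hf f)) : Hf f 1 := by
  have h0 := h.mul (-1) (-1) h.neg h.neg
  have h1 : (-1 : OO) * (-1) = 1 := by ring
  rwa [h1] at h0

private theorem MNv_pow {f : ℕ} (h : Nice f (Hf f)) (x : OO) (hx : Hf f x) (k : ℕ) :
    Hf f (x ^ k) := by
  induction k with
  | zero =>
    rw [pow_zero]
    exact MNv_one h
  | succ k ih =>
    rw [pow_succ]
    exact h.mul _ _ ih hx

private theorem MNv_inv {f : ℕ} (h : Nice f (Hf f)) (x : OO) (hx : Hf f x) :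
    ∃ y, Hf f y ∧ (f : OO) ∣ y * x - 1 := by
  obtain ⟨-, k, hk⟩ := id hx
  refine ⟨x ^ (2 ^ k - 1), MNv_pow h x hx _, ?_⟩
  have h1 : x ^ (2 ^ k - 1) * x = x ^ 2 ^ k := pow_sub_one_mul (by positivity) x
  rw [h1]
  exact hk

private theorem MNv_niceE (hNiL : S_NiL) (hAr1 : S_Ar1) (n : ℕ) :
    Nice (1 * 2 ^ (n + 2)) (fun v => True ∧
      ((2 : ℤ) ^ (n + 2) ∣ Nm v - 1 ∨ (2 : ℤ) ^ (n + 2) ∣ Nm v + 1)) := by
  refine hNiL hAr1 1 (fun _ => True) ⟨trivial, fun v _ => ?_, fun _ _ _ => trivial,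
    fun _ _ _ _ => trivial⟩ n
  unfold Cop
  rw [Nat.cast_one]
  exact isCoprime_one_right

theorem pMNv : S_MNv := by
  intro hMInv hG3 hGal0 hNiL hPs0 hAr1 hAr2 hAr30 hB2 hE1 hE7 hE8 f P μ S v0 d T hD χb χ hχ n T0
    hT0 hG R hR
  classical
  obtain ⟨ps1, ps2, ps3, ps4, ps5, ps6, ps7⟩ := hPs0 hB2 hE1 hAr1
  obtain ⟨ar1, ar2, ar3, ar4, ar5, ar6, ar7, ar8, ar9⟩ := id hAr1
  have hf := hD.odd
  have hf0 : 0 < f := hf.pos
  obtain ⟨-, -, hNice, hNiceN⟩ := hAr30 hAr1 f hf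
  have hone := MNv_one hNice
  have hM0 : 0 < f * 2 ^ (n + 2) := by positivity
  obtain ⟨-, -, hFG, hFex, hF, -⟩ := hGal0 hE1 hE8 (f * 2 ^ (n + 2)) (HN f (n + 2)) hM0
    (hNiceN (n + 2))
  obtain ⟨-, -, hEG, -, hE, -⟩ := hGal0 hE1 hE8 (1 * 2 ^ (n + 2)) _ (by positivity)
    (MNv_niceE hNiL hAr1 n)
  have hcop : f.Coprime (2 ^ (n + 2)) :=
    Nat.Coprime.pow_right _ (Nat.coprime_two_right.2 hf)
  -- membership in the fixing subgroup of `E`
  have hE' : ∀ τ ∈ GK, ∀ a, Psi τ (f * 2 ^ (n + 2)) a →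
      (τ ∈ (LyH 1 n (fun _ => True)).fixingSubgroup ↔ MNv_nc (n + 2) a) := by
    intro τ hτ a ha
    have h1 : Psi τ (1 * 2 ^ (n + 2)) a := by
      rw [one_mul]
      exact ps4 τ f (2 ^ (n + 2)) a hf0 ha
    exact (hE τ hτ a h1).trans ⟨fun h => h.2, fun h => ⟨trivial, h⟩⟩
  have hEG' : ∀ τ ∈ (LyH 1 n (fun _ => True)).fixingSubgroup, τ ∈ GK := fun τ hτ => hEG hτ
  have hRG : ∀ r ∈ R, r ∈ GK := fun r hr => hEG' r (hR.mem r hr)
  -- the choice of `a_r`, `v_r`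
  have hex : ∀ r : Gal(Om/ℚ), ∃ a v : OO, r ∈ R →
      (Psi r⁻¹ (f * 2 ^ (n + 2)) a ∧ (f : OO) ∣ v - a ∧ ((2 ^ (n + 2) : ℕ) : OO) ∣ v - 1) := by
    intro r
    by_cases hr : r ∈ R
    · obtain ⟨a, ha⟩ := hE1.1 r⁻¹ (inv_mem (hRG r hr)) _ hM0
      obtain ⟨v, hv1, hv2⟩ := hAr2.1 f (n + 2) a 1 hf
      exact ⟨a, v, fun _ => ⟨ha, hv1, hv2⟩⟩
    · exact ⟨0, 0, fun h => absurd h hr⟩
  choose a v hav using hex
  have hanc : ∀ r ∈ R, MNv_nc (n + 2) (a r) := fun r hr =>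
    (hE' r⁻¹ (inv_mem (hRG r hr)) (a r) (hav r hr).1).1 (inv_mem (hR.mem r hr))
  have hacop : ∀ r ∈ R, Cop (a r) f := fun r hr => ((ar4 _ _ _).1 (hav r hr).1.1).1
  have hvcopf : ∀ r ∈ R, Cop (v r) f := fun r hr => ar5 f (a r) (v r) (hav r hr).2.1 (hacop r hr)
  have hvcop : ∀ r ∈ R, Cop (v r) (2 * f) := by
    intro r hr
    refine (ar4 _ _ _).2 ⟨?_, hvcopf r hr⟩
    have h1 : Cop (1 : OO) 2 := by
      rw [ar9]
      refine ⟨1, 0, ?_⟩
      ring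
    refine ar5 2 1 (v r) ?_ h1
    refine dvd_trans ?_ (hav r hr).2.2
    refine ⟨((2 ^ (n + 1) : ℕ) : OO), ?_⟩
    push_cast
    ring
  -- claim A
  have hA : ∀ r ∈ R, aa f μ S v0 d T n r = kap (uN f (n + 2) μ S T0 (v r * v0)) d := by
    intro r hr
    obtain ⟨hc1, hc2⟩ := (hMInv hG3 hE1 hAr1 f P μ S v0 d T hD n r (hRG r hr)).2 (a r)
      (hav r hr).1
    obtain ⟨h, hh1, hh2⟩ := hAr2.1 f (n + 2) 1 (a r) hf
    have hHN : HN f (n + 2) h := by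
      refine ⟨?_, MNv_nct hAr1 (n + 2) h (a r) hh2 (hanc r hr)⟩
      obtain ⟨u, hu⟩ := hh1
      have h3 : h = 1 + f * u := by linear_combination hu
      rw [h3]
      exact hNice.per 1 u hone
    have hw : Cop (v r * v0) (2 * f) := ar6 _ _ _ (hvcop r hr) hD.v0
    have g1 := hG3 f μ S (n + 2) (T n) hD.odd hD.sev hD.cop hD.half (by omega) (hD.rep n)
      (a r * v0) hc1
    have g2 := hG3 f μ S (n + 2) (T n) hD.odd hD.sev hD.cop hD.half (by omega) (hD.rep n)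
      (v r * v0) hw
    obtain ⟨-, -, -, g1p, -⟩ := g1
    obtain ⟨-, -, -, -, g2h, -, g2T, -⟩ := g2
    have hdvd : ((f * 2 ^ (n + 2) : ℕ) : OO) ∣ h * (v r * v0) - a r * v0 := by
      apply ar8 f (2 ^ (n + 2)) _ hcop
      · obtain ⟨u, hu⟩ := hh1
        obtain ⟨w, hw⟩ := (hav r hr).2.1
        refine ⟨(u * v r + w) * v0, ?_⟩
        linear_combination (v r * v0) * hu + v0 * hw
      · obtain ⟨u, hu⟩ := hh2
        obtain ⟨w, hw⟩ := (hav r hr).2.2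
        refine ⟨(u * v r + a r * w) * v0, ?_⟩
        linear_combination (v r * v0) * hu + (a r * v0) * hw
    rw [hc2, ← g1p _ hdvd, g2h h hHN, g2T T0 hT0]
  -- claim C
  have hC : ∀ r ∈ R, ∀ r' ∈ R, (∃ h, Hf f h ∧ (f : OO) ∣ v r' - h * v r) → r = r' := by
    rintro r hr r' hr' ⟨h, hh, hdv⟩
    obtain ⟨b, hb1, hb2⟩ := ps5 r⁻¹ (inv_mem (hRG r hr)) _ (a r) hM0 (hav r hr).1
    rw [inv_inv] at hb1
    have hρ : Psi (r'⁻¹ * r) (f * 2 ^ (n + 2)) (a r' * b) := ps1 _ _ _ _ _ (hav r' hr').1 hb1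
    have hρE : r'⁻¹ * r ∈ (LyH 1 n (fun _ => True)).fixingSubgroup :=
      mul_mem (inv_mem (hR.mem r' hr')) (hR.mem r hr)
    have hρG := hEG' _ hρE
    have hnc := (hE' _ hρG _ hρ).1 hρE
    have hHf : Hf f (a r' * b) := by
      obtain ⟨u1, hu1⟩ := (hav r' hr').2.1
      obtain ⟨u2, hu2⟩ := hdv
      obtain ⟨u3, hu3⟩ := (hav r hr).2.1
      obtain ⟨u4, hu4⟩ := hb2
      have h3 : a r' * b = h + f * (-u1 * b + u2 * b + h * u3 * b + h * (2 ^ (n + 2)) * u4) := by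
        push_cast at hu4
        linear_combination (-b) * hu1 + b * hu2 + (h * b) * hu3 + h * hu4
      rw [h3]
      exact hNice.per h _ hh
    have hF' := (hF _ hρG _ hρ).2 ⟨hHf, hnc⟩
    exact (hR.uni r' hr' r hr hF').symm
  have hinj : ∀ r ∈ R, ∀ r' ∈ R, v r = v r' → r = r' := by
    intro r hr r' hr' h
    refine hC r hr r' hr' ⟨1, hone, 0, ?_⟩
    rw [h]
    ring
  -- the set `D`
  have hGD := hG (R.image v) ?_ ?_ ?_
  · intro hsum
    apply hGD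
    rw [Finset.sum_image hinj]
    set Sm : ZZ := ∑ r ∈ R, χ (v r) * ((kap (uN f (n + 2) μ S T0 (v r * v0)) d).val : ZZ)
      with hSm
    have e1 : ∑ r ∈ R, (χ (v r) : Om) *
        ((kap (uN f (n + 2) μ S T0 (v r * v0)) d).val : Om) = (Sm : Om) := by
      rw [hSm]
      push_cast
      rfl
    have hP := hD.ab.1
    have e2 : Sm ∈ P := by
      rw [← Ideal.Quotient.eq_zero_iff_mem, hSm, map_sum, ← hsum]
      refine Finset.sum_congr rfl fun r hr => ?_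
      rw [map_mul, map_natCast, hA r hr, mul_comm]
      congr 1
      apply hχ r (hRG r hr)
      obtain ⟨u, hu⟩ := (hav r hr).2.1
      have h3 : v r = a r + f * u := by linear_combination hu
      rw [h3]
      apply ps3
      have h4 := (hav r hr).1
      rw [mul_comm f] at h4
      exact ps4 _ (2 ^ (n + 2)) f _ (by positivity) h4
    rw [e1]
    refine ⟨Sm, 1, e2, fun h => hP.ne_top ((Ideal.eq_top_iff_one P).2 h), ?_⟩
    rw [OneMemClass.coe_one, mul_one]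
  · intro u hu
    obtain ⟨r, hr, rfl⟩ := Finset.mem_image.1 hu
    exact ⟨hvcop r hr, (hav r hr).2.2⟩
  · intro w hw
    obtain ⟨w', hw1, hw2⟩ := hAr2.1 f (n + 2) w 1 hf
    have hcw : Cop w' (f * 2 ^ (n + 2)) := by
      refine (ar4 _ _ _).2 ⟨ar5 f w w' hw1 hw, ar5 _ 1 w' hw2 ?_⟩
      rw [ar9]
      refine ⟨1, 0, ?_⟩
      ring
    have hnc1 : MNv_nc (n + 2) w' := by
      apply MNv_nct hAr1 (n + 2) w' 1 hw2
      left
      have h3 : Nm (1 : OO) - 1 = 0 := by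
        have h4 := ar1 1 1
        rw [mul_one] at h4
        have h5 : Nm (1 : OO) = 1 := rfl
        rw [h5]
        ring
      rw [h3]
      exact dvd_zero _
    obtain ⟨τ, hτ, hτ2⟩ := hE7 _ w' hM0 hcw
    have key : ∀ c0 : OO, (c0 = w' ∨ c0 = -w') → Psi τ (f * 2 ^ (n + 2)) c0 →
        ∃ u ∈ R.image v, ∃ h, Hf f h ∧ (f : OO) ∣ w - h * u := by
      intro c0 hc0 hP0
      have hnc2 : MNv_nc (n + 2) c0 := by
        rcases hc0 with h | h
        · rw [h]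
          exact hnc1
        · rw [h]
          unfold MNv_nc
          rw [ar3]
          exact hnc1
      have hτE := (hE' τ hτ c0 hP0).2 hnc2
      obtain ⟨r, hr, hρF⟩ := hR.ex τ⁻¹ (inv_mem hτE)
      have hρG : r⁻¹ * τ⁻¹ ∈ GK := hFG hρF
      obtain ⟨c, hc1, hc2⟩ := (hFex _ hρG).1 hρF
      have hr1 : Psi r⁻¹ (f * 2 ^ (n + 2)) (c * c0) := by
        have h3 := ps1 _ _ _ _ _ hc1 hP0
        have h4 : r⁻¹ * τ⁻¹ * τ = r⁻¹ := by rw [inv_mul_cancel_right]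
        rwa [h4] at h3
      obtain ⟨u1, hu1⟩ := hE1.2 _ _ _ _ hM0 (hav r hr).1 hr1
      -- `x = ± c`
      obtain ⟨x, hx, hxc⟩ : ∃ x, Hf f x ∧ c * c0 = x * w' := by
        rcases hc0 with h | h
        · exact ⟨c, hc2.1, by rw [h]⟩
        · refine ⟨-1 * c, hNice.mul _ _ hNice.neg hc2.1, ?_⟩
          rw [h]
          ring
      obtain ⟨y, hy, hyx⟩ := MNv_inv hNice x hx
      refine ⟨v r, Finset.mem_image_of_mem v hr, y, hy, ?_⟩
      obtain ⟨u2, hu2⟩ := (hav r hr).2.1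
      obtain ⟨u3, hu3⟩ := hw1
      obtain ⟨u4, hu4⟩ := hyx
      refine ⟨-(u4 * w) - y * x * u3 - y * (2 ^ (n + 2)) * u1 - y * u2, ?_⟩
      push_cast at hu1
      linear_combination (-w) * hu4 - (y * x) * hu3 - y * hu1 - y * hu2 - y * hxc
    rcases hτ2 with h | h
    · exact key w' (Or.inl rfl) h
    · exact key (-w') (Or.inr rfl) h
  · intro u hu u' hu' h
    obtain ⟨r, hr, rfl⟩ := Finset.mem_image.1 hu
    obtain ⟨r', hr', rfl⟩ := Finset.mem_image.1 hu'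
    rw [hC r hr r' hr' h]

end Pool.Agent.DI.PI
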