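import Pool.Agent.Lib.DI.PI.SpecC

set_option autoImplicit false

/-!
# THEOREM DI, Part I: the group of `LyH` is nice
-/

open scoped Pointwise

noncomputable section

namespace Pool.Agent.DI.PI

open Pool.Agent.MuZ

private theorem NiL_nm_one : Nm (1 : OO) = 1 := by
  have h1 : (1 : OO).re = 1 := rfl
  have h2 : (1 : OO).im = 0 := rfl
  unfold Nm
  rw [h1, h2]
  norm_num

theorem pNiL : S_NiL := by
  rintro ⟨h1, h2, h3, h4, -⟩ f H hH n
  refine ⟨⟨hH.neg, Or.inl ?_⟩, ?_, ?_, ?_⟩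
  · rw [h3, NiL_nm_one, sub_self]
    exact dvd_zero _
  · rintro v ⟨hv, hn⟩
    refine (h4 v f (2 ^ (n + 2))).2 ⟨hH.cop v hv, ?_⟩
    show IsCoprime (Nm v) (((2 ^ (n + 2) : ℕ)) : ℤ)
    push_cast
    rcases hn with ⟨k, hk⟩ | ⟨k, hk⟩
    · exact ⟨1, -k, by linear_combination hk⟩
    · exact ⟨-1, k, by linear_combination -hk⟩
  · rintro v u ⟨hv, hn⟩
    have e : (((f * 2 ^ (n + 2) : ℕ)) : OO) * u = f * (((2 ^ (n + 2) : ℕ) : OO) * u) := by
      rw [Nat.cast_mul, mul_assoc]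
    have hd : (((2 ^ (n + 2) : ℕ)) : OO) ∣ (v + ((f * 2 ^ (n + 2) : ℕ) : OO) * u) - v :=
      ⟨f * u, by rw [Nat.cast_mul]; ring⟩
    have hN := h2 (2 ^ (n + 2)) v (v + ((f * 2 ^ (n + 2) : ℕ) : OO) * u) hd
    have e2 : (((2 ^ (n + 2) : ℕ)) : ℤ) = 2 ^ (n + 2) := by push_cast; rfl
    rw [e2] at hN
    obtain ⟨k, hk⟩ := hN
    refine ⟨?_, ?_⟩
    · rw [e]
      exact hH.per v _ hv
    · rcases hn with ⟨l, hl⟩ | ⟨l, hl⟩
      · exact Or.inl ⟨k + l, by linear_combination hk + hl⟩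
      · exact Or.inr ⟨k + l, by linear_combination hk + hl⟩
  · rintro v u ⟨hv, hn⟩ ⟨hu, hm⟩
    refine ⟨hH.mul v u hv hu, ?_⟩
    rw [h1]
    rcases hn with ⟨k, hk⟩ | ⟨k, hk⟩ <;> rcases hm with ⟨l, hl⟩ | ⟨l, hl⟩
    · exact Or.inl ⟨k * Nm u + l, by linear_combination Nm u * hk + hl⟩
    · exact Or.inr ⟨k * Nm u + l, by linear_combination Nm u * hk + hl⟩
    · exact Or.inr ⟨k * Nm u - l, by linear_combination Nm u * hk - hl⟩
    · exact Or.inl ⟨k * Nm u - l, by linear_combination Nm u * hk - hl⟩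

end Pool.Agent.DI.PI
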