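import Pool.Agent.Lib.DI.PI.SpecC

/-!
# THEOREM DI, Part I: the norm of `a` and `Qcyc 2` (helper26)
-/

set_option autoImplicit false

open scoped Pointwise

namespace Pool.Agent.DI.PI

open Pool.Agent.MuZ Pool.Agent.DI

private theorem NoC_nonneg (v : OO) : 0 ≤ Nm v := by
  have h : 4 * Nm v = (2 * v.re + v.im) ^ 2 + 7 * v.im ^ 2 := by
    unfold Nm
    ring
  nlinarith [sq_nonneg (2 * v.re + v.im), sq_nonneg v.im]

private theorem NoC_odd (N : ℕ) (t : ℤ) (h : (2 : ℤ) ^ N ∣ t * (t + 1)) :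
    (2 : ℤ) ^ N ∣ t ∨ (2 : ℤ) ^ N ∣ t + 1 := by
  rcases Int.even_or_odd t with ht | ht
  · left
    have h1 : IsCoprime ((2 : ℤ) ^ N) (t + 1) := by
      apply IsCoprime.pow_left
      obtain ⟨k, hk⟩ := ht
      exact ⟨-k, 1, by rw [hk]; ring⟩
    exact h1.dvd_of_dvd_mul_right h
  · right
    have h1 : IsCoprime ((2 : ℤ) ^ N) t := by
      apply IsCoprime.pow_left
      obtain ⟨k, hk⟩ := ht
      exact ⟨-k, 1, by rw [hk]; ring⟩
    exact h1.dvd_of_dvd_mul_left h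

private theorem NoC_sq (N : ℕ) (c : ℤ) (h : (2 : ℤ) ^ (N + 1) ∣ c ^ 2 - 1) :
    (2 : ℤ) ^ N ∣ c - 1 ∨ (2 : ℤ) ^ N ∣ c + 1 := by
  rcases Nat.eq_zero_or_pos N with rfl | hN
  · left
    rw [pow_zero]
    exact one_dvd _
  · obtain ⟨n, rfl⟩ : ∃ n, N = n + 1 := ⟨N - 1, by omega⟩
    have h2 : (2 : ℤ) ∣ c ^ 2 - 1 := (dvd_pow_self 2 (by omega)).trans h
    have hc : ∃ t, c = 2 * t + 1 := by
      rcases Int.even_or_odd c with ⟨k, hk⟩ | hc
      · exfalso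
        obtain ⟨l, hl⟩ := h2
        rw [hk] at hl
        have : 2 * (2 * k ^ 2 - l) = 1 := by linear_combination hl
        omega
      · exact hc
    obtain ⟨t, rfl⟩ := hc
    obtain ⟨l, hl⟩ := h
    have h3 : (2 : ℤ) ^ n ∣ t * (t + 1) := by
      refine ⟨l, ?_⟩
      have h4 : (4 : ℤ) * (t * (t + 1)) = 4 * (2 ^ n * l) := by
        have h5 : (2 * t + 1) ^ 2 - 1 = 4 * (t * (t + 1)) := by ring
        rw [← h5, hl]
        ring
      exact mul_left_cancel₀ (by norm_num) h4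
    rcases NoC_odd n t h3 with ⟨s, hs⟩ | ⟨s, hs⟩
    · left
      refine ⟨s, ?_⟩
      rw [pow_succ]
      linear_combination 2 * hs
    · right
      refine ⟨s, ?_⟩
      rw [pow_succ]
      linear_combination 2 * hs

theorem pNoC : S_NoC := by
  intro hT hE1 hE6 hPs hB2 hA hA2 τ hτ hτc M N a hM hPsi
  have hPs' := hPs hB2 hE1 hA
  obtain ⟨a', ha'⟩ := hE1.1 τ hτ (M * 2 ^ (N + 1)) (by positivity)
  have h1 : Psi τ (M * 2 ^ N) a' := by
    apply hPs'.2.2.2.1 τ 2 (M * 2 ^ N) a' (by norm_num)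
    have h0 : 2 * (M * 2 ^ N) = M * 2 ^ (N + 1) := by ring
    rw [h0]
    exact ha'
  have h2 : ((M * 2 ^ N : ℕ) : OO) ∣ a - a' := hE1.2 τ _ a a' (by positivity) hPsi h1
  have h3 : ((2 ^ N : ℕ) : OO) ∣ a - a' := by
    refine Dvd.dvd.trans ⟨(M : OO), ?_⟩ h2
    rw [Nat.cast_mul, mul_comm]
  have h4 := hA.2.1 (2 ^ N) a' a h3
  have hcast : ((2 ^ N : ℕ) : ℤ) = 2 ^ N := by push_cast; rfl
  rw [hcast] at h4
  have hζ := (hA2 (2 ^ (N + 1)) (by positivity)).2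
  obtain ⟨ζ, hζe⟩ : ∃ ζ, ζ = zet (2 ^ (N + 1)) := ⟨_, rfl⟩
  rw [← hζe] at hζ
  have h5 : τ ζ = ζ ^ (Nm a').toNat := by
    refine hE6 τ hτ (M * 2 ^ (N + 1)) a' (by positivity) ha' ζ ?_
    rw [mul_comm, pow_mul, hζ.pow_eq_one, one_pow]
  have hT2 := hT 2 Nat.prime_two τ hτc ζ ⟨N + 1, hζ.pow_eq_one⟩
  have h6 : (τ ^ (2 * (2 - 1))) ζ = τ (τ ζ) := by
    change (τ ^ 2) ζ = τ (τ ζ)
    rw [pow_two]
    rfl
  rw [h6, h5, map_pow, h5, ← pow_mul] at hT2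
  have hζ0 : ζ ≠ 0 := hζ.ne_zero (by positivity)
  have h7 : ζ ^ ((Nm a') ^ 2 - 1) = 1 := by
    have h8 : (((Nm a').toNat * (Nm a').toNat : ℕ) : ℤ) = Nm a' ^ 2 := by
      rw [Nat.cast_mul, Int.toNat_of_nonneg (NoC_nonneg a')]
      ring
    rw [← h8, zpow_sub₀ hζ0, zpow_natCast, hT2, zpow_one, div_self hζ0]
  have h9 := (hζ.zpow_eq_one_iff_dvd _).1 h7
  rw [Nat.cast_pow] at h9
  have h10 : (2 : ℤ) ^ (N + 1) ∣ Nm a' ^ 2 - 1 := h9
  rcases NoC_sq N _ h10 with h11 | h11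
  · left
    have h12 := dvd_add h4 h11
    have h13 : Nm a - Nm a' + (Nm a' - 1) = Nm a - 1 := by ring
    rw [h13] at h12
    exact h12
  · right
    have h12 := dvd_add h4 h11
    have h13 : Nm a - Nm a' + (Nm a' + 1) = Nm a + 1 := by ring
    rw [h13] at h12
    exact h12

end Pool.Agent.DI.PI
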