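import Pool.Agent.Lib.DI.PI.SpecD

/-!
# THEOREM DI, Part I, module `Phi`: the uniformisation is a homomorphism to the group of points of Mathlib
-/

set_option autoImplicit false

open scoped Pointwise

noncomputable section

namespace Pool.Agent.DI.PI

open Pool.Agent.MuZ Pool.Agent.DI

theorem Phi_disc : EcC.Δ ≠ 0 := by
  simp only [EcC, WeierstrassCurve.Δ, WeierstrassCurve.b₂, WeierstrassCurve.b₄,
    WeierstrassCurve.b₆, WeierstrassCurve.b₈]
  norm_num

theorem Phi_ns (h1 : S_B1) {z : ℂ} (hz : ¬ Lat z) : EcC.toAffine.Nonsingular (XC z) (YC z) := by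
  refine (WeierstrassCurve.Affine.equation_iff_nonsingular_of_Δ_ne_zero
    (W := EcC.toAffine) Phi_disc).1 ?_
  rw [WeierstrassCurve.Affine.equation_iff]
  have := h1 z hz
  change YC z ^ 2 + 1 * XC z * YC z + 0 * YC z = XC z ^ 3 + (-1) * XC z ^ 2 + (-2) * XC z + (-1)
  linear_combination this

open Classical in
/-- The map. -/
def Phi_f (h1 : S_B1) (z : ℂ) : EcC.toAffine.Point :=
  if h : Lat z then 0 else WeierstrassCurve.Affine.Point.some (XC z) (YC z) (Phi_ns h1 h)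

theorem Phi_lat (h1 : S_B1) {z : ℂ} (h : Lat z) : Phi_f h1 z = 0 := by
  unfold Phi_f
  exact dif_pos h

theorem Phi_not (h1 : S_B1) {z : ℂ} (h : ¬ Lat z) : Phi_f h1 z =
    WeierstrassCurve.Affine.Point.some (XC z) (YC z) (Phi_ns h1 h) := by
  unfold Phi_f
  exact dif_neg h

theorem Phi_ext {x y x' y' : ℂ} {h : EcC.toAffine.Nonsingular x y}
    {h' : EcC.toAffine.Nonsingular x' y'} (hx : x = x') (hy : y = y') :
    WeierstrassCurve.Affine.Point.some x y h = WeierstrassCurve.Affine.Point.some x' y' h' := by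
  subst hx
  subst hy
  rfl

theorem Phi_Ladd {z z' : ℂ} (h : Lat z) (h' : Lat z') : Lat (z + z') := by
  obtain ⟨v, rfl⟩ := h
  obtain ⟨v', rfl⟩ := h'
  exact ⟨v + v', (map_add toC v v').symm⟩

theorem Phi_Lneg {z : ℂ} (h : Lat z) : Lat (-z) := by
  obtain ⟨v, rfl⟩ := h
  exact ⟨-v, (map_neg toC v).symm⟩

theorem Phi_per (h1 : S_B1) (h2 : S_B2) (z : ℂ) {u : ℂ} (hu : Lat u) :
    Phi_f h1 (z + u) = Phi_f h1 z := by
  by_cases hz : Lat z
  · rw [Phi_lat h1 hz, Phi_lat h1 (Phi_Ladd hz hu)]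
  · have hz' : ¬ Lat (z + u) := by
      intro h
      refine hz ?_
      have := Phi_Ladd h (Phi_Lneg hu)
      rwa [add_neg_cancel_right] at this
    rw [Phi_not h1 hz, Phi_not h1 hz']
    obtain ⟨v, rfl⟩ := hu
    obtain ⟨e1, e2, -⟩ := h2.1 z v
    exact Phi_ext e1 e2

theorem Phi_negY (x y : ℂ) : EcC.toAffine.negY x y = -y - x := by
  change -y - 1 * x - 0 = _
  ring

theorem Phi_addX (x x' l : ℂ) : EcC.toAffine.addX x x' l = l ^ 2 + l + 1 - x - x' := by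
  change l ^ 2 + 1 * l - (-1) - x - x' = _
  ring

theorem Phi_addY (x x' y l : ℂ) : EcC.toAffine.addY x x' y l =
    -(l + 1) * (l ^ 2 + l + 1 - x - x') - (y - l * x) := by
  unfold WeierstrassCurve.Affine.addY WeierstrassCurve.Affine.negAddY
  rw [Phi_negY, Phi_addX]
  ring

open Classical in
theorem Phi_dup (h1 : S_B1) (h3 : S_B3) (h5 : S_B5) {z : ℂ} (hz : ¬ Lat z)
    (hz2 : ¬ Lat (2 * z)) : Phi_f h1 (2 * z) = Phi_f h1 z + Phi_f h1 z := by
  have hne : 2 * YC z + XC z ≠ 0 := fun h => hz2 ((h3.2.1 z hz).1 h)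
  have hy : YC z ≠ EcC.toAffine.negY (XC z) (YC z) := by
    rw [Phi_negY]
    intro h
    exact hne (by linear_combination h)
  have hsl : EcC.toAffine.slope (XC z) (XC z) (YC z) (YC z) =
      (3 * XC z ^ 2 - 2 * XC z - 2 - YC z) / (2 * YC z + XC z) := by
    rw [WeierstrassCurve.Affine.slope_of_Y_ne rfl hy, Phi_negY]
    change (3 * XC z ^ 2 + 2 * (-1) * XC z + (-2) - 1 * YC z) / (YC z - (-YC z - XC z)) = _
    congr 1 <;> ring
  rw [Phi_not h1 hz2, Phi_not h1 hz, WeierstrassCurve.Affine.Point.add_self_of_Y_ne hy]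
  obtain ⟨e1, e2, -⟩ := h5 z hz hz2 _ rfl
  refine Phi_ext ?_ ?_
  · rw [hsl, Phi_addX, e1]
    ring
  · rw [hsl, Phi_addY, e2, e1]
    ring

open Classical in
theorem Phi_chord (h1 : S_B1) (h4 : S_B4) {z z' : ℂ} (hz : ¬ Lat z) (hz' : ¬ Lat z')
    (hs : ¬ Lat (z + z')) (hne : XC z ≠ XC z') :
    Phi_f h1 (z + z') = Phi_f h1 z + Phi_f h1 z' := by
  rw [Phi_not h1 hz, Phi_not h1 hz', Phi_not h1 hs,
    WeierstrassCurve.Affine.Point.add_of_X_ne hne]
  obtain ⟨e1, e2, -⟩ := h4 z z' hz hz' hne _ rfl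
  have hsl := WeierstrassCurve.Affine.slope_of_X_ne (W := EcC.toAffine) (y₁ := YC z)
    (y₂ := YC z') hne
  refine Phi_ext ?_ ?_
  · rw [hsl, Phi_addX, e1]
  · rw [hsl, Phi_addY, e2, e1]

open Classical in
theorem Phi_add (h1 : S_B1) (h2 : S_B2) (h3 : S_B3) (h4 : S_B4) (h5 : S_B5) (z z' : ℂ) :
    Phi_f h1 (z + z') = Phi_f h1 z + Phi_f h1 z' := by
  by_cases hz : Lat z
  · rw [Phi_lat h1 hz, zero_add, add_comm, Phi_per h1 h2 z' hz]
  by_cases hz' : Lat z'
  · rw [Phi_lat h1 hz', add_zero, Phi_per h1 h2 z hz']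
  by_cases hs : Lat (z + z')
  · have hk : ∃ v : OO, z = -z' + toC v := by
      obtain ⟨v, hv⟩ := hs
      exact ⟨v, by linear_combination hv⟩
    obtain ⟨v, hv⟩ := hk
    obtain ⟨e1, e2, -⟩ := h2.1 (-z') v
    obtain ⟨f1, f2, -⟩ := h2.2 z'
    rw [← hv] at e1 e2
    rw [Phi_lat h1 hs, Phi_not h1 hz, Phi_not h1 hz',
      WeierstrassCurve.Affine.Point.add_of_Y_eq (e1.trans f1)
        (by rw [Phi_negY, e2, f2]; ring)]
  by_cases hd : Lat (z - z')
  · have k1 : Phi_f h1 z' = Phi_f h1 z := by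
      have := Phi_per h1 h2 z (Phi_Lneg hd)
      rwa [show z + -(z - z') = z' by ring] at this
    have k2 : Phi_f h1 (z + z') = Phi_f h1 (2 * z) := by
      have := Phi_per h1 h2 (2 * z) (Phi_Lneg hd)
      rwa [show 2 * z + -(z - z') = z + z' by ring] at this
    have hz2 : ¬ Lat (2 * z) := by
      intro h
      refine hs ?_
      have := Phi_Ladd h (Phi_Lneg hd)
      rwa [show 2 * z + -(z - z') = z + z' by ring] at this
    rw [k1, k2, Phi_dup h1 h3 h5 hz hz2]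
  · refine Phi_chord h1 h4 hz hz' hs fun h => ?_
    rcases (h3.1 z z' hz hz').1 h with k | k
    · exact hd k
    · exact hs k

open Classical in
theorem pPhi : S_Phi := by
  intro h1 h2 h3 h4 h5
  exact ⟨⟨⟨Phi_f h1, Phi_lat h1 ⟨0, (map_zero toC).symm⟩⟩, Phi_add h1 h2 h3 h4 h5⟩,
    fun z hz => Phi_lat h1 hz, fun z hz => ⟨Phi_ns h1 hz, Phi_not h1 hz⟩⟩

end Pool.Agent.DI.PI
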