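import Pool.Agent.Lib.DI.PI.SpecC

/-!
# THEOREM DI, Part I, module Ps (helper86): elementary facts about `Psi`
-/

set_option autoImplicit false

open scoped Pointwise

namespace Pool.Agent.DI.PI

open Pool.Agent.MuZ Pool.Agent.DI

private theorem Ps_one (N : ℕ) : Psi 1 N 1 := by
  refine ⟨?_, fun v => ?_⟩
  · have h : Nm 1 = 1 := by
      unfold Nm
      rw [QuadraticAlgebra.re_one, QuadraticAlgebra.im_one]
      norm_num
    unfold Cop
    rw [h]
    exact isCoprime_one_left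
  · rw [one_mul]
    exact ⟨rfl, rfl⟩

theorem pPs : S_Ps := by
  intro hB2 hE1 hAr
  obtain ⟨-, -, -, hA4, hA5, hA6, -, -, -⟩ := hAr
  have hper : ∀ (z : ℂ) (v : OO), xO (z + toC v) = xO z ∧ yO (z + toC v) = yO z := by
    intro z v
    obtain ⟨h1, h2, -⟩ := hB2.1 z v
    unfold xO yO
    rw [h1, h2]
    exact ⟨rfl, rfl⟩
  have h1 : ∀ (τ τ' : Gal(Om/ℚ)) (N : ℕ) (a a' : OO), Psi τ N a → Psi τ' N a' →
      Psi (τ * τ') N (a * a') := by
    intro τ τ' N a a' h h'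
    refine ⟨hA6 N a a' h.1 h'.1, fun v => ?_⟩
    rw [AlgEquiv.mul_apply, AlgEquiv.mul_apply, (h'.2 v).1, (h'.2 v).2, (h.2 (a' * v)).1,
      (h.2 (a' * v)).2, mul_assoc]
    exact ⟨rfl, rfl⟩
  have h3 : ∀ (τ : Gal(Om/ℚ)) (N : ℕ) (a u : OO), Psi τ N a → Psi τ N (a + N * u) := by
    intro τ N a u h
    refine ⟨hA5 N a _ ⟨u, by ring⟩ h.1, fun v => ?_⟩
    rcases Nat.eq_zero_or_pos N with rfl | hN
    · have h4 : a + ((0 : ℕ) : OO) * u = a := by
        rw [Nat.cast_zero, zero_mul, add_zero]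
      rw [h4]
      exact h.2 v
    · have hN' : (N : ℂ) ≠ 0 := Nat.cast_ne_zero.2 hN.ne'
      have h4 : toC ((a + N * u) * v) / N = toC (a * v) / N + toC (u * v) := by
        have h5 : (a + N * u) * v = a * v + N * (u * v) := by ring
        rw [h5, map_add, map_mul toC (N : OO), map_natCast, add_div, mul_div_cancel_left₀ _ hN']
      rw [h4, (hper _ _).1, (hper _ _).2]
      exact h.2 v
  have h5 : ∀ τ ∈ GK, ∀ (N : ℕ) (a : OO), 0 < N → Psi τ N a →
      ∃ a', Psi τ⁻¹ N a' ∧ (N : OO) ∣ a * a' - 1 := by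
    intro τ hτ N a hN h
    obtain ⟨a', ha'⟩ := hE1.1 τ⁻¹ (inv_mem hτ) N hN
    refine ⟨a', ha', ?_⟩
    have h6 := h1 τ τ⁻¹ N a a' h ha'
    rw [mul_inv_cancel] at h6
    exact hE1.2 1 N _ _ hN h6 (Ps_one N)
  refine ⟨h1, Ps_one, h3, ?_, h5, ?_, ?_⟩
  · intro τ M N a hM h
    refine ⟨((hA4 a M N).1 h.1).2, fun v => ?_⟩
    have hM' : (M : ℂ) ≠ 0 := Nat.cast_ne_zero.2 hM.ne'
    have h6 : ∀ w : OO, toC (M * w) / ((M * N : ℕ) : ℂ) = toC w / N := by
      intro w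
      rw [map_mul, map_natCast, Nat.cast_mul, mul_div_mul_left _ _ hM']
    have h7 := h.2 (M * v)
    have h8 : a * (M * v) = M * (a * v) := by ring
    rw [h8, h6, h6] at h7
    exact h7
  · intro τ N a k h
    induction k with
    | zero =>
      rw [pow_zero, pow_zero]
      exact Ps_one N
    | succ k ih =>
      rw [pow_succ, pow_succ]
      exact h1 _ _ N _ _ ih h
  · intro τ hτ τ' hτ' N a a' hN h h' hd
    obtain ⟨b, hb, hd'⟩ := h5 τ hτ N a hN h
    obtain ⟨s, hs⟩ := hd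
    obtain ⟨t, ht⟩ := hd'
    have h6 := h3 (τ⁻¹ * τ') N (b * a') (-(b * s + t)) (h1 τ⁻¹ τ' N b a' hb h')
    have h7 : b * a' + N * -(b * s + t) = 1 := by
      linear_combination b * hs + ht
    rwa [h7] at h6

end Pool.Agent.DI.PI
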