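import Pool.Agent.Lib.DI.PI.SpecA

set_option autoImplicit false

/-!
# Thaine's relation gives invariance (`S_Rel1`)
-/

open scoped Pointwise

namespace Pool.Agent.DI.PI

open Pool.Agent.MuZ

section Aux

variable {G : Type} [Group G] [TopologicalSpace G]

private lemma Rel1_one {p : ℕ} {S : Type} [AddCommGroup S] [Module (ZMod p) S]
    {Ls : Set (Subgroup G)} {ρ : Representation (ZMod p) G S} {Y : Subgroup G}
    {c : G → S} (hc : c ∈ Coc Ls ρ Y Y) : c 1 = 0 := by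
  have h := hc.2.1 1 Y.one_mem 1 Y.one_mem
  rw [mul_one, map_one, Module.End.one_apply] at h
  exact left_eq_add.mp h

private lemma Rel1_conj {p : ℕ} {S : Type} [AddCommGroup S] [Module (ZMod p) S]
    {Ls : Set (Subgroup G)} {ρ : Representation (ZMod p) G S} {Y D : Subgroup G}
    (hD : ∀ g ∈ D, ρ g = 1) {c : G → S} (hc : c ∈ Coc Ls ρ Y Y) {g x : G} (hg : g ∈ Y)
    (hx : x ∈ Y ⊓ D) : c (g * x * g⁻¹) = ρ g (c x) := by
  have h1 := hc.2.1 (g * x) (Y.mul_mem hg hx.1) g⁻¹ (Y.inv_mem hg)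
  have h2 := hc.2.1 g hg x hx.1
  have h3 := hc.2.1 g hg g⁻¹ (Y.inv_mem hg)
  rw [mul_inv_cancel, Rel1_one hc] at h3
  rw [h1, h2, map_mul, hD x hx.2, mul_one, add_right_comm, ← h3, zero_add]

private lemma Rel1_mem {p : ℕ} {S : Type} [AddCommGroup S] [Module (ZMod p) S]
    {Ls : Set (Subgroup G)} {ρ : Representation (ZMod p) G S} {Y D : Subgroup G}
    (hD : ∀ g ∈ D, ρ g = 1) {c : G → S} (hc : c ∈ Coc Ls ρ Y Y) (l : S →ₗ[ZMod p] ZMod p) :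
    ∃ f ∈ VV p Ls (Y ⊓ D), ∀ g ∈ Y ⊓ D, f g = l (c g) := by
  classical
  refine ⟨fun g => if g ∈ Y ⊓ D then l (c g) else 0, ⟨fun g hg => if_neg hg,
    fun g hg h hh => ?_, ?_, fun Λ hΛ g hg hgW => ?_⟩, fun g hg => if_pos hg⟩
  · have hgh : g * h ∈ Y ⊓ D := (Y ⊓ D).mul_mem hg hh
    simp only [if_pos hg, if_pos hh, if_pos hgh]
    rw [hc.2.1 g hg.1 h hh.1, hD g hg.2, Module.End.one_apply, map_add]
  · obtain ⟨O, hO⟩ := hc.2.2.1
    refine ⟨O, fun g hg hgO => ?_⟩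
    simp only [if_pos hg]
    rw [hO g hg.1 hgO, map_zero]
  · simp only [if_pos hgW]
    obtain ⟨s, hs⟩ := hc.2.2.2 Λ hΛ
    rw [hs g hg hgW.1, hD g hgW.2, Module.End.one_apply, sub_self, map_zero]

private lemma Rel1_rel {p : ℕ} [Fact p.Prime] {S : Type} [AddCommGroup S] [Module (ZMod p) S]
    {Ls : Set (Subgroup G)} {ρ : Representation (ZMod p) G S} {N D Z : Subgroup G} {γ : G}
    (hD : ∀ g ∈ D, ρ g = 1) {c : G → S} (hc : c ∈ Coc Ls ρ Z Z) (b : G → ZMod p)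
    (hNn : ∀ g, ∀ x ∈ N ⊓ D, g * x * g⁻¹ ∈ N ⊓ D) (hNZ : N ≤ Z)
    (R : Finset G) (hR : ∀ r ∈ R, r ∈ N) (q : ℕ) (x : G) (hx : x ∈ N ⊓ D)
    (hthm : ∀ f ∈ VV p Ls (Z ⊓ D),
      ∑ δ ∈ R, ∑ j ∈ Finset.range q, b (δ * γ ^ j) * f (δ * γ ^ j * x * (δ * γ ^ j)⁻¹) = 0) :
    ∑ j ∈ Finset.range q, ∑ δ ∈ R, b (δ * γ ^ j) • ρ δ (c (γ ^ j * x * (γ ^ j)⁻¹)) = 0 := by
  rw [← Module.forall_dual_apply_eq_zero_iff (ZMod p)]
  intro l
  obtain ⟨f, hf, hfl⟩ := Rel1_mem hD hc l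
  have h := hthm f hf
  rw [Finset.sum_comm] at h
  rw [map_sum, ← h]
  refine Finset.sum_congr rfl fun j _ => ?_
  rw [map_sum]
  refine Finset.sum_congr rfl fun δ hδ => ?_
  rw [map_smul, smul_eq_mul]
  have hy : γ ^ j * x * (γ ^ j)⁻¹ ∈ N ⊓ D := hNn _ x hx
  have hy' : γ ^ j * x * (γ ^ j)⁻¹ ∈ Z ⊓ D := ⟨hNZ hy.1, hy.2⟩
  have hz : δ * (γ ^ j * x * (γ ^ j)⁻¹) * δ⁻¹ ∈ N ⊓ D := hNn _ _ hy
  have e : δ * γ ^ j * x * (δ * γ ^ j)⁻¹ = δ * (γ ^ j * x * (γ ^ j)⁻¹) * δ⁻¹ := by group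
  rw [e, hfl _ ⟨hNZ hz.1, hz.2⟩, Rel1_conj hD hc (hNZ (hR δ hδ)) hy']

end Aux

private lemma Rel1_pow {F G S : Type} [Group G] [Field F] [AddCommGroup S] [Module F S]
    (U : Subgroup G) (γ : G) (hU : ∀ x ∈ U, γ * x * γ⁻¹ ∈ U)
    (X : (U → S) →ₗ[F] (U → S)) (hX : ∀ (h : U → S) (x : U), X h x = h ⟨γ * x * γ⁻¹, hU x x.2⟩)
    (j : ℕ) : ∀ c : G → S, (X ^ j) (fun y : U => c y) = fun y : U => c (γ ^ j * y * (γ ^ j)⁻¹) := by
  induction j with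
  | zero =>
    intro c
    ext y
    simp
  | succ j ih =>
    intro c
    have h1 : X (fun y : U => c y) = fun y : U => (fun g => c (γ * g * γ⁻¹)) (y : G) := by
      ext y
      rw [hX]
    rw [pow_succ, Module.End.mul_apply, h1, ih (fun g => c (γ * g * γ⁻¹))]
    ext y
    show c (γ * (γ ^ j * y * (γ ^ j)⁻¹) * γ⁻¹) = c (γ ^ (j + 1) * y * (γ ^ (j + 1))⁻¹)
    congr 1
    rw [pow_succ']
    group

theorem pRel1 : S_Rel1 := by
  intro hLev hVal hEle hRep hRp2 hAlg hFld G _ _ _ _ _ _ p _ Ls N D γ Y hS S _ _ _ ρ hirr hρD n0 a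
    hC n hn c hc x hx
  obtain ⟨hγD, hYn, -, -⟩ := hEle hLev hVal G p N D γ Y hS
  obtain ⟨R, hRN, hR⟩ := hRep G p N D γ Y hS
  obtain ⟨hR1, hR2, hR3⟩ := hRp2 hLev hVal hEle G p N D γ Y hS R hRN hR
  have hcomm : ∀ g h : G, ρ (g * h) = ρ (h * g) := by
    intro g h
    have e : g * h = (g * h * g⁻¹ * h⁻¹) * (h * g) := by group
    rw [e, map_mul ρ (g * h * g⁻¹ * h⁻¹), hρD _ (hS.comm g h), one_mul]
  obtain ⟨F, _, _, _, e, i, hei⟩ := hFld G p S ρ hirr hcomm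
  have hNn : ∀ g, ∀ y ∈ N ⊓ D, g * y * g⁻¹ ∈ N ⊓ D := fun g y hy =>
    ⟨hS.z.nrm g trivial y hy.1, hS.dn g y hy.2⟩
  let _ : Module F S := Module.compHom S i
  have hsm : ∀ (t : F) (s : S), t • s = i t s := fun _ _ => rfl
  let k : ZMod p →+* F := ZMod.castHom (dvd_refl p) F
  have hk : ∀ z : ZMod p, i (k z) = algebraMap (ZMod p) (Module.End (ZMod p) S) z := by
    intro z
    have h0 : i.comp k = algebraMap (ZMod p) (Module.End (ZMod p) S) := RingHom.ext_zmod _ _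
    exact congrArg (fun φ => φ z) h0
  have hke : ∀ (z : ZMod p) (g : G) (s : S), i (k z * e g) s = z • ρ g s := by
    intro z g s
    rw [map_mul, hk, hei, Module.End.mul_apply, Module.algebraMap_end_apply]
  let A : ℕ → F := fun j => ∑ δ ∈ R, k (a n (δ * γ ^ j)) * e δ
  let X : ((N ⊓ D : Subgroup G) → S) →ₗ[F] ((N ⊓ D : Subgroup G) → S) :=
    { toFun := fun h y => h ⟨γ * y * γ⁻¹, hNn γ y y.2⟩
      map_add' := fun _ _ => rfl
      map_smul' := fun _ _ => rfl }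
  have hpow : ∀ j : ℕ, (X ^ j) (fun y : (N ⊓ D : Subgroup G) => c y) =
      fun y : (N ⊓ D : Subgroup G) => c (γ ^ j * y * (γ ^ j)⁻¹) := fun j =>
    Rel1_pow (N ⊓ D) γ (hNn γ) X (fun _ _ => rfl) j c
  have hrel : ∑ j ∈ Finset.range (p ^ n), A j • (X ^ j) (fun y : (N ⊓ D : Subgroup G) => c y) = 0 := by
    ext y
    rw [Finset.sum_apply]
    have h1 : ∀ j ∈ Finset.range (p ^ n),
        (A j • (X ^ j) (fun y : (N ⊓ D : Subgroup G) => c y)) y =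
          ∑ δ ∈ R, a n (δ * γ ^ j) • ρ δ (c (γ ^ j * y * (γ ^ j)⁻¹)) := by
      intro j _
      rw [hpow, Pi.smul_apply, hsm]
      show i (∑ δ ∈ R, k (a n (δ * γ ^ j)) * e δ) _ = _
      rw [map_sum, LinearMap.sum_apply]
      exact Finset.sum_congr rfl fun δ _ => hke _ _ _
    rw [Finset.sum_congr rfl h1, Pi.zero_apply]
    refine Rel1_rel hρD hc (a n) hNn (hS.yn n) R hRN (p ^ n) y y.2 fun f hf => ?_
    obtain ⟨R', hR', hsum⟩ := hR2 n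
    have h2 := hC.thm n hn f hf y ⟨hS.yn n y.2.1, y.2.2⟩ R' hR'
    rw [hsum (ZMod p) (fun r => a n r * f (r * y * r⁻¹))] at h2
    exact h2
  have hfix : (X ^ p ^ n) (fun y : (N ⊓ D : Subgroup G) => c y) =
      fun y : (N ⊓ D : Subgroup G) => c y := by
    rw [hpow]
    ext y
    rw [Rel1_conj hρD hc (hYn n).2.mem (⟨hS.yn n y.2.1, y.2.2⟩ : (y : G) ∈ Y n ⊓ D),
      hρD _ (D.pow_mem hγD _), Module.End.one_apply]
  have hne : ∑ j ∈ Finset.range (p ^ (n - n0)), A (p ^ n0 * j) ≠ 0 := by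
    obtain ⟨R'', hR'', hsum⟩ := hR3 n0 n hn
    have h1 : ∑ j ∈ Finset.range (p ^ (n - n0)), A (p ^ n0 * j) = ∑ δ ∈ R, k (a n0 δ) * e δ := by
      show ∑ j ∈ Finset.range (p ^ (n - n0)), ∑ δ ∈ R, k (a n (δ * γ ^ (p ^ n0 * j))) * e δ = _
      rw [Finset.sum_comm]
      refine Finset.sum_congr rfl fun δ _ => ?_
      rw [← Finset.sum_mul, ← map_sum, ← hC.nrm n hn δ R'' hR'',
        hsum (ZMod p) (fun r => a n (δ * r))]
    rw [h1]
    intro h0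
    apply hC.nv R (hR1 n0)
    have h2 := congrArg i h0
    rw [map_sum, map_zero] at h2
    rw [← h2]
    refine Finset.sum_congr rfl fun δ _ => ?_
    ext s
    rw [hke, LinearMap.smul_apply]
  have h := hAlg p n0 n hn F ((N ⊓ D : Subgroup G) → S) X A
    (fun y : (N ⊓ D : Subgroup G) => c y) hrel hfix hne
  rw [hpow] at h
  exact congrFun h ⟨x, hx⟩

end Pool.Agent.DI.PI
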