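import Pool.Agent.Lib.DI.PI.SpecA

/-!
# THEOREM DI, Part I, module Rep: representatives of `G / D` in `N`
-/

set_option autoImplicit false

open scoped Pointwise

namespace Pool.Agent.DI.PI

open Pool.Agent.MuZ

theorem pRep : S_Rep := by
  intro G _ _ _ _ p hp N D γ Y h
  classical
  have hDn : D.Normal := ⟨fun n hn g => h.dn g n hn⟩
  have hNn : N.Normal := ⟨fun n hn g => h.z.nrm g (Subgroup.mem_top g) n hn⟩
  have hne : D.index ≠ 0 := by
    intro h0
    exact h.cop (by rw [h0]; exact dvd_zero p)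
  -- `G = N D`
  have htop : N ⊔ D = ⊤ := by
    rw [eq_top_iff]
    intro g _
    have hcop : Nat.Coprime (N ⊔ D).index p := by
      have h1 : (N ⊔ D).index ∣ D.index := Subgroup.index_dvd_of_le le_sup_right
      rw [Nat.coprime_comm, hp.out.coprime_iff_not_dvd]
      exact fun h2 => h.cop (h2.trans h1)
    obtain ⟨a, t, ht, hat⟩ := h.z.quo g (Subgroup.mem_top g) ⟨D, h.dopen⟩
    have hat' : g ^ p ^ a * t ∈ D := hat
    have h1 : g ^ p ^ a ∈ N ⊔ D := by
      have h2 : g ^ p ^ a = (g ^ p ^ a * t) * t⁻¹ := by group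
      rw [h2]
      exact mul_mem (Subgroup.mem_sup_right hat') (Subgroup.mem_sup_left (inv_mem ht))
    have h2 : g ^ (N ⊔ D).index ∈ N ⊔ D := Subgroup.pow_index_mem (N ⊔ D) g
    have h3 : Nat.Coprime (p ^ a) (N ⊔ D).index := (hcop.symm).pow_left a
    have h4 := Nat.gcd_eq_gcd_ab (p ^ a) (N ⊔ D).index
    rw [Nat.Coprime] at h3
    rw [h3] at h4
    have h5 : g = (g ^ p ^ a) ^ ((p ^ a).gcdA (N ⊔ D).index) *
        (g ^ (N ⊔ D).index) ^ ((p ^ a).gcdB (N ⊔ D).index) := by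
      rw [← zpow_natCast g (p ^ a), ← zpow_natCast g (N ⊔ D).index, ← zpow_mul, ← zpow_mul,
        ← zpow_add, ← h4]
      simp
    rw [h5]
    exact mul_mem (zpow_mem h1 _) (zpow_mem h2 _)
  have hfin : Finite (G ⧸ D) := by
    have : D.FiniteIndex := ⟨hne⟩
    infer_instance
  have hex : ∀ c : G ⧸ D, ∃ x : G, x ∈ N ∧ (x : G ⧸ D) = c := by
    intro c
    obtain ⟨g, rfl⟩ := QuotientGroup.mk_surjective c
    have hg : g ∈ N ⊔ D := by
      rw [htop]
      exact Subgroup.mem_top g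
    rw [← SetLike.mem_coe, Subgroup.mul_normal N D] at hg
    obtain ⟨x, hx, d, hd, rfl⟩ := hg
    refine ⟨x, hx, ?_⟩
    rw [QuotientGroup.eq]
    simpa using hd
  choose f hf1 hf2 using hex
  cases nonempty_fintype (G ⧸ D)
  refine ⟨Finset.univ.image f, ?_, ?_, ?_, ?_⟩
  · intro r hr
    obtain ⟨c, _, rfl⟩ := Finset.mem_image.mp hr
    exact hf1 c
  · intro r _
    exact Subgroup.mem_top r
  · intro g _
    refine ⟨f (g : G ⧸ D), Finset.mem_image_of_mem f (Finset.mem_univ _), ?_⟩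
    exact QuotientGroup.eq.mp (hf2 (g : G ⧸ D))
  · intro r hr r' hr' h1
    obtain ⟨c, _, rfl⟩ := Finset.mem_image.mp hr
    obtain ⟨c', _, rfl⟩ := Finset.mem_image.mp hr'
    have h2 : ((f c : G) : G ⧸ D) = (f c' : G) := QuotientGroup.eq.mpr h1
    rw [hf2, hf2] at h2
    rw [h2]

end Pool.Agent.DI.PI
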