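import Pool.Agent.Lib.DI.PI.SpecA

/-!
THEOREM DI, part I, module Rp2: systems of representatives.
-/

set_option autoImplicit false

open scoped Pointwise

namespace Pool.Agent.DI.PI

open Pool.Agent.MuZ

private theorem Rp2_cong {G : Type} [Group G] {γ : G} {H : Subgroup G} {q : ℕ}
    (h : ∀ j : ℕ, γ ^ j ∈ H ↔ q ∣ j) {i j : ℕ} (hij : (γ ^ i)⁻¹ * γ ^ j ∈ H) (hi : i < q)
    (hj : j < q) : i = j := by
  have key : ∀ {i j : ℕ}, (γ ^ i)⁻¹ * γ ^ j ∈ H → i ≤ j → j < q → i = j := by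
    intro i j h1 h2 h3
    have h4 : (γ ^ i)⁻¹ * γ ^ j = γ ^ (j - i) := by
      obtain ⟨k, rfl⟩ := Nat.exists_eq_add_of_le h2
      rw [pow_add, inv_mul_cancel_left, Nat.add_sub_cancel_left]
    rw [h4, h] at h1
    have h5 := Nat.eq_zero_of_dvd_of_lt h1 (by omega)
    omega
  rcases le_total i j with h1 | h1
  · exact key hij h1 hj
  · refine (key ?_ h1 hi).symm
    have h2 := H.inv_mem hij
    rwa [mul_inv_rev, inv_inv] at h2

private theorem Rp2_mod {G : Type} [Group G] {γ y : G} {H : Subgroup G} {a i j k : ℕ}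
    (hi : i = j + a * k) (ha : γ ^ a ∈ H) (h : y * γ ^ i ∈ H) : y * γ ^ j ∈ H := by
  have h1 : γ ^ (a * k) ∈ H := by rw [pow_mul]; exact H.pow_mem ha k
  have h2 := H.mul_mem h (H.inv_mem h1)
  rwa [hi, pow_add, ← mul_assoc, mul_inv_cancel_right] at h2

theorem pRp2 : S_Rp2 := by
  intro hLev hVal hEle G _ _ _ _ _ _ p _ N D γ Y hs R hRN hR
  classical
  have hp : p.Prime := Fact.out
  obtain ⟨hγD, hY, hdiv, hmono⟩ := hEle hLev hVal G p N D γ Y hs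
  have hγD' : ∀ j : ℕ, γ ^ j ∈ D := fun j => D.pow_mem hγD j
  refine ⟨fun n => ⟨fun r hr => hs.yn n (hRN r hr), fun g hg => ?_, fun r hr r' hr' h => ?_⟩,
    fun n => ?_, fun m n hmn => ?_⟩
  · obtain ⟨r, hr, h⟩ := hR.ex g (Subgroup.mem_top g)
    exact ⟨r, hr, (Y n).mul_mem ((Y n).inv_mem (hs.yn n (hRN r hr))) hg, h⟩
  · exact hR.uni r hr r' hr' h.2
  · -- representatives of `G / (Y n ⊓ D)`
    have hinj : ∀ δ ∈ R, ∀ δ' ∈ R, ∀ j < p ^ n, ∀ j' < p ^ n,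
        (δ * γ ^ j)⁻¹ * (δ' * γ ^ j') ∈ Y n ⊓ D → δ = δ' ∧ j = j' := by
      intro δ hδ δ' hδ' j hj j' hj' h
      have h1 : δ⁻¹ * δ' ∈ D := by
        have h2 := D.mul_mem (D.mul_mem (hγD' j) h.2) (D.inv_mem (hγD' j'))
        have h3 : γ ^ j * ((δ * γ ^ j)⁻¹ * (δ' * γ ^ j')) * (γ ^ j')⁻¹ = δ⁻¹ * δ' := by group
        rwa [h3] at h2
      have h4 : δ = δ' := hR.uni δ hδ δ' hδ' h1
      subst h4
      refine ⟨rfl, Rp2_cong (hdiv n) ?_ hj hj'⟩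
      have h5 : (δ * γ ^ j)⁻¹ * (δ * γ ^ j') = (γ ^ j)⁻¹ * γ ^ j' := by group
      rw [h5] at h
      exact h.1
    refine ⟨(R ×ˢ Finset.range (p ^ n)).image fun x => x.1 * γ ^ x.2, ⟨fun r _ => Subgroup.mem_top r,
      fun g _ => ?_, fun r hr r' hr' h => ?_⟩, fun A _ F => ?_⟩
    · obtain ⟨δ, hδ, hδD⟩ := hR.ex g (Subgroup.mem_top g)
      obtain ⟨i, t, ht, hO⟩ := hs.z.gen (δ⁻¹ * g) (Subgroup.mem_top _) ⟨Y n, hs.yo n⟩
      have hO' : (δ⁻¹ * g)⁻¹ * γ ^ i * t ∈ Y n := hO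
      have h1 : (δ⁻¹ * g)⁻¹ * γ ^ i ∈ Y n := by
        have h2 := (Y n).mul_mem hO' ((Y n).inv_mem (hs.yn n ht))
        rwa [mul_inv_cancel_right] at h2
      have h3 : (δ⁻¹ * g)⁻¹ * γ ^ (i % p ^ n) ∈ Y n :=
        Rp2_mod (Nat.mod_add_div i (p ^ n)).symm ((hdiv n (p ^ n)).2 dvd_rfl) h1
      refine ⟨δ * γ ^ (i % p ^ n), Finset.mem_image.2 ⟨(δ, i % p ^ n), Finset.mem_product.2
        ⟨hδ, Finset.mem_range.2 (Nat.mod_lt _ (pow_pos hp.pos n))⟩, rfl⟩, ?_, ?_⟩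
      · have h4 := (Y n).inv_mem h3
        have h5 : ((δ⁻¹ * g)⁻¹ * γ ^ (i % p ^ n))⁻¹ = (δ * γ ^ (i % p ^ n))⁻¹ * g := by group
        rwa [h5] at h4
      · have h4 := D.mul_mem (D.inv_mem (hγD' (i % p ^ n))) hδD
        have h5 : (γ ^ (i % p ^ n))⁻¹ * (δ⁻¹ * g) = (δ * γ ^ (i % p ^ n))⁻¹ * g := by group
        rwa [h5] at h4
    · obtain ⟨x, hx, rfl⟩ := Finset.mem_image.1 hr
      obtain ⟨x', hx', rfl⟩ := Finset.mem_image.1 hr'
      obtain ⟨h1, h2⟩ := Finset.mem_product.1 hx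
      obtain ⟨h1', h2'⟩ := Finset.mem_product.1 hx'
      obtain ⟨h3, h4⟩ := hinj _ h1 _ h1' _ (Finset.mem_range.1 h2) _ (Finset.mem_range.1 h2') h
      rw [h3, h4]
    · rw [Finset.sum_image, Finset.sum_product]
      intro x hx x' hx' h
      obtain ⟨h1, h2⟩ := Finset.mem_product.1 (Finset.mem_coe.1 hx)
      obtain ⟨h1', h2'⟩ := Finset.mem_product.1 (Finset.mem_coe.1 hx')
      have h0 : (x.1 * γ ^ x.2)⁻¹ * (x'.1 * γ ^ x'.2) ∈ Y n ⊓ D := by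
        have h5 : x.1 * γ ^ x.2 = x'.1 * γ ^ x'.2 := h
        rw [h5, inv_mul_cancel]
        exact (Y n ⊓ D).one_mem
      obtain ⟨h3, h4⟩ := hinj _ h1 _ h1' _ (Finset.mem_range.1 h2) _ (Finset.mem_range.1 h2') h0
      exact Prod.ext h3 h4
  · -- representatives of `(Y m ⊓ D) / (Y n ⊓ D)`
    have hpn : p ^ m * p ^ (n - m) = p ^ n := by rw [← pow_add, Nat.add_sub_cancel' hmn]
    have hlt : ∀ i, i < p ^ (n - m) → p ^ m * i < p ^ n := by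
      intro i hi
      rw [← hpn]
      exact Nat.mul_lt_mul_of_pos_left hi (pow_pos hp.pos m)
    have hinj : ∀ i < p ^ (n - m), ∀ i' < p ^ (n - m),
        (γ ^ (p ^ m * i))⁻¹ * γ ^ (p ^ m * i') ∈ Y n → i = i' := by
      intro i hi i' hi' h
      exact Nat.eq_of_mul_eq_mul_left (pow_pos hp.pos m)
        (Rp2_cong (hdiv n) h (hlt i hi) (hlt i' hi'))
    refine ⟨(Finset.range (p ^ (n - m))).image fun i => γ ^ (p ^ m * i), ⟨fun r hr => ?_,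
      fun g hg => ?_, fun r hr r' hr' h => ?_⟩, fun A _ F => ?_⟩
    · obtain ⟨i, -, rfl⟩ := Finset.mem_image.1 hr
      exact ⟨(hdiv m _).2 (dvd_mul_right _ _), hγD' _⟩
    · obtain ⟨i, t, ht, hO⟩ := (hY m).2.gen g hg.1 ⟨Y n, hs.yo n⟩
      have hO' : g⁻¹ * (γ ^ p ^ m) ^ i * t ∈ Y n := hO
      have h1 : g⁻¹ * γ ^ (p ^ m * i) ∈ Y n := by
        have h2 := (Y n).mul_mem hO' ((Y n).inv_mem (hs.yn n ht))
        rwa [mul_inv_cancel_right, ← pow_mul] at h2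
      have h3 : g⁻¹ * γ ^ (p ^ m * (i % p ^ (n - m))) ∈ Y n := by
        refine Rp2_mod (a := p ^ n) (k := i / p ^ (n - m)) ?_ ((hdiv n (p ^ n)).2 dvd_rfl) h1
        rw [← hpn, mul_assoc, ← mul_add, Nat.mod_add_div]
      refine ⟨γ ^ (p ^ m * (i % p ^ (n - m))), Finset.mem_image.2 ⟨i % p ^ (n - m),
        Finset.mem_range.2 (Nat.mod_lt _ (pow_pos hp.pos _)), rfl⟩, ?_,
        D.mul_mem (D.inv_mem (hγD' _)) hg.2⟩
      have h4 := (Y n).inv_mem h3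
      rwa [mul_inv_rev, inv_inv] at h4
    · obtain ⟨i, hi, rfl⟩ := Finset.mem_image.1 hr
      obtain ⟨i', hi', rfl⟩ := Finset.mem_image.1 hr'
      rw [hinj i (Finset.mem_range.1 hi) i' (Finset.mem_range.1 hi') h.1]
    · rw [Finset.sum_image]
      intro i hi i' hi' h
      refine hinj i (Finset.mem_range.1 (Finset.mem_coe.1 hi)) i'
        (Finset.mem_range.1 (Finset.mem_coe.1 hi')) ?_
      have h5 : γ ^ (p ^ m * i) = γ ^ (p ^ m * i') := h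
      rw [h5, inv_mul_cancel]
      exact (Y n).one_mem

end Pool.Agent.DI.PI
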