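import Pool.Agent.Lib.DI.PI.SpecB

/-!
THEOREM DI, part I, module RpS: sums over representatives.
-/

set_option autoImplicit false

open scoped Pointwise

namespace Pool.Agent.DI.PI

open Pool.Agent.MuZ

private theorem RpS_inj {G : Type} [Group G] {W H H' : Subgroup G} (hH : H' ≤ H)
    {R R' : Finset G} (hR : Reps W H R) (hR' : Reps H H' R') {r r' s s' : G} (hr : r ∈ R)
    (hr' : r' ∈ R) (hs : s ∈ R') (hs' : s' ∈ R') (h : (r * s)⁻¹ * (r' * s') ∈ H') :
    r = r' ∧ s = s' := by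
  have h1 : r⁻¹ * r' ∈ H := by
    have h2 := H.mul_mem (H.mul_mem (hR'.mem s hs) (hH h)) (H.inv_mem (hR'.mem s' hs'))
    have h3 : s * ((r * s)⁻¹ * (r' * s')) * s'⁻¹ = r⁻¹ * r' := by group
    rwa [h3] at h2
  have h4 := hR.uni r hr r' hr' h1
  subst h4
  refine ⟨rfl, hR'.uni s hs s' hs' ?_⟩
  have h5 : (r * s)⁻¹ * (r * s') = s⁻¹ * s' := by group
  rwa [h5] at h

theorem pRpS : S_RpS := by
  classical
  intro G _ W H H' hHW hH
  refine ⟨fun A _ F hF R R' hR hR' => ?_, fun R R' hR hR' => ?_, fun hfin => ?_⟩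
  · have hex : ∀ r ∈ R, ∃ r' ∈ R', r'⁻¹ * r ∈ H := fun r hr => hR'.ex r (hR.mem r hr)
    refine Finset.sum_bij (fun r hr => (hex r hr).choose) ?_ ?_ ?_ ?_
    · intro r hr
      exact (hex r hr).choose_spec.1
    · intro r hr s hs h
      have h1 := (hex r hr).choose_spec.2
      have h2 := (hex s hs).choose_spec.2
      have h3 : (hex r hr).choose = (hex s hs).choose := h
      rw [← h3] at h2
      apply hR.uni r hr s hs
      have h4 := H.mul_mem (H.inv_mem h1) h2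
      have h5 : ((hex r hr).choose⁻¹ * r)⁻¹ * ((hex r hr).choose⁻¹ * s) = r⁻¹ * s := by group
      rwa [h5] at h4
    · intro r' hr'
      obtain ⟨r, hr, h⟩ := hR.ex r' (hR'.mem r' hr')
      refine ⟨r, hr, ?_⟩
      have h1 := (hex r hr).choose_spec
      refine hR'.uni _ h1.1 r' hr' ?_
      have h2 := H.mul_mem h1.2 h
      have h3 : (hex r hr).choose⁻¹ * r * (r⁻¹ * r') = (hex r hr).choose⁻¹ * r' := by group
      rwa [h3] at h2
    · intro r hr
      have h1 := (hex r hr).choose_spec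
      have h2 := hF _ (hR'.mem _ h1.1) _ h1.2
      rwa [mul_inv_cancel_left] at h2
  · refine ⟨(R ×ˢ R').image fun x => x.1 * x.2, ⟨?_, ?_, ?_⟩, ?_⟩
    · intro r hr
      obtain ⟨x, hx, rfl⟩ := Finset.mem_image.1 hr
      obtain ⟨h1, h2⟩ := Finset.mem_product.1 hx
      exact W.mul_mem (hR.mem _ h1) (hHW (hR'.mem _ h2))
    · intro g hg
      obtain ⟨r, hr, h1⟩ := hR.ex g hg
      obtain ⟨s, hs, h2⟩ := hR'.ex _ h1
      refine ⟨r * s, Finset.mem_image.2 ⟨(r, s), Finset.mem_product.2 ⟨hr, hs⟩, rfl⟩, ?_⟩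
      have h3 : (r * s)⁻¹ * g = s⁻¹ * (r⁻¹ * g) := by group
      rwa [h3]
    · intro r hr r' hr' h
      obtain ⟨x, hx, rfl⟩ := Finset.mem_image.1 hr
      obtain ⟨x', hx', rfl⟩ := Finset.mem_image.1 hr'
      obtain ⟨h1, h2⟩ := Finset.mem_product.1 hx
      obtain ⟨h1', h2'⟩ := Finset.mem_product.1 hx'
      obtain ⟨h3, h4⟩ := RpS_inj hH hR hR' h1 h1' h2 h2' h
      rw [h3, h4]
    · intro A _ F
      rw [Finset.sum_image, Finset.sum_product]
      intro x hx x' hx' h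
      obtain ⟨h1, h2⟩ := Finset.mem_product.1 hx
      obtain ⟨h1', h2'⟩ := Finset.mem_product.1 hx'
      have h5 : (x.1 * x.2)⁻¹ * (x'.1 * x'.2) ∈ H' := by
        have h6 : x.1 * x.2 = x'.1 * x'.2 := h
        rw [h6, inv_mul_cancel]
        exact H'.one_mem
      obtain ⟨h3, h4⟩ := RpS_inj hH hR hR' h1 h1' h2 h2' h5
      exact Prod.ext h3 h4
  · have hfi : (H.subgroupOf W).FiniteIndex := ⟨hfin⟩
    haveI : Finite (W ⧸ H.subgroupOf W) := Subgroup.finite_quotient_of_finiteIndex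
    haveI := Fintype.ofFinite (W ⧸ H.subgroupOf W)
    refine ⟨Finset.univ.image fun q : W ⧸ H.subgroupOf W => ((q.out : W) : G), ?_, ?_, ?_⟩
    · intro r hr
      obtain ⟨q, _, rfl⟩ := Finset.mem_image.1 hr
      exact q.out.2
    · intro g hg
      refine ⟨(((⟨g, hg⟩ : W) : W ⧸ H.subgroupOf W).out : W),
        Finset.mem_image.2 ⟨_, Finset.mem_univ _, rfl⟩, ?_⟩
      have h1 : ((((⟨g, hg⟩ : W) : W ⧸ H.subgroupOf W).out : W) : W ⧸ H.subgroupOf W) =
          ((⟨g, hg⟩ : W) : W ⧸ H.subgroupOf W) := QuotientGroup.out_eq' _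
      have h2 := QuotientGroup.eq.1 h1
      exact Subgroup.mem_subgroupOf.1 h2
    · intro r hr r' hr' h
      obtain ⟨q, _, rfl⟩ := Finset.mem_image.1 hr
      obtain ⟨q', _, rfl⟩ := Finset.mem_image.1 hr'
      have h1 : q.out⁻¹ * q'.out ∈ H.subgroupOf W := Subgroup.mem_subgroupOf.2 h
      have h2 := QuotientGroup.eq.2 h1
      rw [QuotientGroup.out_eq', QuotientGroup.out_eq'] at h2
      rw [h2]

end Pool.Agent.DI.PI
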