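import Pool.Agent.Lib.MuZ.CSpec

/-!
# THEOREM DI, Part I (helper55), chapter A: the descent in the abstract situation

Every `S_...` below is a statement (a `Prop`) with a complete proof in its docstring. Every one is to be
proved in its own module `Pool/Agent/Lib/DI/PI/<Name>.lean`: theorem `p<Name> : S_<Name>`. Statements
named under `Uses` are hypotheses of the statement itself (`S_A → S_B → ...`) and only have to be introduced.

The situation (`Sit`): `G` is a profinite group (`G = Gal(Om/K)`), `N` and `D` are normal subgroups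
(`N = Gal(Om/K^cyc)`, `D = Gal(Om/L)`), `D` is open, `G / D` is commutative of order prime to `p`, `G / N` is
procyclic and infinite, generated by the image of the pro-`p` element `γ`, and `Y n` is the subgroup of
index `p ^ n` which contains `N` (`Y n = Gal(Om/K_n)`), so `Y n ⊓ D = Gal(Om/L_n)`.
`Core` is the information obtained from Thaine's argument: `a n g = κ_(g⁻¹ u_n)(d)`.
-/

open scoped Pointwise

noncomputable section

namespace Pool.Agent.DI.PI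

open Pool.Agent.MuZ

section Abs

variable {G : Type} [Group G]

/-- `R` is a set of representatives of the classes `g H`, `g ∈ W`. -/
structure Reps (W H : Subgroup G) (R : Finset G) : Prop where
  mem : ∀ r ∈ R, r ∈ W
  ex : ∀ g ∈ W, ∃ r ∈ R, r⁻¹ * g ∈ H
  uni : ∀ r ∈ R, ∀ r' ∈ R, r⁻¹ * r' ∈ H → r = r'

variable [TopologicalSpace G]

/-- The abstract situation. -/
structure Sit (p : ℕ) (N D : Subgroup G) (γ : G) (Y : ℕ → Subgroup G) : Prop where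
  z : Zq p ⊤ N γ
  dn : ∀ g : G, ∀ d ∈ D, g * d * g⁻¹ ∈ D
  dopen : IsOpen (D : Set G)
  comm : ∀ g h : G, g * h * g⁻¹ * h⁻¹ ∈ D
  cop : ¬ p ∣ D.index
  yo : ∀ n, IsOpen (Y n : Set G)
  yn : ∀ n, N ≤ Y n
  yi : ∀ n, (Y n).index = p ^ n

/-- The information obtained from Thaine's argument for the representation `ρ`: `a n` is a function on
`G / (Y n ⊓ D)`; the functions are compatible (`nrm`), `a n` annihilates the locally trivial characters
of `Y n ⊓ D` (`thm`), and the component of `a n0` belonging to `ρ` is not zero (`nv`). -/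
structure Core (p : ℕ) (Ls : Set (Subgroup G)) (D : Subgroup G) (Y : ℕ → Subgroup G) {S : Type}
    [AddCommGroup S] [Module (ZMod p) S] (ρ : Representation (ZMod p) G S) (n0 : ℕ)
    (a : ℕ → G → ZMod p) : Prop where
  inv : ∀ n, n0 ≤ n → ∀ g : G, ∀ u ∈ Y n ⊓ D, a n (g * u) = a n g
  nrm : ∀ n, n0 ≤ n → ∀ g : G, ∀ R : Finset G, Reps (Y n0 ⊓ D) (Y n ⊓ D) R →
    ∑ r ∈ R, a n (g * r) = a n0 g
  thm : ∀ n, n0 ≤ n → ∀ f ∈ VV p Ls (Y n ⊓ D), ∀ τ ∈ Y n ⊓ D, ∀ R : Finset G,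
    Reps ⊤ (Y n ⊓ D) R → ∑ r ∈ R, a n r * f (r * τ * r⁻¹) = 0
  nv : ∀ R : Finset G, Reps (Y n0) (Y n0 ⊓ D) R → ∑ r ∈ R, a n0 r • ρ r ≠ 0

/-- The `γ ^ q`-invariant locally trivial homomorphisms `N ⊓ D → S`. -/
def W0 (p : ℕ) (Ls : Set (Subgroup G)) (N D : Subgroup G) (γ : G) (q : ℕ) (S : Type)
    [AddCommGroup S] [Module (ZMod p) S] : Submodule (ZMod p) (G → S) where
  carrier := {h | (∀ g ∉ N ⊓ D, h g = 0) ∧ (∀ g ∈ N ⊓ D, ∀ g' ∈ N ⊓ D, h (g * g') = h g + h g') ∧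
    (∃ O : OpenSubgroup G, ∀ g ∈ N ⊓ D, g ∈ O → h g = 0) ∧
    (∀ Λ ∈ Ls, ∀ g ∈ Λ, g ∈ N ⊓ D → h g = 0) ∧
    ∀ g ∈ N ⊓ D, h (γ ^ q * g * (γ ^ q)⁻¹) = h g}
  add_mem' := by
    rintro a b ⟨a1, a2, ⟨O, a3⟩, a4, a5⟩ ⟨b1, b2, ⟨O', b3⟩, b4, b5⟩
    refine ⟨fun g hg => ?_, fun g hg h hh => ?_, ⟨O ⊓ O', fun g hg hO => ?_⟩,
      fun Λ hΛ g hg hW => ?_, fun g hg => ?_⟩
    · simp [a1 g hg, b1 g hg]
    · simp only [Pi.add_apply, a2 g hg h hh, b2 g hg h hh]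
      abel
    · simp [a3 g hg hO.1, b3 g hg hO.2]
    · simp [a4 Λ hΛ g hg hW, b4 Λ hΛ g hg hW]
    · simp [a5 g hg, b5 g hg]
  zero_mem' := ⟨fun _ _ => rfl, fun _ _ _ _ => by simp, ⟨⊤, fun _ _ _ => rfl⟩,
    fun _ _ _ _ _ => rfl, fun _ _ => rfl⟩
  smul_mem' := by
    rintro c a ⟨a1, a2, ⟨O, a3⟩, a4, a5⟩
    refine ⟨fun g hg => ?_, fun g hg h hh => ?_, ⟨O, fun g hg hO => ?_⟩, fun Λ hΛ g hg hW => ?_,
      fun g hg => ?_⟩
    · simp [a1 g hg]
    · simp only [Pi.smul_apply, a2 g hg h hh, smul_add]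
    · simp [a3 g hg hO]
    · simp [a4 Λ hΛ g hg hW]
    · simp [a5 g hg]

end Abs

/-- (80 lines) **Elementary facts.** Uses nothing.
PROOF. (1) `γ ∈ D`: by `pro` of `z` (open subgroup `D`) `γ ^ p ^ a ∈ D` for some `a`; also
`γ ^ D.index ∈ D` (`D` is normal, e.g. the order of the quotient group `G ⧸ D`, `Subgroup.pow_index_mem`; `D.index ≠ 0`
because `p ∤ D.index`), and `p ^ a`, `D.index` are coprime: Bézout. (2) Let `Y = Y n`. It is normal: for
`x, y ∈ G` the commutator `x y x⁻¹ y⁻¹` lies in `N`: for every open subgroup, hence (see the header of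
`MuZ/CSpec.lean`: open normal subgroups form a basis) for every open normal `O`, `gen` gives
`x ∈ γ ^ i N O`, `y ∈ γ ^ j N O`, so the commutator is in `N O`; `⋂ N O = N` as `N` is closed. We only need
the commutator to be in `Y n`: apply `gen` with `O = Y n` itself (an open subgroup containing `N`):
`x⁻¹ γ ^ i t ∈ Y n`, `t ∈ N ≤ Y n`. To get normality of `Y n` take an open normal `O ≤ Y n` (finite index
subgroup: `Subgroup.normalCore` of the open subgroup `Y n`, which has finite index; it is open: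
`Subgroup.isOpen_of_isClosed_of_finiteIndex`, or use `S_Lev` of MuZ, which says exactly that `Y n` is normal
and `Zq p (Y n) N (γ ^ p ^ n)`). RECOMMENDED: take `S_Val → S_Lev` from MuZ (hypotheses `S_Lev`, `S_Val`
of this statement); it gives normality and `Zq p (Y n) N (γ ^ p ^ n)` at once. (3) `γ ^ j ∈ Y n ↔ p ^ n ∣ j`:
`γ ^ p ^ n ∈ Y n` gives `←`; the quotient `G ⧸ Y n` has `p ^ n` elements and by `gen` (with `O = Y n`) every
element is a power of the image of `γ`, so the order of this image is `p ^ n`. (4) `m ≤ n → Y n ≤ Y m`: let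
`y ∈ Y n`; `gen` for `Zq p (Y n) N (γ ^ p ^ n)` and the open subgroup `Y m`: `y⁻¹ (γ ^ p ^ n) ^ j t ∈ Y m`,
`t ∈ N ≤ Y m`, `γ ^ p ^ n ∈ Y m` by (3). -/
def S_Ele : Prop :=
  S_Lev → S_Val → ∀ (G : Type) [Group G] [TopologicalSpace G] [IsTopologicalGroup G]
    [CompactSpace G] [TotallyDisconnectedSpace G] [T2Space G] (p : ℕ) [Fact p.Prime]
    (N D : Subgroup G) (γ : G) (Y : ℕ → Subgroup G), Sit p N D γ Y →
    γ ∈ D ∧ (∀ n, (Y n).Normal ∧ Zq p (Y n) N (γ ^ p ^ n)) ∧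
      (∀ n j : ℕ, γ ^ j ∈ Y n ↔ p ^ n ∣ j) ∧ ∀ m n : ℕ, m ≤ n → Y n ≤ Y m

/-- (70 lines) **Representatives of `G / D` in `N`.** Uses nothing.
PROOF. Claim: `G = N D`. `N D` is a subgroup (`D` normal), `(N ⊔ D).index` divides `D.index`, so it is prime
to `p` and not `0`. Let `g ∈ G`. `quo` of `z` for the open subgroup `D`: there are `a` and `t ∈ N` with
`g ^ p ^ a * t ∈ D`, so `g ^ p ^ a ∈ N ⊔ D`. `N ⊔ D` is normal (`N` is normal by `z.nrm` as `⊤` is everything,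
`D` is normal), so `g ^ (N ⊔ D).index ∈ N ⊔ D` (`Subgroup.pow_index_mem`); Bézout: `g ∈ N ⊔ D`. So every class
`g D` contains an element of `N` (`Subgroup.mem_sup_of_normal_right` or `Subgroup.mul_normal`). `D` is open in the
compact group `G`, so `G ⧸ D` is finite; let `R` be the image of a function `G ⧸ D → N` which chooses for
every class an element of `N` in it. -/
def S_Rep : Prop :=
  ∀ (G : Type) [Group G] [TopologicalSpace G] [IsTopologicalGroup G]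
    [CompactSpace G] (p : ℕ) [Fact p.Prime]
    (N D : Subgroup G) (γ : G) (Y : ℕ → Subgroup G), Sit p N D γ Y →
    ∃ R : Finset G, (∀ r ∈ R, r ∈ N) ∧ Reps ⊤ D R

/-- (100 lines) **Systems of representatives.** Uses `S_Ele`. `R` is as in `S_Rep`.
PROOF. (1) `Reps (Y n) (Y n ⊓ D) R`: `R ⊆ N ≤ Y n`; for `g ∈ Y n` take `r ∈ R` with `r⁻¹ g ∈ D`, then
`r⁻¹ g ∈ Y n` as `r ∈ N ≤ Y n`; `uni` clear. (2) `R' =` the image of `R ×ˢ range (p ^ n)` under
`(δ, j) ↦ δ * γ ^ j`. The map is injective on this set and the classes are different: if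
`(δ γ ^ j)⁻¹ (δ' γ ^ j') ∈ Y n ⊓ D` then modulo `D` (normal, `γ ∈ D`) `δ⁻¹ δ' ∈ D`, so `δ = δ'`; then
`γ ^ (-j) γ ^ j' ∈ Y n`, so (say `j ≤ j'`) `γ ^ (j' - j) ∈ Y n`, `p ^ n ∣ j' - j < p ^ n`, `j = j'`. Every
`g ∈ G` is in one of the classes: `δ⁻¹ g ∈ D` for some `δ ∈ R`; `gen` of `z` with the open subgroup `Y n`:
`(δ⁻¹ g)⁻¹ γ ^ i t ∈ Y n`, `t ∈ N ≤ Y n`, so `(δ⁻¹ g)⁻¹ γ ^ i ∈ Y n`; put `j = i % p ^ n`
(`γ ^ (p ^ n) ∈ Y n`); then `x = γ ^ (-j) δ⁻¹ g` has `x⁻¹ ∈ Y n`, and `x ∈ D` because `γ ∈ D`. The formula for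
the sums: `Finset.sum_image`, `Finset.sum_product`. (3) `R'' =` the image of `range (p ^ (n - m))` under
`i ↦ γ ^ (p ^ m * i)`: in `Y m ⊓ D` by `S_Ele`; for `g ∈ Y m ⊓ D`: `gen` of `Zq p (Y m) N (γ ^ p ^ m)` with the
open subgroup `Y n`: `g⁻¹ (γ ^ p ^ m) ^ i t ∈ Y n`, so `g⁻¹ γ ^ (p ^ m i) ∈ Y n`, reduce `i` modulo
`p ^ (n - m)`; in `D` clear. Uniqueness by `γ ^ j ∈ Y n ↔ p ^ n ∣ j`. -/
def S_Rp2 : Prop :=
  S_Lev → S_Val → S_Ele → ∀ (G : Type) [Group G] [TopologicalSpace G] [IsTopologicalGroup G]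
    [CompactSpace G] [TotallyDisconnectedSpace G] [T2Space G] (p : ℕ) [Fact p.Prime]
    (N D : Subgroup G) (γ : G) (Y : ℕ → Subgroup G), Sit p N D γ Y →
    ∀ R : Finset G, (∀ r ∈ R, r ∈ N) → Reps ⊤ D R →
    (∀ n : ℕ, Reps (Y n) (Y n ⊓ D) R) ∧
    (∀ n : ℕ, ∃ R' : Finset G, Reps ⊤ (Y n ⊓ D) R' ∧ ∀ (A : Type) [AddCommMonoid A] (F : G → A),
      ∑ r ∈ R', F r = ∑ δ ∈ R, ∑ j ∈ Finset.range (p ^ n), F (δ * γ ^ j)) ∧
    ∀ m n : ℕ, m ≤ n → ∃ R'' : Finset G, Reps (Y m ⊓ D) (Y n ⊓ D) R'' ∧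
      ∀ (A : Type) [AddCommMonoid A] (F : G → A),
        ∑ r ∈ R'', F r = ∑ i ∈ Finset.range (p ^ (n - m)), F (γ ^ (p ^ m * i))

/-- (100 lines) **Linear algebra.** Uses nothing. `F` a field of characteristic `p`, `X` an operator.
PROOF. Let `P = ∑ j < p ^ n, A_j X ^ j ∈ F[X]`, `q = p ^ n0`, and let `F[X]` act on `M` through the operator
(`Polynomial.aeval X : F[X] →ₐ[F] Module.End F M`). `P` and `(X - 1) ^ (p ^ n) = X ^ (p ^ n) - 1` (characteristic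
`p`: `sub_pow_char_pow`) kill `h`, so the greatest common divisor `g` of the two (`F[X]` is a Euclidean domain,
`EuclideanDomain.gcd_eq_gcd_ab`) kills `h`. `X - 1` is prime (`Polynomial.prime_X_sub_C`), so `g` is
associated to `(X - 1) ^ c` for some `c ≤ p ^ n` (`(dvd_prime_pow ..).1`). If `c ≥ q` then
`X ^ q - 1 = (X - 1) ^ q ∣ g ∣ P`. But the `F`-linear functional `φ : F[X] → F` with `φ (X ^ j) = 1` if `q ∣ j`
and `0` otherwise (`φ Q = ∑ j ∈ Q.support, if q ∣ j then Q.coeff j else 0`, or `Polynomial.sum`) kills all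
multiples of `X ^ q - 1` (`φ (X ^ (j + q)) = φ (X ^ j)`), and `φ P = ∑ i < p ^ (n - n0), A_(q i) ≠ 0`:
contradiction. So `c < q` and `(X - 1) ^ q` kills `h`. (One may also argue with `M` replaced by
`F[X]`-submodules or use `Polynomial.coeff`.) -/
def S_Alg1 : Prop :=
  ∀ (p : ℕ) [Fact p.Prime] (n0 n : ℕ), n0 ≤ n → ∀ (F : Type) [Field F] [CharP F p] (M : Type)
    [AddCommGroup M] [Module F M] (X : M →ₗ[F] M) (A : ℕ → F) (h : M),
    ∑ j ∈ Finset.range (p ^ n), A j • (X ^ j) h = 0 → (X ^ p ^ n) h = h →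
    ∑ i ∈ Finset.range (p ^ (n - n0)), A (p ^ n0 * i) ≠ 0 → (X ^ p ^ n0) h = h

/-- (100 lines) **The field of an irreducible representation of a commutative group.** Uses nothing.
PROOF. Let `B` be the subalgebra of `Module.End (ZMod p) S` generated by the `ρ g`
(`Algebra.adjoin (ZMod p) (Set.range ρ)`): commutative because the `ρ g` commute
(`Algebra.adjoinCommRingOfComm`), finite because `S` is finite. Every `b ∈ B`, `b ≠ 0`, is injective on
`S`: its kernel is invariant under all `ρ g` (`b` commutes with them), so it is `⊥` or `⊤` by `Irr`, and it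
is not `⊤`. So `B` is a finite commutative ring without zero divisors (`b b' = 0`, `b' ≠ 0` gives `b = 0` as `b'`
is bijective on the finite `S`), nontrivial (`S ≠ 0`), hence a field (`Fintype.fieldOfDomain` or
`Finite.isDomain_to_isField`). Characteristic `p` since `p = 0` on `S` and `1 ≠ 0`. -/
def S_Fld1 : Prop :=
  ∀ (G : Type) [Group G] (p : ℕ) [Fact p.Prime] (S : Type) [AddCommGroup S] [Module (ZMod p) S]
    [Finite S] (ρ : Representation (ZMod p) G S), Irr ρ → (∀ g h : G, ρ (g * h) = ρ (h * g)) →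
    ∃ (F : Type) (_ : Field F) (_ : CharP F p) (_ : Finite F) (e : G →* F)
      (i : F →+* Module.End (ZMod p) S), ∀ g : G, i (e g) = ρ g

/-- (200 lines) **Thaine's relation gives invariance.** Uses `S_Ele`, `S_Rep`, `S_Rp2`, `S_Alg1`, `S_Fld1`.
PROOF. Let `n ≥ n0`, `c ∈ Coc Ls ρ (Y n) (Y n)`, `U = N ⊓ D`, `Un = Y n ⊓ D`. (1) `c` is additive on `Un`
(`ρ = 1` on `D`), locally constant, and zero on `Λ ∩ Un` for `Λ ∈ Ls` (`c g = ρ g s - s = 0`). For a linear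
form `l : S → ZMod p` the function `f = l ∘ c` cut to `Un` (zero outside) is in `VV p Ls Un`. For
`g ∈ Y n`, `x ∈ Un`: `c (g x g⁻¹) = c g + ρ g (c x) + ρ (g x) (c g⁻¹) = ρ g (c x)`, because `ρ (g x) = ρ g`
(`x ∈ D`) and `c g + ρ g (c g⁻¹) = c 1 = 0`. (2) Fix `x ∈ U` and let `hx : ℕ → S`, `hx j = c (γ ^ j x γ ^ (-j))`
(`U` is normal in `G`). `Core.thm` with the system of representatives `R'` of `S_Rp2` (from `R ⊆ N` of
`S_Rep`), `τ = x`, for all `l`: `0 = ∑ δ, ∑ j, a n (δ γ ^ j) l (c (δ γ ^ j x γ ^ (-j) δ⁻¹))`, and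
`c (δ y δ⁻¹) = ρ δ (c y)` for `y = γ ^ j x γ ^ (-j) ∈ U ≤ Un`, `δ ∈ N ≤ Y n`. As the linear forms separate the
points of `S`: `∑ j < p ^ n, (∑ δ ∈ R, a n (δ γ ^ j) • ρ δ) (c (γ ^ j x γ ^ (-j))) = 0`. (3) `ρ (g h) = ρ (h g)` as
`ρ = 1` on `D` and the commutators are in `D`; let `F`, `e`, `i` be from `S_Fld1` and
`A j = ∑ δ ∈ R, (a n (δ γ ^ j)) • e δ ∈ F` (`ZMod p → F` is the canonical map, `ZMod.castHom`, `F` has characteristic
`p`), so `i (A j) = ∑ δ, a n (δ γ ^ j) • ρ δ` (`i` is compatible with the canonical maps from `ZMod p`).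
Let `M = (↥U → S)` with the `F`-module structure through `i` (`Module.compHom S i` and `Pi`), `X` the operator
`(X h) x = h (γ x γ⁻¹)`, an `F`-linear map, `h = c` restricted to `U`. (2) says `∑ j < p ^ n, A j • X ^ j h = 0`.
`X ^ (p ^ n) h = h` because `γ ^ (p ^ n) ∈ Y n ⊓ D`, so by (1) `c (γ ^ (p ^ n) x γ ^ (-p ^ n)) = ρ (..) (c x) = c x`.
`∑ i < p ^ (n - n0), A (p ^ n0 i) = ∑ δ ∈ R, (∑ i, a n (δ γ ^ (p ^ n0 i))) • e δ = ∑ δ ∈ R, a n0 δ • e δ` by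
`Core.nrm` with `R''` of `S_Rp2`, and the image under `i` is `∑ δ ∈ R, a n0 δ • ρ δ ≠ 0` by `Core.nv`
(`Reps (Y n0) (Y n0 ⊓ D) R`). `S_Alg1`: `X ^ (p ^ n0) h = h`, which is the claim. -/
def S_Rel1 : Prop :=
  S_Lev → S_Val → S_Ele → S_Rep → S_Rp2 → S_Alg1 → S_Fld1 →
  ∀ (G : Type) [Group G] [TopologicalSpace G] [IsTopologicalGroup G]
    [CompactSpace G] [TotallyDisconnectedSpace G] [T2Space G] (p : ℕ) [Fact p.Prime]
    (Ls : Set (Subgroup G)) (N D : Subgroup G) (γ : G) (Y : ℕ → Subgroup G), Sit p N D γ Y →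
    ∀ (S : Type) [AddCommGroup S] [Module (ZMod p) S] [Finite S]
      (ρ : Representation (ZMod p) G S), Irr ρ → (∀ g ∈ D, ρ g = 1) →
    ∀ (n0 : ℕ) (a : ℕ → G → ZMod p), Core p Ls D Y ρ n0 a →
    ∀ n : ℕ, n0 ≤ n → ∀ c ∈ Coc Ls ρ (Y n) (Y n), ∀ x ∈ N ⊓ D,
      c (γ ^ p ^ n0 * x * (γ ^ p ^ n0)⁻¹) = c x

/-- (120 lines) **Finitely many invariant homomorphisms.** Uses `S_Ele`, `S_Semi`, `S_Val` (MuZ).
PROOF. Let `U = N ⊓ D`, `U0 = Y m ⊓ D`, `Γ = γ ^ p ^ m`. `Zq p U0 U Γ`: `mem`: `S_Ele`; `le`, `nrm`, `cloY`,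
`cloN` clear (`D`, `Y m` are open, hence closed); `gen`: for `y ∈ U0` and `O` open apply `gen` of
`Zq p (Y m) N Γ` to the open subgroup `O ⊓ D`: `y⁻¹ Γ ^ j t ∈ O ⊓ D`, so `t ∈ D` (`y, Γ ∈ D`); `quo` in the same
way; `inf`: `Γ ^ k ∉ N`; `pro` clear. Let `h ∈ W0`. `S_Semi` with `A = Multiplicative S`, `a = 1`: there is a
continuous homomorphism `h'` on `U0` with `h' = h` on `U`. Cut to `U0` (zero outside). It vanishes on
`Λ ∩ U0` for `Λ ∈ Ls`, `Λ ≤ N` (`Λ ∩ U0 ≤ U`). For a linear form `l` on `S`, `l ∘ h'` is in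
`VV p {Λ ∈ Ls | Λ ≤ N} U0`, which is finite. `h` is determined by the functions `l ∘ h'`, `l` in the (finite) dual
space (`h = h'` on `U`, `h = 0` outside), so `h ↦ (l ↦ l ∘ h'_h)` is injective into a finite set. -/
def S_FinW : Prop :=
  S_Lev → S_Val → S_Semi → S_Ele →
  ∀ (G : Type) [Group G] [TopologicalSpace G] [IsTopologicalGroup G]
    [CompactSpace G] [TotallyDisconnectedSpace G] [T2Space G] (p : ℕ) [Fact p.Prime]
    (Ls : Set (Subgroup G)) (N D : Subgroup G) (γ : G) (Y : ℕ → Subgroup G), Sit p N D γ Y →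
    ∀ m : ℕ, Finite (VV p {Λ | Λ ∈ Ls ∧ Λ ≤ N} (Y m ⊓ D)) →
    ∀ (S : Type) [AddCommGroup S] [Module (ZMod p) S] [Finite S],
      Finite (W0 p Ls N D γ (p ^ m) S)

/-- (150 lines) **Bounded dimension.** Uses `S_Rel1`, `S_Ele`, `S_Rep`, `S_Rp2`, `S_Uni`.
PROOF. Let `n ≥ n0`, `Z = Coc Ls ρ (Y n) (Y n)`, `R` from `S_Rep`. Consider the linear map
`Φ : Z → (R → S) × S × W0 p Ls N D γ (p ^ n0) S`, `Φ c = (c on R, c (γ ^ p ^ n), c cut to N ⊓ D)`. The last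
component is in `W0`: additive (`ρ = 1` on `D`), locally constant, zero on `Λ ∩ (N ⊓ D)` (`ρ g s - s = 0`),
invariant by the hypothesis `hrel` (the conclusion of `S_Rel1`). `Φ` is injective: let `Φ c = 0`. For
`g ∈ N`: `r⁻¹ g ∈ D` for some `r ∈ R ⊆ N`, so `u = r⁻¹ g ∈ N ⊓ D` and `c g = c r + ρ r (c u) = 0`. So `c` vanishes
on `N` and at `γ ^ p ^ n`, a generator of `Y n / N` (`Zq p (Y n) N (γ ^ p ^ n)`, `gen`); `S_Uni`
(`c ∈ Coc ∅ ρ (Y n) (Y n)`): `c = 0`. So `rank Z ≤` the rank of the target, a natural number `C` independent of `n`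
(the target is a finite set: `Module.Finite`, `rank_lt_aleph0`; `LinearMap.rank_le_of_injective`). -/
def S_Bnd : Prop :=
  S_Lev → S_Val → S_Uni → S_Ele → S_Rep →
  ∀ (G : Type) [Group G] [TopologicalSpace G] [IsTopologicalGroup G]
    [CompactSpace G] [TotallyDisconnectedSpace G] [T2Space G] (p : ℕ) [Fact p.Prime]
    (Ls : Set (Subgroup G)) (N D : Subgroup G) (γ : G) (Y : ℕ → Subgroup G), Sit p N D γ Y →
    ∀ (S : Type) [AddCommGroup S] [Module (ZMod p) S] [Finite S]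
      (ρ : Representation (ZMod p) G S), (∀ g ∈ D, ρ g = 1) →
    ∀ n0 : ℕ, Finite (W0 p Ls N D γ (p ^ n0) S) →
    (∀ n : ℕ, n0 ≤ n → ∀ c ∈ Coc Ls ρ (Y n) (Y n), ∀ x ∈ N ⊓ D,
      c (γ ^ p ^ n0 * x * (γ ^ p ^ n0)⁻¹) = c x) →
    ∃ C : ℕ, ∀ n : ℕ, n0 ≤ n → Module.rank (ZMod p) (Coc Ls ρ (Y n) (Y n)) ≤ (C : Cardinal)

end Pool.Agent.DI.PI
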