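import Pool.Agent.Lib.DI.PI.SpecA
import Pool.Agent.Lib.FW.SpecG

/-!
# THEOREM DI, Part I (helper55), chapter B: the descent for number fields

Same conventions as in `SpecA.lean`: `S_<Name>` is proved in the module `Pool/Agent/Lib/DI/PI/<Name>.lean`, theorem
`p<Name> : S_<Name>`; statements under `Uses` are hypotheses of the statement. The propositions `S_...` of
MuZ (`MuZ/Spec.lean`, `MuZ/CSpec.lean`) and of FW (`FW/SpecG.lean`) are proved; `ThmA`, `ThmC` are the subfield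
criterion and the finite level criterion of MuZ.
-/

open scoped Pointwise

noncomputable section

namespace Pool.Agent.DI.PI

open Pool.Agent.MuZ

/-- `Gal(Om/F)` inside `Gal(Om/K)`. -/
abbrev tr (K F : IntermediateField ℚ Om) : Subgroup K.fixingSubgroup :=
  F.fixingSubgroup.subgroupOf K.fixingSubgroup

/-- The information obtained from Thaine's argument for the character `χ` of `Gal(L/K)` with values in
`ZZ / P`: functions `a n` on `Gal(L_n/K)` (`L_n` the layers of `L^cyc`), compatible with the projections,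
which annihilate the locally trivial characters of `Gal(Om/L_n)`, such that the `χ`-component of the
restriction of `a n0` to `Gal(L_n0/K_n0)` is not zero. -/
structure Meas (p : ℕ) (K L : IntermediateField ℚ Om) (P : Ideal ZZ) (χ : Gal(Om/ℚ) → ZZ ⧸ P)
    (n0 : ℕ) (a : ℕ → Gal(Om/ℚ) → ZMod p) : Prop where
  inv : ∀ n, n0 ≤ n → ∀ F : IntermediateField ℚ Om, Layer p L n F → ∀ σ ∈ K.fixingSubgroup,
    ∀ τ ∈ F.fixingSubgroup, a n (σ * τ) = a n σ
  nrm : ∀ n, n0 ≤ n → ∀ F F' : IntermediateField ℚ Om, Layer p L n F → Layer p L (n + 1) F' →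
    ∀ σ ∈ K.fixingSubgroup, ∀ R : Finset Gal(Om/ℚ), Reps F.fixingSubgroup F'.fixingSubgroup R →
    ∑ r ∈ R, a (n + 1) (σ * r) = a n σ
  thm : ∀ n, n0 ≤ n → ∀ F : IntermediateField ℚ Om, Layer p L n F →
    ∀ f ∈ VV p (Loc p) F.fixingSubgroup, ∀ τ ∈ F.fixingSubgroup, ∀ R : Finset Gal(Om/ℚ),
    Reps K.fixingSubgroup F.fixingSubgroup R → ∑ r ∈ R, a n r * f (r * τ * r⁻¹) = 0
  nv : ∀ E F : IntermediateField ℚ Om, Layer p K n0 E → Layer p L n0 F → ∀ R : Finset Gal(Om/ℚ),
    Reps E.fixingSubgroup F.fixingSubgroup R → ∑ r ∈ R, ((a n0 r).val : ZZ ⧸ P) * χ r ≠ 0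

/-- The hypothesis of the descent: `Meas` for every nontrivial character. -/
def HypI (p : ℕ) (K L : IntermediateField ℚ Om) : Prop :=
  ∃ P : Ideal ZZ, P.IsPrime ∧ (p : ZZ) ∈ P ∧ ∀ χ : Gal(Om/ℚ) → ZZ ⧸ P,
    (∀ σ ∈ K.fixingSubgroup, ∀ τ ∈ K.fixingSubgroup, χ (σ * τ) = χ σ * χ τ) →
    (∀ σ ∈ L.fixingSubgroup, χ σ = 1) → (∃ σ ∈ K.fixingSubgroup, χ σ ≠ 1) →
    ∃ (n0 : ℕ) (a : ℕ → Gal(Om/ℚ) → ZMod p), Meas p K L P χ n0 a

/-- (80 lines) **Open subgroups of a procyclic quotient are determined by the index.** Uses nothing.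
PROOF. For `y ∈ Y` the condition `gen` for the open subgroup with underlying group `A` gives `j` and
`t ∈ N ≤ A` with `y⁻¹ δ ^ j t ∈ A`, so `y⁻¹ δ ^ j ∈ A`: every class `y A` contains some `δ ^ j`. `J_A = {j : ℤ | δ ^ j ∈ A}`
is a subgroup `m ℤ` of `ℤ`, and `m = A.relIndex Y`: the classes `δ ^ j A`, `0 ≤ j < m`, are different and are
all classes `y A`, `y ∈ Y` (`m ≠ 0` because there are finitely many classes). [In Lean: the map
`ZMod m`... or: `j ↦ δ ^ j A` from `ℕ` to the finite set of classes `Y ⧸ A`, surjective; let `m` be the least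
positive number with `δ ^ m ∈ A`, it exists as two of the classes `δ ^ j A` coincide; `Fin m → Y ⧸ A` is
bijective, so `m = A.relIndex Y = Nat.card`.] The same for `B`: so `m_A = m_B` and `δ ^ j ∈ A ↔ δ ^ j ∈ B` for all
`j`. Let `y ∈ A`; `gen` for the open subgroup `A ⊓ B`: `y⁻¹ δ ^ j t ∈ A ⊓ B`, `t ∈ N ≤ A ⊓ B`, so
`y⁻¹ δ ^ j ∈ A ⊓ B`, `δ ^ j ∈ A`, hence `δ ^ j ∈ B` and `y ∈ B`. By symmetry `A = B`. -/
def S_Unq : Prop :=
  ∀ (G : Type) [Group G] [TopologicalSpace G] [IsTopologicalGroup G] (p : ℕ)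
    (Y N : Subgroup G) (δ : G), Gq p Y N δ → ∀ A B : Subgroup G, A ≤ Y → B ≤ Y →
    IsOpen (A : Set G) → IsOpen (B : Set G) → N ≤ A → N ≤ B → A.relIndex Y = B.relIndex Y →
    A.relIndex Y ≠ 0 → A = B

/-- (100 lines) **The situation for number fields.** Uses MuZ `S_NF`, `S_Lev` (and what they need).
PROOF. See the beginning of the proof of `thmC` in `MuZ/CAsm2.lean`: `K` is finite over `ℚ`;
`γ` and `Zq p ⊤ N γ` from `S_NF`, `N = tr K (cyc p K)`; the subgroups `Y n` from the first part of `S_Lev`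
(choice); the group `K.fixingSubgroup` is compact, totally disconnected, Hausdorff. `D = tr K L`: normal because
`L` is stable under `Gal(Om/K)` (`fix_normal` in `MuZ/AsmA.lean`), open. `comm`: for `g, h ∈ Gal(Om/K)`, `x ∈ L`:
`g h x = h g x`, so `g h g⁻¹ h⁻¹` fixes `L` (apply the hypothesis to `g⁻¹ h⁻¹ x ∈ L`). `cop`: `D.index = [L : K]`,
`finrank ℚ L = D.index * finrank ℚ K` (as in `MuZ/Vec.lean` and `MuZ/Lay.lean`:
`IntermediateField.finrank_eq_fixingSubgroup_index`, `Subgroup.relIndex_mul_index`), so `p ∣ D.index` would give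
`p * finrank ℚ K ∣ finrank ℚ L`. -/
def S_JSit : Prop :=
  S_QZ → S_Sub → S_PL → S_Pc → S_TFix → S_NF → S_Val → S_Lev →
  ∀ (p : ℕ) [Fact p.Prime] (K L : IntermediateField ℚ Om), FiniteDimensional ℚ L → K ≤ L →
    (∀ σ ∈ K.fixingSubgroup, ∀ x ∈ L, σ x ∈ L) →
    (∀ σ ∈ K.fixingSubgroup, ∀ τ ∈ K.fixingSubgroup, ∀ x ∈ L, σ (τ x) = τ (σ x)) →
    ¬ p * Module.finrank ℚ K ∣ Module.finrank ℚ L →
    ∃ (γ : K.fixingSubgroup) (Y : ℕ → Subgroup K.fixingSubgroup),
      Sit p (tr K (cyc p K)) (tr K L) γ Y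

/-- (150 lines) **The layers.** Uses `S_Unq`, `S_Ele`, MuZ `S_Lay`.
PROOF. (1) `S_Lay` second part for `Y n` gives `F` with `Layer p K n F` and `tr K F = Y n`. (2) If
`Layer p K n F` then `tr K F` is open, contains `N = tr K (cyc p K)` and has index `p ^ n` (`S_Lay` first part), and
so does `Y n`: `S_Unq` for `Gq p ⊤ N γ` (relative index in `⊤`). (3) `Layer p L n F` exists: `S_Lay` for `L`
needs an open subgroup of `L.fixingSubgroup` of index `p ^ n` containing `(cyc p L).fixingSubgroup`: take (the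
subgroup of `L.fixingSubgroup` corresponding to) `Y n ⊓ D`: it is open, contains
`N ⊓ D = tr K (cyc p L)` (`cyc p L = L ⊔ Qcyc p`, `fix_cyc` in `MuZ/AsmA.lean`), and its index in `D` is `p ^ n`:
`γ ∈ D` (`S_Ele`) and `G = ⋃ γ ^ j (Y n)`, so `D` acts transitively on `G / Y n`,
`[D : Y n ⊓ D] = [G : Y n]` (`Subgroup.relIndex`; every class `g Y n` contains `γ ^ j ∈ D`; the map
`D / (Y n ⊓ D) → G / Y n` is bijective). (4) If `Layer p L n F`: `F ≥ L ≥ K`; finite over `ℚ` because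
`finrank ℚ F = p ^ n * finrank ℚ L ≠ 0`; `tr K F ≤ D`, contains `N ⊓ D` (`F ≤ cyc p L`), is open, of index `p ^ n` in
`D` (degrees, `S_Lay` first part for `L`), and so is `Y n ⊓ D`: `S_Unq` for `Gq p D (N ⊓ D) γ` (this follows
from `Gq p ⊤ N γ`: `gen`, `quo` for the open subgroups `O ⊓ D`, as in the docstring of `S_FinW`). -/
def S_JLay : Prop :=
  S_Unq → S_Lev → S_Val → S_Ele → S_Lay →
  ∀ (p : ℕ) [Fact p.Prime] (K L : IntermediateField ℚ Om), FiniteDimensional ℚ L → K ≤ L →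
    ∀ (γ : K.fixingSubgroup) (Y : ℕ → Subgroup K.fixingSubgroup),
    Sit p (tr K (cyc p K)) (tr K L) γ Y → ∀ n : ℕ,
      (∃ F : IntermediateField ℚ Om, Layer p K n F ∧ tr K F = Y n) ∧
      (∀ F : IntermediateField ℚ Om, Layer p K n F → tr K F = Y n) ∧
      (∃ F : IntermediateField ℚ Om, Layer p L n F) ∧
      ∀ F : IntermediateField ℚ Om, Layer p L n F →
        K ≤ F ∧ FiniteDimensional ℚ F ∧ tr K F = Y n ⊓ tr K L

/-- (100 lines) **Finitely many characters unramified outside `p`.** Uses MuZ `S_InT`, and the theorem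
`FW.S_KF` in the form of its conclusion.
PROOF. For `f` in the space let `f' : Gal(Om/ℚ) → ZMod p` be `f` on `K.fixingSubgroup` and `0` outside
(`F.fixingSubgroup ≤ K.fixingSubgroup`). `f' ∈ VV p (LocO p) F.fixingSubgroup` (`LocO` in `FW/Defs.lean`): zero
outside, additive clear; an open subgroup of the open subgroup `K.fixingSubgroup` is (the preimage of) an open
subgroup of `Gal(Om/ℚ)` (`Subgroup.map` of `O` under the inclusion, open map; compare `MuZ/Tr.lean`); let
`Λ = P.inertia Gal(Om/ℚ)`, `p ∉ P`: its trace is in `LocK p K` (`Loc p` contains all inertia groups of nonzero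
primes) and `Λ ≤ (Qcyc p).fixingSubgroup` (`S_InT`), so the trace is `≤ tr K (cyc p K)` (`fix_cyc`) and `f` vanishes
on it. `f ↦ f'` is injective. -/
def S_JKF : Prop :=
  S_InT → (∀ (p : ℕ) [Fact p.Prime] (L : IntermediateField ℚ Om), FiniteDimensional ℚ L →
    Finite (VV p (Pool.Agent.FW.LocO p) L.fixingSubgroup)) →
  ∀ (p : ℕ) [Fact p.Prime] (K F : IntermediateField ℚ Om), FiniteDimensional ℚ F → K ≤ F →
    Finite (VV p {Λ | Λ ∈ LocK p K ∧ Λ ≤ tr K (cyc p K)} (tr K F))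

/-- (80 lines) **Finite fields embed into `ZZ / P`.** Uses nothing.
PROOF. `k = ZZ ⧸ P` is a field: `P` is maximal (`ZZ` is integral over `ℤ` and `P ∩ ℤ = (p)` is maximal:
`Ideal.isMaximal_of_isIntegral_of_isMaximal_comap` or as in `MuZ/Frob.lean`), of characteristic `p`. It is
algebraically closed (`IsAlgClosed.of_exists_root`): a monic irreducible polynomial over `k` lifts to a monic
polynomial over `ZZ` (`Polynomial.lifts_and_natDegree_eq_and_monic`, the quotient map is surjective), its image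
in `Om[X]` has a root in `Om` (degree `> 0`), which is integral over `ZZ`, hence over `ℤ`, hence in `ZZ`
(`isIntegral_trans`); its class modulo `P` is a root. `F` is finite, so algebraic over `ZMod p`;
`IsAlgClosed.lift : F →ₐ[ZMod p] k` (`ZMod.algebra`). -/
def S_JCh : Prop :=
  ∀ (p : ℕ) [Fact p.Prime] (P : Ideal ZZ), P.IsPrime → (p : ZZ) ∈ P →
    ∀ (F : Type) [Field F] [CharP F p] [Finite F], Nonempty (F →+* ZZ ⧸ P)

/-- (150 lines) **No quadratic extension of `ℚ` is locally trivial at `2` and unramified.** Uses FW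
`S_Kum`, `S_Ine`, `S_Rm` (`FW/G`, for `p = 2`, `ζ = -1`) and MuZ `S_Tot`.
PROOF. Let `f ∈ VV 2 (Loc 2) ⊤`. By `S_Kum` (`p = 2`, `W = ⊤`, `ζ = -1`) there is `β ≠ 0` in `Om` with
`σ β = (-1) ^ f(σ) β` for all `σ`. `b = β ^ 2` is fixed by everything, so it is rational. Let `l` be an odd prime
and `P` a prime of `ZZ` above `l`: the inertia group of `P` fixes `β` (`f = 0` there), so by `S_Rm` (`L = ⊥`, a
number field) the valuation of `b` at `l` is even. So `b = s 2 ^ e c ^ 2` with `c ∈ ℚ`, `c ≠ 0`, `s = ±1`,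
`e ∈ {0, 1}` (write `b = m / n ^ 2`, `m` an integer, `|m| = d x ^ 2` with `d` squarefree; the valuations at odd primes
are even, so `d ∣ 2`). Replace `β` by `β / c`: `β ^ 2 ∈ {1, -1, 2, -2}`, still `σ β = (-1) ^ f(σ) β`. `β` is in
`ℚ(z)`, `z` a primitive 8-th root of unity (`i = z ^ 2`, `√2 = z + z⁻¹`, `√-2 = i √2`), so an automorphism
which fixes the 8-th roots of unity fixes `β`. Let `P` be a prime above `2` (exists), `τ` any element; by `S_Tot`
(`p = 2`, `n = 3`) there is `δ` in the stabiliser of `P` which agrees with `τ` on the 8-th roots of unity, so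
`τ⁻¹ δ` fixes `β`: `f τ = f δ = 0` since `f` vanishes on the stabiliser of `P` (`Loc 2`). -/
def S_JQ0 : Prop :=
  Pool.Agent.FW.S_Kum → Pool.Agent.FW.S_Ine → Pool.Agent.FW.S_Rm → S_Tot →
    ∀ f ∈ VV 2 (Loc 2) (⊤ : Subgroup Gal(Om/ℚ)), f = 0

/-- (120 lines) **`ℚ`.** Uses `ThmC` and the conclusion of `S_JQ0`.
PROOF. `ThmC` for `p = 2`, `k = L = ⊥`. Let `ρ` be irreducible and trivial on `⊥.fixingSubgroup`, which is the
whole group: `ρ g = 1` for all `g`. So every subspace is invariant and `rank S = 1` (a line spanned by a nonzero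
vector is everything). `n = 0`, `F = ⊥`: `Layer` is clear. `ZL 2 ⊥ ⊥ ρ = ⊥`: for `c` in it and a linear form `l`
the function `g ↦ l (c g)` on `Gal(Om/ℚ)` (`⊥.fixingSubgroup = ⊤`) is in `VV 2 (Loc 2) ⊤`, so it is `0`. The rank of
`EL 2 ⊥ ⊥ ρ` is at most `rank S`: fix a prime `P` above `2`; `φ ↦ φ P` is injective on `EL` because every
prime above `2` is `g • P` (`Algebra.IsInvariant.exists_smul_of_under_eq_of_profinite`, see `MuZ/Orb.lean`) and
`φ (g • P) = φ P`, `φ = 0` on the other ideals. So the sum of the ranks is `≤ rank S < 2 ^ 0 + rank S`. -/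
def S_JQ : Prop :=
  ThmC → (∀ f ∈ VV 2 (Loc 2) (⊤ : Subgroup Gal(Om/ℚ)), f = 0) →
    XFinGen 2 (cyc 2 (⊥ : IntermediateField ℚ Om))

/-- (100 lines) **`p`-groups at the top.** Uses `ThmA`.
PROOF. `ThmA` for `k ≤ L` and `Fs = {E}`. Let `ρ` be an irreducible representation of `Gal(Om/k)` trivial on
`Gal(Om/L)`. `S` is finite: `v ≠ 0`, the orbit of `v` is finite (`L.fixingSubgroup` is open, so of finite index),
its span is invariant, hence everything, and a finite dimensional space over `ZMod p` is finite. The group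
`E.fixingSubgroup`, restricted to `S`, acts through a finite `p`-group: every `σ ∈ E.fixingSubgroup` has
`ρ (σ ^ p ^ a) = 1`. So there is a nonzero fixed vector: `IsPGroup` fixed point theorem
(`IsPGroup.exists_fixed_point_of_prime_dvd_card_of_fixed_point` applied to the image group, a subgroup of the
finite group `(S →ₗ S)ˣ`, acting on the finite set `S`, `p ∣ card S`, the fixed point `0`). -/
def S_JPe : Prop :=
  ThmA → ∀ (p : ℕ) [Fact p.Prime] (k E L : IntermediateField ℚ Om), FiniteDimensional ℚ L →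
    k ≤ E → E ≤ L → (∀ σ ∈ k.fixingSubgroup, ∀ x ∈ L, σ x ∈ L) →
    (∃ a : ℕ, ∀ σ ∈ E.fixingSubgroup, σ ^ p ^ a ∈ L.fixingSubgroup) →
    (XFinGen p (cyc p L) ↔ XFinGen p (cyc p E))

/-- (80 lines) **Sums over representatives.** Uses nothing (`G` is any group).
PROOF. (1) For `r ∈ R` there is a unique `r' ∈ R'` with `r'⁻¹ r ∈ H`; this is a bijection `R → R'` and
`F r = F (r' (r'⁻¹ r)) = F r'`: `Finset.sum_bij`. (2) the set of the products `r s`, `r ∈ R`, `s ∈ R'`; they are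
pairwise different: `(r s)⁻¹ (r₁ s₁) ∈ H'` implies `r⁻¹ r₁ ∈ H` (`s, s₁ ∈ H`, `H' ≤ H`), `r = r₁`, then `s = s₁`. For
`g ∈ W`: `r⁻¹ g ∈ H`, `s⁻¹ (r⁻¹ g) ∈ H'`. (3) choose one element of `W` in every class of `W / (H ⊓ W)`; finitely
many classes. -/
def S_RpS : Prop :=
  ∀ (G : Type) [Group G] (W H H' : Subgroup G), H ≤ W → H' ≤ H →
    (∀ (A : Type) [AddCommMonoid A] (F : G → A), (∀ g ∈ W, ∀ h ∈ H, F (g * h) = F g) →
      ∀ R R' : Finset G, Reps W H R → Reps W H R' → ∑ r ∈ R, F r = ∑ r ∈ R', F r) ∧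
    (∀ R R' : Finset G, Reps W H R → Reps H H' R' → ∃ R'' : Finset G, Reps W H' R'' ∧
      ∀ (A : Type) [AddCommMonoid A] (F : G → A),
        ∑ r ∈ R'', F r = ∑ r ∈ R, ∑ s ∈ R', F (r * s)) ∧
    (H.relIndex W ≠ 0 → ∃ R : Finset G, Reps W H R)

/-- (200 lines) **From `Meas` to `Core`.** Uses `S_JLay` (its conclusion `hlay`), `S_JCh`, `S_Fld1`, `S_RpS`.
PROOF. `G = K.fixingSubgroup`, `D = tr K L`, `N = tr K (cyc p K)`. Let `F'`, `e`, `i` be from `S_Fld1` for `ρ` (`ρ`
is trivial on `D` and commutators are in `D`), `j : F' → ZZ ⧸ P` from `S_JCh`. `χ σ = j (e ⟨σ, _⟩)` for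
`σ ∈ K.fixingSubgroup`, `1` otherwise. It is multiplicative on `K.fixingSubgroup`, `1` on `L.fixingSubgroup`
(`i (e g) = ρ g = 1`, `i` is injective), and not identically `1` (`j`, `i` injective, `ρ` not trivial). `Meas`: `n0`,
`a`. Put `a' n g = a n (g : Gal(Om/ℚ))`. `inv`: `F` with `Layer p L n F`, `tr K F = Y n ⊓ D`. `thm`: for `f` in
`VV p (LocK p K) (Y n ⊓ D)` the extension by zero `f'` to `Gal(Om/ℚ)` is in `VV p (Loc p) F.fixingSubgroup` (as in
the docstring of `S_JKF`, but for all `Λ ∈ Loc p`: the trace of `Λ` is in `LocK p K`), and the image of `R` under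
the inclusion is a set of representatives. `nv`: `E` with `Layer p K n0 E`, `tr K E = Y n0`; if
`∑ r ∈ R, a' n0 r • ρ r = 0` then `i (∑ (a' n0 r : F') * e r) = 0`, so the sum is `0` and its image under `j` is
`∑ (a n0 r).val * χ r = 0`: contradiction (`ZMod p → F' → ZZ ⧸ P` is the cast of `val`). `nrm`: by `S_RpS` (1)
(`inv` gives the invariance of `r ↦ a n (g r)`) it is enough to find one `R` for every `n ≥ n0`. Induction on `n`.
`n = n0`: `R = {1}`. Step: let `R` be as required for `n`, `R'` a set of representatives of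
`(Y n ⊓ D) / (Y (n+1) ⊓ D)` (`S_RpS` (3), finite index), `R''` from `S_RpS` (2):
`∑ r ∈ R'', a (n+1) (g r) = ∑ r ∈ R, ∑ s ∈ R', a (n+1) (g r s) = ∑ r ∈ R, a n (g r) = a n0 g` by `Meas.nrm`
(the image of `R'` in `Gal(Om/ℚ)` represents `F.fixingSubgroup / F'.fixingSubgroup`). `Y (n+1) ≤ Y n`: `S_Ele`. -/
def S_JCor : Prop :=
  S_JCh → S_Fld1 → S_RpS → S_Lev → S_Val → S_Ele →
  ∀ (p : ℕ) [Fact p.Prime] (K L : IntermediateField ℚ Om), FiniteDimensional ℚ L → K ≤ L →
    ∀ (γ : K.fixingSubgroup) (Y : ℕ → Subgroup K.fixingSubgroup),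
    Sit p (tr K (cyc p K)) (tr K L) γ Y →
    (∀ n : ℕ, (∃ F : IntermediateField ℚ Om, Layer p K n F ∧ tr K F = Y n) ∧
      (∀ F : IntermediateField ℚ Om, Layer p K n F → tr K F = Y n) ∧
      (∃ F : IntermediateField ℚ Om, Layer p L n F) ∧
      ∀ F : IntermediateField ℚ Om, Layer p L n F →
        K ≤ F ∧ FiniteDimensional ℚ F ∧ tr K F = Y n ⊓ tr K L) →
    HypI p K L →
    ∀ (S : Type) [AddCommGroup S] [Module (ZMod p) S] [Finite S]
      (ρ : Representation (ZMod p) K.fixingSubgroup S), Irr ρ →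
      (∀ g : K.fixingSubgroup, (g : Gal(Om/ℚ)) ∈ L.fixingSubgroup → ρ g = 1) →
      (∃ g : K.fixingSubgroup, ρ g ≠ 1) →
      ∃ (n0 : ℕ) (a : ℕ → K.fixingSubgroup → ZMod p), Core p (LocK p K) (tr K L) Y ρ n0 a

/-- (150 lines) **The descent theorem.** Uses the statements named below (only the ones listed are
needed; they are hypotheses).
PROOF. `Sit` from `S_JSit`, the layers from `S_JLay`. `ThmC` for `k = K`: let `ρ` be irreducible, finite,
trivial on `L`. If `ρ g = 1` for all `g ∈ Gal(Om/K)` then the claim about `ρ` is the one in `ThmC` for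
`k = L = K`, which holds because `XFinGen p (cyc p K)`. Otherwise `Core` from `S_JCor`: `n0`, `a`. `S_Rel1`
(`Ls = LocK p K`): invariance. `S_JKF` for `F` with `Layer p L n0 F` (`tr K F = Y n0 ⊓ D`) and `S_FinW` (`m = n0`):
`W0` is finite. `S_Bnd`: `C`. `S_EB` for `X = PX p`, `N = tr K (cyc p K)` (finitely many orbits: `S_LK`, fourth part):
`b`. Choose `n ≥ n0` with `C + b < p ^ n`, `F` with `Layer p K n F`, `tr K F = Y n`. By `S_Tr` (third part)
`rank (ZL p K F ρ) = rank (Coc (LocK p K) ρ (Y n) (Y n)) ≤ C` and `rank (EL p K F ρ) = rank (EqF ρ (Y n)) ≤ b`. So the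
first alternative of the condition of `ThmC` holds. (The deduction of the hypotheses of `S_LK`, `S_Tr` is as in
`MuZ/CAsm2.lean`.) -/
def S_JMain : Prop :=
  ThmC → S_JSit → S_JLay → S_JKF → S_JCor → S_Rel1 → S_FinW → S_Bnd → S_Unq → S_Ele → S_Rep →
  S_Rp2 → S_Alg1 → S_Fld1 → S_RpS → S_JCh → S_QZ → S_Sub → S_PL → S_Pc → S_TFix → S_NF → S_Val →
  S_Lev → S_Semi → S_Uni → S_EB → S_Lay → S_Tr → S_LK → S_Conj → S_InT → S_Ram → S_Frob →
  S_Pow → S_Tot → S_Orb → (∀ (p : ℕ) [Fact p.Prime] (L : IntermediateField ℚ Om),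
    FiniteDimensional ℚ L → Finite (VV p (Pool.Agent.FW.LocO p) L.fixingSubgroup)) →
  ∀ (p : ℕ) [Fact p.Prime] (K L : IntermediateField ℚ Om), FiniteDimensional ℚ L → K ≤ L →
    (∀ σ ∈ K.fixingSubgroup, ∀ x ∈ L, σ x ∈ L) →
    (∀ σ ∈ K.fixingSubgroup, ∀ τ ∈ K.fixingSubgroup, ∀ x ∈ L, σ (τ x) = τ (σ x)) →
    ¬ p * Module.finrank ℚ K ∣ Module.finrank ℚ L → HypI p K L → XFinGen p (cyc p K) →
    XFinGen p (cyc p L)

end Pool.Agent.DI.PI
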