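import Pool.Agent.Lib.DI.PI.SpecB
import Pool.Agent.Lib.DI.Iface

/-!
# THEOREM DI, Part I (helper55), chapter C: from Thaine's argument to the hypothesis of the descent

Same conventions as in `SpecA.lean`: `S_<Name>` is proved in the module `Pool/Agent/Lib/DI/PI/<Name>.lean`,
theorem `p<Name> : S_<Name>`; the statements named as hypotheses only have to be introduced. `S_E1`, `S_E7`, ...,
`S_G`, `S_G3`, `S_H` are the statements of `DI/Iface.lean` (proved by other parts). USEFUL: `GK` is the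
fixing subgroup of `KQ` (by definition); `IntermediateField.mem_fixingSubgroup_iff`;
`InfiniteGalois.fixedField_fixingSubgroup`; `IntermediateField.fixingSubgroup_le`,
`IntermediateField.fixingSubgroup_isOpen`, `IntermediateField.fixingSubgroup_sup`. In `OO` (`QuadraticAlgebra ℤ (-2) 1`)
use `QuadraticAlgebra.ext` and the simp lemmas `QuadraticAlgebra.re_mul`, `im_mul`, `re_natCast`, ...; divisibility
`(N : OO) ∣ v` is: `∃ u, v = N * u`.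
-/

open scoped Pointwise nonZeroDivisors

noncomputable section

namespace Pool.Agent.DI.PI

open Pool.Agent.MuZ Pool.Agent.DI NumberField IsDedekindDomain

/-- `H` is a group of residue classes prime to `N` modulo `N` which contains `-1`. -/
structure Nice (N : ℕ) (H : OO → Prop) : Prop where
  neg : H (-1)
  cop : ∀ v, H v → Cop v N
  per : ∀ v u, H v → H (v + N * u)
  mul : ∀ v u, H v → H u → H (v * u)

/-- The layers of the cyclotomic `ℤ_2`-extension of `FixH f H` (`LyH f n (Hf f) = Ln f (n + 2)` by `rfl`). -/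
def LyH (f n : ℕ) (H : OO → Prop) : IntermediateField ℚ Om :=
  FixH (f * 2 ^ (n + 2)) (fun v => H v ∧
    ((2 : ℤ) ^ (n + 2) ∣ Nm v - 1 ∨ (2 : ℤ) ^ (n + 2) ∣ Nm v + 1))

/-- (100 lines) **Elementary facts about the norm and `Cop`.** Uses nothing.
PROOF. (1) identity. (2) `Nm v - Nm v'` with `v' = v + m u`: `Nm (v + m u) = Nm v + m (...)`. (3) `Nm (-v) = Nm v`.
(4) `IsCoprime.mul_right_iff` and (1). (5) `IsCoprime` is invariant under `Nm v ↦ Nm v + m k`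
(`IsCoprime.add_mul_left_left`). (6) `Cop`: `IsCoprime.mul_left`. (7) `IsCoprime` of `Nm v` with `2`: `Nm v` is odd,
`Nm v = re (re + im) + 2 im ^ 2`, so `re` and `re + im` are odd, `im` is even: `v - 1 = 2 u`. (8) if `x f + y m = 1`
(`f`, `m` coprime integers), `v = f s = m t`, then `v = (x f + y m) v = f m (x t + y s)`. (9) `v * cjO v = Nm v`
(as an element of `OO`); if `a Nm v + b N = 1` then `u = a cjO v`. Conversely take norms: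
`Nm v * Nm u = Nm (1 + N k) ≡ 1` modulo `N`. -/
def S_Ar1 : Prop :=
  (∀ v u : OO, Nm (v * u) = Nm v * Nm u) ∧
  (∀ (m : ℕ) (v v' : OO), (m : OO) ∣ v' - v → (m : ℤ) ∣ Nm v' - Nm v) ∧
  (∀ v : OO, Nm (-v) = Nm v) ∧
  (∀ (v : OO) (M N : ℕ), Cop v (M * N) ↔ Cop v M ∧ Cop v N) ∧
  (∀ (m : ℕ) (v v' : OO), (m : OO) ∣ v' - v → Cop v m → Cop v' m) ∧
  (∀ (m : ℕ) (v u : OO), Cop v m → Cop u m → Cop (v * u) m) ∧
  (∀ v : OO, Cop v 2 → (2 : OO) ∣ v - 1) ∧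
  (∀ (f m : ℕ) (v : OO), f.Coprime m → (f : OO) ∣ v → (m : OO) ∣ v → ((f * m : ℕ) : OO) ∣ v) ∧
  ∀ (N : ℕ) (v : OO), Cop v N ↔ ∃ u : OO, (N : OO) ∣ v * u - 1

/-- (100 lines) **Elementary existence.** Uses nothing.
PROOF. (1) `x f + y 2 ^ N = 1` (Bézout, `f` odd), `v = a y 2 ^ N + b x f`. (2) The map `y ↦ y + 2 y ^ 2` on
`ZMod (2 ^ N)` is injective: `(y - y') (1 + 2 (y + y')) = 0` and `1 + 2 t` is a unit (it is odd; in `ℤ`: if `2 ^ N ∣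
(y - y') (1 + 2 t)` then `2 ^ N ∣ y - y'` by coprimality). So it is surjective (finite set), there is `y` with
`y + 2 y ^ 2 ≡ c - 1`, and `Nm ⟨1, y⟩ = 1 + y + 2 y ^ 2`; then (1) with `a = 1`, `b = ⟨1, y⟩` and `S_Ar1` (2) (the norm
modulo `2 ^ N` depends only on the class; it is an easy computation). -/
def S_Ar2 : Prop :=
  (∀ (f N : ℕ) (a b : OO), Odd f → ∃ v : OO, (f : OO) ∣ v - a ∧ ((2 ^ N : ℕ) : OO) ∣ v - b) ∧
  ∀ (f N : ℕ) (c : ℤ), Odd f → Odd c →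
    ∃ v : OO, (f : OO) ∣ v - 1 ∧ (2 : ℤ) ^ N ∣ Nm v - c

/-- (120 lines) **Exponents.** Uses `S_Ar1`.
PROOF. Finiteness: `v ↦ ((v.re : ZMod f), (v.im : ZMod f))` has the same value at `v`, `v'` iff `f ∣ v - v'`; so the
ring `OO ⧸ Ideal.span {(f : OO)}` is finite (`f ≠ 0`). Let `e > 0` be the order (`Nat.card`) of its unit group, so
`v ^ e ≡ 1 mod f` if `Cop v f` (`v` is a unit modulo `f` by `S_Ar1` (9)); `e = 2 ^ k m`, `m` odd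
(`Nat.exists_eq_two_pow_mul_odd`). (1) `(v ^ m) ^ 2 ^ k ≡ 1`, and `Cop (v ^ m) f`. (2) if `Hf f b` then
`b ^ 2 ^ j ≡ 1` for some `j`, and `b ^ (2 ^ k m) ≡ 1`, so `b ^ 2 ^ (min j k) ≡ 1` as `gcd (2 ^ j, 2 ^ k m) = 2 ^ (min j k)`
(in the unit group: `orderOf` divides both); hence `b ^ 2 ^ k ≡ 1 mod f`. If moreover `Cop b 2` (when `N ≥ 1`; for
`N = 0` nothing is needed) then `b ≡ 1 mod 2` (`S_Ar1` (7)) and `b ^ 2 ^ i ≡ 1 mod 2 ^ (i + 1)` by induction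
(`x = 1 + 2 ^ (i+1) u`, `x ^ 2 = 1 + 2 ^ (i + 2) (...)`). With `a = k + N`: `b ^ 2 ^ a ≡ 1` modulo `f` and modulo
`2 ^ N`; `S_Ar1` (8). (3) `Hf`: `-1`: `Nm (-1) = 1`, `(-1) ^ 2 ^ 1 = 1`; products: `k = k₁ + k₂`; `per`:
`(v + f u) ^ n ≡ v ^ n` modulo `f` (`sub_dvd_pow_sub_pow` or `Ideal.Quotient`), `S_Ar1` (5). `HN`: `Hf` and the
norm modulo `2 ^ N`; it is `Cop v (2 ^ N)` because the norm is odd (`N ≥ 1`), `S_Ar1` (4); `per` with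
`f * 2 ^ N`: both parts. -/
def S_Ar3 : Prop :=
  S_Ar1 → ∀ f : ℕ, Odd f →
  (∃ m : ℕ, Odd m ∧ ∀ v : OO, Cop v f → Hf f (v ^ m)) ∧
  (∀ N : ℕ, ∃ a : ℕ, ∀ b : OO, Cop b (f * 2 ^ N) → Hf f b → ((f * 2 ^ N : ℕ) : OO) ∣ b ^ 2 ^ a - 1) ∧
  Nice f (Hf f) ∧ ∀ N : ℕ, Nice (f * 2 ^ N) (HN f N)

/-- (80 lines) **`LyH` is given by a nice group.** Uses `S_Ar1`. (The same proof as for `HN` in `S_Ar3`.)
PROOF. `neg`: `Nm (-1) = 1`. `cop`: `Nm v` is `±1` modulo `2 ^ (n + 2)`, so prime to `2 ^ (n + 2)`; `S_Ar1` (4).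
`per`: `v + (f * 2 ^ (n+2)) u = v + f (2 ^ (n+2) u)`, and the norm does not change modulo `2 ^ (n + 2)` by
`S_Ar1` (2). `mul`: `S_Ar1` (1), `(±1)(±1) = ±1`: if `m ∣ a - s`, `m ∣ b - t` then
`m ∣ a b - s t = (a - s) b + s (b - t)`. -/
def S_NiL : Prop :=
  S_Ar1 → ∀ (f : ℕ) (H : OO → Prop), Nice f H → ∀ n : ℕ, Nice (f * 2 ^ (n + 2)) (fun v => H v ∧
    ((2 : ℤ) ^ (n + 2) ∣ Nm v - 1 ∨ (2 : ℤ) ^ (n + 2) ∣ Nm v + 1))

/-- (120 lines) **Elementary facts about `Psi`.** Uses `S_B2`, `S_E1`, `S_Ar1`.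
PROOF. (1) `(τ * τ') (xO (v / N)) = τ (xO (a' v / N)) = xO (a (a' v) / N)`. (2) clear, `Nm 1 = 1`. (3) `toC ((a + N u) v) / N
= toC (a v) / N + toC (u v)` (`N = 0`: both sides are divisions by `0`, `a + 0 u = a`), and `XC`, `YC` have the
periods `toC _` by `S_B2`, so `xO`, `yO` (which are `ofC` of them) too. (4) `toC v / N = toC (M v) / (M N)`. (5) `S_E1`
gives `a'` with `Psi τ⁻¹ N a'`; `τ τ⁻¹ = 1` has `Psi 1 N (a a')` and `Psi 1 N 1`: uniqueness in `S_E1` (2). (6) by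
induction on `k` from (1), (2). (7) `τ⁻¹ τ'` has `Psi _ N (a⁻¹ a')`: let `b` be as in (5) for `τ`; `Psi (τ⁻¹ τ') N (b a')`,
and `b a' = b a + N (...) = 1 + N (...)`; use (3). -/
def S_Ps : Prop :=
  S_B2 → S_E1 → S_Ar1 →
  (∀ (τ τ' : Gal(Om/ℚ)) (N : ℕ) (a a' : OO), Psi τ N a → Psi τ' N a' → Psi (τ * τ') N (a * a')) ∧
  (∀ N : ℕ, Psi 1 N 1) ∧
  (∀ (τ : Gal(Om/ℚ)) (N : ℕ) (a u : OO), Psi τ N a → Psi τ N (a + N * u)) ∧
  (∀ (τ : Gal(Om/ℚ)) (M N : ℕ) (a : OO), 0 < M → Psi τ (M * N) a → Psi τ N a) ∧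
  (∀ τ ∈ GK, ∀ (N : ℕ) (a : OO), 0 < N → Psi τ N a → ∃ a', Psi τ⁻¹ N a' ∧ (N : OO) ∣ a * a' - 1) ∧
  (∀ (τ : Gal(Om/ℚ)) (N : ℕ) (a : OO) (k : ℕ), Psi τ N a → Psi (τ ^ k) N (a ^ k)) ∧
  ∀ τ ∈ GK, ∀ τ' ∈ GK, ∀ (N : ℕ) (a a' : OO), 0 < N → Psi τ N a → Psi τ' N a' → (N : OO) ∣ a' - a →
    Psi (τ⁻¹ * τ') N 1

/-- (60 lines) **Galois theory for nice groups.** Uses `S_E1`, `S_E8`.
PROOF. `S_E8`: `KQ ≤ FixH N H`, so an element which fixes `FixH N H` is in `GK`. (2), (3): `S_E8` third part and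
`S_E1` (existence and uniqueness of `a`; `H a ↔ H a'` if `N ∣ a - a'` by `per`). (4) If `KQ ≤ F` and every `τ ∈ GK`
which fixes `FixH N H` fixes `x` then `x ∈ FixH N H` (`InfiniteGalois.fixedField_fixingSubgroup`, or from the
definition of `FixH`: if `τ ∈ GK`, `Psi τ N a`, `H a` then `τ` fixes all elements of `FixH N H`, so `τ x = x`). -/
def S_GalH : Prop :=
  S_E1 → S_E8 → ∀ (N : ℕ) (H : OO → Prop), 0 < N → Nice N H →
    FiniteDimensional ℚ (FixH N H) ∧ KQ ≤ FixH N H ∧ (FixH N H).fixingSubgroup ≤ GK ∧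
    (∀ τ ∈ GK, (τ ∈ (FixH N H).fixingSubgroup ↔ ∃ a, Psi τ N a ∧ H a)) ∧
    (∀ τ ∈ GK, ∀ a, Psi τ N a → (τ ∈ (FixH N H).fixingSubgroup ↔ H a)) ∧
    ∀ x : Om, (∀ τ ∈ GK, (∃ a, Psi τ N a ∧ H a) → τ x = x) → x ∈ FixH N H

/-- (120 lines) **The norm of `a` and `Qcyc 2`.** Uses MuZ `S_TFix`, `S_E1`, `S_E6`, `S_Ps`, `S_Ar1`, `S_A2`.
PROOF. Let `τ ∈ GK` fix `Qcyc 2`, `Psi τ (M 2 ^ N) a`. Let `a'` be given by `S_E1` for `M 2 ^ (N + 1)`. By `S_Ps` (4)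
`Psi τ (M 2 ^ N) a'`, so `M 2 ^ N ∣ a - a'` (`S_E1` (2)) and `2 ^ N ∣ Nm a - Nm a'` (`S_Ar1` (2)). Let `ζ` be a
primitive `2 ^ (N + 1)`-th root of unity (`S_A2`: `zet (2 ^ (N+1))`). `S_E6`: `τ ζ = ζ ^ c`, `c = (Nm a').toNat`, and
`Nm a' ≥ 0` (`4 Nm v = (2 re + im) ^ 2 + 7 im ^ 2`), so `(c : ℤ) = Nm a'`. `S_TFix` for `p = 2`: `τ ^ 2` fixes `ζ`:
`ζ ^ (c ^ 2) = ζ`, `2 ^ (N + 1) ∣ c ^ 2 - 1 = (c - 1)(c + 1)` (`IsPrimitiveRoot.pow_inj`/`zpow_eq_one_iff_dvd`). `c` is odd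
(`N + 1 ≥ 1`) and one of `(c - 1)/2`, `(c + 1)/2` is odd, so `2 ^ N ∣ c - 1` or `2 ^ N ∣ c + 1` (for `N = 0` trivial). -/
def S_NoC : Prop :=
  S_TFix → S_E1 → S_E6 → S_Ps → S_B2 → S_Ar1 → S_A2 →
  ∀ τ ∈ GK, τ ∈ (Qcyc 2).fixingSubgroup → ∀ (M N : ℕ) (a : OO), 0 < M → Psi τ (M * 2 ^ N) a →
    (2 : ℤ) ^ N ∣ Nm a - 1 ∨ (2 : ℤ) ^ N ∣ Nm a + 1

/-- (200 lines) **The layers.** Uses `S_NoC` (its conclusion `hno`), `S_GalH`, `S_NiL`, `S_Ps`, `S_Ar1`, `S_Ar2`, `S_E1`,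
`S_E7`, `S_E8`, MuZ `S_Lay`.
PROOF. `N = n + 2`, `H'` the predicate in `LyH`, nice by `S_NiL`; `L = FixH f H`, `F = LyH f n H`. `S_Lay` (second part) for
`k = L` and `Y = F.fixingSubgroup.subgroupOf L.fixingSubgroup`. `L ≤ F`: by `S_GalH` `F.fixingSubgroup ≤ L.fixingSubgroup`
(`Psi τ (f 2 ^ N) a` implies `Psi τ f a` by `S_Ps` (4)), or directly from the definitions. `Y` is open as `F` is finite
dimensional. `Y` contains `(cyc 2 L).fixingSubgroup`: by `fix_cyc` (`MuZ/AsmA.lean`) such a `τ` fixes `L` and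
`Qcyc 2`; `Psi τ (f 2 ^ N) a` (`S_E1`), `Psi τ f a`, `H a` by `S_GalH`, the norm is `±1` by `hno`. INDEX: for
`τ ∈ L.fixingSubgroup` choose `a_τ` with `Psi τ (f 2 ^ N) a_τ`; `Nm a_τ` is odd, let `φ τ` be its class in
`(ZMod (2 ^ N))ˣ`. It does not depend on the choice (`S_E1` (2), `S_Ar1` (2)) and is multiplicative (`S_Ps` (1), `S_Ar1` (1)):
a homomorphism `φ : L.fixingSubgroup →* (ZMod (2 ^ N))ˣ`. It is surjective: for `c` odd `S_Ar2` (2) gives `v ≡ 1 mod f` with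
`Nm v ≡ c`, `Cop v (f 2 ^ N)`, and `S_E7` `τ ∈ GK` with `Psi τ _ v` or `Psi τ _ (-v)`; `H 1` (`(-1) (-1)`), `H (-1)` and
`per` give `H (±v)`, so `τ` fixes `L`, and `Nm (-v) = Nm v`. `Y = φ⁻¹ (zpowers (-1))` (`S_GalH` for `F`; `H a_τ` holds for
`τ` in `L.fixingSubgroup`). So the index is the one of `zpowers (-1)` (`Subgroup.index_comap_of_surjective`), it is
`2 ^ (N - 1) / 2 = 2 ^ n` (`ZMod.card_units_eq_totient`, `Nat.totient_prime_pow`, `orderOf (-1) = 2` because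
`-1 ≠ 1` in `ZMod (2 ^ N)`, `N ≥ 2`). The field given by `S_Lay` has the same fixing subgroup as `F`, so it is `F`
(`InfiniteGalois.fixedField_fixingSubgroup`; see the end of `DI/PI/JLay.lean`). -/
def S_LyH : Prop :=
  S_NoC → S_TFix → S_E6 → S_A2 → S_GalH → S_NiL → S_Ps → S_Ar1 → S_Ar2 → S_B2 → S_E1 → S_E7 → S_E8 →
  S_Lay → ∀ (f : ℕ) (H : OO → Prop), Odd f → Nice f H → ∀ n : ℕ, Layer 2 (FixH f H) n (LyH f n H)

/-- (60 lines) **Layers are unique.** Uses `S_Unq`, MuZ `S_NF` (and what it needs), `S_Lay`.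
PROOF. `S_NF` for `k`: `γ` with `Zq p ⊤ N γ`, `N = (cyc p k).fixingSubgroup.subgroupOf k.fixingSubgroup`. By `S_Lay` (first
part) the traces of `F` and `F'` are open, contain `N` and have index `p ^ n ≠ 0`. `S_Unq` with `Y = ⊤`: they are
equal (`Subgroup.relIndex_top_right`). As `k ≤ F, F'`, the fixing subgroups are contained in that of `k`, so they are
equal, and so are the fields. -/
def S_LyU : Prop :=
  S_Unq → S_QZ → S_Sub → S_PL → S_Pc → S_TFix → S_NF → S_Lay →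
  ∀ (p : ℕ) [Fact p.Prime] (k : IntermediateField ℚ Om), FiniteDimensional ℚ k →
    ∀ (n : ℕ) (F F' : IntermediateField ℚ Om), Layer p k n F → Layer p k n F' → F = F'

/-- (100 lines) **Teichmüller representatives.** Uses nothing.
PROOF. Let `ζ` run through the `m`-th roots of unity in `Om` (`m` of them, `Polynomial.nthRoots`; `X ^ m - 1` splits);
they are integral, so in `ZZ`: `X ^ m - 1 = ∏ (X - ζ)` in `ZZ[X]` (compare in `Om[X]`, or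
`IsPrimitiveRoot`-lemmas: take a primitive root `ζ₀ ∈ ZZ`, `X ^ m - 1 = ∏_(i<m) (X - ζ₀ ^ i)`,
`X_pow_sub_one_eq_prod`, over the domain `ZZ`). Reduce modulo `P` and evaluate at `x` with `x ^ m = 1`: since
`ZZ ⧸ P` is a domain, `x` is the class of some `ζ`. Uniqueness: if `ζ ≠ ζ'` are `m`-th roots of unity with the same
class then `ξ = ζ / ζ' ≠ 1` (`ζ' ^ (m-1)` is the inverse) has `1 - ξ ∈ P`, `ξ ^ m = 1`, so
`0 = 1 + ξ + ... + ξ ^ (m - 1) ≡ m` modulo `P`: `m ∈ P`, with `2 ∈ P` and `m` odd `1 ∈ P`, a contradiction. So `t x` is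
unique, and `t (x y) = t x t y` because both are `m`-th roots of unity with the class `x y`. -/
def S_Tei : Prop :=
  ∀ P : Ideal ZZ, P.IsPrime → (2 : ZZ) ∈ P → ∀ m : ℕ, Odd m →
    (∃ t : ZZ ⧸ P → ZZ, ∀ x, x ^ m = 1 → (t x) ^ m = 1 ∧ Ideal.Quotient.mk P (t x) = x ∧
      ∀ y, y ^ m = 1 → t (x * y) = t x * t y) ∧
    ∀ z z' : ZZ, z ^ m = 1 → z' ^ m = 1 → Ideal.Quotient.mk P z = Ideal.Quotient.mk P z' → z = z'

/-- (60 lines) **The Kummer character is additive.** Uses nothing.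
PROOF. Let `x, y ≠ 0` be fixed by `d`. `d (sqr x) ^ 2 = x = sqr x ^ 2`, so `d (sqr x) = ± sqr x`, and
`kap x d = 0` iff the sign is `+` (`sqr x ≠ - sqr x` because `sqr x ≠ 0`). `sqr (x y) = ± sqr x sqr y`. So
`d (sqr (x y)) / sqr (x y)` is the product of the signs. Four cases (`1 + 1 = 0` in `ZMod 2`). (2) `kap (b ^ 2) d = 0`:
`sqr (b ^ 2) = ± b`. (3) clear. -/
def S_Kap : Prop :=
  (∀ (d : Gal(Om/ℚ)) (x y : Om), x ≠ 0 → y ≠ 0 → d x = x → d y = y →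
    kap (x * y) d = kap x d + kap y d) ∧
  ∀ (d : Gal(Om/ℚ)) (x b : Om), x ≠ 0 → b ≠ 0 → d x = x → d b = b → kap (x * b ^ 2) d = kap x d

/-- (80 lines) **Representatives of `H_N / ±1` exist.** Uses `S_Ar3`, `S_Ar1`.
PROOF. `M = f 2 ^ N > 0`. Every `v` is congruent modulo `M` to some `⟨a, b⟩` with `0 ≤ a, b < M`. The relation
`M ∣ v - v' ∨ M ∣ v + v'` is an equivalence relation on `OO` with finitely many classes. Let `T` be the image of the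
finite set of all `⟨a, b⟩`, `0 ≤ a, b < M`, with `HN f N ⟨a, b⟩` under a function which sends every element to a
chosen representative of its class (`Quotient.out` for the `Setoid`). `mem`: `HN` is invariant under the relation
(`S_Ar3`: `Nice (f * 2 ^ N) (HN f N)`, `per`, and `neg`, `mul` for the sign). -/
def S_ExT : Prop :=
  S_Ar1 → S_Ar3 → ∀ f N : ℕ, Odd f → ∃ T : Finset OO, IsRep f N T

/-- (80 lines) **A prime above `π` exists.** Uses `S_A1`.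
PROOF. `wO` is integral (`wO_sq`), `w' : ZZ` the corresponding element. It is not a unit of `ZZ`: the complex
conjugation `c ∈ Gal(Om/ℚ)` (`S_A1`) maps `wO` to `1 - wO` (apply `io`; `conj wC = 1 - wC`), so with `w'` also
`1 - w'` would be a unit, and so would be `w' (1 - w') = 2`; but `1 / 2` is not integral over `ℤ`
(`IsIntegrallyClosed ℤ`). So `w'` is in a maximal ideal `P` (`exists_le_maximal` or `exists_max_ideal_of_mem_nonunits`);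
`P ≠ ⊥` as `w' ≠ 0`. `MP P wO`: `a = w'`, `b = 1`. Second part: if `wO b = a` with `a ∈ P`, `b ∉ P` then
`w' b ∈ P`, `w' ∈ P` and `2 = w' (1 - w') ∈ P`. -/
def S_ExP : Prop :=
  S_A1 → (∃ P : Ideal ZZ, AbPi P) ∧ ∀ P : Ideal ZZ, AbPi P → (2 : ZZ) ∈ P ∧ Npr P ∧ MP P 2

/-- (150 lines) **The lift of a character.** Uses `S_Tei`, `S_Ps`, `S_GalH`, `S_Ar1`, `S_Ar3`, `S_E1`, `S_E7`.
PROOF. `m` from `S_Ar3` (1), `t` from `S_Tei`. For `v` with `Cop v f`: `S_E7` gives `τ ∈ GK` with `Psi τ f v` or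
`Psi τ f (-v)`. FACT 1: if `σ, σ' ∈ GK` and `Psi σ⁻¹ f (±v)`, `Psi σ'⁻¹ f (±v)` then `χb σ = χb σ'`: `σ⁻¹ σ'` has
`Psi _ f (±1)` (`S_Ps` (1), (5), (7)), so it fixes `Lf f = FixH f (Hf f)` (`S_GalH`; `Hf f` is nice by `S_Ar3`), so
`χb σ' = χb σ χb (σ⁻¹ σ') = χb σ`. FACT 2: `(χb σ) ^ m = 1` for `σ ∈ GK`: `Psi σ f a` (`S_E1`), `Psi (σ ^ m) f (a ^ m)`
(`S_Ps` (6)), `Hf f (a ^ m)`, so `σ ^ m` fixes `Lf f`. DEFINITION: `χ v = t (χb σ)` for some `σ ∈ GK` with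
`Psi σ⁻¹ f (±v)` if `Cop v f`, `χ v = 0` otherwise; by FACT 1 it does not depend on `σ`. `per`: `Psi σ⁻¹ f v` implies
`Psi σ⁻¹ f (v + f u)` (`S_Ps` (3)) and `Cop` is periodic (`S_Ar1` (5)). `mul`: if one of `v`, `u` is not prime to `f`
then `v u` is not (`S_Ar1` (1)) and both sides are `0`; otherwise `(σ_v σ_u)⁻¹ = σ_u⁻¹ σ_v⁻¹` has
`Psi _ f (± u v)` and `t` is multiplicative. `odd`: `(t x) ^ m = 1`. NONTRIVIAL: `χb σ ≠ 1`, `Psi σ⁻¹ f v` (`S_E1`):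
`χ v = t (χb σ)`, and `t x = 1` implies `x = mk 1 = 1`. Last property: definition and `mk (t x) = x`. -/
def S_Chi : Prop :=
  S_Tei → S_Ps → S_GalH → S_Ar1 → S_Ar3 → S_B2 → S_E1 → S_E7 → S_E8 →
  ∀ f : ℕ, Odd f → ∀ P : Ideal ZZ, P.IsPrime → (2 : ZZ) ∈ P →
  ∀ χb : Gal(Om/ℚ) → ZZ ⧸ P, (∀ σ ∈ GK, ∀ τ ∈ GK, χb (σ * τ) = χb σ * χb τ) →
    (∀ σ ∈ (Lf f).fixingSubgroup, χb σ = 1) → (∃ σ ∈ GK, χb σ ≠ 1) →
    ∃ χ : OO → ZZ, IsChi f (fun v => (χ v : Om)) ∧ (∃ v, Cop v f ∧ (χ v : Om) ≠ 1) ∧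
      ∀ σ ∈ GK, ∀ v : OO, Psi σ⁻¹ f v → Ideal.Quotient.mk P (χ v) = χb σ

/-- The data given by Part G. -/
structure GDat (f : ℕ) (P : Ideal ZZ) (μ : OO) (S : Finset ℂ) (v0 : OO) (d : Gal(Om/ℚ))
    (T : ℕ → Finset OO) : Prop where
  odd : Odd f
  sev : 7 ∣ f
  ab : AbPi P
  cop : Cop μ (2 * f)
  half : IsHalf μ S
  v0 : Cop v0 (2 * f)
  dec : ∀ x : ZZ, x ∈ P → d • x ∈ P
  fix : ∀ n : ℕ, ∀ x ∈ Ln f n, d x = x
  fi : ∀ i : Om, i ^ 2 = -1 → d i = i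
  rep : ∀ n : ℕ, IsRep f (n + 2) (T n)

/-- The functions `a n`. -/
def aa (f : ℕ) (μ : OO) (S : Finset ℂ) (v0 : OO) (d : Gal(Om/ℚ)) (T : ℕ → Finset OO) (n : ℕ)
    (σ : Gal(Om/ℚ)) : ZMod 2 :=
  kap (σ⁻¹ (uN f (n + 2) μ S (T n) v0)) d

/-- (60 lines) **Invariance.** Uses `S_G3`, `S_E1`.
PROOF. `(σ τ)⁻¹ u = τ⁻¹ (σ⁻¹ u)`; `S_E1` gives `a` with `Psi σ⁻¹ (f 2 ^ (n + 2)) a`; `S_G3`: `σ⁻¹ u` is the unit for
`a v0` (`Cop (a v0) (2 f)`: `S_Ar1`), which is in `Ln f (n + 2)`, so it is fixed by `τ⁻¹`. Also the second claim. -/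
def S_MInv : Prop :=
  S_G3 → S_E1 → S_Ar1 → ∀ (f : ℕ) (P : Ideal ZZ) (μ : OO) (S : Finset ℂ) (v0 : OO) (d : Gal(Om/ℚ))
    (T : ℕ → Finset OO), GDat f P μ S v0 d T → ∀ n : ℕ, ∀ σ ∈ GK,
    (∀ τ ∈ (Ln f (n + 2)).fixingSubgroup, aa f μ S v0 d T n (σ * τ) = aa f μ S v0 d T n σ) ∧
    ∀ a : OO, Psi σ⁻¹ (f * 2 ^ (n + 2)) a → Cop (a * v0) (2 * f) ∧
      aa f μ S v0 d T n σ = kap (uN f (n + 2) μ S (T n) (a * v0)) d

/-- (120 lines) **Norm compatibility.** Uses `S_MInv`, `S_G3`, `S_Kap`, `S_GalH`, `S_Ps`, `S_Ar3`, `S_LyH` (its conclusion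
`hly` for `Lf f`: `Layer 2 (Lf f) n (Ln f (n + 2))`), `S_E1`, `S_E8`.
PROOF. `F = Ln f (n + 2)`, `F' = Ln f (n + 3)`. `F'.fixingSubgroup` has index `2` in `F.fixingSubgroup` (the degrees of
the layers, `finrank ℚ F' = 2 finrank ℚ F`, or: `R` has two elements since `Reps` determines the relative index);
EASIER: the condition `F ≤ F'` and `S_GalH` show that for `τ ∈ F.fixingSubgroup`, `Psi τ (f 2 ^ (n + 3)) a`: `HN f (n + 2) a`,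
`Nm a ≡ ±1 mod 2 ^ (n + 2)`, and `τ ∈ F'.fixingSubgroup` iff `Nm a ≡ ±1 mod 2 ^ (n + 3)`; if `τ, τ' ∈ F.fixingSubgroup` are
both not in `F'.fixingSubgroup` then `τ⁻¹ τ'` is: `Nm a` and `Nm a'` are both `± (1 + 2 ^ (n + 2))` modulo
`2 ^ (n + 3)`. There is an element of `F.fixingSubgroup` not in `F'.fixingSubgroup` (the degrees of `F`, `F'` are
different by `hly`). So `R = {r₁, r₂}`, `r₁ ∈ F'.fixingSubgroup`, `r₂ ∉ F'.fixingSubgroup`. Put `u' = u_(n+1)`,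
`x = σ⁻¹ u'`: it is `u'` for `a v0` (`S_MInv`), in `F'`, so `r₁⁻¹ x = x` and the sum is `kap x d + kap (r₂⁻¹ x) d =
kap (x * r₂⁻¹ x) d` (`S_Kap`; `x` and `r₂⁻¹ x` are in `F'`, so they are fixed by `d`). `S_G3` (last part) with
`s = r₂⁻¹ ∈ GK`, `Psi s (f 2 ^ (n + 3)) a'`, `HN f (n + 2) a'`, `¬ HN f (n + 3) a'`: `x * s x = y b ^ 2`, `y` the unit
`u_n` for `a v0`, `b ∈ F` (fixed by `d`), so the sum is `kap y d = aa n σ` (`S_Kap` (2), `S_MInv` (2); `Psi σ⁻¹ (f 2 ^ (n+3)) a`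
implies `Psi σ⁻¹ (f 2 ^ (n + 2)) a` by `S_Ps` (4)). -/
def S_MNrm : Prop :=
  S_MInv → S_G3 → S_Kap → S_GalH → S_Ps → S_Ar1 → S_Ar3 → S_B2 → S_E1 → S_E8 →
  ∀ (f : ℕ) (P : Ideal ZZ) (μ : OO) (S : Finset ℂ) (v0 : OO) (d : Gal(Om/ℚ))
    (T : ℕ → Finset OO), GDat f P μ S v0 d T →
    (∀ n, Layer 2 (Lf f) n (Ln f (n + 2))) → ∀ n : ℕ, ∀ σ ∈ GK, ∀ R : Finset Gal(Om/ℚ),
    Reps (Ln f (n + 2)).fixingSubgroup (Ln f (n + 1 + 2)).fixingSubgroup R →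
    ∑ r ∈ R, aa f μ S v0 d T (n + 1) (σ * r) = aa f μ S v0 d T n σ

/-- (200 lines) **The component does not vanish.** Uses `S_MInv`, `S_G3`, `S_GalH`, `S_NiL`, `S_Ps`, `S_Ar1`, `S_Ar2`, `S_Ar3`,
`S_E1`, `S_E7`, `S_E8`. `hG` is the conclusion of `S_G`.
PROOF. `N = n + 2`, `M = f 2 ^ N`, `E = LyH 1 n (fun _ => True)`, `F = Ln f N`. For `r ∈ R` (`R ⊆ E.fixingSubgroup ≤ GK`)
let `a_r` be given by `S_E1`: `Psi r⁻¹ M a_r`, and (CRT, `S_Ar2` (1)) `v_r ≡ a_r mod f`, `v_r ≡ 1 mod 2 ^ N`. By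
`S_GalH` for `E` (modulus `1 * 2 ^ N`; `S_Ps` (4)) `Nm a_r ≡ ±1 mod 2 ^ N`. Let `h` be `≡ 1 mod f`, `≡ a_r mod 2 ^ N`
(CRT): `HN f N h` (`Hf f h` as `h ≡ 1 mod f`), and `a_r ≡ h v_r mod M` (`S_Ar1` (8)). So by `S_MInv` (2) and `S_G3`
`aa n r = kap (u^(a_r v0)) d = kap (u^(h v_r v0)) d = kap (u^(v_r v0)) d`. Let `D` be the image of `R` under
`r ↦ v_r`; it satisfies the conditions of `hG`: (i) `Cop v_r (2 f)`: modulo `f` it is `a_r`, modulo `2` it is `1`.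
(ii) let `Cop v f`; let `v' ≡ v mod f`, `v' ≡ 1 mod 2 ^ N`; `S_E7`: `τ ∈ GK` with `Psi τ M (±v')`. `τ⁻¹` is in
`E.fixingSubgroup` (norm `≡ 1`), so there is `r ∈ R` with `r⁻¹ τ⁻¹ ∈ F.fixingSubgroup`, that is `Psi (r⁻¹ τ⁻¹) M c` with
`HN f N c`; and `r⁻¹ = (r⁻¹ τ⁻¹) τ` has `Psi _ M (± c v')`: `a_r ≡ ± c v'` modulo `M`, so `v_r ≡ ± c v mod f`; as
`Hf f (±c)` and `(±c)` has an inverse modulo `f` in `Hf f` (a power), `v ≡ h v_r`. (iii) if `v_r' ≡ h v_r mod f` with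
`Hf f h` then `r⁻¹ r'`... precisely `r'⁻¹ r` (or `r⁻¹ r'`) has `Psi _ f (h)` up to a factor, so it fixes `Lf f`; it is
also in `E.fixingSubgroup` (norm `±1` modulo `2 ^ N`), so it is in `F.fixingSubgroup` by the description of `F`
(`Psi _ M c` with `Hf f c` and `Nm c ≡ ±1`), and `r = r'` by `uni`; so `v_r = v_r'`. The same argument shows that
`r ↦ v_r` is injective on `R`, so the sum over `D` is the sum over `R`. `hG`: `∑ χ(v_r) (kap ...).val` is not in `MP P`;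
it is the element `∑ χ v_r * (aa n r).val` of `ZZ`, so this element is not in `P` (if it were, `b = 1` shows
`MP P`), i.e. its class is not `0`. The class of `χ v_r` is `χb r`: `Psi r⁻¹ f v_r` (`v_r ≡ a_r mod f`, `S_Ps` (3), (4)). -/
def S_MNv : Prop :=
  S_MInv → S_G3 → S_GalH → S_NiL → S_Ps → S_Ar1 → S_Ar2 → S_Ar3 → S_B2 → S_E1 → S_E7 → S_E8 →
  ∀ (f : ℕ) (P : Ideal ZZ) (μ : OO) (S : Finset ℂ) (v0 : OO) (d : Gal(Om/ℚ))
    (T : ℕ → Finset OO), GDat f P μ S v0 d T →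
  ∀ (χb : Gal(Om/ℚ) → ZZ ⧸ P) (χ : OO → ZZ),
    (∀ σ ∈ GK, ∀ v : OO, Psi σ⁻¹ f v → Ideal.Quotient.mk P (χ v) = χb σ) →
  ∀ (n : ℕ) (T0 : Finset OO), IsRep f (n + 2) T0 →
    (∀ D : Finset OO, (∀ v ∈ D, Cop v (2 * f) ∧ ((2 ^ (n + 2) : ℕ) : OO) ∣ v - 1) →
        (∀ v : OO, Cop v f → ∃ u ∈ D, ∃ h, Hf f h ∧ (f : OO) ∣ v - h * u) →
        (∀ u ∈ D, ∀ u' ∈ D, (∃ h, Hf f h ∧ (f : OO) ∣ u' - h * u) → u = u') →
        ¬ MP P (∑ v ∈ D, (χ v : Om) * ((kap (uN f (n + 2) μ S T0 (v * v0)) d).val : Om))) →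
  ∀ R : Finset Gal(Om/ℚ),
    Reps (LyH 1 n (fun _ => True)).fixingSubgroup (Ln f (n + 2)).fixingSubgroup R →
    ∑ r ∈ R, ((aa f μ S v0 d T n r).val : ZZ ⧸ P) * χb r ≠ 0

/-- (150 lines) **The hypothesis of the descent for `Lf f`.** Assembly. The last hypotheses are the conclusions
of `S_LyH`, `S_LyU`.
PROOF. `P` with `AbPi P` (`S_ExP`). Let `χb` be given, `χ` from `S_Chi`; `S_G` for `fun v => (χ v : Om)`: `μ`, `S`, `N ≥ 3`,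
`T0`, `v0`, `d`. `n0 = N - 2`; `T n` from `S_ExT` for `n + 2`; `GDat`. `a = aa f μ S v0 d T`. The layers: `Layer 2 (Lf f) n F`
iff `F = Ln f (n + 2)` (`hly` for `H = Hf f`, nice by `S_Ar3`, and `hlu`); `Layer 2 KQ n E` iff
`E = LyH 1 n (fun _ => True)` (`hly` for `f = 1`, `H = fun _ => True`, which is nice: `Cop v 1`; and
`FixH 1 (fun _ => True) = KQ`: `≥` is in `S_GalH`; `≤`: an element of it is fixed by every `τ ∈ GK` (`S_E1` gives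
`a` with `Psi τ 1 a`), so it is in `KQ` by `InfiniteGalois.fixedField_fixingSubgroup`). `inv`: `S_MInv`. `nrm`: `S_MNrm`.
`thm`: `S_H` with `v = v0`, `Sg = R`, `g = f` (`Ln f (n+2) ≥ KQ`, so `Reps K.fixingSubgroup ...` gives the conditions on
`Sg`; `GDat.fix` gives `d ∈ (Ln f (n + 2)).fixingSubgroup`). `nv`: `S_MNv`. -/
def S_HypC : Prop :=
  S_ExP → S_Chi → S_ExT → S_MInv → S_MNrm → S_MNv → S_Kap → S_Tei → S_Ps → S_GalH → S_NiL → S_Ar1 →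
  S_Ar2 → S_Ar3 → S_A1 → S_B2 → S_E1 → S_E7 → S_E8 → S_G3 → S_H → S_G →
  (∀ (f : ℕ) (H : OO → Prop), Odd f → Nice f H → ∀ n : ℕ, Layer 2 (FixH f H) n (LyH f n H)) →
  (∀ k : IntermediateField ℚ Om, FiniteDimensional ℚ k →
    ∀ (n : ℕ) (F F' : IntermediateField ℚ Om), Layer 2 k n F → Layer 2 k n F' → F = F') →
  ∀ f : ℕ, Odd f → 7 ∣ f → HypI 2 KQ (Lf f)

/-- (120 lines) **The field `Lf f` over `K`.** Uses `S_GalH`, `S_Ps`, `S_Ar3`, `S_E1`, `S_E9`.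
PROOF. `Lf f = FixH f (Hf f)`, `Hf f` nice (`S_Ar3`). (1), (2) `S_GalH`. (3) `S_E9`. (4) for `σ, τ ∈ GK` let
`Psi σ f a`, `Psi τ f b`. `σ τ` and `τ σ` have `Psi _ f (a b)` and `Psi _ f (b a)`, so `(σ τ)⁻¹ (τ σ)` has
`Psi _ f 1` (`S_Ps` (7)) and fixes `Lf f` (`Hf f 1`): `σ τ x = τ σ x`. (5) Let `G = KQ.fixingSubgroup`,
`D = (Lf f).fixingSubgroup.subgroupOf G`: normal (by (3)), `G ⧸ D` is a finite group in which every element has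
odd order (`m` of `S_Ar3` (1): `τ ^ m` has `Psi _ f (a ^ m)` and `Hf f (a ^ m)`), so its order is odd (Cauchy,
`exists_prime_orderOf_dvd_card`). Its order is `finrank ℚ (Lf f) / finrank ℚ KQ` (as in `MuZ/Vec.lean`, `DI/PI/JSit.lean`:
`IntermediateField.finrank_eq_fixingSubgroup_index`, `Subgroup.relIndex_mul_index`). If `2 finrank KQ ∣ finrank Lf`
then `2` divides the index. -/
def S_LK0 : Prop :=
  S_GalH → S_Ps → S_Ar1 → S_Ar3 → S_B2 → S_E1 → S_E8 → S_E9 → ∀ f : ℕ, Odd f → 7 ∣ f →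
    FiniteDimensional ℚ (Lf f) ∧ KQ ≤ Lf f ∧
    (∀ σ ∈ KQ.fixingSubgroup, ∀ x ∈ Lf f, σ x ∈ Lf f) ∧
    (∀ σ ∈ KQ.fixingSubgroup, ∀ τ ∈ KQ.fixingSubgroup, ∀ x ∈ Lf f, σ (τ x) = τ (σ x)) ∧
    ¬ 2 * Module.finrank ℚ KQ ∣ Module.finrank ℚ (Lf f)

/-- (60 lines) **`μ = 0` for `K`.** Uses `S_JPe`, `ThmA` and `XFinGen 2 (cyc 2 ⊥)`.
PROOF. `S_JPe` for `p = 2`, `k = E = ⊥`, `L = KQ`: `KQ` is finite dimensional (`wO` is algebraic); it is stable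
under every `σ`: `σ wO` is a root of `t ^ 2 = t - 2`, so it is `wO` or `1 - wO`; and `σ (σ wO) = wO` in both cases, so
`σ ^ 2 ^ 1` fixes `KQ` (`a = 1`). -/
def S_KQ0 : Prop :=
  S_JPe → ThmA → XFinGen 2 (cyc 2 (⊥ : IntermediateField ℚ Om)) →
    FiniteDimensional ℚ KQ ∧ XFinGen 2 (cyc 2 KQ)

end Pool.Agent.DI.PI
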