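import Pool.Agent.Lib.DI.PI.SpecB
import Pool.Agent.Lib.DI.Iface

/-!
# THEOREM DI, Part I (helper55), chapters D and E: comparison with the group law of Mathlib, the last descent

Same conventions as in `SpecA.lean`, `SpecC.lean`: `S_<Name>` is proved in the module
`Pool/Agent/Lib/DI/PI/<Name>.lean`, theorem `p<Name> : S_<Name>`; the statements named as hypotheses only have to be
introduced. This file does not import `SpecC.lean`.
-/

open scoped Pointwise

noncomputable section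

namespace Pool.Agent.DI.PI

open Pool.Agent.MuZ Pool.Agent.DI

/-- The curve over `ℂ`. -/
def EcC : WeierstrassCurve ℂ := ⟨1, -1, 0, -2, -1⟩

open Classical in
/-- (150 lines) **The uniformisation is a homomorphism to Mathlib's group.** Uses `S_B1`, ..., `S_B5`.
PROOF. `EcC` has `Δ = -7 ^ 3 ≠ 0` (compute; `WeierstrassCurve.Δ`, `b₂`, ...), so it `IsElliptic` and every solution of
the equation is nonsingular (`WeierstrassCurve.Affine.equation_iff_nonsingular`, or directly: the two partial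
derivatives and the equation have no common zero). The equation is `S_B1`
(`WeierstrassCurve.Affine.equation_iff`). Let `Φ z = 0` if `Lat z` and `.some (XC z) (YC z) _` otherwise.
ADDITIVITY `Φ (z + z') = Φ z + Φ z'`. (a) `Lat z`: `z = toC v`, `Φ (z + z') = Φ z'` by the periods (`S_B2`; `Lat (z + z')`
iff `Lat z'`). (b) `Lat z'`: the same. (c) both not, `Lat (z + z')`: `z' = -z + toC v`, so `XC z' = XC z`,
`YC z' = -XC z - YC z` (`S_B2`), which is `negY (XC z) (YC z)` (`a₁ = 1`, `a₃ = 0`), so `YC z = negY (XC z') (YC z')` and the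
sum is `0` (`Point.add_of_Y_eq`). (d) not (c), `Lat (z - z')`: `z' = z + toC v`, `XC z' = XC z`, `YC z' = YC z`,
`XC (z + z') = XC (2 z)`, `YC` too, `¬ Lat (2 z)`. `2 YC z + XC z ≠ 0` (`S_B3` (2)), that is `YC z ≠ negY`; the sum is
`Point.add_self_of_Y_ne`, with `slope = (3 x ^ 2 + 2 a₂ x + a₄ - a₁ y) / (y - negY x y)`
(`WeierstrassCurve.Affine.slope_of_Y_ne`), equal to the `l` of `S_B5`, `addX = l ^ 2 + a₁ l - a₂ - x₁ - x₂`,
`addY = negY (addX) (l (addX - x₁) + y₁)`: compare with `S_B5`. (e) otherwise `XC z ≠ XC z'` (`S_B3` (1)):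
`Point.add_of_X_ne`, `slope_of_X_ne`, `S_B4`. -/
def S_Phi : Prop :=
  S_B1 → S_B2 → S_B3 → S_B4 → S_B5 →
    ∃ Φ : ℂ →+ EcC.toAffine.Point, (∀ z, Lat z → Φ z = 0) ∧
      ∀ z, ¬ Lat z → ∃ h : EcC.toAffine.Nonsingular (XC z) (YC z),
        Φ z = WeierstrassCurve.Affine.Point.some (XC z) (YC z) h

open Classical in
/-- (80 lines) **From `Om` to `ℂ`.** Uses nothing.
PROOF. `WeierstrassCurve.Affine.Point.map` for `W' = Ecurve` (`R = S = F = Om`), `K = ℂ` with the algebra structure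
`io.toAlgebra`, `f : Om →ₐ[Om] ℂ` (`Algebra.ofId`), up to the equalities `Ecurve.baseChange Om = Ecurve`,
`Ecurve.baseChange ℂ = EcC` (`map_one`, `map_neg`, `map_ofNat`, ...; rewrite them away with a general lemma: if
`W = W₁` then there is an isomorphism of the groups of points which does not change the coordinates, proof by
`subst`). OR directly: define `Ψ` by cases, `map_add'` as in the proof of `Point.map` in Mathlib
(`WeierstrassCurve.Affine.map_addX`, `map_addY`, `map_slope`, or unfold and use `map_div₀`, ...). -/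
def S_Tra : Prop :=
  ∃ Ψ : Ecurve.toAffine.Point →+ EcC.toAffine.Point,
    ∀ (x y : Om) (h : Ecurve.toAffine.Nonsingular x y),
      ∃ h' : EcC.toAffine.Nonsingular (io x) (io y),
        Ψ (WeierstrassCurve.Affine.Point.some x y h) =
          WeierstrassCurve.Affine.Point.some (io x) (io y) h'

open Classical in
/-- (80 lines) **Torsion points.** Uses `S_Phi` (its conclusion `hΦ`), `S_Tra`, `S_B3`.
PROOF. `P = some x y h`, `Ψ P = some (io x) (io y) h'`; `h'` contains the equation, so `S_B3` (3) gives `z` with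
`¬ Lat z`, `XC z = io x`, `YC z = io y`: `Ψ P = Φ z`. `0 = Ψ (n P) = n Φ z = Φ (n z)`, so `Lat (n z)` (otherwise
`Φ (n z) = some ..`, which is not `0`): `n z = toC v`, `z = toC v / n`. `xO z = ofC (XC z) = ofC (io x) = x`
(`ofC_io`), the same for `y`. -/
def S_Cmp : Prop :=
  (∃ Φ : ℂ →+ EcC.toAffine.Point, (∀ z, Lat z → Φ z = 0) ∧
      ∀ z, ¬ Lat z → ∃ h : EcC.toAffine.Nonsingular (XC z) (YC z),
        Φ z = WeierstrassCurve.Affine.Point.some (XC z) (YC z) h) → S_Tra → S_B3 →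
  ∀ (x y : Om) (h : Ecurve.toAffine.Nonsingular x y) (n : ℕ), 0 < n →
    n • (WeierstrassCurve.Affine.Point.some x y h) = 0 →
    ∃ v : OO, x = xO (toC v / n) ∧ y = yO (toC v / n)

/-- The field generated over `K` by the coordinates of the `M`-torsion points. -/
def MN (M : ℕ) : IntermediateField ℚ Om :=
  KQ ⊔ IntermediateField.adjoin ℚ {a : Om | ∃ v : OO, a = xO (toC v / M) ∨ a = yO (toC v / M)}

open Classical in
/-- (120 lines) **Number fields inside the torsion field.** The first hypothesis is the conclusion of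
`S_Cmp`.
PROOF. `F` is finitely generated (`IntermediateField.fg_of_finiteDimensional` or a basis of `F`): `F = adjoin ℚ G`, `G`
finite. Every `g ∈ G` is in `TorField = adjoin ℚ A`, so in `adjoin ℚ A_g` for a finite `A_g ⊆ A`
(`IntermediateField.exists_finset_of_mem_adjoin`). Let `B` be the union of the `A_g`: finite, `F ≤ adjoin ℚ B`. For
`a ∈ B` there are `n_a > 0`, `v_a` with `a = xO (toC v_a / n_a)` or `a = yO (toC v_a / n_a)` (hypothesis). Let
`M = 7 * ∏ n_a > 0`, `M = f 2 ^ N` with `f` odd (`Nat.exists_eq_two_pow_mul_odd`); `7 ∣ f` as `7 ∣ f 2 ^ N`. `n_a ∣ M`, so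
`toC v_a / n_a = toC (v_a * (M / n_a)) / M`: `a ∈ MN M`. -/
def S_FT : Prop :=
  (∀ (x y : Om) (h : Ecurve.toAffine.Nonsingular x y) (n : ℕ), 0 < n →
    n • (WeierstrassCurve.Affine.Point.some x y h) = 0 →
    ∃ v : OO, x = xO (toC v / n) ∧ y = yO (toC v / n)) →
  ∀ F : IntermediateField ℚ Om, FiniteDimensional ℚ F → F ≤ TorField →
    ∃ f N : ℕ, Odd f ∧ 7 ∣ f ∧ F ≤ MN (f * 2 ^ N)

/-- (120 lines) **The field `MN M`.** Uses `S_B2`, `S_E1`, `S_E8`. `hA` is a part of the conclusion of `S_Ar3`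
(`SpecC.lean`).
PROOF. `M = f 2 ^ N > 0`. (1) the set of generators is finite: `xO`, `yO` of `toC (v + M u) / M` are those of
`toC v / M` (`S_B2`), and every `v` is congruent modulo `M` to one of the `M ^ 2` elements `⟨a, b⟩`, `0 ≤ a, b < M`; all
elements of `Om` are algebraic (`IntermediateField.finiteDimensional_adjoin`); `KQ` is finite dimensional; so is the
compositum. (2) `σ` maps `KQ` to itself (it fixes it) and the generators to generators (`S_E1`: `Psi σ M a`); use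
`IntermediateField.adjoin_map`/`map_le_iff_le_comap`: the image of `adjoin ℚ A` under `σ` is `adjoin ℚ (σ A)`. (3) Let
`τ` fix `MN M`. Then `τ ∈ GK` and `Psi τ M 1`, so `Psi τ f 1` (`toC v / f = toC (2 ^ N v) / M`), and `Hf f 1`: `τ` fixes
all elements of `Lf f` (definition of `FixH`). So `Lf f ≤ MN M` by Galois theory
(`InfiniteGalois.fixedField_fixingSubgroup`: `x` is in `MN M` if all `τ` in the fixing subgroup fix `x`). (4) Let
`a` be given by `hA`. Let `σ` fix `Lf f`; `σ ∈ GK` as `KQ ≤ Lf f` (`S_E8`, `Hf f` is nice: `hN`), `Psi σ M b`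
(`S_E1`), so `Psi σ f b` and `Hf f b` by `S_E8` for `f`, `Hf f`. `Psi (σ ^ 2 ^ a) M (b ^ 2 ^ a)` (induction) and
`M ∣ b ^ 2 ^ a - 1`: `σ ^ 2 ^ a` fixes the generators (`toC (b ^ 2 ^ a * v) / M = toC v / M + toC (..)`, `S_B2`) and
`KQ`. -/
def S_MN1 : Prop :=
  S_B2 → S_E1 → S_E8 → ∀ f N : ℕ, Odd f → 7 ∣ f →
    (∃ a : ℕ, ∀ b : OO, Cop b (f * 2 ^ N) → Hf f b → ((f * 2 ^ N : ℕ) : OO) ∣ b ^ 2 ^ a - 1) →
    (Hf f (-1) ∧ (∀ v, Hf f v → Cop v f) ∧ (∀ v u, Hf f v → Hf f (v + f * u)) ∧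
      ∀ v u, Hf f v → Hf f u → Hf f (v * u)) →
    FiniteDimensional ℚ (MN (f * 2 ^ N)) ∧
    (∀ σ ∈ KQ.fixingSubgroup, ∀ x ∈ MN (f * 2 ^ N), σ x ∈ MN (f * 2 ^ N)) ∧
    KQ ≤ Lf f ∧ Lf f ≤ MN (f * 2 ^ N) ∧
    ∃ a : ℕ, ∀ σ ∈ (Lf f).fixingSubgroup, σ ^ 2 ^ a ∈ (MN (f * 2 ^ N)).fixingSubgroup

/-- (40 lines) **Subfields.** Uses MuZ `S_Res`, `S_Sup`, `S_Fld`, `S_Fwd`, `S_Bwd`.
PROOF. The beginning of the proof of `thmA` in `MuZ/AsmA.lean` (from `intro hX F hF` to the first bullet), copied: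
`XFinGen` of `cyc p L` gives `Finite (VV p (Loc p) (cyc p L).fixingSubgroup)` (`S_Fwd`), `S_Res` with
`U = (cyc p L).fixingSubgroup ≤ W = (cyc p F).fixingSubgroup` and the open subgroup `L.fixingSubgroup` (`opn L`), then
`S_Bwd`. -/
def S_Up : Prop :=
  S_Res → S_Sup → S_Fld → S_Fwd → S_Bwd → ∀ (p : ℕ) [Fact p.Prime] (F L : IntermediateField ℚ Om),
    FiniteDimensional ℚ L → F ≤ L → XFinGen p (cyc p L) → XFinGen p (cyc p F)

/-- (60 lines) **Theorem DI, assembly of the last descent.** The hypotheses are the conclusions of `S_FT`,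
`S_MN1`, `S_Up` and `S_I`.
PROOF. Let `F ≤ TorField` be a number field; `f`, `N` from `hFT`, so `F ≤ MN (f 2 ^ N)`. `XFinGen 2 (cyc 2 (Lf f))` by
`S_I`; `S_JPe` with `k = KQ`, `E = Lf f`, `L = MN (f 2 ^ N)`: `XFinGen 2 (cyc 2 (MN _))`; `hUp` for `F ≤ MN _`. -/
def S_FinD : Prop :=
  S_JPe → ThmA → S_I →
  (∀ F : IntermediateField ℚ Om, FiniteDimensional ℚ F → F ≤ TorField →
    ∃ f N : ℕ, Odd f ∧ 7 ∣ f ∧ F ≤ MN (f * 2 ^ N)) →
  (∀ f N : ℕ, Odd f → 7 ∣ f → FiniteDimensional ℚ (MN (f * 2 ^ N)) ∧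
    (∀ σ ∈ KQ.fixingSubgroup, ∀ x ∈ MN (f * 2 ^ N), σ x ∈ MN (f * 2 ^ N)) ∧
    KQ ≤ Lf f ∧ Lf f ≤ MN (f * 2 ^ N) ∧
    ∃ a : ℕ, ∀ σ ∈ (Lf f).fixingSubgroup, σ ^ 2 ^ a ∈ (MN (f * 2 ^ N)).fixingSubgroup) →
  (∀ (F L : IntermediateField ℚ Om), FiniteDimensional ℚ L → F ≤ L → XFinGen 2 (cyc 2 L) →
    XFinGen 2 (cyc 2 F)) → ThmDI

end Pool.Agent.DI.PI
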