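import Pool.Agent.Lib.DI.PI.SpecD

set_option autoImplicit false

/-!
# DI, PI: module Tra, points over `Om` and points over `ℂ`
-/

open scoped Pointwise

noncomputable section

namespace Pool.Agent.DI.PI

open Pool.Agent.MuZ Pool.Agent.DI

/-- Equal curves have the same points. -/
private theorem Tra_cast {F : Type} [Field F] [DecidableEq F] (W W1 : WeierstrassCurve F)
    (h : W = W1) :
    ∃ e : W.toAffine.Point →+ W1.toAffine.Point,
      ∀ (x y : F) (hn : W.toAffine.Nonsingular x y),
        ∃ hn' : W1.toAffine.Nonsingular x y,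
          e (WeierstrassCurve.Affine.Point.some x y hn) =
            WeierstrassCurve.Affine.Point.some x y hn' := by
  subst h
  exact ⟨AddMonoidHom.id _, fun x y hn => ⟨hn, rfl⟩⟩

/-- The map on points induced by a homomorphism of fields. -/
private theorem Tra_gen {F K : Type} [Field F] [Field K] [DecidableEq F] [DecidableEq K]
    (f : F →+* K) (W : WeierstrassCurve F) (W1 : WeierstrassCurve K) (h : W.map f = W1) :
    ∃ Ψ : W.toAffine.Point →+ W1.toAffine.Point,
      ∀ (x y : F) (hn : W.toAffine.Nonsingular x y),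
        ∃ hn' : W1.toAffine.Nonsingular (f x) (f y),
          Ψ (WeierstrassCurve.Affine.Point.some x y hn) =
            WeierstrassCurve.Affine.Point.some (f x) (f y) hn' := by
  let _ : Algebra F K := f.toAlgebra
  obtain ⟨e1, he1⟩ := Tra_cast W (W.baseChange F) (by
    have h1 : W.map (RingHom.id F) = W := W.map_id
    exact h1.symm)
  obtain ⟨e2, he2⟩ := Tra_cast (W.baseChange K) W1 h
  let g : F →ₐ[F] K := Algebra.ofId F K
  have hg : ∀ x : F, g x = f x := fun x => rfl
  refine ⟨e2.comp ((WeierstrassCurve.Affine.Point.map (W' := W.toAffine) g).comp e1), ?_⟩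
  intro x y hn
  obtain ⟨hn1, e⟩ := he1 x y hn
  obtain ⟨hn2, e'⟩ := he2 (g x) (g y)
    ((WeierstrassCurve.Affine.baseChange_nonsingular (W := W.toAffine) g.injective ..).mpr hn1)
  refine ⟨hn2, ?_⟩
  show e2 (WeierstrassCurve.Affine.Point.map (W' := W.toAffine) g
    (e1 (WeierstrassCurve.Affine.Point.some x y hn))) = _
  rw [e]
  exact e'

open Classical in
theorem pTra : S_Tra := by
  refine Tra_gen io Ecurve EcC ?_
  ext
  · show io 1 = 1
    exact map_one io
  · show io (-1) = -1
    rw [map_neg, map_one]
  · show io 0 = 0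
    exact map_zero io
  · show io (-2) = -2
    rw [map_neg, map_ofNat]
  · show io (-1) = -1
    rw [map_neg, map_one]

end Pool.Agent.DI.PI
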