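import Pool.Agent.Lib.DI.PI.SpecB

/-!
# THEOREM DI, Part I: open subgroups of a procyclic quotient are determined by the index
-/

set_option autoImplicit false

open scoped Pointwise

namespace Pool.Agent.DI.PI

open Pool.Agent.MuZ

/-- In a group acting transitively through the powers of `δ` the powers of `δ` in `A` are given by the index. -/
private theorem Unq_pow {G : Type} [Group G] (Y A : Subgroup G) (δ : G) (hδ : δ ∈ Y)
    (hgen : ∀ y ∈ Y, ∃ j : ℕ, y⁻¹ * δ ^ j ∈ A) (h0 : A.relIndex Y ≠ 0) (j : ℕ) :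
    δ ^ j ∈ A ↔ A.relIndex Y ∣ j := by
  classical
  set B : Subgroup Y := A.subgroupOf Y with hB
  have hidx : A.relIndex Y = Nat.card (Y ⧸ B) := rfl
  have : Finite (Y ⧸ B) := by
    apply Nat.finite_of_card_ne_zero
    rw [← hidx]; exact h0
  have : Fintype (Y ⧸ B) := Fintype.ofFinite _
  set d : Y := ⟨δ, hδ⟩ with hd
  have horb : ∀ x : Y ⧸ B, x ∈ MulAction.orbit (Subgroup.zpowers d) ((1 : Y) : Y ⧸ B) := by
    intro x
    induction x using QuotientGroup.induction_on with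
    | H y =>
      obtain ⟨j, hj⟩ := hgen y y.2
      refine ⟨⟨d ^ j, Subgroup.pow_mem _ (Subgroup.mem_zpowers d) j⟩, ?_⟩
      show (((d ^ j * 1 : Y)) : Y ⧸ B) = (y : Y ⧸ B)
      rw [mul_one, eq_comm, QuotientGroup.eq, hB, Subgroup.mem_subgroupOf]
      simpa [hd] using hj
  have hcard : Function.minimalPeriod (d • ·) ((1 : Y) : Y ⧸ B) = A.relIndex Y := by
    have : Fintype (MulAction.orbit (Subgroup.zpowers d) ((1 : Y) : Y ⧸ B)) := Fintype.ofFinite _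
    rw [MulAction.minimalPeriod_eq_card, hidx, ← Nat.card_eq_fintype_card]
    exact Nat.card_congr (Equiv.subtypeUnivEquiv horb)
  have h1 : d ^ j • ((1 : Y) : Y ⧸ B) = ((1 : Y) : Y ⧸ B) ↔ A.relIndex Y ∣ j := by
    rw [← hcard]
    exact MulAction.pow_smul_eq_iff_minimalPeriod_dvd
  rw [← h1]
  have h2 : d ^ j • ((1 : Y) : Y ⧸ B) = (((d ^ j * 1 : Y)) : Y ⧸ B) := rfl
  rw [h2, mul_one, eq_comm, QuotientGroup.eq, hB, Subgroup.mem_subgroupOf]
  simp [hd]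

/-- One inclusion. -/
private theorem Unq_le {G : Type} [Group G] [TopologicalSpace G] [IsTopologicalGroup G] (p : ℕ)
    (Y N : Subgroup G) (δ : G) (hg : Gq p Y N δ) (A B : Subgroup G) (hAY : A ≤ Y)
    (hA : IsOpen (A : Set G)) (hB : IsOpen (B : Set G)) (hNA : N ≤ A) (hNB : N ≤ B)
    (hAB : A.relIndex Y = B.relIndex Y) (h0 : A.relIndex Y ≠ 0) : A ≤ B := by
  have key : ∀ C : Subgroup G, IsOpen (C : Set G) → N ≤ C → ∀ y ∈ Y, ∃ j : ℕ, y⁻¹ * δ ^ j ∈ C := by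
    intro C hC hNC y hy
    obtain ⟨j, t, ht, hj⟩ := hg.gen y hy ⟨C, hC⟩
    refine ⟨j, ?_⟩
    have h1 : y⁻¹ * δ ^ j * t ∈ C := hj
    exact (Subgroup.mul_mem_cancel_right C (hNC ht)).1 h1
  have hAo : IsOpen ((A ⊓ B : Subgroup G) : Set G) := by
    rw [Subgroup.coe_inf]
    exact hA.inter hB
  intro y hy
  obtain ⟨j, hj⟩ := key (A ⊓ B) hAo (le_inf hNA hNB) y (hAY hy)
  have hjA : δ ^ j ∈ A := (Subgroup.mul_mem_cancel_left A (A.inv_mem hy)).1 hj.1
  have hd : A.relIndex Y ∣ j := (Unq_pow Y A δ hg.mem (key A hA hNA) h0 j).1 hjA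
  have hjB : δ ^ j ∈ B :=
    (Unq_pow Y B δ hg.mem (key B hB hNB) (hAB ▸ h0) j).2 (hAB ▸ hd)
  exact (Subgroup.inv_mem_iff B).1 ((Subgroup.mul_mem_cancel_right B hjB).1 hj.2)

theorem pUnq : S_Unq := by
  intro G _ _ _ p Y N δ hg A B hAY hBY hA hB hNA hNB hAB h0
  exact le_antisymm (Unq_le p Y N δ hg A B hAY hA hB hNA hNB hAB h0)
    (Unq_le p Y N δ hg B A hBY hB hA hNB hNA hAB.symm (hAB ▸ h0))

end Pool.Agent.DI.PI
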