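import Pool.Agent.Lib.DI.PI.SpecD
import Pool.Agent.Lib.MuZ.AsmA

/-!
# THEOREM DI, Part I: subfields
-/

set_option autoImplicit false

open scoped Pointwise

noncomputable section

namespace Pool.Agent.DI.PI

open Pool.Agent.MuZ

theorem pUp : S_Up := by
  intro hRes hSup hFld hFwd hBwd p _ F L hfin hFL hX
  have hFinL : FiniteDimensional ℚ L := hfin
  apply hBwd hSup
  have h1 := hFwd hFld p (cyc p L) hX
  refine hRes Gal(Om/ℚ) p (Loc p) (cyc p L).fixingSubgroup (cyc p F).fixingSubgroup (opn L)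
    ?_ ?_ h1
  · rw [fix_cyc, fix_cyc]
    exact inf_le_inf_right _ (IntermediateField.fixingSubgroup_le hFL)
  · rw [fix_cyc, fix_cyc]
    change _ ⊓ L.fixingSubgroup ≤ _
    exact le_inf inf_le_right (inf_le_left.trans inf_le_right)

end Pool.Agent.DI.PI
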