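import Pool.Agent.Lib.DI.PI.SpecC
import Pool.Agent.Lib.DI.PI.SpecD
import Pool.Agent.Lib.DI.PI.Ele
import Pool.Agent.Lib.DI.PI.Rep
import Pool.Agent.Lib.DI.PI.Rp2
import Pool.Agent.Lib.DI.PI.Alg1
import Pool.Agent.Lib.DI.PI.Fld1
import Pool.Agent.Lib.DI.PI.Rel1
import Pool.Agent.Lib.DI.PI.FinW
import Pool.Agent.Lib.DI.PI.Bnd
import Pool.Agent.Lib.DI.PI.Unq
import Pool.Agent.Lib.DI.PI.JSit
import Pool.Agent.Lib.DI.PI.JLay
import Pool.Agent.Lib.DI.PI.JKF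
import Pool.Agent.Lib.DI.PI.JCh
import Pool.Agent.Lib.DI.PI.JQ0
import Pool.Agent.Lib.DI.PI.JQ
import Pool.Agent.Lib.DI.PI.JPe
import Pool.Agent.Lib.DI.PI.RpS
import Pool.Agent.Lib.DI.PI.JCor
import Pool.Agent.Lib.DI.PI.JMain
import Pool.Agent.Lib.DI.PI.Ar1
import Pool.Agent.Lib.DI.PI.Ar2
import Pool.Agent.Lib.DI.PI.Ar3
import Pool.Agent.Lib.DI.PI.NiL
import Pool.Agent.Lib.DI.PI.Ps
import Pool.Agent.Lib.DI.PI.GalH
import Pool.Agent.Lib.DI.PI.NoC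
import Pool.Agent.Lib.DI.PI.LyH
import Pool.Agent.Lib.DI.PI.LyU
import Pool.Agent.Lib.DI.PI.Tei
import Pool.Agent.Lib.DI.PI.Kap
import Pool.Agent.Lib.DI.PI.ExT
import Pool.Agent.Lib.DI.PI.ExP
import Pool.Agent.Lib.DI.PI.Chi
import Pool.Agent.Lib.DI.PI.MInv
import Pool.Agent.Lib.DI.PI.MNrm
import Pool.Agent.Lib.DI.PI.MNv
import Pool.Agent.Lib.DI.PI.HypC
import Pool.Agent.Lib.DI.PI.LK0
import Pool.Agent.Lib.DI.PI.KQ0
import Pool.Agent.Lib.DI.PI.Phi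
import Pool.Agent.Lib.DI.PI.Tra
import Pool.Agent.Lib.DI.PI.Cmp
import Pool.Agent.Lib.DI.PI.FT
import Pool.Agent.Lib.DI.PI.MN1
import Pool.Agent.Lib.DI.PI.Up
import Pool.Agent.Lib.DI.PI.FinD
import Pool.Agent.Lib.FW.G.Kum
import Pool.Agent.Lib.FW.G.Ine
import Pool.Agent.Lib.FW.G.Rm
import Pool.Agent.Lib.FW.G.Sel
import Pool.Agent.Lib.FW.G.KF
import Pool.Agent.Lib.MuZ.CAsm2
import Pool.Agent.Lib.MuZ.Pc
import Pool.Agent.Lib.MuZ.Sub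
import Pool.Agent.Lib.MuZ.PL
import Pool.Agent.Lib.MuZ.Val
import Pool.Agent.Lib.MuZ.Lev
import Pool.Agent.Lib.MuZ.Semi
import Pool.Agent.Lib.MuZ.Uni
import Pool.Agent.Lib.MuZ.CocX
import Pool.Agent.Lib.MuZ.Op
import Pool.Agent.Lib.MuZ.Dim
import Pool.Agent.Lib.MuZ.Lin
import Pool.Agent.Lib.MuZ.LocD
import Pool.Agent.Lib.MuZ.LocE
import Pool.Agent.Lib.MuZ.EB
import Pool.Agent.Lib.MuZ.Dev
import Pool.Agent.Lib.MuZ.ExtC
import Pool.Agent.Lib.MuZ.FwdC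
import Pool.Agent.Lib.MuZ.TFix
import Pool.Agent.Lib.MuZ.QZ
import Pool.Agent.Lib.MuZ.InT
import Pool.Agent.Lib.MuZ.NF
import Pool.Agent.Lib.MuZ.Lay
import Pool.Agent.Lib.MuZ.Tr
import Pool.Agent.Lib.MuZ.LK
import Pool.Agent.Lib.MuZ.AsmA
import Pool.Agent.Lib.MuZ.Res
import Pool.Agent.Lib.MuZ.Ext
import Pool.Agent.Lib.MuZ.Alg
import Pool.Agent.Lib.MuZ.Cliff
import Pool.Agent.Lib.MuZ.Crit
import Pool.Agent.Lib.MuZ.Conj
import Pool.Agent.Lib.MuZ.Ram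
import Pool.Agent.Lib.MuZ.Frob
import Pool.Agent.Lib.MuZ.Pow
import Pool.Agent.Lib.MuZ.Tot
import Pool.Agent.Lib.MuZ.Orb
import Pool.Agent.Lib.MuZ.Sup
import Pool.Agent.Lib.MuZ.Fld
import Pool.Agent.Lib.MuZ.Fwd
import Pool.Agent.Lib.MuZ.Bwd

/-!
# THEOREM DI, Part I: assembly

`sI_of`: the statement for the fields `Lf f`; `thmDI_of`: Theorem DI, from the statements of the other
parts (`DI/Iface.lean`).
-/

open scoped Pointwise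

noncomputable section

namespace Pool.Agent.DI.PI

open Pool.Agent.MuZ Pool.Agent.DI

/-- The subfield criterion. -/
theorem Top_A : ThmA :=
  thmA res ext alg cliff crit conj ram frob pow tot orb sup fld fwd bwd

/-- The finite level criterion. -/
theorem Top_C : ThmC :=
  thmC c_Pc c_Sub c_PL c_Val c_Lev c_Semi c_Uni c_CocX c_Op c_Dim c_Lin c_LocD c_LocE c_EB c_Dev
    c_ExtC c_FwdC c_TFix c_QZ c_InT c_NF c_Lay c_Tr c_LK conj ram frob pow tot orb sup fld fwd bwd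

/-- Finitely many characters unramified outside `p`. -/
theorem Top_KF : ∀ (p : ℕ) [Fact p.Prime] (L : IntermediateField ℚ Om), FiniteDimensional ℚ L →
    Finite (VV p (Pool.Agent.FW.LocO p) L.fixingSubgroup) :=
  FW.tKF FW.tKum FW.tIne FW.tRm FW.tSel res

/-- The field of rational numbers. -/
theorem Top_Q : XFinGen 2 (cyc 2 (⊥ : IntermediateField ℚ Om)) :=
  pJQ Top_C (pJQ0 FW.tKum FW.tIne FW.tRm tot)

/-- The layers. -/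
theorem Top_Ly (B2 : S_B2) (A2 : S_A2) (E1 : S_E1) (E6 : S_E6) (E7 : S_E7) (E8 : S_E8) :
    ∀ (f : ℕ) (H : OO → Prop), Odd f → Nice f H → ∀ n : ℕ, Layer 2 (FixH f H) n (LyH f n H) :=
  pLyH pNoC c_TFix E6 A2 pGalH pNiL pPs pAr1 pAr2 B2 E1 E7 E8 c_Lay

/-- **The result for the fields `Lf f`**, from the statements of the other parts. -/
theorem sI_of (B2 : S_B2) (A1 : S_A1) (A2 : S_A2) (E1 : S_E1) (E6 : S_E6) (E7 : S_E7) (E8 : S_E8)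
    (E9 : S_E9) (G3 : S_G3) (H : S_H) (G : S_G) : S_I := by
  intro f hf h7
  have hly := Top_Ly B2 A2 E1 E6 E7 E8
  have hlu : ∀ k : IntermediateField ℚ Om, FiniteDimensional ℚ k →
      ∀ (n : ℕ) (F F' : IntermediateField ℚ Om), Layer 2 k n F → Layer 2 k n F' → F = F' :=
    pLyU pUnq c_QZ c_Sub c_PL c_Pc c_TFix c_NF c_Lay 2
  have hC : HypI 2 KQ (Lf f) :=
    pHypC pExP pChi pExT pMInv pMNrm pMNv pKap pTei pPs pGalH pNiL pAr1 pAr2 pAr3 A1 B2 E1 E7 E8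
      G3 H G hly hlu f hf h7
  obtain ⟨h1, h2, h3, h4, h5⟩ := pLK0 pGalH pPs pAr1 pAr3 B2 E1 E8 E9 f hf h7
  obtain ⟨-, h6⟩ := pKQ0 pJPe Top_A Top_Q
  exact pJMain Top_C pJSit pJLay pJKF pJCor pRel1 pFinW pBnd pUnq pEle pRep pRp2 pAlg1 pFld1 pRpS
    pJCh c_QZ c_Sub c_PL c_Pc c_TFix c_NF c_Val c_Lev c_Semi c_Uni c_EB c_Lay c_Tr c_LK conj c_InT
    ram frob pow tot orb Top_KF 2 KQ (Lf f) h1 h2 h3 h4 h5 hC h6

/-- **Theorem DI**, from the statements of the other parts. -/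
theorem thmDI_of (B1 : S_B1) (B2 : S_B2) (B3 : S_B3) (B4 : S_B4) (B5 : S_B5) (A1 : S_A1)
    (A2 : S_A2) (E1 : S_E1) (E6 : S_E6) (E7 : S_E7) (E8 : S_E8) (E9 : S_E9) (G3 : S_G3) (H : S_H)
    (G : S_G) : ThmDI := by
  have hI : S_I := sI_of B2 A1 A2 E1 E6 E7 E8 E9 G3 H G
  refine pFinD pJPe Top_A hI (pFT (pCmp (pPhi B1 B2 B3 B4 B5) pTra B3)) ?_
    (pUp res sup fld fwd bwd 2)
  intro f N hf h7
  obtain ⟨-, h2, h3, -⟩ := pAr3 pAr1 f hf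
  exact pMN1 B2 E1 E8 f N hf h7 (h2 N) ⟨h3.neg, h3.cop, h3.per, h3.mul⟩

end Pool.Agent.DI.PI
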